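import Pool.Agent.MP6c9f91.Defs

/-!
# P8: the two forms of measure equivalence, the full group lemma, orbit equivalence implies
measure equivalence
-/

open MeasureTheory Monoid
open scoped Pointwise

namespace MP6c9f91

universe u v w

/-- pmp and free action -/
structure IsFreePmp (G : Type u) (X : Type v) [Group G] [MulAction G X] [MeasurableSpace X]
    (μ : Measure X) : Prop where
  mp : ∀ g : G, MeasurePreserving (fun x : X => g • x) μ μ
  free : ∀ (g : G) (x : X), g • x = x → g = 1

/-! ### Restriction to an invariant measurable set -/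

/-- The action on an invariant subset. -/
@[reducible] def subAction {Γ : Type u} {Ω : Type v} [Group Γ] [MulAction Γ Ω] (S : Set Ω)
    (hS : ∀ (g : Γ) (x : Ω), x ∈ S → g • x ∈ S) : MulAction Γ S where
  smul g x := ⟨g • x.1, hS g x x.2⟩
  one_smul _ := Subtype.ext (one_smul _ _)
  mul_smul _ _ _ := Subtype.ext (mul_smul _ _ _)

theorem measurePreserving_sub {Ω : Type v} [MeasurableSpace Ω] {m : Measure Ω} {S : Set Ω}
    (hSm : MeasurableSet S) {T : Ω → Ω} (hT : MeasurePreserving T m m)
    (hTS : ∀ x, x ∈ S ↔ T x ∈ S) :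
    MeasurePreserving (fun x : S => (⟨T x.1, (hTS x.1).1 x.2⟩ : S))
      (m.comap (Subtype.val : S → Ω)) (m.comap (Subtype.val : S → Ω)) := by
  have hme : MeasurableEmbedding (Subtype.val : S → Ω) := MeasurableEmbedding.subtype_coe hSm
  have hmeas : Measurable (fun x : S => (⟨T x.1, (hTS x.1).1 x.2⟩ : S)) :=
    (hT.measurable.comp measurable_subtype_coe).subtype_mk
  refine ⟨hmeas, ?_⟩
  ext E hE
  rw [Measure.map_apply hmeas hE, hme.comap_apply, hme.comap_apply]
  have h1 : Subtype.val '' ((fun x : S => (⟨T x.1, (hTS x.1).1 x.2⟩ : S)) ⁻¹' E)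
      = T ⁻¹' (Subtype.val '' E) := by
    ext x
    constructor
    · rintro ⟨y, hy, rfl⟩
      exact ⟨_, hy, rfl⟩
    · rintro ⟨y, hy, hyx⟩
      have hx : x ∈ S := (hTS x).2 (hyx ▸ y.2)
      refine ⟨⟨x, hx⟩, ?_, rfl⟩
      have : (⟨T x, (hTS x).1 hx⟩ : S) = y := Subtype.ext hyx.symm
      show (⟨T x, (hTS x).1 hx⟩ : S) ∈ E
      rw [this]
      exact hy
  rw [h1, hT.measure_preimage (hme.measurableSet_image.2 hE).nullMeasurableSet]

theorem sigmaFinite_sub {Ω : Type v} [MeasurableSpace Ω] {m : Measure Ω} [SigmaFinite m]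
    {S : Set Ω} (hSm : MeasurableSet S) : SigmaFinite (m.comap (Subtype.val : S → Ω)) := by
  have hme : MeasurableEmbedding (Subtype.val : S → Ω) := MeasurableEmbedding.subtype_coe hSm
  refine ⟨⟨{ set := fun i => Subtype.val ⁻¹' spanningSets m i, set_mem := fun _ => trivial,
             finite := fun i => ?_, spanning := ?_ }⟩⟩
  · rw [hme.comap_apply]
    exact (measure_mono (Set.image_preimage_subset _ _)).trans_lt (measure_spanningSets_lt_top m i)
  · rw [← Set.preimage_iUnion, iUnion_spanningSets, Set.preimage_univ]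

/-- From an almost everywhere fundamental domain to a measurable set which meets almost every
orbit exactly once. -/
theorem exists_unique_ae {Γ : Type u} {Ω : Type v} [Group Γ] [Countable Γ] [MulAction Γ Ω]
    [MeasurableSpace Ω] {m : Measure Ω}
    (hΓ : ∀ g : Γ, MeasurePreserving (fun x : Ω => g • x) m m) {Y : Set Ω}
    (hY : IsFundamentalDomain Γ Y m) (hYm : m Y < ⊤) :
    ∃ Y' : Set Ω, MeasurableSet Y' ∧ m Y' < ⊤ ∧ ∀ᵐ x ∂m, ∃! g : Γ, g • x ∈ Y' := by
  obtain ⟨Y', hsub, hY'm, hae⟩ := hY.nullMeasurableSet.exists_measurable_subset_ae_eq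
  refine ⟨Y', hY'm, (measure_mono hsub).trans_lt hYm, ?_⟩
  have h1 : ∀ᵐ x ∂m, ∀ g : Γ, (g • x ∈ Y' ↔ g • x ∈ Y) := by
    rw [ae_all_iff]
    intro g
    have h2 : ∀ᵐ x ∂m, (x ∈ Y' ↔ x ∈ Y) := by
      filter_upwards [hae] with x hx
      exact iff_of_eq hx
    exact (hΓ g).quasiMeasurePreserving.ae h2
  have h3 : ∀ᵐ x ∂m, ∀ g g' : Γ, g ≠ g' → ¬ (g • x ∈ Y ∧ g' • x ∈ Y) := by
    rw [ae_all_iff]
    intro g
    rw [ae_all_iff]
    intro g'
    by_cases hgg : g = g'
    · exact Filter.Eventually.of_forall fun x h => absurd hgg h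
    · have h4 := hY.aedisjoint (fun h => hgg (inv_injective h) : g⁻¹ ≠ g'⁻¹)
      have h5 : m ((g⁻¹ • Y) ∩ (g'⁻¹ • Y)) = 0 := h4
      have h6 : ∀ᵐ x ∂m, x ∉ (g⁻¹ • Y) ∩ (g'⁻¹ • Y) := by
        rw [ae_iff]
        simpa using h5
      filter_upwards [h6] with x hx _ hx2
      apply hx
      rw [Set.mem_inter_iff, Set.mem_smul_set_iff_inv_smul_mem,
        Set.mem_smul_set_iff_inv_smul_mem, inv_inv, inv_inv]
      exact hx2
  filter_upwards [h1, h3, hY.ae_covers] with x hx1 hx3 hx4
  obtain ⟨g, hg⟩ := hx4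
  refine ⟨g, (hx1 g).2 hg, ?_⟩
  intro g' hg'
  by_contra hne
  exact hx3 g' g hne ⟨(hx1 g').1 hg', hg⟩

/-- Restrict to the conull invariant Borel set of good points. -/
theorem MeasureEquiv.exact {Γ : Type u} {Λ : Type v} [Group Γ] [Group Λ] [Countable Γ]
    [Countable Λ] (h : MeasureEquiv Γ Λ) : MEExact Γ Λ := by
  obtain ⟨Ω, mΩ, sΩ, m, aΓ, aΛ, hsf, hm0, hmΓ, hmΛ, hcomm, -, -, ⟨Y, hY, hYf⟩, ⟨Z, hZ, hZf⟩⟩ := h
  obtain ⟨Y', hY'm, hY'f, hY'⟩ := exists_unique_ae hmΓ hY hYf
  obtain ⟨Z', hZ'm, hZ'f, hZ'⟩ := exists_unique_ae hmΛ hZ hZf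
  have hgood : ∀ᵐ x ∂m, (∃! g : Γ, g • x ∈ Y') ∧ (∃! l : Λ, l • x ∈ Z') := hY'.and hZ'
  obtain ⟨t, htsub, htm, htnull⟩ := exists_measurable_superset_of_null (ae_iff.1 hgood)
  set S : Set Ω := {x | ∀ (g : Γ) (l : Λ), g • l • x ∉ t} with hSdef
  have hSm : MeasurableSet S := by
    have : S = ⋂ (g : Γ) (l : Λ), (fun x : Ω => g • l • x) ⁻¹' tᶜ := by
      ext x; simp [hSdef]
    rw [this]
    refine MeasurableSet.iInter fun g => MeasurableSet.iInter fun l => ?_
    exact ((hmΓ g).measurable.comp (hmΛ l).measurable) htm.compl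
  have hSnull : m Sᶜ = 0 := by
    have : ∀ᵐ x ∂m, x ∈ S := by
      show ∀ᵐ x ∂m, ∀ (g : Γ) (l : Λ), g • l • x ∉ t
      rw [ae_all_iff]
      intro g
      rw [ae_all_iff]
      intro l
      have h2 : ∀ᵐ x ∂m, x ∉ t := by
        rw [ae_iff]; simpa using htnull
      exact ((hmΓ g).comp (hmΛ l)).quasiMeasurePreserving.ae h2
    exact this
  have hSΓ : ∀ (g : Γ) (x : Ω), x ∈ S → g • x ∈ S := by
    intro g x hx g' l
    rw [← hcomm g l x, ← mul_smul]
    exact hx (g' * g) l
  have hSΛ : ∀ (l : Λ) (x : Ω), x ∈ S → l • x ∈ S := by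
    intro l x hx g l'
    rw [← mul_smul l' l]
    exact hx g (l' * l)
  have hSΓ' : ∀ (g : Γ) (x : Ω), x ∈ S ↔ g • x ∈ S := fun g x =>
    ⟨hSΓ g x, fun h => by simpa using hSΓ g⁻¹ _ h⟩
  have hSΛ' : ∀ (l : Λ) (x : Ω), x ∈ S ↔ l • x ∈ S := fun l x =>
    ⟨hSΛ l x, fun h => by simpa using hSΛ l⁻¹ _ h⟩
  have hS1 : ∀ x ∈ S, (∃! g : Γ, g • x ∈ Y') ∧ (∃! l : Λ, l • x ∈ Z') := by
    intro x hx
    by_contra hc
    have := hx 1 1
    rw [one_smul, one_smul] at this
    exact this (htsub hc)
  have hme : MeasurableEmbedding (Subtype.val : S → Ω) := MeasurableEmbedding.subtype_coe hSm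
  let i1 : MulAction Γ S := subAction S hSΓ
  let i2 : MulAction Λ S := subAction S hSΛ
  refine ⟨S, inferInstance, hSm.standardBorel, m.comap Subtype.val, i1, i2, ?_, ?_, ?_, ?_, ?_,
    ?_, ?_⟩
  · exact sigmaFinite_sub hSm
  · intro h0
    apply hm0
    have h1 : (m.comap (Subtype.val : S → Ω)) Set.univ = 0 := by rw [h0]; rfl
    rw [hme.comap_apply, Set.image_univ, Subtype.range_coe] at h1
    rw [← Measure.measure_univ_eq_zero]
    rw [← Set.union_compl_self S]
    exact measure_union_null h1 hSnull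
  · intro g
    exact measurePreserving_sub hSm (hmΓ g) (hSΓ' g)
  · intro l
    exact measurePreserving_sub hSm (hmΛ l) (hSΛ' l)
  · intro g l x
    exact Subtype.ext (hcomm g l x.1)
  · refine ⟨Subtype.val ⁻¹' Y', measurable_subtype_coe hY'm, ?_, ?_⟩
    · rw [hme.comap_apply]
      exact (measure_mono (Set.image_preimage_subset _ _)).trans_lt hY'f
    · intro x
      exact (hS1 x.1 x.2).1
  · refine ⟨Subtype.val ⁻¹' Z', measurable_subtype_coe hZ'm, ?_, ?_⟩
    · rw [hme.comap_apply]
      exact (measure_mono (Set.image_preimage_subset _ _)).trans_lt hZ'f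
    · intro x
      exact (hS1 x.1 x.2).2

/-- An action with an exact fundamental domain is free. -/
theorem free_of_unique {Γ : Type u} {Ω : Type v} [Group Γ] [MulAction Γ Ω] {Y : Set Ω}
    (hY : ∀ x : Ω, ∃! g : Γ, g • x ∈ Y) (g : Γ) (x : Ω) (hg : g • x = x) : g = 1 := by
  obtain ⟨k, hk, huniq⟩ := hY x
  have h1 : k * g = k := huniq (k * g) (by
    show (k * g) • x ∈ Y
    rw [mul_smul, hg]; exact hk)
  simpa using h1

theorem MEExact.measureEquiv {Γ : Type u} {Λ : Type v} [Group Γ] [Group Λ] [Countable Γ]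
    [Countable Λ] (h : MEExact Γ Λ) : MeasureEquiv Γ Λ := by
  obtain ⟨Ω, mΩ, sΩ, m, aΓ, aΛ, hsf, hm0, hmΓ, hmΛ, hcomm, ⟨Y, hYm, hYf, hY⟩, ⟨Z, hZm, hZf, hZ⟩⟩ :=
    h
  refine ⟨Ω, mΩ, sΩ, m, aΓ, aΛ, hsf, hm0, hmΓ, hmΛ, hcomm, ?_, ?_, ⟨Y, ?_, hYf⟩, ⟨Z, ?_, hZf⟩⟩
  · intro g hg
    exact Filter.Eventually.of_forall fun x hx => hg (free_of_unique hY g x hx)
  · intro l hl
    exact Filter.Eventually.of_forall fun x hx => hl (free_of_unique hZ l x hx)
  · exact IsFundamentalDomain.mk' hYm.nullMeasurableSet hY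
  · exact IsFundamentalDomain.mk' hZm.nullMeasurableSet hZ

/-- If the measurable isomorphism `T` maps every point into its `G`-orbit, where `G` acts
measure-preservingly, then `T` is measure preserving (full group lemma). -/
theorem measurePreserving_of_orbit {G : Type u} {X : Type v} [Group G] [Countable G]
    [MulAction G X] [MeasurableSpace X] [StandardBorelSpace X] (μ : Measure X) [SigmaFinite μ]
    (hG : ∀ g : G, MeasurePreserving (fun x : X => g • x) μ μ) (T : X ≃ᵐ X)
    (hT : ∀ x, ∃ g : G, T x = g • x) : MeasurePreserving T μ μ := by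
  classical
  refine ⟨T.measurable, ?_⟩
  obtain ⟨f, hf⟩ := exists_surjective_nat G
  -- the pieces
  let A : ℕ → Set X := fun n => {x | T x = f n • x}
  have hA : ∀ n, MeasurableSet (A n) := fun n =>
    measurableSet_eq_fun T.measurable (hG (f n)).measurable
  let B : ℕ → Set X := disjointed A
  have hB : ∀ n, MeasurableSet (B n) := fun n => MeasurableSet.disjointed hA n
  have hBsub : ∀ n, B n ⊆ A n := fun n => disjointed_subset A n
  have hBdisj : Pairwise (Function.onFun Disjoint B) := disjoint_disjointed A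
  have hBun : ⋃ n, B n = Set.univ := by
    rw [iUnion_disjointed]
    rw [Set.eq_univ_iff_forall]
    intro x
    obtain ⟨g, hg⟩ := hT x
    obtain ⟨n, rfl⟩ := hf g
    exact Set.mem_iUnion.2 ⟨n, hg⟩
  have hTB : ∀ n, MeasurableSet (T '' B n) := fun n => by
    rw [MeasurableEquiv.image_eq_preimage_symm]
    exact T.symm.measurable (hB n)
  ext E hE
  rw [Measure.map_apply T.measurable hE]
  have e1 : μ (T ⁻¹' E) = ∑' n, μ (T ⁻¹' E ∩ B n) := by
    rw [← measure_iUnion]
    · rw [← Set.inter_iUnion, hBun, Set.inter_univ]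
    · intro i j hij
      exact (hBdisj hij).mono Set.inter_subset_right Set.inter_subset_right
    · intro n
      exact (T.measurable hE).inter (hB n)
  have e2 : μ E = ∑' n, μ (E ∩ T '' B n) := by
    rw [← measure_iUnion]
    · rw [← Set.inter_iUnion, ← Set.image_iUnion, hBun, Set.image_univ,
        T.surjective.range_eq, Set.inter_univ]
    · intro i j hij
      refine Disjoint.mono Set.inter_subset_right Set.inter_subset_right ?_
      exact (Set.disjoint_image_iff T.injective).2 (hBdisj hij)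
    · intro n
      exact hE.inter (hTB n)
  rw [e1, e2]
  congr 1
  funext n
  -- on `B n`, `T` coincides with `f n`
  have h1 : T ⁻¹' E ∩ B n = (fun x : X => f n • x) ⁻¹' (E ∩ T '' B n) ∩ B n := by
    ext x
    constructor
    · rintro ⟨hx1, hx2⟩
      have := hBsub n hx2
      refine ⟨⟨?_, ?_⟩, hx2⟩
      · show f n • x ∈ E
        rw [← (this : T x = f n • x)]
        exact hx1
      · exact ⟨x, hx2, this⟩
    · rintro ⟨⟨hx1, -⟩, hx2⟩
      have := hBsub n hx2
      refine ⟨?_, hx2⟩
      show T x ∈ E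
      rw [(this : T x = f n • x)]
      exact hx1
  have h2 : (fun x : X => f n • x) ⁻¹' (E ∩ T '' B n) ∩ B n
      = (fun x : X => f n • x) ⁻¹' (E ∩ T '' B n) := by
    rw [Set.inter_eq_left]
    rintro x ⟨-, y, hy, hyx⟩
    have hy' : T y = f n • y := hBsub n hy
    rw [hy'] at hyx
    have : y = x := MulAction.injective (f n) hyx
    exact this ▸ hy
  rw [h1, h2, (hG (f n)).measure_preimage (hE.inter (hTB n)).nullMeasurableSet]

/-- The product `X × G` as the coupling space (a separate type, so that no instance of `Prod` for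
actions interferes). -/
def Coup (X G : Type) : Type := X × G

instance (X G : Type) [MeasurableSpace X] [MeasurableSpace G] : MeasurableSpace (Coup X G) :=
  inferInstanceAs (MeasurableSpace (X × G))

instance (X G : Type) [MeasurableSpace X] [MeasurableSpace G] [StandardBorelSpace X]
    [StandardBorelSpace G] : StandardBorelSpace (Coup X G) :=
  inferInstanceAs (StandardBorelSpace (X × G))

/-- Orbit equivalence implies measure equivalence (coupling Ω = X × G,
h•(x,g) = (h x, α(h,x) g), g'•(x,g) = (x, g g'⁻¹); X × {1} is a fundamental domain for both). -/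
theorem me_of_oe {G H : Type} [Group G] [Group H] [Countable G] [Countable H]
    (X : Type) [MeasurableSpace X] [StandardBorelSpace X] (μ : Measure X) [IsProbabilityMeasure μ]
    [MulAction G X] [MulAction H X] (hG : IsFreePmp G X μ)
    (hHm : ∀ h : H, Measurable (fun x : X => h • x)) (hHf : ∀ (h : H) (x : X), h • x = x → h = 1)
    (horb : ∀ x y : X, (∃ g : G, g • x = y) ↔ ∃ h : H, h • x = y) : MEExact H G := by
  classical
  let _ : MeasurableSpace G := ⊤
  have : DiscreteMeasurableSpace G := ⟨fun _ => trivial⟩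
  -- H preserves μ
  have hHmp : ∀ h : H, MeasurePreserving (fun x : X => h • x) μ μ := by
    intro h
    let T : X ≃ᵐ X :=
      { toFun := fun x => h • x
        invFun := fun x => h⁻¹ • x
        left_inv := fun x => by simp
        right_inv := fun x => by simp
        measurable_toFun := hHm h
        measurable_invFun := hHm h⁻¹ }
    have := measurePreserving_of_orbit (G := G) μ hG.mp T (fun x => by
      obtain ⟨g, hg⟩ := (horb x (h • x)).2 ⟨h, rfl⟩
      exact ⟨g, hg.symm⟩)
    exact this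
  -- the cocycle
  have hα : ∀ (h : H) (x : X), ∃ g : G, g • x = h • x := fun h x =>
    (horb x (h • x)).2 ⟨h, rfl⟩
  choose α hα using hα
  have hGinj : ∀ (g g' : G) (x : X), g • x = g' • x → g = g' := by
    intro g g' x hgg
    have h1 : (g'⁻¹ * g) • x = x := by
      rw [mul_smul, hgg, inv_smul_smul]
    have h2 := hG.free _ _ h1
    calc g = g' * (g'⁻¹ * g) := by group
      _ = g' := by rw [h2, mul_one]
  have hHinj : ∀ (g g' : H) (x : X), g • x = g' • x → g = g' := by
    intro g g' x hgg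
    have h1 : (g'⁻¹ * g) • x = x := by
      rw [mul_smul, hgg, inv_smul_smul]
    have h2 := hHf _ _ h1
    calc g = g' * (g'⁻¹ * g) := by group
      _ = g' := by rw [h2, mul_one]
  have hαone : ∀ x, α 1 x = 1 := fun x => hGinj _ _ x (by rw [hα, one_smul, one_smul])
  have hαmul : ∀ h₁ h₂ x, α (h₁ * h₂) x = α h₁ (h₂ • x) * α h₂ x := by
    intro h₁ h₂ x
    apply hGinj _ _ x
    rw [hα, mul_smul (α h₁ (h₂ • x)), hα h₂ x, hα, mul_smul]
  have hαm : ∀ h : H, Measurable (fun x => α h x) := by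
    intro h
    refine measurable_to_countable' fun g => ?_
    have : (fun x => α h x) ⁻¹' {g} = {x | g • x = h • x} := by
      ext x
      constructor
      · intro hx
        have hx' : α h x = g := hx
        show g • x = h • x
        rw [← hx', hα]
      · intro hx
        exact hGinj _ _ x (by rw [hα]; exact hx.symm)
    rw [this]
    exact measurableSet_eq_fun (hG.mp g).measurable (hHm h)
  let aH : MulAction H (Coup X G) :=
    { smul := fun h p => (h • p.1, α h p.1 * p.2)
      one_smul := fun p => by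
        show ((1 : H) • p.1, α 1 p.1 * p.2) = p
        rw [one_smul, hαone, one_mul]
        rfl
      mul_smul := fun h₁ h₂ p => by
        show ((h₁ * h₂) • p.1, α (h₁ * h₂) p.1 * p.2) =
          (h₁ • h₂ • p.1, α h₁ (h₂ • p.1) * (α h₂ p.1 * p.2))
        rw [mul_smul, hαmul, mul_assoc] }
  let aG : MulAction G (Coup X G) :=
    { smul := fun g p => (p.1, p.2 * g⁻¹)
      one_smul := fun p => by
        show (p.1, p.2 * (1 : G)⁻¹) = p
        rw [inv_one, mul_one]
        rfl
      mul_smul := fun g₁ g₂ p => by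
        show (p.1, p.2 * (g₁ * g₂)⁻¹) = (p.1, p.2 * g₂⁻¹ * g₁⁻¹)
        rw [mul_inv_rev, mul_assoc] }
  have hsH : ∀ (h : H) (p : Coup X G), h • p = (h • p.1, α h p.1 * p.2) := fun _ _ => rfl
  have hsG : ∀ (g : G) (p : Coup X G), g • p = (p.1, p.2 * g⁻¹) := fun _ _ => rfl
  have hmulL : ∀ g : G, MeasurePreserving (fun x : G => g * x) (Measure.count : Measure G)
      Measure.count := by
    intro g
    exact measurePreserving_mul_left Measure.count g
  have hmulR : ∀ g : G, MeasurePreserving (fun x : G => x * g) (Measure.count : Measure G)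
      Measure.count := by
    intro g
    exact measurePreserving_mul_right Measure.count g
  have hfin : (μ.prod (Measure.count : Measure G)) (Set.univ ×ˢ {1} : Set (X × G)) < ⊤ := by
    rw [Measure.prod_prod]
    simp
  refine ⟨Coup X G, inferInstance, inferInstance, μ.prod (Measure.count : Measure G), aH, aG,
    inferInstanceAs (SigmaFinite (μ.prod (Measure.count : Measure G))), ?_, ?_,
    ?_, ?_, ?_, ?_⟩
  · intro h0
    have h1 : (μ.prod (Measure.count : Measure G)) (Set.univ ×ˢ {1}) = 0 := by rw [h0]; rfl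
    rw [Measure.prod_prod] at h1
    simp at h1
  · intro h
    show MeasurePreserving (fun p : X × G => (h • p.1, α h p.1 * p.2)) _ _
    refine (hHmp h).skew_product (g := fun x y => α h x * y) ?_ ?_
    · exact (Measurable.of_discrete (f := fun p : G × G => p.1 * p.2)).comp
        (((hαm h).comp measurable_fst).prodMk measurable_snd)
    · exact Filter.Eventually.of_forall fun x => (hmulL (α h x)).map_eq
  · intro g
    show MeasurePreserving (fun p : X × G => (p.1, p.2 * g⁻¹)) _ _
    exact (MeasurePreserving.id μ).prod (hmulR g⁻¹)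
  · intro h g p
    show ((h • p.1 : X), α h p.1 * (p.2 * g⁻¹)) = ((h • p.1 : X), α h p.1 * p.2 * g⁻¹)
    rw [mul_assoc]
  · refine ⟨(Set.univ ×ˢ {1} : Set (X × G)),
      MeasurableSet.univ.prod (MeasurableSet.of_discrete), hfin, ?_⟩
    · intro p
      obtain ⟨h, hh⟩ := (horb p.1 (p.2⁻¹ • p.1)).1 ⟨p.2⁻¹, rfl⟩
      refine ⟨h, ?_, ?_⟩
      · show h • p ∈ Set.univ ×ˢ {1}
        rw [hsH]
        refine ⟨trivial, ?_⟩
        show α h p.1 * p.2 = 1
        have : α h p.1 = p.2⁻¹ := hGinj _ _ p.1 (by rw [hα, hh])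
        rw [this, inv_mul_cancel]
      · intro h' hh'
        have h1 : α h' p.1 * p.2 = 1 := hh'.2
        have h2 : α h' p.1 = p.2⁻¹ := eq_inv_of_mul_eq_one_left h1
        apply hHinj _ _ p.1
        rw [← hα, h2, hh]
  · refine ⟨(Set.univ ×ˢ {1} : Set (X × G)),
      MeasurableSet.univ.prod (MeasurableSet.of_discrete), hfin, ?_⟩
    · intro p
      refine ⟨p.2, ?_, ?_⟩
      · show p.2 • p ∈ Set.univ ×ˢ {1}
        rw [hsG]
        exact ⟨trivial, by simp⟩
      · intro g hg
        have h1 : p.2 * g⁻¹ = 1 := hg.2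
        exact (mul_inv_eq_one.1 h1).symm

end MP6c9f91
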