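import Pool.Agent.MP6c9f91.Defs

/-!
# Weighted walls of a free group
-/

open MeasureTheory Monoid

namespace MP6c9f91

namespace Walls

open Classical in
/-- The first letter of the reduced word. -/
noncomputable def hd {α : Type} (g : FreeGroup α) : Option (α × Bool) := g.toWord.head?

/-- The element given by one letter. -/
def lt {α : Type} (x : α × Bool) : FreeGroup α := FreeGroup.mk [x]

/-- The inverse letter. -/
def iv {α : Type} (x : α × Bool) : α × Bool := (x.1, !x.2)

variable {α : Type}

lemma iv_iv (x : α × Bool) : iv (iv x) = x := by simp [iv]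

lemma iv_ne (x : α × Bool) : iv x ≠ x := by
  rcases x with ⟨a, b⟩
  cases b <;> simp [iv]

lemma lt_inv (x : α × Bool) : (lt x)⁻¹ = lt (iv x) := by
  simp [lt, iv, FreeGroup.inv_mk, FreeGroup.invRev]

lemma hd_one : hd (1 : FreeGroup α) = none := by
  classical
  simp [hd]

lemma hd_lt (x : α × Bool) : hd (lt x) = some x := by
  classical
  simp [hd, lt, FreeGroup.toWord_mk, FreeGroup.reduce]

lemma hd_eq_none {g : FreeGroup α} (h : hd g = none) : g = 1 := by
  classical
  rw [hd, List.head?_eq_none_iff] at h
  exact FreeGroup.toWord_eq_nil_iff.1 h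

open Classical in
lemma toWord_lt_mul {x : α × Bool} {g : FreeGroup α} (h : hd g ≠ some (iv x)) :
    (lt x * g).toWord = x :: g.toWord := by
  have h1 : lt x * g = FreeGroup.mk (x :: g.toWord) := by
    conv_lhs => rw [← FreeGroup.mk_toWord (x := g)]
    rw [lt, FreeGroup.mul_mk]; rfl
  rw [h1, FreeGroup.toWord_mk, FreeGroup.reduce.cons, FreeGroup.reduce_toWord]
  unfold hd at h
  revert h
  cases g.toWord with
  | nil => intro _; rfl
  | cons y t =>
    intro h
    simp only [List.head?_cons, ne_eq, Option.some.injEq] at h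
    simp only
    rw [if_neg]
    rintro ⟨h2, h3⟩
    apply h
    rcases x with ⟨a, b⟩
    rcases y with ⟨a', b'⟩
    simp only [iv, Prod.mk.injEq] at *
    refine ⟨h2.symm, ?_⟩
    rw [h3, Bool.not_not]

lemma hd_lt_mul {x : α × Bool} {g : FreeGroup α} (h : hd g ≠ some (iv x)) :
    hd (lt x * g) = some x := by
  classical
  have := toWord_lt_mul h
  unfold hd
  rw [this]; rfl

/-- Induction on the reduced word. -/
lemma reduced_induction {P : FreeGroup α → Prop} (h1 : P 1)
    (hs : ∀ (x : α × Bool) (g : FreeGroup α), hd g ≠ some (iv x) → P g → P (lt x * g))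
    (g : FreeGroup α) : P g := by
  classical
  have key : ∀ L : List (α × Bool), FreeGroup.IsReduced L → P (FreeGroup.mk L) := by
    intro L
    induction L with
    | nil => intro _; exact h1
    | cons x L ih =>
      intro hL
      have hL' : FreeGroup.IsReduced L := List.IsChain.tail hL
      have : FreeGroup.mk (x :: L) = lt x * FreeGroup.mk L := by
        rw [lt, FreeGroup.mul_mk]; rfl
      rw [this]
      refine hs x _ ?_ (ih hL')
      unfold hd
      rw [FreeGroup.toWord_mk, hL'.reduce_eq]
      intro h
      cases L with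
      | nil => simp at h
      | cons y t =>
        rw [List.head?_cons, Option.some.injEq] at h
        rw [FreeGroup.isReduced_cons_cons] at hL
        have h2 := hL.1 (by rw [h]; rfl)
        rw [h] at h2
        simp [iv] at h2
  have := key g.toWord FreeGroup.isReduced_toWord
  rwa [FreeGroup.mk_toWord] at this

/-- Right multiplication by a letter does not change the first letter, except near `1`. -/
lemma hd_mul_lt (y : α × Bool) (g : FreeGroup α) (h1 : g ≠ 1) (h2 : g * lt y ≠ 1) :
    hd (g * lt y) = hd g := by
  induction g using reduced_induction with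
  | h1 => exact absurd rfl h1
  | hs x g hx ih =>
    rw [hd_lt_mul hx]
    by_cases hg : g = 1
    · subst hg
      rw [mul_one] at h2 ⊢
      refine hd_lt_mul ?_
      rw [hd_lt, ne_eq, Option.some.injEq]
      intro h
      apply h2
      rw [h, ← lt_inv, mul_inv_cancel]
    · by_cases hgy : g * lt y = 1
      · rw [mul_assoc, hgy, mul_one, hd_lt]
      · rw [mul_assoc]
        refine hd_lt_mul ?_
        rw [ih hg hgy]
        exact hx

open Classical in
/-- The indicator of the words starting with `(i, true)`. -/
noncomputable def phi (i : α) (g : FreeGroup α) : ℝ := if hd g = some (i, true) then 1 else 0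

lemma phi_congr {g h : FreeGroup α} (i : α) (e : hd g = hd h) : phi i g = phi i h := by
  unfold phi; rw [e]

/-- The weighted walls. -/
noncomputable def chi (w : α → ℝ) (g h : FreeGroup α) (e : FreeGroup α × α) : ℝ :=
  w e.2 * |phi e.2 (e.1⁻¹ * g) - phi e.2 (e.1⁻¹ * h)|

variable {w : α → ℝ}

lemma chi_nonneg (hw : ∀ a, 0 ≤ w a) (g h : FreeGroup α) (e : FreeGroup α × α) :
    0 ≤ chi w g h e := mul_nonneg (hw _) (abs_nonneg _)

lemma chi_comm (g h : FreeGroup α) (e : FreeGroup α × α) : chi w g h e = chi w h g e := by
  unfold chi; rw [abs_sub_comm]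

lemma chi_mul (f g h k : FreeGroup α) (i : α) :
    chi w (f * g) (f * h) (f * k, i) = chi w g h (k, i) := by
  unfold chi
  simp only [mul_inv_rev, mul_assoc, inv_mul_cancel_left]

lemma chi_tri (hw : ∀ a, 0 ≤ w a) (g h k : FreeGroup α) (e : FreeGroup α × α) :
    chi w g k e ≤ chi w g h e + chi w h k e := by
  unfold chi
  rw [← mul_add]
  exact mul_le_mul_of_nonneg_left (abs_sub_le _ _ _) (hw _)

lemma chi_diff (hw : ∀ a, 0 ≤ w a) (g h g' h' : FreeGroup α) (e : FreeGroup α × α) :
    |chi w g h e - chi w g' h' e| ≤ chi w g g' e + chi w h h' e := by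
  rw [abs_le]
  constructor
  · have h1 := chi_tri hw g' g h' e
    have h2 := chi_tri hw g h h' e
    rw [chi_comm g' g] at h1
    linarith
  · have h1 := chi_tri hw g g' h e
    have h2 := chi_tri hw g' h' h e
    rw [chi_comm h' h] at h2
    linarith

/-- The wall of an edge. -/
def wall (x : α × Bool) : FreeGroup α × α := (if x.2 then 1 else lt x, x.1)

lemma phi_lt (i : α) (x : α × Bool) (h : (i, true) ≠ x) : phi i (lt x) = 0 := by
  unfold phi
  rw [hd_lt, if_neg]
  intro h'
  rw [Option.some.injEq] at h'
  exact h h'.symm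

lemma phi_one (i : α) : phi i (1 : FreeGroup α) = 0 := by
  unfold phi
  rw [hd_one, if_neg]
  simp

lemma phi_lt_true (i : α) : phi i (lt (i, true)) = 1 := by
  unfold phi
  rw [hd_lt, if_pos rfl]

lemma chi_letter_wall (x : α × Bool) : chi w 1 (lt x) (wall x) = w x.1 := by
  rcases x with ⟨a, b⟩
  cases b
  · unfold chi wall
    simp only [Bool.false_eq_true, if_false, mul_one, inv_mul_cancel]
    rw [lt_inv, phi_one]
    have : phi a (lt (iv (a, false))) = 1 := phi_lt_true a
    rw [this]
    simp
  · unfold chi wall
    simp only [if_true, inv_one, mul_one, one_mul]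
    rw [phi_lt_true, phi_one]
    simp

lemma chi_letter_ne (x : α × Bool) (e : FreeGroup α × α) (he : e ≠ wall x) :
    chi w 1 (lt x) e = 0 := by
  rcases e with ⟨k, i⟩
  unfold chi
  simp only [mul_one]
  suffices phi i k⁻¹ = phi i (k⁻¹ * lt x) by rw [this]; simp
  by_cases h1 : k⁻¹ = 1
  · rw [h1, one_mul, phi_one]
    symm
    refine phi_lt _ _ ?_
    rintro rfl
    apply he
    rw [inv_eq_one] at h1
    simp [wall, h1]
  · by_cases h2 : k⁻¹ * lt x = 1
    · have h3 : k⁻¹ = lt (iv x) := by
        rw [← lt_inv]; exact eq_inv_of_mul_eq_one_left h2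
      rw [h2, phi_one, h3]
      refine phi_lt _ _ ?_
      intro h
      apply he
      have hx : x = (i, false) := by
        have := congrArg iv h
        rw [iv_iv] at this
        rw [← this]; rfl
      have hk : k = lt x := by
        have := congrArg Inv.inv h3
        rw [inv_inv, lt_inv, iv_iv] at this
        exact this
      rw [hk, hx]
      simp [wall]
    · exact (phi_congr i (hd_mul_lt x _ h1 h2)).symm

lemma chi_add {x : α × Bool} {g : FreeGroup α} (hx : hd g ≠ some (iv x)) (e : FreeGroup α × α) :
    chi w 1 (lt x * g) e = chi w 1 (lt x) e + chi w (lt x) (lt x * g) e := by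
  by_cases he : e = wall x
  · subst he
    have h0 : phi (wall x).2 ((wall x).1⁻¹ * lt x) = phi (wall x).2 ((wall x).1⁻¹ * (lt x * g)) := by
      rcases x with ⟨a, b⟩
      cases b
      · simp only [wall, Bool.false_eq_true, if_false, inv_mul_cancel, inv_mul_cancel_left]
        rw [phi_one]
        unfold phi
        rw [if_neg]
        exact hx
      · simp only [wall, if_true, inv_one, one_mul]
        exact phi_congr a (by rw [hd_lt, hd_lt_mul hx])
    unfold chi
    rw [h0]
    simp
  · rw [chi_letter_ne x e he, zero_add]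
    have : phi e.2 (e.1⁻¹ * 1) = phi e.2 (e.1⁻¹ * lt x) ∨ w e.2 = 0 := by
      have := chi_letter_ne (w := w) x e he
      unfold chi at this
      rcases mul_eq_zero.1 this with h | h
      · exact Or.inr h
      · left
        have := abs_eq_zero.1 h
        linarith
    unfold chi
    rcases this with h | h
    · rw [h]
    · rw [h]; simp

lemma support_finite (g : FreeGroup α) : (Function.support (chi w 1 g)).Finite := by
  induction g using reduced_induction with
  | h1 =>
    have : Function.support (chi w (1 : FreeGroup α) 1) = ∅ := by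
      ext e; simp [chi]
    rw [this]; exact Set.finite_empty
  | hs x g hx ih =>
    have h1 : (Function.support (chi w 1 (lt x))).Finite := by
      refine (Set.finite_singleton (wall x)).subset ?_
      intro e he
      by_contra hne
      exact he (chi_letter_ne x e hne)
    have h2 : (Function.support (chi w (lt x) (lt x * g))).Finite := by
      refine (ih.image fun e => (lt x * e.1, e.2)).subset ?_
      rintro ⟨k, i⟩ he
      refine ⟨((lt x)⁻¹ * k, i), ?_, by simp⟩
      have := chi_mul (w := w) (lt x) 1 g ((lt x)⁻¹ * k) i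
      rw [mul_one, mul_inv_cancel_left] at this
      rw [Function.mem_support, ← this]
      exact he
    refine (h1.union h2).subset ?_
    intro e he
    by_contra hcon
    rw [Set.mem_union, not_or, Function.notMem_support, Function.notMem_support] at hcon
    rw [Function.mem_support, chi_add hx, hcon.1, hcon.2] at he
    simp at he

lemma summable_one (g : FreeGroup α) : Summable (chi w 1 g) :=
  summable_of_hasFiniteSupport (support_finite g)

/-- Reindexing. -/
def sh (f : FreeGroup α) : FreeGroup α × α ≃ FreeGroup α × α :=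
  (Equiv.mulLeft f).prodCongr (Equiv.refl α)

lemma chi_sh (f g h : FreeGroup α) (e : FreeGroup α × α) :
    chi w (f * g) (f * h) (sh f e) = chi w g h e := chi_mul f g h e.1 e.2

lemma summable_chi (g h : FreeGroup α) : Summable (chi w g h) := by
  rw [← (sh g).summable_iff]
  refine (summable_one (w := w) (g⁻¹ * h)).congr fun e => ?_
  have := chi_sh (w := w) g 1 (g⁻¹ * h) e
  rw [mul_one, mul_inv_cancel_left] at this
  exact this.symm

lemma tsum_lt_mul {x : α × Bool} {g : FreeGroup α} (hx : hd g ≠ some (iv x)) :
    ∑' e, chi w 1 (lt x * g) e = w x.1 + ∑' e, chi w 1 g e := by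
  have h1 : ∑' e, chi w 1 (lt x * g) e =
      ∑' e, (chi w 1 (lt x) e + chi w (lt x) (lt x * g) e) := tsum_congr fun e => chi_add hx e
  rw [h1, (summable_chi _ _).tsum_add (summable_chi _ _)]
  congr 1
  · rw [tsum_eq_single (wall x) fun e he => chi_letter_ne x e he, chi_letter_wall]
  · rw [← (sh (lt x)).tsum_eq]
    refine tsum_congr fun e => ?_
    have := chi_sh (w := w) (lt x) 1 g e
    rwa [mul_one] at this

open Classical in
lemma tsum_eq (g : FreeGroup α) : ∑' e, chi w 1 g e = (g.toWord.map fun x => w x.1).sum := by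
  induction g using reduced_induction with
  | h1 =>
    have : ∀ e, chi w (1 : FreeGroup α) 1 e = 0 := fun e => by simp [chi]
    simp [this]
  | hs x g hx ih =>
    rw [tsum_lt_mul hx, ih, toWord_lt_mul hx, List.map_cons, List.sum_cons]

end Walls

open Walls in
theorem exists_walls (α : Type) [Countable α] :
    ∃ χ : FreeGroup α → FreeGroup α → FreeGroup α × α → ℝ,
      (∀ g h e, 0 ≤ χ g h e) ∧ (∀ g h e, χ g h e = χ h g e) ∧
      (∀ f g h k i, χ (f * g) (f * h) (f * k, i) = χ g h (k, i)) ∧
      (∀ g h g' h' e, |χ g h e - χ g' h' e| ≤ χ g g' e + χ h h' e) ∧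
      (∀ g h, Summable (χ g h)) ∧
      (∀ R : ℝ, {g | ∑' e, χ 1 g e ≤ R}.Finite) := by
  classical
  obtain ⟨n, hn⟩ := Countable.exists_injective_nat α
  set w : α → ℝ := fun a => (n a : ℝ) + 1 with hw
  have hw1 : ∀ a, 1 ≤ w a := fun a => by simp [hw]
  have hw0 : ∀ a, 0 ≤ w a := fun a => zero_le_one.trans (hw1 a)
  refine ⟨chi w, chi_nonneg hw0, chi_comm, fun f g h k i => chi_mul f g h k i, chi_diff hw0,
    summable_chi, fun R => ?_⟩
  -- letters of bounded weight
  set T : Set α := {a | w a ≤ R} with hT
  have hTfin : T.Finite := by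
    have : T ⊆ n ⁻¹' (Set.Iic ⌊R⌋₊) := by
      intro a ha
      rw [Set.mem_preimage, Set.mem_Iic]
      refine Nat.le_floor ?_
      have : w a ≤ R := ha
      simp only [hw] at this
      linarith
    exact ((Set.finite_Iic _).preimage hn.injOn).subset this
  have : Finite T := hTfin
  have hfin := List.finite_length_le (T × Bool) ⌊R⌋₊
  refine (hfin.image fun L => FreeGroup.mk (L.map fun x => ((x.1 : α), x.2))).subset ?_
  intro g hg
  have hg' : (g.toWord.map fun x => w x.1).sum ≤ R := by
    rw [← tsum_eq]; exact hg
  have hall : ∀ x ∈ g.toWord, x.1 ∈ T := by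
    intro x hx
    have : w x.1 ≤ (g.toWord.map fun x => w x.1).sum :=
      List.single_le_sum (by
        intro y hy
        obtain ⟨z, _, rfl⟩ := List.mem_map.1 hy
        exact hw0 _) _ (List.mem_map.2 ⟨x, hx, rfl⟩)
    exact this.trans hg'
  have hlen : g.toWord.length ≤ ⌊R⌋₊ := by
    refine Nat.le_floor (le_trans ?_ hg')
    have : ∀ L : List (α × Bool), (L.length : ℝ) ≤ (L.map fun x => w x.1).sum := by
      intro L
      induction L with
      | nil => simp
      | cons x L ih =>
        rw [List.length_cons, List.map_cons, List.sum_cons]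
        push_cast
        have := hw1 x.1
        linarith
    exact this _
  refine ⟨g.toWord.attach.map fun x => (⟨x.1.1, hall x.1 x.2⟩, x.1.2), ?_, ?_⟩
  · simpa using hlen
  · show FreeGroup.mk (List.map (fun x : T × Bool => ((x.1 : α), x.2))
      (g.toWord.attach.map fun x => ((⟨x.1.1, hall x.1 x.2⟩ : T), x.1.2))) = g
    rw [List.map_map]
    have : (List.map ((fun x : T × Bool => ((x.1 : α), x.2)) ∘
        fun x : {x // x ∈ g.toWord} => ((⟨x.1.1, hall x.1 x.2⟩ : T), x.1.2)) g.toWord.attach) =
        g.toWord := by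
      have h2 : ((fun x : T × Bool => ((x.1 : α), x.2)) ∘
        fun x : {x // x ∈ g.toWord} => ((⟨x.1.1, hall x.1 x.2⟩ : T), x.1.2)) = Subtype.val := by
        funext x; rfl
      rw [h2, List.attach_map_subtype_val]
    rw [this, FreeGroup.mk_toWord]

end MP6c9f91
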