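import Pool.Agent.MP6c9f91.Defs
import Pool.Agent.MP6c9f91.Walls
import Pool.Agent.MP6c9f91.MEBasic

/-!
# The Adams lemma (package P7)
-/

open MeasureTheory Filter Topology
open scoped ENNReal Pointwise

namespace MP6c9f91

universe u v w

section General

variable {Ω : Type u} [MeasurableSpace Ω] {m : Measure Ω}

/-- A measurable equivariant map from an action with an exact fundamental domain to the group. -/
theorem exists_sec {K : Type v} [Group K] [MulAction K Ω] {Y : Set Ω} (hYm : MeasurableSet Y)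
    (hY : ∀ x : Ω, ∃! k : K, k • x ∈ Y) (hm : ∀ k : K, Measurable (fun x : Ω => k • x)) :
    ∃ σ : Ω → K, (∀ ω, (σ ω)⁻¹ • ω ∈ Y) ∧ (∀ (k : K) ω, σ (k • ω) = k * σ ω) ∧
      (∀ ω (k : K), k⁻¹ • ω ∈ Y → σ ω = k) ∧ (∀ k : K, MeasurableSet {ω | σ ω = k}) := by
  choose s hs hu using fun x => hY x
  simp only at hs hu
  refine ⟨fun ω => (s ω)⁻¹, fun ω => by simpa using hs ω, ?_, ?_, ?_⟩
  · intro k ω
    have : s (k • ω) = s ω * k⁻¹ := by
      symm
      apply hu
      rw [mul_smul, inv_smul_smul]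
      exact hs ω
    simp [this]
  · intro ω k hk
    have := hu ω _ hk
    simp [← this]
  · intro k
    have : {ω | (s ω)⁻¹ = k} = (fun x => k⁻¹ • x) ⁻¹' Y := by
      ext ω
      simp only [Set.mem_ofPred_eq, Set.mem_preimage]
      constructor
      · rintro rfl
        simpa using hs ω
      · intro h
        have := hu ω _ h
        rw [← this, inv_inv]
    rw [this]
    exact hm _ hYm

/-- The paradoxical decomposition bounds the mass of an almost invariant finite measure. -/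
theorem paradox_bound {H : Type v} [Group H] [MulAction H Ω] (P : Measure Ω) [IsFiniteMeasure P]
    (W : Set Ω) (hW : MeasurableSet W) (hm : ∀ h : H, Measurable (fun x : Ω => h • x))
    (x y : H) (δ : ℝ≥0∞)
    (hx : ∀ A, MeasurableSet A → P A ≤ P ((fun ω => x⁻¹ • ω) ⁻¹' A) + δ)
    (hy : ∀ A, MeasurableSet A → P A ≤ P ((fun ω => y⁻¹ • ω) ⁻¹' A) + δ)
    (hyW : ∀ ω ∈ W, y • ω ∉ W ∧ y • y • ω ∉ W)
    (hxW : ∀ ω, ω ∉ W → x • ω ∈ W ∧ x • x • ω ∈ W) :
    P Set.univ ≤ 6 * δ := by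
  have key : ∀ (z : H) (V : Set Ω), MeasurableSet V →
      (∀ A, MeasurableSet A → P A ≤ P ((fun ω => z⁻¹ • ω) ⁻¹' A) + δ) →
      (∀ ω ∈ V, z • ω ∉ V ∧ z • z • ω ∉ V) → 2 * P V ≤ P Vᶜ + 3 * δ := by
    intro z V hV hz hzV
    set V1 := (fun ω => z⁻¹ • ω) ⁻¹' V with hV1
    set V2 := (fun ω => z⁻¹ • ω) ⁻¹' V1 with hV2
    have mV1 : MeasurableSet V1 := hm _ hV
    have mV2 : MeasurableSet V2 := hm _ mV1
    have h1 : P V ≤ P V1 + δ := hz V hV
    have h2 : P V1 ≤ P V2 + δ := hz V1 mV1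
    have hdisj : Disjoint V1 V2 := by
      rw [Set.disjoint_left]
      intro ω h1 h2
      simp only [hV1, hV2, Set.mem_preimage] at h1 h2
      have := (hzV _ h2).1
      rw [smul_inv_smul] at this
      exact this h1
    have hsub : V1 ∪ V2 ⊆ Vᶜ := by
      rintro ω (h | h)
      · simp only [hV1, Set.mem_preimage] at h
        have := (hzV _ h).1
        rwa [smul_inv_smul] at this
      · simp only [hV1, hV2, Set.mem_preimage] at h
        have := (hzV _ h).2
        rwa [smul_inv_smul, smul_inv_smul] at this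
    have h3 : P V1 + P V2 ≤ P Vᶜ := by
      rw [← measure_union hdisj mV2]
      exact measure_mono hsub
    calc 2 * P V = P V + P V := two_mul _
      _ ≤ (P V1 + δ) + ((P V2 + δ) + δ) := by
          gcongr
          exact h1.trans (by gcongr)
      _ = (P V1 + P V2) + 3 * δ := by ring
      _ ≤ P Vᶜ + 3 * δ := by gcongr
  have h1 := key y W hW hy hyW
  have h2 := key x Wᶜ hW.compl hx (fun ω hω => by
    obtain ⟨a, b⟩ := hxW ω hω
    exact ⟨fun h => h a, fun h => h b⟩)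
  rw [compl_compl] at h2
  have hsum : P W + P Wᶜ = P Set.univ := measure_add_measure_compl hW
  have hfin : P Set.univ ≠ ⊤ := measure_ne_top _ _
  have : P Set.univ + P Set.univ ≤ P Set.univ + 6 * δ := by
    calc P Set.univ + P Set.univ = 2 * P W + 2 * P Wᶜ := by rw [← hsum]; ring
      _ ≤ (P Wᶜ + 3 * δ) + (P W + 3 * δ) := by gcongr
      _ = P Set.univ + 6 * δ := by rw [← hsum]; ring
  exact (ENNReal.add_le_add_iff_left hfin).1 this

/-- Mixing: for a group action with an exact fundamental domain, the powers of an element of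
infinite order move sets of finite measure off themselves. -/
theorem mixing {H : Type v} [Group H] [Countable H] [MulAction H Ω]
    (hm : ∀ h : H, MeasurePreserving (fun x : Ω => h • x) m m)
    {Z : Set Ω} (hZm : MeasurableSet Z) (hZ : ∀ x : Ω, ∃! h : H, h • x ∈ Z)
    (p : H) (hp : orderOf p = 0) (A B : Set Ω) (hA : MeasurableSet A) (hB : MeasurableSet B)
    (hAf : m A ≠ ⊤) (hBf : m B ≠ ⊤) :
    Tendsto (fun k : ℕ => m (A ∩ (fun ω => (p ^ k)⁻¹ • ω) ⁻¹' B)) atTop (𝓝 0) := by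
  obtain ⟨τ, -, hτeq, -, hτm⟩ := exists_sec hZm hZ (fun h => (hm h).measurable)
  -- approximate a set of finite measure
  have approx : ∀ (C : Set Ω), MeasurableSet C → m C ≠ ⊤ → ∀ ε : ℝ≥0∞, 0 < ε →
      ∃ K : Finset H, m (C ∩ {ω | τ ω ∉ K}) ≤ ε := by
    intro C hC hCf ε hε
    have hanti : Antitone (fun K : Finset H => C ∩ {ω | τ ω ∉ K}) := by
      intro K K' hKK' ω hω
      exact ⟨hω.1, fun h => hω.2 (hKK' h)⟩
    have hmeas : ∀ K : Finset H, MeasurableSet (C ∩ {ω | τ ω ∉ K}) := by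
      intro K
      refine hC.inter ?_
      have : {ω | τ ω ∉ K} = (⋃ h ∈ K, {ω | τ ω = h})ᶜ := by
        ext ω; simp
      rw [this]
      exact (Finset.measurableSet_biUnion K (fun h _ => hτm h)).compl
    have hlim : Tendsto (fun K : Finset H => m (C ∩ {ω | τ ω ∉ K})) atTop
        (𝓝 (m (⋂ K : Finset H, C ∩ {ω | τ ω ∉ K}))) := by
      apply tendsto_measure_iInter_atTop (fun K => (hmeas K).nullMeasurableSet) hanti
      exact ⟨∅, ne_top_of_le_ne_top hCf (measure_mono Set.inter_subset_left)⟩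
    have hempty : (⋂ K : Finset H, C ∩ {ω | τ ω ∉ K}) = ∅ := by
      ext ω
      simp only [Set.mem_iInter, Set.mem_inter_iff, Set.mem_ofPred_eq, Set.mem_empty_iff_false,
        iff_false, not_forall]
      exact ⟨{τ ω}, by simp⟩
    rw [hempty, measure_empty] at hlim
    exact (hlim.eventually (ge_mem_nhds hε)).exists
  rw [ENNReal.tendsto_nhds_zero]
  intro ε hε
  obtain ⟨K, hK⟩ := approx A hA hAf (ε / 2) (ENNReal.half_pos hε.ne')
  obtain ⟨K', hK'⟩ := approx B hB hBf (ε / 2) (ENNReal.half_pos hε.ne')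
  have hinj : Function.Injective (fun k : ℕ => (p ^ k)⁻¹) := by
    intro a b hab
    have : p ^ a = p ^ b := inv_injective hab
    exact (injective_pow_iff_not_isOfFinOrder.2 (orderOf_eq_zero_iff.1 hp)) this
  classical
  have hfin : {k : ℕ | (p ^ k)⁻¹ ∈ Finset.image (fun q : H × H => q.1 * q.2⁻¹) (K' ×ˢ K)}.Finite :=
    (Finset.finite_toSet _).preimage hinj.injOn
  have hev := hfin.compl_mem_cofinite
  rw [Nat.cofinite_eq_atTop] at hev
  filter_upwards [hev] with k hk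
  have hk' : ∀ h ∈ K, (p ^ k)⁻¹ * h ∉ K' := by
    intro h hh hh'
    apply hk
    simp only [Set.mem_ofPred_eq, Finset.mem_image, Finset.mem_product, Prod.exists]
    exact ⟨_, h, ⟨hh', hh⟩, by simp⟩
  have hsub : A ∩ (fun ω => (p ^ k)⁻¹ • ω) ⁻¹' B ⊆ (A ∩ {ω | τ ω ∉ K}) ∪
      (fun ω => (p ^ k)⁻¹ • ω) ⁻¹' (B ∩ {ω | τ ω ∉ K'}) := by
    rintro ω ⟨h1, h2⟩
    by_cases hτ : τ ω ∈ K
    · right
      refine ⟨h2, ?_⟩
      simp only [Set.mem_ofPred_eq]
      rw [hτeq]
      exact hk' _ hτ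
    · left; exact ⟨h1, hτ⟩
  have hBm : MeasurableSet (B ∩ {ω | τ ω ∉ K'}) := by
    refine hB.inter ?_
    have : {ω | τ ω ∉ K'} = (⋃ h ∈ K', {ω | τ ω = h})ᶜ := by
      ext ω; simp
    rw [this]
    exact (Finset.measurableSet_biUnion K' (fun h _ => hτm h)).compl
  calc m (A ∩ (fun ω => (p ^ k)⁻¹ • ω) ⁻¹' B)
      ≤ m (A ∩ {ω | τ ω ∉ K}) + m ((fun ω => (p ^ k)⁻¹ • ω) ⁻¹' (B ∩ {ω | τ ω ∉ K'})) :=
        (measure_mono hsub).trans (measure_union_le _ _)
    _ = m (A ∩ {ω | τ ω ∉ K}) + m (B ∩ {ω | τ ω ∉ K'}) := by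
        rw [(hm _).measure_preimage hBm.nullMeasurableSet]
    _ ≤ ε / 2 + ε / 2 := by gcongr
    _ = ε := ENNReal.add_halves ε

theorem norm_diff_le_one {E : Type w} (a b : E → ℝ≥0∞) :
    ∑' e, (a e / (∑' e, a e) - b e / (∑' e, b e)) ≤ 1 := by
  calc ∑' e, (a e / (∑' e, a e) - b e / (∑' e, b e)) ≤ ∑' e, a e / (∑' e, a e) :=
        ENNReal.tsum_le_tsum fun e => tsub_le_self
    _ = (∑' e, a e) / (∑' e, a e) := by simp_rw [div_eq_mul_inv]; rw [ENNReal.tsum_mul_right]
    _ ≤ 1 := ENNReal.div_self_le_one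

theorem norm_diff_le {E : Type w} (a b d : E → ℝ≥0∞) (ha : ∑' e, a e ≠ ⊤) (hb : ∑' e, b e ≠ ⊤)
    (h1 : ∀ e, a e ≤ b e + d e) (h2 : ∀ e, b e ≤ a e + d e) :
    ∑' e, (a e / (∑' e, a e) - b e / (∑' e, b e)) ≤ 2 * (∑' e, d e) / (∑' e, a e) := by
  set N := ∑' e, a e with hN
  set N' := ∑' e, b e with hN'
  set D := ∑' e, d e with hD
  have hND : N ≤ N' + D := by
    rw [hN, hN', hD, ← ENNReal.tsum_add]
    exact ENNReal.tsum_le_tsum h1
  have hND' : N' ≤ N + D := by
    rw [hN, hN', hD, ← ENNReal.tsum_add]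
    exact ENNReal.tsum_le_tsum h2
  by_cases hN0 : N = 0
  · have : ∀ e, a e = 0 := by
      intro e
      have := ENNReal.tsum_eq_zero.1 hN0 e
      exact this
    simp [this]
  by_cases hN'0 : N' = 0
  · have hle : ∑' e, (a e / N - b e / N') ≤ 1 := norm_diff_le_one a b
    refine hle.trans ?_
    rw [hN'0, zero_add] at hND
    rw [ENNReal.le_div_iff_mul_le (Or.inl hN0) (Or.inl ha), one_mul]
    calc N ≤ D := hND
      _ ≤ 2 * D := by
          nth_rewrite 1 [← one_mul D]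
          gcongr
          norm_num
  have hstep : ∀ e, a e / N - b e / N' ≤ d e / N + b e * (N⁻¹ - N'⁻¹) := by
    intro e
    have h3 : a e / N ≤ b e / N + d e / N := by
      rw [← ENNReal.add_div]
      gcongr
      exact h1 e
    rw [tsub_le_iff_right]
    calc a e / N ≤ b e / N + d e / N := h3
      _ ≤ (b e * (N⁻¹ - N'⁻¹) + b e / N') + d e / N := by
          gcongr
          rw [div_eq_mul_inv, div_eq_mul_inv, ← mul_add]
          gcongr
          exact le_tsub_add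
      _ = d e / N + b e * (N⁻¹ - N'⁻¹) + b e / N' := by ring
  calc ∑' e, (a e / N - b e / N') ≤ ∑' e, (d e / N + b e * (N⁻¹ - N'⁻¹)) :=
        ENNReal.tsum_le_tsum hstep
    _ = D / N + N' * (N⁻¹ - N'⁻¹) := by
        rw [ENNReal.tsum_add, ENNReal.tsum_mul_right]
        simp_rw [div_eq_mul_inv]
        rw [ENNReal.tsum_mul_right]
    _ ≤ D / N + D / N := by
        gcongr
        rw [ENNReal.mul_sub (fun _ _ => hb), ENNReal.mul_inv_cancel hN'0 hb, tsub_le_iff_right,
          ← div_eq_mul_inv]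
        calc N' / N ≤ (N + D) / N := by gcongr
          _ = D / N + 1 := by rw [ENNReal.add_div, ENNReal.div_self hN0 ha, add_comm]
    _ = 2 * D / N := by
        rw [two_mul, ENNReal.add_div]

/-- Summation of an equivariant kernel over a fundamental domain. -/
theorem transfer {F : Type v} [Group F] [Countable F] {I : Type w} [Countable I] [MulAction F Ω]
    (hm : ∀ f : F, MeasurePreserving (fun x : Ω => f • x) m m)
    {Y : Set Ω} (hYm : MeasurableSet Y) (hY : ∀ x : Ω, ∃! f : F, f • x ∈ Y)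
    (q : Ω → F × I → ℝ≥0∞) (hqm : ∀ e, Measurable (fun ω => q ω e))
    (hq : ∀ (f k : F) (i : I) (ω : Ω), q (f • ω) (f * k, i) = q ω (k, i)) :
    ∫⁻ ω, ∑' i, q ω (1, i) ∂m = ∫⁻ ω in Y, ∑' e, q ω e ∂m := by
  have : MeasurableConstSMul F Ω := ⟨fun f => (hm f).measurable⟩
  have : SMulInvariantMeasure F Ω m := ⟨fun f s hs => (hm f).measure_preimage hs.nullMeasurableSet⟩
  have hfd : IsFundamentalDomain F Y m := IsFundamentalDomain.mk' hYm.nullMeasurableSet hY
  rw [hfd.lintegral_eq_tsum']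
  have h1 : ∀ (f : F) (ω : Ω), ∑' i, q (f⁻¹ • ω) (1, i) = ∑' i, q ω (f, i) := by
    intro f ω
    refine tsum_congr fun i => ?_
    have := hq f 1 i (f⁻¹ • ω)
    rw [mul_one, smul_inv_smul] at this
    exact this.symm
  simp_rw [h1]
  rw [← lintegral_tsum (fun f => (Measurable.tsum fun i => hqm (f, i)).aemeasurable)]
  refine lintegral_congr fun ω => ?_
  rw [ENNReal.tsum_prod']

/-- The Adams lemma, core form. -/
theorem adams_core {H : Type v} {F : Type w} {I : Type w} [Group H] [Countable H] [Group F]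
    [Countable F] [Countable I] [MulAction H Ω] [MulAction F Ω]
    (hmH : ∀ h : H, MeasurePreserving (fun x : Ω => h • x) m m)
    (hmF : ∀ f : F, MeasurePreserving (fun x : Ω => f • x) m m)
    (hcomm : ∀ (h : H) (f : F) (ω : Ω), h • f • ω = f • h • ω)
    {Z : Set Ω} (hZm : MeasurableSet Z) (hZ : ∀ x : Ω, ∃! h : H, h • x ∈ Z)
    {Y : Set Ω} (hYm : MeasurableSet Y) (hYf : m Y ≠ ⊤) (hY : ∀ x : Ω, ∃! f : F, f • x ∈ Y)
    (hm0 : m ≠ 0)
    (c : F → F → F × I → ℝ≥0∞)
    (hc_eq : ∀ f g h k i, c (f * g) (f * h) (f * k, i) = c g h (k, i))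
    (hc_symm : ∀ g h e, c g h e = c h g e)
    (hc_tri : ∀ g h g' h' e, c g h e ≤ c g' h' e + (c g g' e + c h h' e))
    (hc_sum : ∀ g h, ∑' e, c g h e ≠ ⊤)
    (hc_fin : ∀ R : ℝ≥0∞, R ≠ ⊤ → {g | ∑' e, c 1 g e ≤ R}.Finite)
    (p x y : H) (W : Set H) (hp : orderOf p = 0) (hpx : Commute p x) (hpy : Commute p y)
    (hyW : ∀ h ∈ W, y * h ∉ W ∧ y * y * h ∉ W)
    (hxW : ∀ h, h ∉ W → x * h ∈ W ∧ x * x * h ∈ W) : False := by
  obtain ⟨σ, hσY, hσeq, hσu, hσm⟩ := exists_sec hYm hY (fun f => (hmF f).measurable)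
  obtain ⟨τ, -, hτeq, -, hτm⟩ := exists_sec hZm hZ (fun h => (hmH h).measurable)
  have : MeasurableConstSMul F Ω := ⟨fun f => (hmF f).measurable⟩
  have : SMulInvariantMeasure F Ω m := ⟨fun f s hs => (hmF f).measure_preimage hs.nullMeasurableSet⟩
  have hfd : IsFundamentalDomain F Y m := IsFundamentalDomain.mk' hYm.nullMeasurableSet hY
  -- basic functions
  let L : F → F → ℝ≥0∞ := fun g h => ∑' e, c g h e
  have hLtop : ∀ g h, L g h ≠ ⊤ := hc_sum
  have hLinv : ∀ f g h, L (f * g) (f * h) = L g h := by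
    intro f g h
    have := (Equiv.prodCongr (Equiv.mulLeft f) (Equiv.refl I)).tsum_eq (c (f * g) (f * h))
    show ∑' e, c (f * g) (f * h) e = ∑' e, c g h e
    rw [← this]
    refine tsum_congr fun e => ?_
    exact hc_eq f g h e.1 e.2
  -- measurability of functions of σ
  have hmeas : ∀ (φ : F → F → ℝ≥0∞) (h h' : H),
      Measurable (fun ω : Ω => φ (σ (h • ω)) (σ (h' • ω))) := by
    intro φ h h'
    let _ : MeasurableSpace F := ⊤
    have hσ' : Measurable σ := measurable_to_countable' (fun f => hσm f)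
    have h1 : Measurable (fun ω : Ω => (σ (h • ω), σ (h' • ω))) :=
      (hσ'.comp (hmH h).measurable).prodMk (hσ'.comp (hmH h').measurable)
    have h2 : Measurable (fun q : F × F => φ q.1 q.2) := measurable_of_countable _
    exact h2.comp h1
  have hmeas' : ∀ (φ : F → F → ℝ≥0∞) (h' : H),
      Measurable (fun ω : Ω => φ (σ ω) (σ (h' • ω))) := by
    intro φ h'
    have := hmeas φ 1 h'
    simpa using this
  let Nk : ℕ → Ω → ℝ≥0∞ := fun k ω => L (σ ω) (σ ((p ^ k)⁻¹ • ω))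
  let ψ : ℕ → Ω → F × I → ℝ≥0∞ := fun k ω e => c (σ ω) (σ ((p ^ k)⁻¹ • ω)) e / Nk k ω
  let u : ℕ → Ω → ℝ≥0∞ := fun k ω => ∑' i, ψ k ω (1, i)
  have hψm : ∀ k e, Measurable (fun ω => ψ k ω e) := by
    intro k e
    exact hmeas' (fun g h => c g h e / L g h) _
  have hψs : ∀ k e (s : H), Measurable (fun ω => ψ k (s • ω) e) := fun k e s =>
    (hψm k e).comp (hmH s).measurable
  have hum : ∀ k, Measurable (u k) := fun k => Measurable.tsum fun i => hψm k (1, i)
  have hψeq : ∀ k (f f' : F) (i : I) (ω : Ω), ψ k (f • ω) (f * f', i) = ψ k ω (f', i) := by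
    intro k f f' i ω
    simp only [ψ, Nk]
    rw [hcomm, hσeq, hσeq, hc_eq, hLinv]
  have hNkm : ∀ k, Measurable (Nk k) := fun k => hmeas' L _
  -- total mass
  have hmass : ∀ k, ∫⁻ ω, u k ω ∂m = ∫⁻ ω in Y, Nk k ω / Nk k ω ∂m := by
    intro k
    rw [transfer hmF hYm hY (ψ k) (hψm k) (fun f f' i ω => hψeq k f f' i ω)]
    refine lintegral_congr fun ω => ?_
    simp only [ψ]
    simp_rw [div_eq_mul_inv]
    rw [ENNReal.tsum_mul_right]
  have hmassle : ∀ k, ∫⁻ ω, u k ω ∂m ≤ m Y := by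
    intro k
    rw [hmass]
    calc ∫⁻ ω in Y, Nk k ω / Nk k ω ∂m ≤ ∫⁻ ω in Y, 1 ∂m :=
          lintegral_mono fun ω => ENNReal.div_self_le_one
      _ = m Y := by simp
  -- almost invariance
  have hinv : ∀ (k : ℕ) (s : H) (A : Set Ω), MeasurableSet A →
      (m.withDensity (u k)) A ≤ (m.withDensity (u k)) ((fun ω => s⁻¹ • ω) ⁻¹' A) +
        ∫⁻ ω, (u k ω - u k (s • ω)) ∂m := by
    intro k s A hA
    have hA' : MeasurableSet ((fun ω : Ω => s⁻¹ • ω) ⁻¹' A) := (hmH s⁻¹).measurable hA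
    rw [withDensity_apply _ hA, withDensity_apply _ hA']
    have h1 : ∫⁻ ω in (fun ω : Ω => s⁻¹ • ω) ⁻¹' A, u k ω ∂m = ∫⁻ ω in A, u k (s • ω) ∂m := by
      rw [← (hmH s).setLIntegral_comp_preimage hA' (hum k)]
      congr 2
      ext ω
      simp
    rw [h1]
    have hums : Measurable (fun ω => u k (s • ω)) := (hum k).comp (hmH s).measurable
    calc ∫⁻ ω in A, u k ω ∂m ≤ ∫⁻ ω in A, (u k (s • ω) + (u k ω - u k (s • ω))) ∂m :=
          lintegral_mono fun ω => le_add_tsub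
      _ = ∫⁻ ω in A, u k (s • ω) ∂m + ∫⁻ ω in A, (u k ω - u k (s • ω)) ∂m :=
          lintegral_add_left hums _
      _ ≤ ∫⁻ ω in A, u k (s • ω) ∂m + ∫⁻ ω, (u k ω - u k (s • ω)) ∂m := by
          gcongr
          exact Measure.restrict_le_self
  -- the bound on the defect
  let D1 : H → Ω → ℝ≥0∞ := fun s ω => L (σ ω) (σ (s • ω))
  have hD1m : ∀ s, Measurable (D1 s) := fun s => hmeas' L s
  have hD1inv : ∀ s (f : F) ω, D1 s (f • ω) = D1 s ω := by
    intro s f ω
    simp only [D1]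
    rw [hcomm, hσeq, hσeq, hLinv]
  have hdef : ∀ (k : ℕ) (s : H), Commute p s → ∀ (R R' : ℝ≥0∞),
      ∫⁻ ω, (u k ω - u k (s • ω)) ∂m ≤ m ({ω | Nk k ω ≤ R'} ∩ Y) + m ({ω | R < D1 s ω} ∩ Y) +
        m ({ω | R < D1 s ω} ∩ Y) + 4 * R / R' * m Y := by
    intro k s hs R R'
    have hpk : Commute (p ^ k)⁻¹ s := (hs.pow_left k).inv_left
    have h1 : ∀ ω, u k ω - u k (s • ω) ≤ ∑' i, (ψ k ω (1, i) - ψ k (s • ω) (1, i)) := by
      intro ω
      rw [tsub_le_iff_right, ← ENNReal.tsum_add]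
      exact ENNReal.tsum_le_tsum fun i => le_tsub_add
    have h2 : ∫⁻ ω, (u k ω - u k (s • ω)) ∂m ≤
        ∫⁻ ω in Y, ∑' e, (ψ k ω e - ψ k (s • ω) e) ∂m := by
      refine (lintegral_mono h1).trans (le_of_eq ?_)
      refine transfer hmF hYm hY (fun ω e => ψ k ω e - ψ k (s • ω) e)
        (fun e => (hψm k e).sub (hψs k e s)) ?_
      intro f f' i ω
      rw [hψeq, hcomm, hψeq]
    refine h2.trans ?_
    set S1 := {ω | Nk k ω ≤ R'} with hS1
    set S2 := {ω | R < D1 s ω} with hS2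
    set S3 := {ω | R < D1 s ((p ^ k)⁻¹ • ω)} with hS3
    have mS1 : MeasurableSet S1 := measurableSet_le (hNkm k) measurable_const
    have mS2 : MeasurableSet S2 := measurableSet_lt measurable_const (hD1m s)
    have mS3 : MeasurableSet S3 :=
      measurableSet_lt measurable_const ((hD1m s).comp (hmH _).measurable)
    -- pointwise bound
    have hpt : ∀ ω, ∑' e, (ψ k ω e - ψ k (s • ω) e) ≤
        S1.indicator 1 ω + S2.indicator 1 ω + S3.indicator 1 ω + 4 * R / R' := by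
      intro ω
      have hle1 : ∑' e, (ψ k ω e - ψ k (s • ω) e) ≤ 1 :=
        norm_diff_le_one (fun e => c (σ ω) (σ ((p ^ k)⁻¹ • ω)) e)
          (fun e => c (σ (s • ω)) (σ ((p ^ k)⁻¹ • s • ω)) e)
      by_cases w1 : ω ∈ S1
      · refine hle1.trans ?_
        rw [Set.indicator_of_mem w1]
        simp only [Pi.one_apply]
        rw [add_assoc, add_assoc]
        exact le_self_add
      by_cases w2 : ω ∈ S2
      · refine hle1.trans ?_
        rw [Set.indicator_of_mem w2]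
        simp only [Pi.one_apply]
        rw [add_assoc, add_assoc, add_comm, add_assoc, add_assoc]
        exact le_self_add
      by_cases w3 : ω ∈ S3
      · refine hle1.trans ?_
        rw [Set.indicator_of_mem w3]
        simp only [Pi.one_apply]
        rw [add_assoc, add_comm, add_assoc]
        exact le_self_add
      have hle2 := norm_diff_le (fun e => c (σ ω) (σ ((p ^ k)⁻¹ • ω)) e)
          (fun e => c (σ (s • ω)) (σ ((p ^ k)⁻¹ • s • ω)) e)
          (fun e => c (σ ω) (σ (s • ω)) e + c (σ ((p ^ k)⁻¹ • ω)) (σ ((p ^ k)⁻¹ • s • ω)) e)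
          (hc_sum _ _) (hc_sum _ _) (fun e => hc_tri _ _ _ _ e)
          (fun e => by
            have := hc_tri (σ (s • ω)) (σ ((p ^ k)⁻¹ • s • ω)) (σ ω) (σ ((p ^ k)⁻¹ • ω)) e
            rw [hc_symm (σ (s • ω)) (σ ω), hc_symm (σ ((p ^ k)⁻¹ • s • ω)) (σ ((p ^ k)⁻¹ • ω))]
              at this
            exact this)
      have hle3 : ∑' e, (ψ k ω e - ψ k (s • ω) e) ≤ 4 * R / R' := by
        refine hle2.trans ?_
        rw [ENNReal.tsum_add]
        have e1 : ∑' e, c (σ ω) (σ (s • ω)) e ≤ R := not_lt.1 w2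
        have e2 : ∑' e, c (σ ((p ^ k)⁻¹ • ω)) (σ ((p ^ k)⁻¹ • s • ω)) e ≤ R := by
          have : (p ^ k)⁻¹ • s • ω = s • (p ^ k)⁻¹ • ω := by
            rw [smul_smul, smul_smul, hpk.eq]
          rw [this]
          exact not_lt.1 w3
        have e3 : R' ≤ ∑' e, c (σ ω) (σ ((p ^ k)⁻¹ • ω)) e := (not_le.1 w1).le
        calc 2 * (∑' e, c (σ ω) (σ (s • ω)) e +
              ∑' e, c (σ ((p ^ k)⁻¹ • ω)) (σ ((p ^ k)⁻¹ • s • ω)) e) /
              ∑' e, c (σ ω) (σ ((p ^ k)⁻¹ • ω)) e ≤ 2 * (R + R) / R' := by gcongr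
          _ = 4 * R / R' := by ring_nf
      exact hle3.trans le_add_self
    calc ∫⁻ ω in Y, ∑' e, (ψ k ω e - ψ k (s • ω) e) ∂m
        ≤ ∫⁻ ω in Y, (S1.indicator 1 ω + S2.indicator 1 ω + S3.indicator 1 ω + 4 * R / R') ∂m :=
          lintegral_mono hpt
      _ = m (S1 ∩ Y) + m (S2 ∩ Y) + m (S3 ∩ Y) + 4 * R / R' * m Y := by
          rw [lintegral_add_right _ measurable_const, lintegral_add_right, lintegral_add_right,
            lintegral_indicator_one mS1, lintegral_indicator_one mS2, lintegral_indicator_one mS3,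
            Measure.restrict_apply mS1, Measure.restrict_apply mS2, Measure.restrict_apply mS3,
            setLIntegral_const]
          · exact measurable_one.indicator mS2
          · exact measurable_one.indicator mS3
      _ = m (S1 ∩ Y) + m (S2 ∩ Y) + m (S2 ∩ Y) + 4 * R / R' * m Y := by
          congr 2
          -- m (S3 ∩ Y) = m (S2 ∩ Y)
          set Y' := (fun ω : Ω => p ^ k • ω) ⁻¹' Y with hY'
          have hY'm : MeasurableSet Y' := (hmH _).measurable hYm
          have hfd' : IsFundamentalDomain F Y' m := by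
            refine IsFundamentalDomain.mk' hY'm.nullMeasurableSet fun ω => ?_
            obtain ⟨f, hf, hfu⟩ := hY (p ^ k • ω)
            refine ⟨f, ?_, ?_⟩
            · simp only [hY', Set.mem_preimage]
              rw [hcomm]; exact hf
            · intro f' hf'
              simp only [hY', Set.mem_preimage] at hf'
              rw [hcomm] at hf'
              exact hfu f' hf'
          have e1 : S3 ∩ Y = (fun ω : Ω => (p ^ k)⁻¹ • ω) ⁻¹' (S2 ∩ Y') := by
            ext ω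
            simp [hS2, hS3, hY']
          rw [e1, (hmH _).measure_preimage (mS2.inter hY'm).nullMeasurableSet]
          refine hfd'.measure_set_eq hfd mS2 ?_
          intro f
          ext ω
          simp only [hS2, Set.mem_preimage, Set.mem_ofPred_eq]
          rw [hD1inv]
  -- tightness of D1
  have htight : ∀ (s : H) (ε : ℝ≥0∞), 0 < ε → ∃ R : ℕ, ∀ R' : ℕ, R ≤ R' →
      m ({ω | (R' : ℝ≥0∞) < D1 s ω} ∩ Y) ≤ ε := by
    intro s ε hε
    have hanti : Antitone (fun R : ℕ => {ω | (R : ℝ≥0∞) < D1 s ω} ∩ Y) := by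
      intro R R' hRR' ω hω
      have h1 : (R' : ℝ≥0∞) < D1 s ω := hω.1
      have h2 : (R : ℝ≥0∞) ≤ R' := by exact_mod_cast hRR'
      exact ⟨lt_of_le_of_lt h2 h1, hω.2⟩
    have hlim : Tendsto (fun R : ℕ => m ({ω | (R : ℝ≥0∞) < D1 s ω} ∩ Y)) atTop
        (𝓝 (m (⋂ R : ℕ, {ω | (R : ℝ≥0∞) < D1 s ω} ∩ Y))) := by
      apply tendsto_measure_iInter_atTop (fun R => ?_) hanti
      · exact ⟨0, ne_top_of_le_ne_top hYf (measure_mono Set.inter_subset_right)⟩
      · exact ((measurableSet_lt measurable_const (hD1m s)).inter hYm).nullMeasurableSet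
    have hempty : (⋂ R : ℕ, {ω | (R : ℝ≥0∞) < D1 s ω} ∩ Y) = ∅ := by
      ext ω
      simp only [Set.mem_iInter, Set.mem_inter_iff, Set.mem_ofPred_eq, Set.mem_empty_iff_false,
        iff_false, not_forall]
      obtain ⟨n, hn⟩ := ENNReal.exists_nat_gt (hLtop (σ ω) (σ (s • ω)))
      exact ⟨n, fun h => absurd h.1 (not_lt.2 hn.le)⟩
    rw [hempty, measure_empty] at hlim
    obtain ⟨R, hR⟩ := eventually_atTop.1 (hlim.eventually (ge_mem_nhds hε))
    exact ⟨R, hR⟩
  -- Nk → ∞ in measure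
  have hdiv : ∀ (R' : ℝ≥0∞), R' ≠ ⊤ → Tendsto (fun k => m ({ω | Nk k ω ≤ R'} ∩ Y)) atTop (𝓝 0) := by
    intro R' hR'
    have hfin := hc_fin R' hR'
    set S := hfin.toFinset with hS
    have hsub : ∀ k, {ω | Nk k ω ≤ R'} ∩ Y ⊆
        ⋃ g ∈ S, (Y ∩ (fun ω => (p ^ k)⁻¹ • ω) ⁻¹' ((fun ω => g⁻¹ • ω) ⁻¹' Y)) := by
      rintro k ω ⟨h1, h2⟩
      have hσ1 : σ ω = 1 := hσu ω 1 (by simpa using h2)
      simp only [Set.mem_iUnion]
      refine ⟨σ ((p ^ k)⁻¹ • ω), ?_, h2, ?_⟩
      · rw [hS, Set.Finite.mem_toFinset]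
        simp only [Set.mem_ofPred_eq, Nk, L] at h1 ⊢
        rwa [hσ1] at h1
      · exact hσY _
    have hlim : Tendsto (fun k => ∑ g ∈ S,
        m (Y ∩ (fun ω => (p ^ k)⁻¹ • ω) ⁻¹' ((fun ω => g⁻¹ • ω) ⁻¹' Y))) atTop (𝓝 0) := by
      rw [show (0 : ℝ≥0∞) = ∑ g ∈ S, 0 by simp]
      refine tendsto_finsetSum _ fun g _ => ?_
      refine mixing hmH hZm hZ p hp Y _ hYm ((hmF g⁻¹).measurable hYm) hYf ?_
      rw [(hmF g⁻¹).measure_preimage hYm.nullMeasurableSet]
      exact hYf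
    refine tendsto_of_tendsto_of_tendsto_of_le_of_le tendsto_const_nhds hlim
      (fun k => zero_le) (fun k => ?_)
    exact (measure_mono (hsub k)).trans (measure_biUnion_finset_le _ _)
  -- choice of constants
  have hY0 : m Y ≠ 0 := hfd.measure_ne_zero hm0
  set M := m Y with hM
  set ε := M / 100 with hε
  have hεpos : 0 < ε := ENNReal.div_pos hY0 (by norm_num)
  have hεtop : ε ≠ ⊤ := (ENNReal.div_lt_top hYf (by norm_num)).ne
  obtain ⟨Rx, hRx⟩ := htight x ε hεpos
  obtain ⟨Ry, hRy⟩ := htight y ε hεpos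
  set R := max Rx Ry with hR
  set R' : ℝ≥0∞ := 4 * R * M / ε + 1 with hR'
  have hR'top : R' ≠ ⊤ := by
    rw [hR']
    refine ENNReal.add_ne_top.2 ⟨(ENNReal.div_lt_top ?_ hεpos.ne').ne, by simp⟩
    exact ENNReal.mul_ne_top (ENNReal.mul_ne_top (by norm_num) (by simp)) hYf
  have hR'0 : R' ≠ 0 := by rw [hR']; simp
  have hlast : 4 * (R : ℝ≥0∞) / R' * M ≤ ε := by
    rw [div_eq_mul_inv, mul_right_comm, ← div_eq_mul_inv,
      ENNReal.div_le_iff_le_mul (Or.inl hR'0) (Or.inl hR'top)]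
    calc 4 * (R : ℝ≥0∞) * M = ε * (4 * R * M / ε) := by
          rw [ENNReal.mul_div_cancel hεpos.ne' hεtop]
      _ ≤ ε * R' := by rw [hR']; gcongr; exact le_self_add
  obtain ⟨k, hk⟩ := ((hdiv R' hR'top).eventually (ge_mem_nhds hεpos)).exists
  have hδ : ∀ s : H, Commute p s → m ({ω | (R : ℝ≥0∞) < D1 s ω} ∩ Y) ≤ ε →
      ∫⁻ ω, (u k ω - u k (s • ω)) ∂m ≤ 4 * ε := by
    intro s hs h
    refine (hdef k s hs R R').trans ?_
    calc m ({ω | Nk k ω ≤ R'} ∩ Y) + m ({ω | (R : ℝ≥0∞) < D1 s ω} ∩ Y) +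
          m ({ω | (R : ℝ≥0∞) < D1 s ω} ∩ Y) + 4 * R / R' * M ≤ ε + ε + ε + ε := by gcongr
      _ = 4 * ε := by ring
  have hfinP : IsFiniteMeasure (m.withDensity (u k)) :=
    isFiniteMeasure_withDensity (ne_top_of_le_ne_top hYf (hmassle k))
  have hmHm : ∀ h : H, Measurable (fun x : Ω => h • x) := fun h => (hmH h).measurable
  have hWm : MeasurableSet (τ ⁻¹' W) := by
    have : τ ⁻¹' W = ⋃ h ∈ W, {ω | τ ω = h} := by ext ω; simp
    rw [this]
    exact MeasurableSet.biUnion (Set.to_countable W) (fun h _ => hτm h)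
  have hpar := paradox_bound (m.withDensity (u k)) (τ ⁻¹' W) hWm hmHm x y (4 * ε)
    (fun A hA => (hinv k x A hA).trans (by
      gcongr
      exact hδ x hpx (hRx R (le_max_left _ _))))
    (fun A hA => (hinv k y A hA).trans (by
      gcongr
      exact hδ y hpy (hRy R (le_max_right _ _))))
    (fun ω hω => by
      obtain ⟨h1, h2⟩ := hyW (τ ω) hω
      simp only [Set.mem_preimage, hτeq]
      exact ⟨h1, by rw [← mul_assoc]; exact h2⟩)
    (fun ω hω => by
      obtain ⟨h1, h2⟩ := hxW (τ ω) hω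
      simp only [Set.mem_preimage, hτeq]
      exact ⟨h1, by rw [← mul_assoc]; exact h2⟩)
  rw [withDensity_apply _ MeasurableSet.univ, Measure.restrict_univ] at hpar
  have hlow : M ≤ ∫⁻ ω, u k ω ∂m + m ({ω | Nk k ω ≤ R'} ∩ Y) := by
    rw [hmass]
    have mS1 : MeasurableSet {ω | Nk k ω ≤ R'} := measurableSet_le (hNkm k) measurable_const
    calc M = ∫⁻ ω in Y, 1 ∂m := by simp [hM]
      _ ≤ ∫⁻ ω in Y, (Nk k ω / Nk k ω + {ω | Nk k ω ≤ R'}.indicator 1 ω) ∂m := by
          refine lintegral_mono fun ω => ?_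
          by_cases h : Nk k ω ≤ R'
          · have : ω ∈ {ω | Nk k ω ≤ R'} := h
            rw [Set.indicator_of_mem this]
            exact le_add_self
          · have h0 : Nk k ω ≠ 0 := by
              intro h0
              apply h
              rw [h0]; exact zero_le
            rw [ENNReal.div_self h0 (hLtop _ _)]
            exact le_self_add
      _ = ∫⁻ ω in Y, Nk k ω / Nk k ω ∂m + m ({ω | Nk k ω ≤ R'} ∩ Y) := by
          rw [lintegral_add_right _ (measurable_one.indicator mS1), lintegral_indicator_one mS1,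
            Measure.restrict_apply mS1]
  have hfinal : M ≤ 25 * ε := by
    calc M ≤ 6 * (4 * ε) + ε := hlow.trans (by gcongr)
      _ = 25 * ε := by ring
  have : 25 * ε = M / 4 := by
    rw [hε, ← mul_div_assoc, show (100 : ℝ≥0∞) = 25 * 4 by norm_num,
      ENNReal.mul_div_mul_left _ _ (by norm_num) (by norm_num)]
  rw [this] at hfinal
  have : M / 4 < M := by
    rw [ENNReal.div_lt_iff (Or.inl (by norm_num)) (Or.inl (by norm_num))]
    calc M = M * 1 := (mul_one _).symm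
      _ < M * 4 := by
        rw [ENNReal.mul_lt_mul_iff_right hY0 hYf]
        norm_num
  exact absurd hfinal (not_le.2 this)

end General

/-- A group with a paradoxical pair commuting with an element of infinite order is not measure
equivalent to a free group (exact form). -/
theorem adams_exact (H : Type u) [Group H] [Countable H] (α : Type) [Countable α]
    (hH : HasParadox H) : ¬ MEExact H (FreeGroup α) := by
  rintro ⟨Ω, _, _, m, _, _, hσ, hm0, hmH, hmF, hcomm, ⟨Z, hZm, hZf, hZ⟩, ⟨Y, hYm, hYf, hY⟩⟩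
  obtain ⟨p, x, y, W, hp, hpx, hpy, hyW, hxW⟩ := hH
  obtain ⟨χ, hχ0, hχs, hχe, hχt, hχsum, hχfin⟩ := exists_walls α
  have htop : ∀ g h, ∑' e, ENNReal.ofReal (χ g h e) ≠ ⊤ := fun g h =>
    (hχsum g h).tsum_ofReal_ne_top
  refine adams_core (Ω := Ω) (m := m) (H := H) (F := FreeGroup α) (I := α) hmH hmF hcomm hZm hZ
    hYm hYf.ne hY hm0 (fun g h e => ENNReal.ofReal (χ g h e)) ?_ ?_ ?_ htop ?_ p x y W hp hpx hpy
    hyW hxW
  · intro f g h k i
    simp only [hχe]
  · intro g h e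
    simp only [hχs g h]
  · intro g h g' h' e
    rw [← ENNReal.ofReal_add (hχ0 _ _ _) (hχ0 _ _ _),
      ← ENNReal.ofReal_add (hχ0 _ _ _) (add_nonneg (hχ0 _ _ _) (hχ0 _ _ _))]
    apply ENNReal.ofReal_le_ofReal
    have := (abs_le.1 (hχt g h g' h' e)).2
    linarith
  · intro R hR
    refine (hχfin R.toReal).subset ?_
    intro g hg
    simp only [Set.mem_ofPred_eq] at hg ⊢
    rw [← ENNReal.ofReal_tsum_of_nonneg (fun e => hχ0 _ _ e) (hχsum _ _)] at hg
    exact (ENNReal.ofReal_le_iff_le_toReal hR).1 hg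

theorem adams (H : Type u) [Group H] [Countable H] (hH : HasParadox H) : ¬ IsMEFree H := by
  rintro ⟨α, _, h⟩
  exact adams_exact H α hH h.exact

end MP6c9f91
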