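import Pool.Agent.MP6c9f91.Defs

/-!
# MP_6c9f91, package P3: elementary facts on virtual isomorphism (helper93)
-/

set_option autoImplicit false

open MeasureTheory Monoid

namespace MP6c9f91

universe u v w

/-- `p = 2n+3` divides `4n+6`, so `Γ` has elements of every odd prime order. -/
theorem Gam_torsion (p : ℕ) (hp : p.Prime) (h2 : 2 < p) : ∃ g : Gam, orderOf g = p := by
  have hodd : p % 2 = 1 := by
    rcases hp.eq_two_or_odd with h | h
    · omega
    · exact h
  obtain ⟨n, hn⟩ : ∃ n, p = 2 * n + 3 := ⟨(p - 3) / 2, by omega⟩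
  have hk : kk n = 2 * p := by unfold kk; omega
  have : Fact p.Prime := ⟨hp⟩
  let x : Π₀ n : ℕ, ZMod (kk n) := DFinsupp.single n (2 : ZMod (kk n))
  let d : DD := Multiplicative.ofAdd x
  have hd : orderOf d = p := by
    apply orderOf_eq_prime
    · have : p • x = 0 := by
        have h1 : p • x = DFinsupp.single n (p • (2 : ZMod (kk n))) := by
          rw [DFinsupp.single_smul]
        rw [h1]
        have h2' : p • (2 : ZMod (kk n)) = 0 := by
          have h3 : ((kk n : ℕ) : ZMod (kk n)) = 0 := ZMod.natCast_self _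
          rw [nsmul_eq_mul]
          calc (p : ZMod (kk n)) * 2 = ((2 * p : ℕ) : ZMod (kk n)) := by push_cast; ring
            _ = ((kk n : ℕ) : ZMod (kk n)) := by rw [hk]
            _ = 0 := h3
        rw [h2', DFinsupp.single_zero]
      show d ^ p = 1
      rw [← ofAdd_nsmul]
      rw [this]
      rfl
    · intro h
      have h1 : x = 0 := by
        have := congrArg Multiplicative.toAdd h
        exact this
      have h3 : (2 : ZMod (kk n)) = 0 := by
        have := DFunLike.congr_fun h1 n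
        simpa [x] using this
      have h4 : ((2 : ℕ) : ZMod (kk n)) = 0 := by exact_mod_cast h3
      rw [ZMod.natCast_eq_zero_iff] at h4
      have := Nat.le_of_dvd (by norm_num) h4
      unfold kk at this
      omega
  refine ⟨SemidirectProduct.inl (inc false d), ?_⟩
  rw [orderOf_injective (SemidirectProduct.inl : NN →* Gam) SemidirectProduct.inl_injective,
    orderOf_injective (inc false) (CoprodI.of_injective false)]
  exact hd

/-- `VirtIso` is symmetric. -/
theorem VirtIso.symm {Γ : Type u} {Λ : Type v} [Group Γ] [Group Λ] (h : VirtIso Γ Λ) :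
    VirtIso Λ Γ := by
  obtain ⟨Γ₀, Λ₀, N, M, hN, hM, h1, h2, h3, h4, ⟨e⟩⟩ := h
  exact ⟨Λ₀, Γ₀, M, N, hM, hN, h2, h1, h4, h3, ⟨e.symm⟩⟩

/-- an element of prime order larger than the index lies in the subgroup -/
theorem mem_of_orderOf_prime {G : Type u} [Group G] (H : Subgroup G) (hH : H.index ≠ 0) {p : ℕ}
    (hp : p.Prime) (hlt : H.index < p) {g : G} (hg : orderOf g = p) : g ∈ H := by
  obtain ⟨n, hn0, hn, hmem⟩ := H.exists_pow_mem_of_index_ne_zero hH g
  have hcop : Nat.Coprime n p := by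
    rw [Nat.coprime_comm, hp.coprime_iff_not_dvd]
    intro hd
    have := Nat.le_of_dvd hn0 hd
    omega
  rw [← hg] at hcop
  have h1 : g ∈ Subgroup.zpowers (g ^ n) := by
    obtain ⟨m, hm⟩ := exists_pow_eq_self_of_coprime hcop
    have h2 : (g ^ n) ^ m ∈ Subgroup.zpowers (g ^ n) :=
      Subgroup.pow_mem _ (Subgroup.mem_zpowers (g ^ n)) m
    rwa [hm] at h2
  exact (Subgroup.zpowers_le.2 hmem) h1

/-- Elements of prime order `p` for infinitely many primes `p` : invariant under virtual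
isomorphism. -/
theorem torsion_of_virtIso {Γ : Type u} {Λ : Type v} [Group Γ] [Group Λ] (h : VirtIso Γ Λ)
    (hΓ : ∀ n : ℕ, ∃ p > n, p.Prime ∧ ∃ g : Γ, orderOf g = p) :
    ∀ n : ℕ, ∃ p > n, p.Prime ∧ ∃ g : Λ, orderOf g = p := by
  obtain ⟨Γ₀, Λ₀, N, M, hN, hM, hi1, hi2, hf1, hf2, ⟨e⟩⟩ := h
  intro n
  obtain ⟨p, hpn, hp, g, hg⟩ := hΓ (max n (max Γ₀.index (Nat.card N)))
  have hpn' : n < p := lt_of_le_of_lt (le_max_left _ _) hpn
  have hp1 : Γ₀.index < p :=
    lt_of_le_of_lt (le_trans (le_max_left _ _) (le_max_right _ _)) hpn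
  have hp2 : Nat.card N < p :=
    lt_of_le_of_lt (le_trans (le_max_right _ _) (le_max_right _ _)) hpn
  have hmem : g ∈ Γ₀ := mem_of_orderOf_prime Γ₀ hi1.index_ne_zero hp hp1 hg
  have : Fact p.Prime := ⟨hp⟩
  let g₀ : Γ₀ := ⟨g, hmem⟩
  have hg₀ : orderOf g₀ = p := by
    rw [← hg]
    exact (orderOf_injective Γ₀.subtype Subtype.coe_injective g₀).symm
  have hg0N : g₀ ∉ N := by
    intro hmemN
    have h1 : orderOf (⟨g₀, hmemN⟩ : N) = p := by
      rw [← hg₀]
      exact (orderOf_injective N.subtype Subtype.coe_injective ⟨g₀, hmemN⟩).symm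
    have h2 : orderOf (⟨g₀, hmemN⟩ : N) ∣ Nat.card N := orderOf_dvd_natCard _
    rw [h1] at h2
    have := Nat.le_of_dvd Nat.card_pos h2
    omega
  have hq : orderOf (QuotientGroup.mk g₀ : Γ₀ ⧸ N) = p := by
    apply orderOf_eq_prime
    · rw [← QuotientGroup.mk_pow, ← hg₀, pow_orderOf_eq_one]
      rfl
    · intro h
      exact hg0N ((QuotientGroup.eq_one_iff g₀).1 h)
  have hq' : orderOf (e (QuotientGroup.mk g₀ : Γ₀ ⧸ N)) = p := by
    rw [← hq]
    exact orderOf_injective e.toMonoidHom e.injective _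
  obtain ⟨l, hl⟩ := QuotientGroup.mk_surjective (e (QuotientGroup.mk g₀ : Γ₀ ⧸ N))
  rw [← hl] at hq'
  -- `l ^ p ∈ M`, `M` finite, so `l` has finite order
  have hlp : l ^ p ∈ M := by
    rw [← QuotientGroup.eq_one_iff, QuotientGroup.mk_pow, ← hq', pow_orderOf_eq_one]
  have hfin : IsOfFinOrder l := by
    have h1 : IsOfFinOrder (⟨l ^ p, hlp⟩ : M) := isOfFinOrder_of_finite _
    have h2 : IsOfFinOrder (l ^ p) := by
      have := (M.subtype).isOfFinOrder h1
      exact this
    exact (isOfFinOrder_pow.1 h2).resolve_right hp.ne_zero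
  have hpos : 0 < orderOf l := hfin.orderOf_pos
  have hdvd : p ∣ orderOf l := by
    rw [← hq']
    exact orderOf_map_dvd (QuotientGroup.mk' M) l
  obtain ⟨k, hk⟩ := hdvd
  have hk0 : k ≠ 0 := by
    rintro rfl
    rw [mul_zero] at hk
    exact hpos.ne' hk
  refine ⟨p, hpn', hp, ((l ^ k : Λ₀) : Λ), ?_⟩
  have h1 : orderOf (l ^ k) = p := by
    rw [orderOf_pow_of_dvd hk0 ⟨p, by rw [hk]; ring⟩, hk]
    exact Nat.mul_div_cancel _ (Nat.pos_of_ne_zero hk0)
  rw [← h1]
  exact orderOf_injective Λ₀.subtype Subtype.coe_injective (l ^ k)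

/-- `F₂ × F₂` is torsion free. -/
theorem F22_torsion_free (x : F22) (n : ℕ) (hn : n ≠ 0) (h : x ^ n = 1) : x = 1 := by
  have h1 : x.1 ^ n = 1 := by rw [← Prod.pow_fst, h]; rfl
  have h2 : x.2 ^ n = 1 := by rw [← Prod.pow_snd, h]; rfl
  have h3 : x.1 = 1 := (pow_eq_one_iff_left hn).1 h1
  have h4 : x.2 = 1 := (pow_eq_one_iff_left hn).1 h2
  exact Prod.ext h3 h4

/-- extension of a finitely generated group by a finite (f.g.) group -/
theorem fg_of_extension {G : Type u} [Group G] (N : Subgroup G) [N.Normal] (hN : N.FG)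
    (hq : Group.FG (G ⧸ N)) : Group.FG G := by
  classical
  obtain ⟨S, hS, hSf⟩ := Group.fg_iff.1 hq
  obtain ⟨T, hT⟩ := hN
  let f : G ⧸ N → G := Quotient.out
  have hf : ∀ q, (QuotientGroup.mk (f q) : G ⧸ N) = q := fun q => Quotient.out_eq q
  refine Group.fg_iff.2 ⟨f '' S ∪ (T : Set G), ?_, (hSf.image f).union T.finite_toSet⟩
  rw [eq_top_iff]
  intro g _
  have hNle : N ≤ Subgroup.closure (f '' S ∪ (T : Set G)) :=
    hT.symm.le.trans (Subgroup.closure_mono Set.subset_union_right)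
  have hmap : (Subgroup.closure (f '' S ∪ (T : Set G))).map (QuotientGroup.mk' N) = ⊤ := by
    rw [eq_top_iff, ← hS, Subgroup.closure_le]
    intro s hs
    exact ⟨f s, Subgroup.subset_closure (Or.inl ⟨s, hs, rfl⟩), hf s⟩
  have hg : (QuotientGroup.mk' N g) ∈
      (Subgroup.closure (f '' S ∪ (T : Set G))).map (QuotientGroup.mk' N) := by
    rw [hmap]; trivial
  obtain ⟨y, hy, hyg⟩ := hg
  have h1 : y⁻¹ * g ∈ N := by
    have : (QuotientGroup.mk y : G ⧸ N) = QuotientGroup.mk g := hyg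
    exact QuotientGroup.eq.1 this
  have h2 : g = y * (y⁻¹ * g) := by group
  rw [h2]
  exact Subgroup.mul_mem _ hy (hNle h1)

/-- a group with a finitely generated subgroup of finite index is finitely generated -/
theorem fg_of_finiteIndex {G : Type u} [Group G] (H : Subgroup G) [H.FiniteIndex] (hH : H.FG) :
    Group.FG G := by
  classical
  obtain ⟨T, hT⟩ := hH
  have : Finite (G ⧸ H) := inferInstance
  let f : G ⧸ H → G := Quotient.out
  have hf : ∀ q, (QuotientGroup.mk (f q) : G ⧸ H) = q := fun q => Quotient.out_eq q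
  refine Group.fg_iff.2 ⟨Set.range f ∪ (T : Set G), ?_, (Set.finite_range f).union T.finite_toSet⟩
  rw [eq_top_iff]
  intro g _
  have hHle : H ≤ Subgroup.closure (Set.range f ∪ (T : Set G)) :=
    hT.symm.le.trans (Subgroup.closure_mono Set.subset_union_right)
  have h1 : (f (QuotientGroup.mk g))⁻¹ * g ∈ H :=
    QuotientGroup.eq.1 (hf (QuotientGroup.mk g))
  have h2 : g = f (QuotientGroup.mk g) * ((f (QuotientGroup.mk g))⁻¹ * g) := by group
  rw [h2]
  exact Subgroup.mul_mem _ (Subgroup.subset_closure (Or.inl ⟨_, rfl⟩)) (hHle h1)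

/-- A group virtually isomorphic to `F₂ × F₂` is finitely generated. -/
theorem F22_virtIso_fg {Λ : Type u} [Group Λ] (h : VirtIso F22 Λ) : Group.FG Λ := by
  obtain ⟨Γ₀, Λ₀, N, M, hN, hM, hi1, hi2, hf1, hf2, ⟨e⟩⟩ := h
  have : Group.FG Γ₀ := inferInstance
  have h1 : Group.FG (Γ₀ ⧸ N) := inferInstance
  have h2 : Group.FG (Λ₀ ⧸ M) := Group.fg_of_surjective (f := e.toMonoidHom) e.surjective
  have h3 : Group.FG Λ₀ := by
    refine fg_of_extension M ?_ h2
    rw [← Group.fg_iff_subgroup_fg]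
    exact inferInstance
  exact fg_of_finiteIndex Λ₀ ((Group.fg_iff_subgroup_fg Λ₀).1 h3)

/-- The finite subgroups of a group virtually isomorphic to `F₂ × F₂` have bounded order. -/
theorem F22_virtIso_finite {Λ : Type u} [Group Λ] (h : VirtIso F22 Λ) :
    ∃ q : ℕ, 0 < q ∧ ∀ Φ : Subgroup Λ, Finite Φ → Nat.card Φ ∣ q := by
  obtain ⟨Γ₀, Λ₀, N, M, hN, hM, hi1, hi2, hf1, hf2, ⟨e⟩⟩ := h
  -- `N` is trivial
  have hNbot : ∀ x ∈ N, x = 1 := by
    intro x hx
    have h1 : (⟨x, hx⟩ : N) ^ Nat.card N = 1 := pow_card_eq_one'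
    have h2 : x ^ Nat.card N = 1 := congrArg (Subtype.val : N → Γ₀) h1
    have h3 : (x : F22) ^ Nat.card N = 1 := congrArg (Subtype.val : Γ₀ → F22) h2
    exact Subtype.ext (F22_torsion_free _ _ Nat.card_pos.ne' h3)
  -- elements of finite order of `Λ₀` lie in `M`
  have hfinM : ∀ l : Λ₀, IsOfFinOrder l → l ∈ M := by
    intro l hl
    obtain ⟨g, hg⟩ := QuotientGroup.mk_surjective (e.symm (QuotientGroup.mk l : Λ₀ ⧸ M))
    have h1 : IsOfFinOrder (QuotientGroup.mk l : Λ₀ ⧸ M) :=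
      (QuotientGroup.mk' M).isOfFinOrder hl
    have h2 : IsOfFinOrder (e.symm (QuotientGroup.mk l : Λ₀ ⧸ M)) :=
      e.symm.toMonoidHom.isOfFinOrder h1
    rw [← hg] at h2
    obtain ⟨n, hn, hpow⟩ := isOfFinOrder_iff_pow_eq_one.1 h2
    have h3 : g ^ n ∈ N := by
      rw [← QuotientGroup.eq_one_iff, QuotientGroup.mk_pow, hpow]
    have h4 : g ^ n = 1 := hNbot _ h3
    have h5 : (g : F22) ^ n = 1 := congrArg (Subtype.val : Γ₀ → F22) h4
    have h6 : g = 1 := Subtype.ext (F22_torsion_free _ _ hn.ne' h5)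
    rw [h6] at hg
    have h7 : e.symm (QuotientGroup.mk l : Λ₀ ⧸ M) = 1 := by rw [← hg]; rfl
    have h8 : (QuotientGroup.mk l : Λ₀ ⧸ M) = 1 := by
      have := congrArg e h7
      simpa using this
    exact (QuotientGroup.eq_one_iff l).1 h8
  have hBpos : 0 < Λ₀.index * Nat.card M :=
    Nat.mul_pos (Nat.pos_of_ne_zero hi2.index_ne_zero) Nat.card_pos
  refine ⟨(Λ₀.index * Nat.card M).factorial, Nat.factorial_pos _, ?_⟩
  intro Φ hΦ
  apply Nat.dvd_factorial Nat.card_pos
  -- `|Φ| ≤ [Λ:Λ₀] |M|`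
  have h1 : Nat.card Φ = (Λ₀.subgroupOf Φ).index * Nat.card (Λ₀.subgroupOf Φ) := by
    rw [mul_comm]; exact (Subgroup.card_mul_index _).symm
  have h2 : (Λ₀.subgroupOf Φ).index ≤ Λ₀.index := by
    have h := Subgroup.relIndex_le_of_le_right (H := Λ₀) (K := Φ) (L := ⊤) le_top
      (by rw [Subgroup.relIndex_top_right]; exact hi2.index_ne_zero)
    rwa [Subgroup.relIndex_top_right] at h
  have h3 : Nat.card (Λ₀.subgroupOf Φ) ≤ Nat.card M := by
    let f : Λ₀.subgroupOf Φ → M := fun x =>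
      ⟨⟨(x : Φ).1, x.2⟩, by
        apply hfinM
        have hx : IsOfFinOrder x := isOfFinOrder_of_finite x
        have hx1 : IsOfFinOrder ((x : Φ) : Λ) :=
          Φ.subtype.isOfFinOrder ((Λ₀.subgroupOf Φ).subtype.isOfFinOrder hx)
        obtain ⟨n, hn, hpow⟩ := isOfFinOrder_iff_pow_eq_one.1 hx1
        refine isOfFinOrder_iff_pow_eq_one.2 ⟨n, hn, Subtype.ext ?_⟩
        simpa using hpow⟩
    apply Nat.card_le_card_of_injective f
    intro x y hxy
    have : ((x : Φ) : Λ) = ((y : Φ) : Λ) := by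
      have := congrArg (fun z : M => ((z : Λ₀) : Λ)) hxy
      exact this
    exact Subtype.ext (Subtype.ext this)
  rw [h1]
  exact Nat.mul_le_mul h2 h3

end MP6c9f91
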