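import Pool.Agent.MP6c9f91.NoComm
import Pool.Agent.MP6c9f91.VI

/-!
# MP_6c9f91, package T8b: the algebraic contradiction
-/

open Monoid

namespace MP6c9f91

universe u v w

/-! ## Generalities -/

section General

variable {K : Type u} [Group K]

/-- A subgroup whose cosets are separated by a function with finite range has finite index. -/
theorem finiteIndex_of_finite_range {X : Type v} (C : Subgroup K) (f : K → X)
    (hf : (Set.range f).Finite) (h : ∀ x y, f x = f y → x⁻¹ * y ∈ C) : C.FiniteIndex := by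
  rw [Subgroup.finiteIndex_iff_finite_quotient]
  have : Finite (Set.range f) := hf
  refine Finite.of_injective (β := Set.range f) (fun q => ⟨f q.out, q.out, rfl⟩) ?_
  intro q q' hqq
  have h1 : f q.out = f q'.out := congrArg Subtype.val hqq
  have h2 := h _ _ h1
  rw [← QuotientGroup.out_eq' q, ← QuotientGroup.out_eq' q']
  exact QuotientGroup.eq.2 h2

/-- If `S` is commensurated by `a⁻¹`, `a ∈ Q` normal and `S ⊓ Q` is finite then the centraliser of
`a` has finite index in `S`. -/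
theorem centralizer_relIndex_of_inf_finite (S Q : Subgroup K) (hQ : Q.Normal) (a : K) (ha : a ∈ Q)
    (hS : (S.map (MulAut.conj a⁻¹).toMonoidHom).relIndex S ≠ 0)
    (hfin : Finite (S ⊓ Q : Subgroup K)) : (Subgroup.centralizer {a}).relIndex S ≠ 0 := by
  set S₁ : Subgroup K := S.map (MulAut.conj a⁻¹).toMonoidHom ⊓ S with hS₁
  have h1 : S₁.relIndex S ≠ 0 := by rw [hS₁, Subgroup.inf_relIndex_right]; exact hS
  refine Subgroup.relIndex_ne_zero_trans (K := S₁) ?_ h1
  have h2 : ((Subgroup.centralizer {a}).subgroupOf S₁).FiniteIndex := by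
    refine finiteIndex_of_finite_range _
      (fun x : S₁ => a * (x : K) * a⁻¹ * (x : K)⁻¹) ?_ ?_
    · refine Set.Finite.subset (s := ((S ⊓ Q : Subgroup K) : Set K)) hfin ?_
      rintro _ ⟨x, rfl⟩
      obtain ⟨hx1, hx2⟩ := Subgroup.mem_inf.1 x.2
      obtain ⟨s, hs, hsx⟩ := hx1
      have hsx' : a⁻¹ * s * a = x := by
        rw [← hsx]; simp
      show a * (x : K) * a⁻¹ * (x : K)⁻¹ ∈ S ⊓ Q
      refine Subgroup.mem_inf.2 ⟨?_, ?_⟩
      · have h3 : a * (x : K) * a⁻¹ = s := by rw [← hsx']; group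
        rw [h3]
        exact S.mul_mem hs (S.inv_mem hx2)
      · have h3 : a * (x : K) * a⁻¹ * (x : K)⁻¹ = a * ((x : K) * a⁻¹ * (x : K)⁻¹) := by group
        rw [h3]
        exact Q.mul_mem ha (hQ.conj_mem _ (Q.inv_mem ha) _)
    · intro x y hxy
      rw [Subgroup.mem_subgroupOf, Subgroup.mem_centralizer_singleton_iff]
      show ((x : K)⁻¹ * (y : K)) * a = a * ((x : K)⁻¹ * (y : K))
      have h3 : a * (x : K) * a⁻¹ * (x : K)⁻¹ = a * (y : K) * a⁻¹ * (y : K)⁻¹ := hxy
      have h4 : (x : K) * a⁻¹ * (x : K)⁻¹ = (y : K) * a⁻¹ * (y : K)⁻¹ := by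
        have := congrArg (fun z => a⁻¹ * z) h3
        simpa [mul_assoc] using this
      have h5 : (x : K) * a * (x : K)⁻¹ = (y : K) * a * (y : K)⁻¹ := by
        have := congrArg (fun z => z⁻¹) h4
        simpa [mul_assoc] using this
      calc ((x : K)⁻¹ * (y : K)) * a = (x : K)⁻¹ * ((y : K) * a * (y : K)⁻¹) * y := by group
        _ = (x : K)⁻¹ * ((x : K) * a * (x : K)⁻¹) * y := by rw [h5]
        _ = _ := by group
  exact h2.index_ne_zero

/-- Commensuration passes to the intersection with a normal subgroup. -/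
theorem commensurated_inf (S Q : Subgroup K) (hQ : Q.Normal) (a : K)
    (hS : (S.map (MulAut.conj a).toMonoidHom).relIndex S ≠ 0) :
    ((S ⊓ Q).map (MulAut.conj a).toMonoidHom).relIndex (S ⊓ Q) ≠ 0 := by
  have h1 : (S ⊓ Q).map (MulAut.conj a).toMonoidHom =
      S.map (MulAut.conj a).toMonoidHom ⊓ Q := by
    ext x
    rw [Subgroup.mem_inf]
    constructor
    · rintro ⟨s, hs, rfl⟩
      exact ⟨⟨s, (Subgroup.mem_inf.1 hs).1, rfl⟩, hQ.conj_mem s (Subgroup.mem_inf.1 hs).2 a⟩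
    · rintro ⟨⟨s, hs, rfl⟩, h2⟩
      refine ⟨s, Subgroup.mem_inf.2 ⟨hs, ?_⟩, rfl⟩
      have h3 := hQ.conj_mem _ h2 a⁻¹
      have h4 : a⁻¹ * ((MulAut.conj a).toMonoidHom s) * a⁻¹⁻¹ = s := by
        show a⁻¹ * (a * s * a⁻¹) * a⁻¹⁻¹ = s
        group
      rwa [h4] at h3
  rw [h1]
  have h5 : (S.map (MulAut.conj a).toMonoidHom).relIndex (S ⊓ Q) ≠ 0 :=
    mt (Subgroup.relIndex_eq_zero_of_le_right inf_le_left) hS
  rw [← Subgroup.inf_relIndex_right] at h5 ⊢
  have h6 : S.map (MulAut.conj a).toMonoidHom ⊓ Q ⊓ (S ⊓ Q) =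
      S.map (MulAut.conj a).toMonoidHom ⊓ (S ⊓ Q) := by
    ext x; simp only [Subgroup.mem_inf]; tauto
  rw [h6]
  exact h5

theorem relIndex_map_ne_zero {K' : Type v} [Group K'] (f : K →* K') (H L : Subgroup K)
    (h : H.relIndex L ≠ 0) : (H.map f).relIndex (L.map f) ≠ 0 := by
  have h1 : (H.subgroupOf L).map (f.subgroupMap L) ≤ (H.map f).subgroupOf (L.map f) := by
    rintro _ ⟨x, hx, rfl⟩
    exact ⟨x, hx, rfl⟩
  have h2 : ((H.subgroupOf L).map (f.subgroupMap L)).index ≠ 0 := by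
    intro h0
    have h3 := Subgroup.index_map_dvd (H := H.subgroupOf L) (f := f.subgroupMap L)
      (f.subgroupMap_surjective L)
    rw [h0, zero_dvd_iff] at h3
    exact h h3
  have h4 : ((H.subgroupOf L).map (f.subgroupMap L)).FiniteIndex := ⟨h2⟩
  exact (Subgroup.finiteIndex_of_le h1).index_ne_zero

theorem map_conj_map {K' : Type v} [Group K'] (f : K →* K') (T : Subgroup K) (k : K) :
    (T.map f).map (MulAut.conj (f k)).toMonoidHom =
      (T.map (MulAut.conj k).toMonoidHom).map f := by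
  rw [Subgroup.map_map, Subgroup.map_map]
  congr 1
  ext x
  show f k * f x * (f k)⁻¹ = f (k * x * k⁻¹)
  rw [map_mul, map_mul, map_inv]

/-- Schur-Zassenhaus lifting of an elementary abelian group along a homomorphism with small
kernel. -/
theorem exists_lift_elementary {K' : Type v} [Group K'] (f : K →* K') [Finite f.ker]
    (p : ℕ) (hp : p.Prime) (hker : Nat.card f.ker < p) (B : Subgroup K') (hB : B ≤ f.range)
    [Finite B] (hcomm : ∀ a ∈ B, ∀ b ∈ B, a * b = b * a) (hexp : ∀ b ∈ B, b ^ p = 1)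
    (n : ℕ) (hcard : Nat.card B = p ^ n) :
    ∃ A : Subgroup K, Finite A ∧ (∀ a ∈ A, ∀ b ∈ A, a * b = b * a) ∧ (∀ a ∈ A, a ^ p = 1) ∧
      Nat.card A = p ^ n ∧ (∀ a ∈ A, f a = 1 → a = 1) ∧ (∀ a ∈ A, f a ∈ B) := by
  set E : Subgroup K := B.comap f with hE
  let g : E →* B := (f.comp E.subtype).codRestrict B (fun x => x.2)
  have hg : ∀ x : E, ((g x : B) : K') = f x := fun x => rfl
  have hgsurj : Function.Surjective g := by
    rintro ⟨b, hb⟩
    obtain ⟨k, rfl⟩ := hB hb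
    exact ⟨⟨k, hb⟩, rfl⟩
  let j : g.ker → f.ker := fun x => ⟨x.1.1, by
    have h1 : g x.1 = 1 := x.2
    have h2 := congrArg (Subtype.val : B → K') h1
    exact h2⟩
  have hj : Function.Injective j := by
    intro x y hxy
    exact Subtype.ext (Subtype.ext (congrArg (fun z : f.ker => (z : K)) hxy))
  have hkf : Finite g.ker := Finite.of_injective j hj
  have hkc : Nat.card g.ker < p := lt_of_le_of_lt (Nat.card_le_card_of_injective j hj) hker
  have hind : g.ker.index = p ^ n := by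
    rw [Subgroup.index_ker, MonoidHom.range_eq_top.2 hgsurj, ← hcard]
    exact Nat.card_congr Subgroup.topEquiv.toEquiv
  have hfi : g.ker.FiniteIndex := ⟨by rw [hind]; exact pow_ne_zero _ hp.ne_zero⟩
  have hEfin : Finite E := (Subgroup.finite_iff_finite_and_finiteIndex g.ker).2 ⟨hkf, hfi⟩
  have hcop : Nat.Coprime (Nat.card g.ker) g.ker.index := by
    rw [hind]
    apply Nat.Coprime.pow_right
    rw [Nat.coprime_comm, hp.coprime_iff_not_dvd]
    intro hd
    have := Nat.le_of_dvd Nat.card_pos hd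
    omega
  obtain ⟨H, hH⟩ := Subgroup.exists_right_complement'_of_coprime hcop
  have hHcard : Nat.card H = p ^ n := by
    rw [← hind]; exact hH.symm.index_eq_card.symm
  have hinj : ∀ x ∈ H, g x = 1 → x = 1 := by
    intro x hx h1
    have h2 : x ∈ g.ker ⊓ H := Subgroup.mem_inf.2 ⟨h1, hx⟩
    rw [hH.disjoint.eq_bot] at h2
    exact Subgroup.mem_bot.1 h2
  have hinj' : ∀ a ∈ H.map E.subtype, f a = 1 → a = 1 := by
    rintro _ ⟨x, hx, rfl⟩ h1
    have h2 := hinj x hx (Subtype.ext h1)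
    rw [h2]; rfl
  have hmem : ∀ a ∈ H.map E.subtype, f a ∈ B := by
    rintro _ ⟨x, hx, rfl⟩
    exact x.2
  refine ⟨H.map E.subtype, ?_, ?_, ?_, ?_, hinj', hmem⟩
  · have : Finite H := inferInstance
    exact Set.Finite.image _ (Set.toFinite (H : Set E))
  · intro a ha b hb
    have h1 : f (a * b * (b * a)⁻¹) = 1 := by
      rw [map_mul, map_inv, map_mul, map_mul, hcomm _ (hmem a ha) _ (hmem b hb), mul_inv_cancel]
    have h2 := hinj' _ (Subgroup.mul_mem _ (Subgroup.mul_mem _ ha hb)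
      (Subgroup.inv_mem _ (Subgroup.mul_mem _ hb ha))) h1
    exact mul_inv_eq_one.1 h2
  · intro a ha
    have h1 : f (a ^ p) = 1 := by rw [map_pow]; exact hexp _ (hmem a ha)
    exact hinj' _ (Subgroup.pow_mem _ ha p) h1
  · rw [← hHcard]
    exact (Nat.card_congr (H.equivMapOfInjective E.subtype E.subtype_injective).toEquiv).symm

end General

/-! ## Elementary abelian subgroups of `DD` -/

section Elem

theorem kk_eq (p : ℕ) (h3 : p % 2 = 1) (j : ℕ) (hp3 : 3 ≤ p) :
    kk ((p * (2 * j + 1) - 3) / 2) = p * (2 * (2 * j + 1)) := by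
  have h1 : p * (2 * j + 1) % 2 = 1 := by
    rw [Nat.mul_mod, h3]; omega
  have h2 : 3 ≤ p * (2 * j + 1) := by nlinarith
  unfold kk
  have h4 : p * (2 * (2 * j + 1)) = 2 * (p * (2 * j + 1)) := by ring
  rw [h4]
  omega

/-- the embedding of `ℤ/p` into `ℤ/k` for `k = p m` -/
def embZ (p m k : ℕ) (h : k = p * m) : ZMod p →+ ZMod k :=
  ZMod.lift p ⟨zmultiplesHom (ZMod k) ((m : ℕ) : ZMod k), by
    subst h
    rw [zmultiplesHom_apply, zsmul_eq_mul]
    exact_mod_cast ZMod.natCast_self (p * m)⟩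

theorem embZ_injective (p m k : ℕ) (h : k = p * m) (hm : 0 < m) :
    Function.Injective (embZ p m k h) := by
  unfold embZ
  rw [ZMod.lift_injective]
  intro t ht
  have h1 : t • ((m : ℕ) : ZMod k) = 0 := ht
  have h2 : ((t * m : ℤ) : ZMod k) = 0 := by
    push_cast
    rw [← zsmul_eq_mul]
    exact h1
  rw [ZMod.intCast_zmod_eq_zero_iff_dvd] at h2
  rw [ZMod.intCast_zmod_eq_zero_iff_dvd]
  rw [h] at h2
  push_cast at h2
  exact Int.dvd_of_mul_dvd_mul_right (by exact_mod_cast hm.ne') h2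

/-- `DD` contains elementary abelian `p`-groups of every rank. -/
theorem exists_elementary (p : ℕ) (hp : p.Prime) (h2 : 2 < p) (n : ℕ) :
    ∃ B : Subgroup DD, Finite B ∧ (∀ b ∈ B, b ^ p = 1) ∧ Nat.card B = p ^ n := by
  classical
  have hfact : Fact p.Prime := ⟨hp⟩
  have hodd : p % 2 = 1 := by
    rcases hp.eq_two_or_odd with h | h
    · omega
    · exact h
  let c : Fin n → ℕ := fun j => (p * (2 * (j : ℕ) + 1) - 3) / 2
  have hc : ∀ j : Fin n, kk (c j) = p * (2 * (2 * (j : ℕ) + 1)) :=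
    fun j => kk_eq p hodd j h2
  have hcinj : Function.Injective c := by
    intro a b hab
    have h1 : p * (2 * (2 * (a : ℕ) + 1)) = p * (2 * (2 * (b : ℕ) + 1)) := by
      rw [← hc a, ← hc b, hab]
    have h3 := Nat.eq_of_mul_eq_mul_left hp.pos h1
    apply Fin.ext
    omega
  let G : Fin n → ((Fin n → ZMod p) →+ Π₀ k : ℕ, ZMod (kk k)) := fun j =>
    ((DFinsupp.singleAddHom (fun k : ℕ => ZMod (kk k)) (c j)).comp
      (embZ p _ _ (hc j))).comp (Pi.evalAddMonoidHom (fun _ : Fin n => ZMod p) j)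
  let g : (Fin n → ZMod p) →+ Π₀ k : ℕ, ZMod (kk k) := ∑ j, G j
  have hG : ∀ i v, G i v = DFinsupp.single (c i) (embZ p _ _ (hc i) (v i)) := fun i v => rfl
  have hg : ∀ v j, g v (c j) = embZ p _ _ (hc j) (v j) := by
    intro v j
    have h1 : g v = ∑ i, G i v := by
      simp [g]
    rw [h1, DFinsupp.finsetSum_apply, Finset.sum_eq_single j]
    · rw [hG, DFinsupp.single_eq_same]
    · intro i _ hij
      rw [hG]
      exact DFinsupp.single_eq_of_ne (fun h => hij (hcinj h).symm)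
    · intro h; exact absurd (Finset.mem_univ j) h
  have hginj : Function.Injective g := by
    intro v v' h
    funext j
    apply embZ_injective p _ _ (hc j) (by positivity)
    rw [← hg, ← hg, h]
  let f : Multiplicative (Fin n → ZMod p) →* DD := AddMonoidHom.toMultiplicative g
  have hf : Function.Injective f := hginj
  refine ⟨f.range, ?_, ?_, ?_⟩
  · exact Set.toFinite (Set.range f)
  · rintro _ ⟨x, rfl⟩
    rw [← map_pow]
    have h1 : x ^ p = 1 := by
      have h3 : p • (Multiplicative.toAdd x) = 0 := by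
        funext j
        rw [Pi.smul_apply, Pi.zero_apply, nsmul_eq_mul, ZMod.natCast_self, zero_mul]
      exact h3
    rw [h1, map_one]
  · have h1 : Nat.card f.range = Nat.card (Multiplicative (Fin n → ZMod p)) :=
      (Nat.card_congr (MonoidHom.ofInjective hf).toEquiv).symm
    rw [h1]
    have h3 : Nat.card (Multiplicative (Fin n → ZMod p)) = Nat.card (Fin n → ZMod p) := rfl
    rw [h3, Nat.card_fun]
    simp

end Elem

/-! ## Elements of `Gam` commuting with elements of the four factors -/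

theorem Gam_eq_one_of_commute {x₁ x₂ x₃ x₄ : DD} (h₁ : x₁ ≠ 1) (h₂ : x₂ ≠ 1) (h₃ : x₃ ≠ 1)
    (h₄ : x₄ ≠ 1) (g : Gam) (c₁ : Commute g (iN (inc false x₁)))
    (c₂ : Commute g (iN (inc true x₂))) (c₃ : Commute g (iR (inc false x₃)))
    (c₄ : Commute g (iR (inc true x₄))) : g = 1 := by
  have hr : g.right = 1 := by
    have e₃ : Commute g.right (inc false x₃) := c₃.map rH
    have e₄ : Commute g.right (inc true x₄) := c₄.map rH
    obtain ⟨y, hy⟩ := mem_range_of_commute false x₃ h₃ _ e₃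
    obtain ⟨z, hz⟩ := mem_range_of_commute true x₄ h₄ _ e₄
    have h := inc_inter (hy.trans hz.symm)
    rw [← hy, h.1, map_one]
  have hg : g = iN g.left := by
    apply SemidirectProduct.ext
    · rfl
    · exact hr
  have e₁ : Commute g.left (inc false x₁) := by
    rw [hg] at c₁
    have h := c₁.eq
    rw [← map_mul, ← map_mul] at h
    exact iN_injective h
  have e₂ : Commute g.left (inc true x₂) := by
    rw [hg] at c₂
    have h := c₂.eq
    rw [← map_mul, ← map_mul] at h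
    exact iN_injective h
  obtain ⟨y, hy⟩ := mem_range_of_commute false x₁ h₁ _ e₁
  obtain ⟨z, hz⟩ := mem_range_of_commute true x₂ h₂ _ e₂
  have h := inc_inter (hy.trans hz.symm)
  have hl : g.left = 1 := by rw [← hy, h.1, map_one]
  rw [hg, hl, map_one]

/-! ## The homomorphism of a virtual isomorphism -/

theorem exists_hom_of_virtIso {Λ : Type u} [Group Λ] (h : VirtIso Gam Λ) :
    ∃ (Λ₀ : Subgroup Λ) (φ : Λ₀ →* Gam), Λ₀.FiniteIndex ∧ Finite φ.ker ∧
      φ.range.FiniteIndex := by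
  obtain ⟨Γ₀, P₀, N, M, hN, hM, hΓ₀, hP₀, hNf, hMf, ⟨e⟩⟩ := h
  have hNbot : N = ⊥ := by
    have hfin : Finite (N.map Γ₀.subtype) := by
      refine Finite.of_surjective (α := N) (fun n => ⟨Γ₀.subtype n, n, n.2, rfl⟩) ?_
      rintro ⟨_, n, hn, rfl⟩
      exact ⟨⟨n, hn⟩, rfl⟩
    have h1 := Gam_finite_normal Γ₀ (N.map Γ₀.subtype) (by
      rintro l hl _ ⟨m, hm, rfl⟩
      refine ⟨(⟨l, hl⟩ : Γ₀) * m * (⟨l, hl⟩ : Γ₀)⁻¹, hN.conj_mem m hm ⟨l, hl⟩, ?_⟩
      rw [map_mul, map_mul, map_inv]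
      rfl)
    exact (Subgroup.map_eq_bot_iff_of_injective N Γ₀.subtype_injective).1 h1
  have hle : N ≤ Γ₀.subtype.ker := by rw [hNbot]; exact bot_le
  set ψ : Γ₀ ⧸ N →* Gam := QuotientGroup.lift N Γ₀.subtype hle with hψ
  set φ : P₀ →* Gam := ψ.comp ((e.symm : (P₀ ⧸ M) →* (Γ₀ ⧸ N)).comp (QuotientGroup.mk' M)) with hφ
  have hψinj : Function.Injective ψ := by
    rw [injective_iff_map_eq_one]
    intro a
    refine QuotientGroup.induction_on a fun g => ?_
    intro hg
    have h1 : (g : Gam) = 1 := hg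
    have h2 : g = 1 := Subtype.ext h1
    rw [h2]; rfl
  refine ⟨P₀, φ, hP₀, ?_, ?_⟩
  · refine Finite.of_injective (β := M) (fun x => ⟨x.1, ?_⟩) ?_
    · have h1 : ψ (e.symm (QuotientGroup.mk' M x.1)) = 1 := x.2
      have h2 : e.symm (QuotientGroup.mk' M x.1) = 1 := hψinj (by rw [h1, map_one])
      have h3 : QuotientGroup.mk' M x.1 = 1 := e.symm.injective (by rw [h2, map_one])
      exact (QuotientGroup.eq_one_iff _).1 h3
    · intro a b hab
      exact Subtype.ext (congrArg (fun z : M => (z : P₀)) hab)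
  · refine Subgroup.finiteIndex_of_le (H := Γ₀) ?_
    intro g hg
    obtain ⟨x, hx⟩ := QuotientGroup.mk'_surjective M (e (QuotientGroup.mk' N ⟨g, hg⟩))
    refine ⟨x, ?_⟩
    show ψ (e.symm (QuotientGroup.mk' M x)) = g
    rw [hx, MulEquiv.symm_apply_apply]
    rfl

/-! ## The contradiction -/

/-- A nontrivial element of `Q` over a factor. -/
theorem exists_mem_over {Λ : Type u} [Group Λ] (Λ₀ : Subgroup Λ) (φ : Λ₀ →* Gam)
    (hker : Finite φ.ker) (hran : φ.range.FiniteIndex) (D : DD →* Gam)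
    (hD : Function.Injective D) (Q : Subgroup Λ) (d : ℕ)
    (hA : ∀ p : ℕ, p.Prime → ∀ A : Subgroup Λ, Finite A → (∀ a ∈ A, ∀ b ∈ A, a * b = b * a) →
        (∀ a ∈ A, a ^ p = 1) → p ^ d < Nat.card A → ∃ a ∈ A, a ≠ 1 ∧ a ∈ Q) :
    ∃ (a : Λ₀) (x : DD), x ≠ 1 ∧ (a : Λ) ∈ Q ∧ φ a = D x := by
  obtain ⟨p, hpn, hp⟩ := Nat.exists_infinite_primes (Nat.card φ.ker + φ.range.index + 3)
  obtain ⟨B₀, hB₀f, hB₀e, hB₀c⟩ := exists_elementary p hp (by omega) (d + 1)
  have hBf : Finite (B₀.map D) := Set.Finite.image _ (Set.toFinite (B₀ : Set DD))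
  have hBc : Nat.card (B₀.map D) = p ^ (d + 1) := by
    rw [← hB₀c]
    exact (Nat.card_congr (B₀.equivMapOfInjective D hD).toEquiv).symm
  have hBr : B₀.map D ≤ φ.range := by
    rintro _ ⟨b, hb, rfl⟩
    by_cases hb1 : b = 1
    · rw [hb1, map_one]; exact Subgroup.one_mem _
    · refine mem_of_orderOf_prime φ.range hran.index_ne_zero hp (by omega) ?_
      have : Fact p.Prime := ⟨hp⟩
      refine orderOf_eq_prime ?_ ?_
      · rw [← map_pow, hB₀e b hb, map_one]
      · intro h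
        exact hb1 (hD (h.trans (map_one D).symm))
  obtain ⟨A, hAf, hAcomm, hAexp, hAcard, hAinj, hAB⟩ :=
    exists_lift_elementary φ p hp (by omega) (B₀.map D) hBr
      (by
        rintro _ ⟨a, _, rfl⟩ _ ⟨b, _, rfl⟩
        rw [← map_mul, ← map_mul, mul_comm])
      (by
        rintro _ ⟨a, ha, rfl⟩
        rw [← map_pow, hB₀e a ha, map_one]) (d + 1) hBc
  obtain ⟨a, ha, ha1, haQ⟩ := hA p hp (A.map Λ₀.subtype)
    (Set.Finite.image _ (Set.toFinite (A : Set Λ₀)))
    (by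
      rintro _ ⟨a, ha, rfl⟩ _ ⟨b, hb, rfl⟩
      rw [← map_mul, ← map_mul, hAcomm a ha b hb])
    (by
      rintro _ ⟨a, ha, rfl⟩
      rw [← map_pow, hAexp a ha, map_one])
    (by
      have h1 : Nat.card (A.map Λ₀.subtype) = p ^ (d + 1) := by
        rw [← hAcard]
        exact (Nat.card_congr (A.equivMapOfInjective Λ₀.subtype Λ₀.subtype_injective).toEquiv).symm
      rw [h1]
      exact Nat.pow_lt_pow_right hp.one_lt (Nat.lt_succ_self d))
  obtain ⟨a₀, ha₀, rfl⟩ := ha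
  obtain ⟨b, hb, hbeq⟩ := hAB a₀ ha₀
  refine ⟨a₀, b, ?_, haQ, hbeq.symm⟩
  rintro rfl
  apply ha1
  rw [map_one] at hbeq
  rw [hAinj a₀ ha₀ hbeq.symm, map_one]

theorem alg_contradiction {Λ : Type u} [Group Λ] (h : VirtIso Gam Λ) (S Q : Subgroup Λ)
    (hQ : Q.Normal) (hS : ∀ g : Λ, (S.map (MulAut.conj g).toMonoidHom).relIndex S ≠ 0)
    (hSinf : Infinite S) (F : Set Λ) (hF : F.Finite)
    (hc : ∀ a ∈ S ⊓ Q, ∀ b ∈ S ⊓ Q, a * b * a⁻¹ * b⁻¹ ∈ F) (d : ℕ)
    (hA : ∀ p : ℕ, p.Prime → ∀ A : Subgroup Λ, Finite A → (∀ a ∈ A, ∀ b ∈ A, a * b = b * a) →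
        (∀ a ∈ A, a ^ p = 1) → p ^ d < Nat.card A → ∃ a ∈ A, a ≠ 1 ∧ a ∈ Q) : False := by
  obtain ⟨Λ₀, φ, hΛ₀, hker, hran⟩ := exists_hom_of_virtIso h
  -- elements over the four factors
  have hiR : Function.Injective iR := SemidirectProduct.inr_injective
  obtain ⟨a₁, x₁, hx₁, hq₁, he₁⟩ := exists_mem_over Λ₀ φ hker hran (iN.comp (inc false))
    (iN_injective.comp (inc_injective false)) Q d hA
  obtain ⟨a₂, x₂, hx₂, hq₂, he₂⟩ := exists_mem_over Λ₀ φ hker hran (iN.comp (inc true))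
    (iN_injective.comp (inc_injective true)) Q d hA
  obtain ⟨a₃, x₃, hx₃, hq₃, he₃⟩ := exists_mem_over Λ₀ φ hker hran (iR.comp (inc false))
    (hiR.comp (inc_injective false)) Q d hA
  obtain ⟨a₄, x₄, hx₄, hq₄, he₄⟩ := exists_mem_over Λ₀ φ hker hran (iR.comp (inc true))
    (hiR.comp (inc_injective true)) Q d hA
  -- restriction to `Λ₀`
  set S' : Subgroup Λ₀ := S.subgroupOf Λ₀ with hS'
  set Q' : Subgroup Λ₀ := Q.subgroupOf Λ₀ with hQ'
  have hQ'n : Q'.Normal := hQ.subgroupOf Λ₀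
  have hS'inf : Infinite S' := by
    by_contra hcon
    rw [not_infinite_iff_finite] at hcon
    have h1 : Finite (Λ₀.subgroupOf S) := by
      refine Finite.of_injective (β := S') (fun x => ⟨⟨x.1.1, x.2⟩, x.1.2⟩) ?_
      intro x y hxy
      have h2 : x.1.1 = y.1.1 := congrArg (fun z : S' => ((z : Λ₀) : Λ)) hxy
      exact Subtype.ext (Subtype.ext h2)
    have h2 : Finite S :=
      (Subgroup.finite_iff_finite_and_finiteIndex (Λ₀.subgroupOf S)).2 ⟨h1, inferInstance⟩
    exact not_finite S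
  have hS'c : ∀ k : Λ₀, (S'.map (MulAut.conj k).toMonoidHom).relIndex S' ≠ 0 := by
    intro k
    have h1 : S'.map (MulAut.conj k).toMonoidHom =
        (S.map (MulAut.conj (k : Λ)).toMonoidHom).subgroupOf Λ₀ := by
      ext x
      rw [Subgroup.mem_subgroupOf]
      constructor
      · rintro ⟨s, hs, rfl⟩
        exact ⟨s, hs, rfl⟩
      · rintro ⟨s, hs, hsx⟩
        have hsx' : (k : Λ) * s * (k : Λ)⁻¹ = x := hsx
        have h2 : s = (k : Λ)⁻¹ * x * k := by rw [← hsx']; group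
        refine ⟨k⁻¹ * x * k, ?_, ?_⟩
        · show ((k⁻¹ * x * k : Λ₀) : Λ) ∈ S
          have h3 : ((k⁻¹ * x * k : Λ₀) : Λ) = s := by rw [h2]; rfl
          rw [h3]; exact hs
        · show k * (k⁻¹ * x * k) * k⁻¹ = x
          group
    have h4 : S' = (S ⊓ Λ₀).subgroupOf Λ₀ := by
      rw [hS', Subgroup.inf_subgroupOf_right]
    rw [h1, h4, Subgroup.relIndex_subgroupOf inf_le_right]
    exact mt (Subgroup.relIndex_eq_zero_of_le_right inf_le_left) (hS k)
  have hinf : Infinite (S' ⊓ Q' : Subgroup Λ₀) := by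
    by_contra hcon
    rw [not_infinite_iff_finite] at hcon
    have h1 : ∀ a ∈ Q', (Subgroup.centralizer {a}).relIndex S' ≠ 0 := fun a ha =>
      centralizer_relIndex_of_inf_finite S' Q' hQ'n a ha (hS'c a⁻¹) hcon
    have h2 : (Subgroup.centralizer {a₁} ⊓ Subgroup.centralizer {a₂} ⊓
        (Subgroup.centralizer {a₃} ⊓ Subgroup.centralizer {a₄})).relIndex S' ≠ 0 :=
      Subgroup.relIndex_inf_ne_zero (Subgroup.relIndex_inf_ne_zero (h1 a₁ hq₁) (h1 a₂ hq₂))
        (Subgroup.relIndex_inf_ne_zero (h1 a₃ hq₃) (h1 a₄ hq₄))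
    set C := Subgroup.centralizer {a₁} ⊓ Subgroup.centralizer {a₂} ⊓
        (Subgroup.centralizer {a₃} ⊓ Subgroup.centralizer {a₄}) with hC
    have hCker : ∀ x ∈ C, x ∈ φ.ker := by
      intro x hx
      rw [hC, Subgroup.mem_inf, Subgroup.mem_inf, Subgroup.mem_inf,
        Subgroup.mem_centralizer_singleton_iff, Subgroup.mem_centralizer_singleton_iff,
        Subgroup.mem_centralizer_singleton_iff, Subgroup.mem_centralizer_singleton_iff] at hx
      obtain ⟨⟨c₁, c₂⟩, c₃, c₄⟩ := hx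
      have d₁ : Commute (φ x) (φ a₁) := Commute.map c₁ φ
      have d₂ : Commute (φ x) (φ a₂) := Commute.map c₂ φ
      have d₃ : Commute (φ x) (φ a₃) := Commute.map c₃ φ
      have d₄ : Commute (φ x) (φ a₄) := Commute.map c₄ φ
      rw [he₁] at d₁
      rw [he₂] at d₂
      rw [he₃] at d₃
      rw [he₄] at d₄
      exact Gam_eq_one_of_commute hx₁ hx₂ hx₃ hx₄ _ d₁ d₂ d₃ d₄
    have h3 : (C.subgroupOf S').FiniteIndex := ⟨h2⟩
    have h4 : Finite (C.subgroupOf S') := by
      refine Finite.of_injective (β := φ.ker) (fun x => ⟨x.1.1, hCker _ x.2⟩) ?_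
      intro x y hxy
      exact Subtype.ext (Subtype.ext (congrArg (fun z : φ.ker => (z : Λ₀)) hxy))
    have h5 : Finite S' :=
      (Subgroup.finite_iff_finite_and_finiteIndex (C.subgroupOf S')).2 ⟨h4, h3⟩
    exact not_finite S'
  -- the image in `Gam`
  set T : Subgroup Gam := (S' ⊓ Q').map φ with hT
  have hTinf : Infinite T := by
    by_contra hcon
    rw [not_infinite_iff_finite] at hcon
    let g : (S' ⊓ Q' : Subgroup Λ₀) →* T := φ.subgroupMap (S' ⊓ Q')
    have h1 : Finite g.ker := by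
      refine Finite.of_injective (β := φ.ker) (fun x => ⟨x.1.1, ?_⟩) ?_
      · have h2 : g x.1 = 1 := x.2
        exact congrArg (Subtype.val : T → Gam) h2
      · intro x y hxy
        exact Subtype.ext (Subtype.ext (congrArg (fun z : φ.ker => (z : Λ₀)) hxy))
    have h2 : g.ker.FiniteIndex := inferInstance
    have h3 : Finite (S' ⊓ Q' : Subgroup Λ₀) :=
      (Subgroup.finite_iff_finite_and_finiteIndex g.ker).2 ⟨h1, h2⟩
    exact not_finite (S' ⊓ Q' : Subgroup Λ₀)
  refine Gam_no_commensurated φ.range T hTinf ?_ (φ '' {x : Λ₀ | (x : Λ) ∈ F}) ?_ ?_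
  · rintro _ ⟨k, rfl⟩
    rw [hT, map_conj_map]
    exact relIndex_map_ne_zero φ _ _ (commensurated_inf S' Q' hQ'n k (hS'c k))
  · refine Set.Finite.image _ ?_
    exact hF.preimage (Subtype.val_injective.injOn)
  · rintro _ ⟨s, hs, rfl⟩ _ ⟨t, ht, rfl⟩
    refine ⟨s * t * s⁻¹ * t⁻¹, ?_, ?_⟩
    · exact hc s (Subgroup.mem_inf.2 ⟨(Subgroup.mem_inf.1 hs).1, (Subgroup.mem_inf.1 hs).2⟩)
        t (Subgroup.mem_inf.2 ⟨(Subgroup.mem_inf.1 ht).1, (Subgroup.mem_inf.1 ht).2⟩)
    · rw [map_mul, map_mul, map_mul, map_inv, map_inv]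

end MP6c9f91
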