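import Pool.Agent.MP6c9f91.GamAlg

/-!
# Clause 1: `Gam` is not virtually a group between a direct sum and a direct product of groups
measure equivalent to free groups
-/

open MeasureTheory Monoid

namespace MP6c9f91

universe u v w

/-! ## Countability -/

instance : Countable DD :=
  inferInstanceAs (Countable (Π₀ n : ℕ, ZMod (kk n)))

instance : Countable NN := by
  classical
  have : Function.Injective
      (fun w : Monoid.CoprodI.Word (fun _ : Bool => DD) => w.toList) := by
    intro a b h
    exact Monoid.CoprodI.Word.ext h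
  have h2 : Countable (Monoid.CoprodI.Word (fun _ : Bool => DD)) := this.countable
  exact (Monoid.CoprodI.Word.equiv (M := fun _ : Bool => DD)).injective.countable

instance : Countable Gam :=
  (SemidirectProduct.equivProd (N := NN) (G := NN) (φ := theta)).injective.countable

theorem countable_of_subgroup {G : Type*} [Group G] (K : Subgroup G) (h1 : Countable K)
    (h2 : Countable (G ⧸ K)) : Countable G :=
  (Subgroup.groupEquivQuotientProdSubgroup (s := K)).injective.countable

theorem countable_of_hom {G : Type*} [Group G] {G' : Type*} [Group G'] [Countable G']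
    (f : G →* G') (h : Countable f.ker) : Countable G := by
  refine countable_of_subgroup f.ker h ?_
  exact (QuotientGroup.kerLift_injective f).countable

theorem finite_of_subgroup {G : Type*} [Group G] (K : Subgroup G) (h1 : Finite K)
    (h2 : K.FiniteIndex) : Finite G := (Subgroup.finite_iff_finite_and_finiteIndex K).2 ⟨h1, h2⟩

/-! ## Splittings -/

section Split

variable {P : Type*} [Group P] {G : Type*} [Group G]

/-- The fixed points of an endomorphism in a subgroup. -/
def fixIn (P₀ : Subgroup P) (α : P →* P) : Subgroup P₀ where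
  carrier := {x | α x = x}
  mul_mem' := by
    intro a b ha hb
    show α ((a : P) * b) = (a : P) * b
    rw [map_mul]
    exact congrArg₂ (· * ·) ha hb
  one_mem' := by
    show α ((1 : P₀) : P) = ((1 : P₀) : P)
    rw [Subgroup.coe_one, map_one]
  inv_mem' := by
    intro a ha
    show α ((a⁻¹ : P₀) : P) = ((a⁻¹ : P₀) : P)
    rw [Subgroup.coe_inv, map_inv]
    exact congrArg Inv.inv ha

theorem fixIn_sup_finiteIndex (P₀ : Subgroup P) [P₀.FiniteIndex] (α β : P →* P)
    (h : ∀ x, α x * β x = x) (hα : ∀ x, α (α x) = α x) (hβ : ∀ x, β (β x) = β x) :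
    (fixIn P₀ α ⊔ fixIn P₀ β).FiniteIndex := by
  have h1 : (P₀.comap α).FiniteIndex := finiteIndex_comap α P₀
  have h2 : (P₀.comap β).FiniteIndex := finiteIndex_comap β P₀
  have h3 : ((P₀.comap α ⊓ P₀.comap β).subgroupOf P₀).FiniteIndex := inferInstance
  refine Subgroup.finiteIndex_of_le (H := (P₀.comap α ⊓ P₀.comap β).subgroupOf P₀) ?_
  intro x hx
  obtain ⟨hx1, hx2⟩ := Subgroup.mem_inf.1 (Subgroup.mem_subgroupOf.1 hx)
  have e : x = (⟨α x, hx1⟩ : P₀) * ⟨β x, hx2⟩ := Subtype.ext (h x).symm
  rw [e]
  refine Subgroup.mul_mem _ (Subgroup.mem_sup_left ?_) (Subgroup.mem_sup_right ?_)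
  · exact hα x
  · exact hβ x

end Split

/-! ## The main argument -/

section Main

variable {ι : Type u} [DecidableEq ι] {H : ι → Type v} [∀ i, Group (H i)]

/-- The inclusion of the factor `j` in `P`. -/
def inj (P : Subgroup (∀ i, H i)) (hP : ∀ i (h : H i), Pi.mulSingle i h ∈ P) (j : ι) : H j →* P :=
  (MonoidHom.mulSingle H j).codRestrict P (hP j)

theorem inj_coe (P : Subgroup (∀ i, H i)) (hP : ∀ i (h : H i), Pi.mulSingle i h ∈ P) (j : ι)
    (h : H j) : ((inj P hP j h : P) : ∀ i, H i) = Pi.mulSingle j h := rfl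

/-- The evaluation at `j` on `P`. -/
def ev (P : Subgroup (∀ i, H i)) (j : ι) : P →* H j := (Pi.evalMonoidHom H j).comp P.subtype

theorem ev_inj (P : Subgroup (∀ i, H i)) (hP : ∀ i (h : H i), Pi.mulSingle i h ∈ P) (j : ι)
    (h : H j) : ev P j (inj P hP j h) = h := by
  show Pi.mulSingle j h j = h
  exact Pi.mulSingle_eq_same j h

/-- The projection to the factor `j`. -/
def al (P : Subgroup (∀ i, H i)) (hP : ∀ i (h : H i), Pi.mulSingle i h ∈ P) (j : ι) : P →* P :=
  (inj P hP j).comp (ev P j)

theorem al_coe_same (P : Subgroup (∀ i, H i)) (hP : ∀ i (h : H i), Pi.mulSingle i h ∈ P) (j : ι)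
    (x : P) : ((al P hP j x : P) : ∀ i, H i) j = (x : ∀ i, H i) j :=
  Pi.mulSingle_eq_same j _

theorem al_coe_ne (P : Subgroup (∀ i, H i)) (hP : ∀ i (h : H i), Pi.mulSingle i h ∈ P) {i j : ι}
    (hij : i ≠ j) (x : P) : ((al P hP j x : P) : ∀ i, H i) i = 1 :=
  Pi.mulSingle_eq_of_ne hij _

/-- The projection forgetting the factor `j`. -/
def be (P : Subgroup (∀ i, H i)) (hP : ∀ i (h : H i), Pi.mulSingle i h ∈ P) (j : ι) : P →* P where
  toFun x := (al P hP j x)⁻¹ * x
  map_one' := by simp
  map_mul' x y := by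
    apply Subtype.ext
    funext i
    rw [map_mul]
    simp only [Subgroup.coe_mul, Subgroup.coe_inv, Pi.mul_apply, Pi.inv_apply]
    by_cases hij : i = j
    · subst hij
      rw [al_coe_same, al_coe_same]
      group
    · rw [al_coe_ne P hP hij, al_coe_ne P hP hij]
      simp

theorem be_coe_same (P : Subgroup (∀ i, H i)) (hP : ∀ i (h : H i), Pi.mulSingle i h ∈ P) (j : ι)
    (x : P) : ((be P hP j x : P) : ∀ i, H i) j = 1 := by
  show (((al P hP j x)⁻¹ * x : P) : ∀ i, H i) j = 1
  rw [Subgroup.coe_mul, Subgroup.coe_inv, Pi.mul_apply, Pi.inv_apply, al_coe_same, inv_mul_cancel]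

theorem be_coe_ne (P : Subgroup (∀ i, H i)) (hP : ∀ i (h : H i), Pi.mulSingle i h ∈ P) {i j : ι}
    (hij : i ≠ j) (x : P) : ((be P hP j x : P) : ∀ i, H i) i = (x : ∀ i, H i) i := by
  show (((al P hP j x)⁻¹ * x : P) : ∀ i, H i) i = _
  rw [Subgroup.coe_mul, Subgroup.coe_inv, Pi.mul_apply, Pi.inv_apply, al_coe_ne P hP hij, inv_one,
    one_mul]

theorem al_mul_be (P : Subgroup (∀ i, H i)) (hP : ∀ i (h : H i), Pi.mulSingle i h ∈ P) (j : ι)
    (x : P) : al P hP j x * be P hP j x = x := by
  show al P hP j x * ((al P hP j x)⁻¹ * x) = x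
  rw [mul_inv_cancel_left]

theorem al_al (P : Subgroup (∀ i, H i)) (hP : ∀ i (h : H i), Pi.mulSingle i h ∈ P) (j : ι)
    (x : P) : al P hP j (al P hP j x) = al P hP j x := by
  show inj P hP j (ev P j (inj P hP j (ev P j x))) = inj P hP j (ev P j x)
  rw [ev_inj]

theorem be_be (P : Subgroup (∀ i, H i)) (hP : ∀ i (h : H i), Pi.mulSingle i h ∈ P) (j : ι)
    (x : P) : be P hP j (be P hP j x) = be P hP j x := by
  apply Subtype.ext
  funext i
  by_cases hij : i = j
  · subst hij
    rw [be_coe_same, be_coe_same]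
  · rw [be_coe_ne P hP hij]

/-- The reduction of clause 1 to homomorphisms. -/
theorem clause1_hom (adams : ∀ (H : Type v) [Group H] [Countable H], HasParadox H → ¬ IsMEFree H)
    (P : Subgroup (∀ i, H i)) (hP : ∀ i (h : H i), Pi.mulSingle i h ∈ P)
    (hfree : ∀ i, IsMEFree (H i)) (P₀ : Subgroup P) [P₀.FiniteIndex] (φ : P₀ →* Gam)
    (hker : Finite φ.ker) (hran : φ.range.FiniteIndex) : False := by
  -- countability
  have hcP₀ : Countable P₀ := countable_of_hom φ inferInstance
  have hcP : Countable P := countable_of_subgroup P₀ hcP₀ inferInstance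
  have hinj : ∀ j, Function.Injective (inj P hP j) := by
    intro j a b hab
    have := congrArg (ev P j) hab
    rwa [ev_inj, ev_inj] at this
  have hcH : ∀ j, Countable (H j) := fun j => (hinj j).countable
  -- the two commuting subgroups
  set A : ι → Subgroup P₀ := fun j => fixIn P₀ (al P hP j) with hA
  set B : ι → Subgroup P₀ := fun j => fixIn P₀ (be P hP j) with hB
  have hAB : ∀ j, (A j ⊔ B j).FiniteIndex := fun j =>
    fixIn_sup_finiteIndex P₀ (al P hP j) (be P hP j) (al_mul_be P hP j) (al_al P hP j)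
      (be_be P hP j)
  have hcomm : ∀ j, ∀ a ∈ A j, ∀ b ∈ B j, Commute a b := by
    intro j a ha b hb
    have ha' : al P hP j a = a := ha
    have hb' : be P hP j b = b := hb
    refine Subtype.ext (Subtype.ext ?_)
    funext i
    show ((a : P) : ∀ i, H i) i * ((b : P) : ∀ i, H i) i =
      ((b : P) : ∀ i, H i) i * ((a : P) : ∀ i, H i) i
    by_cases hij : i = j
    · subst hij
      have : ((b : P) : ∀ i, H i) i = 1 := by rw [← hb']; exact be_coe_same P hP i _
      rw [this, mul_one, one_mul]
    · have : ((a : P) : ∀ i, H i) i = 1 := by rw [← ha']; exact al_coe_ne P hP hij _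
      rw [this, mul_one, one_mul]
  have hdich : ∀ j, (A j).map φ = ⊥ ∨ (B j).map φ = ⊥ := by
    intro j
    refine Gam_commuting _ _ ?_ ?_
    · rintro _ ⟨a, ha, rfl⟩ _ ⟨b, hb, rfl⟩
      exact (hcomm j a ha b hb).map φ
    · rw [← Subgroup.map_sup]
      exact finiteIndex_map φ _ (hAB j) hran
  have hkerfin : ∀ j, Finite ((P₀.comap (inj P hP j)).subtype.ker) := fun j => by
    rw [Subgroup.ker_subtype]; infer_instance
  by_cases hex : ∃ j, (B j).map φ = ⊥
  · -- first case: one factor is essentially everything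
    obtain ⟨j, hj⟩ := hex
    have hAfi : ((A j).map φ).FiniteIndex := by
      have h1 : ((A j ⊔ B j).map φ).FiniteIndex := finiteIndex_map φ _ (hAB j) hran
      rwa [Subgroup.map_sup, hj, sup_bot_eq] at h1
    set ψ : P₀.comap (inj P hP j) →* P₀ := (inj P hP j).subgroupComap P₀ with hψ
    have hψinj : Function.Injective ψ := by
      intro a b hab
      have h1 : inj P hP j a = inj P hP j b := congrArg Subtype.val hab
      exact Subtype.ext (hinj j h1)
    have hpar : HasParadox (H j) := by
      refine hasParadox_of_hom (P₀.comap (inj P hP j)) (φ.comp ψ) ?_ ?_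
      · refine Finite.of_injective (β := φ.ker) (fun x => ⟨ψ x, x.2⟩) ?_
        intro a b hab
        exact Subtype.ext (hψinj (congrArg Subtype.val hab))
      · refine Subgroup.finiteIndex_of_le (H := (A j).map φ) ?_
        rintro _ ⟨a, ha, rfl⟩
        have ha' : al P hP j a = a := ha
        have h2 : inj P hP j (ev P j a) = a := ha'
        refine ⟨⟨ev P j a, ?_⟩, ?_⟩
        · show inj P hP j (ev P j a) ∈ P₀
          rw [h2]; exact a.2
        · show φ _ = φ _
          congr 1
          exact Subtype.ext h2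
    have := hcH j
    exact adams (H j) hpar (hfree j)
  · -- second case: all factors are finite
    push Not at hex
    have hAbot : ∀ j, (A j).map φ = ⊥ := fun j => (hdich j).resolve_right (hex j)
    have hHfin : ∀ j, Finite (H j) := by
      intro j
      have h1 : (P₀.comap (inj P hP j)).FiniteIndex := finiteIndex_comap _ _
      refine finite_of_subgroup (P₀.comap (inj P hP j)) ?_ h1
      refine Finite.of_injective (β := φ.ker) (fun x => ⟨⟨inj P hP j x, x.2⟩, ?_⟩) ?_
      · have h2 : (⟨inj P hP j x, x.2⟩ : P₀) ∈ A j := by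
          show al P hP j (inj P hP j x) = inj P hP j x
          show inj P hP j (ev P j (inj P hP j x)) = _
          rw [ev_inj]
        have h3 : φ ⟨inj P hP j x, x.2⟩ ∈ (A j).map φ := Subgroup.mem_map_of_mem φ h2
        rw [hAbot j] at h3
        exact Subgroup.mem_bot.1 h3
      · intro a b hab
        have h4 : inj P hP j a = inj P hP j b := congrArg (fun z : φ.ker => ((z : P₀) : P)) hab
        exact Subtype.ext (hinj j h4)
    -- elements of finite support
    have hsupp : ∀ x : P₀, {j | ((x : P) : ∀ i, H i) j ≠ 1}.Finite → x ∈ φ.ker := by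
      intro x hx
      set D : Subgroup P₀ := ⨅ j ∈ hx.toFinset, ((ev P j).comp P₀.subtype).ker with hD
      have hDfi : D.FiniteIndex := Subgroup.finiteIndex_iInf' _ fun j _ => inferInstance
      have hDmap : (D.map φ).FiniteIndex := finiteIndex_map φ D hDfi hran
      refine Gam_icc (φ x) (D.map φ) ?_
      rintro _ ⟨d, hd, rfl⟩
      refine Commute.map ?_ φ
      refine Subtype.ext (Subtype.ext ?_)
      funext i
      show ((x : P) : ∀ i, H i) i * ((d : P) : ∀ i, H i) i =
        ((d : P) : ∀ i, H i) i * ((x : P) : ∀ i, H i) i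
      by_cases hi : ((x : P) : ∀ i, H i) i = 1
      · rw [hi, mul_one, one_mul]
      · have h5 : d ∈ ((ev P i).comp P₀.subtype).ker := by
          have h6 := hd
          rw [SetLike.mem_coe, hD, Subgroup.mem_iInf] at h6
          have h7 := h6 i
          rw [Subgroup.mem_iInf] at h7
          exact h7 (by simpa using hi)
        have h8 : ((d : P) : ∀ i, H i) i = 1 := h5
        rw [h8, mul_one, one_mul]
    -- the subgroup of elements of finite support
    let T : Subgroup P :=
      { carrier := {x | {j | (x : ∀ i, H i) j ≠ 1}.Finite}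
        mul_mem' := by
          intro a b ha hb
          refine (Set.Finite.union ha hb).subset ?_
          intro j hj
          by_contra hcon
          rw [Set.mem_union, not_or] at hcon
          have h1 : (a : ∀ i, H i) j = 1 := not_not.1 hcon.1
          have h2 : (b : ∀ i, H i) j = 1 := not_not.1 hcon.2
          apply hj
          show (a : ∀ i, H i) j * (b : ∀ i, H i) j = 1
          rw [h1, h2, mul_one]
        one_mem' := by
          have : {j | ((1 : P) : ∀ i, H i) j ≠ 1} = ∅ := by
            ext j; simp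
          show {j | ((1 : P) : ∀ i, H i) j ≠ 1}.Finite
          rw [this]; exact Set.finite_empty
        inv_mem' := by
          intro a ha
          refine Set.Finite.subset ha ?_
          intro j hj h1
          apply hj
          show ((a : ∀ i, H i) j)⁻¹ = 1
          rw [h1, inv_one] }
    have hTfin : Finite T := by
      refine finite_of_subgroup (P₀.subgroupOf T) ?_ inferInstance
      refine Finite.of_injective (β := φ.ker) (fun x => ⟨⟨x.1.1, x.2⟩, ?_⟩) ?_
      · exact hsupp _ x.1.2
      · intro a b hab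
        have h4 : a.1.1 = b.1.1 := congrArg (fun z : φ.ker => ((z : P₀) : P)) hab
        exact Subtype.ext (Subtype.ext h4)
    have hntfin : {j | Nontrivial (H j)}.Finite := by
      have hch : ∀ j : {j | Nontrivial (H j)}, ∃ h : H j, h ≠ 1 := fun j =>
        @exists_ne (H j) j.2 1
      choose h hh using hch
      have : Finite {j | Nontrivial (H j)} := by
        refine Finite.of_injective (β := T) (fun j => ⟨inj P hP j (h j), ?_⟩) ?_
        · refine (Set.finite_singleton (j : ι)).subset ?_
          intro i hi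
          by_contra hne
          apply hi
          rw [inj_coe]
          exact Pi.mulSingle_eq_of_ne hne _
        · intro a b hab
          by_contra hne
          have h1 : inj P hP a (h a) = inj P hP b (h b) := congrArg Subtype.val hab
          have h2 := congrArg (fun z : P => (z : ∀ i, H i) a) h1
          simp only [inj_coe] at h2
          rw [Pi.mulSingle_eq_same, Pi.mulSingle_eq_of_ne (fun h3 => hne (Subtype.ext h3))] at h2
          exact hh a h2
      exact this
    have hall : ∀ x : P₀, x ∈ φ.ker := by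
      intro x
      refine hsupp x (hntfin.subset ?_)
      intro j hj
      exact ⟨_, _, hj⟩
    have hrbot : φ.range = ⊥ := by
      rw [Subgroup.eq_bot_iff_forall]
      rintro _ ⟨x, rfl⟩
      exact hall x
    rw [hrbot] at hran
    exact bot_not_finiteIndex hran

end Main

/-- Clause 1, assuming the Adams lemma. -/
theorem clause1 (adams : ∀ (H : Type v) [Group H] [Countable H], HasParadox H → ¬ IsMEFree H)
    (ι : Type u) [DecidableEq ι] (H : ι → Type v) [∀ i, Group (H i)] (P : Subgroup (∀ i, H i))
    (hP : ∀ i (h : H i), Pi.mulSingle i h ∈ P) (hfree : ∀ i, IsMEFree (H i)) :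
    ¬ VirtIso Gam P := by
  rintro ⟨Γ₀, P₀, N, M, hN, hM, hΓ₀, hP₀, hNf, hMf, ⟨e⟩⟩
  -- `N` is trivial
  have hNbot : N = ⊥ := by
    have hfin : Finite (N.map Γ₀.subtype) := by
      refine Finite.of_surjective (α := N) (fun n => ⟨Γ₀.subtype n, n, n.2, rfl⟩) ?_
      rintro ⟨_, n, hn, rfl⟩
      exact ⟨⟨n, hn⟩, rfl⟩
    have h1 := Gam_finite_normal Γ₀ (N.map Γ₀.subtype) (by
      rintro l hl _ ⟨m, hm, rfl⟩
      refine ⟨(⟨l, hl⟩ : Γ₀) * m * (⟨l, hl⟩ : Γ₀)⁻¹, hN.conj_mem m hm ⟨l, hl⟩, ?_⟩
      rw [map_mul, map_mul, map_inv]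
      rfl)
    exact (Subgroup.map_eq_bot_iff_of_injective N Γ₀.subtype_injective).1 h1
  have hle : N ≤ Γ₀.subtype.ker := by rw [hNbot]; exact bot_le
  set ψ : Γ₀ ⧸ N →* Gam := QuotientGroup.lift N Γ₀.subtype hle with hψ
  set φ : P₀ →* Gam := ψ.comp ((e.symm : (P₀ ⧸ M) →* (Γ₀ ⧸ N)).comp (QuotientGroup.mk' M)) with hφ
  have hψinj : Function.Injective ψ := by
    rw [injective_iff_map_eq_one]
    intro a
    refine QuotientGroup.induction_on a fun g => ?_
    intro hg
    have h1 : (g : Gam) = 1 := hg
    have h2 : g = 1 := Subtype.ext h1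
    rw [h2]; rfl
  refine clause1_hom adams P hP hfree P₀ φ ?_ ?_
  · refine Finite.of_injective (β := M) (fun x => ⟨x.1, ?_⟩) ?_
    · have h1 : ψ (e.symm (QuotientGroup.mk' M x.1)) = 1 := x.2
      have h2 : e.symm (QuotientGroup.mk' M x.1) = 1 := hψinj (by rw [h1, map_one])
      have h3 : QuotientGroup.mk' M x.1 = 1 := e.symm.injective (by rw [h2, map_one])
      exact (QuotientGroup.eq_one_iff _).1 h3
    · intro a b hab
      exact Subtype.ext (congrArg (fun z : M => (z : P₀)) hab)
  · refine Subgroup.finiteIndex_of_le (H := Γ₀) ?_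
    intro g hg
    obtain ⟨x, hx⟩ := QuotientGroup.mk'_surjective M (e (QuotientGroup.mk' N ⟨g, hg⟩))
    refine ⟨x, ?_⟩
    show ψ (e.symm (QuotientGroup.mk' M x)) = g
    rw [hx, MulEquiv.symm_apply_apply]
    rfl

end MP6c9f91
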