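import Pool.Agent.MP6c9f91.Covol

/-!
# A lattice meets a noncompact open subgroup in an infinite group (package T9, MP_6c9f91_an)
-/

open MeasureTheory
open scoped ENNReal Pointwise Topology

namespace MP6c9f91

universe u

namespace LatInf

variable {G : Type u} [Group G]

/-- the image of a set of `G` in `G ⧸ Λ` -/
def T (Λ : Subgroup G) (W : Set G) : Set (G ⧸ Λ) := (QuotientGroup.mk : G → G ⧸ Λ) '' W

theorem preimage_T (Λ : Subgroup G) (W : Set G) (g : G) :
    (fun y : G ⧸ Λ => g⁻¹ • y) ⁻¹' (T Λ W) = T Λ (g • W) := by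
  ext y
  simp only [T, Set.mem_preimage, Set.mem_image]
  constructor
  · rintro ⟨w, hw, h⟩
    refine ⟨g * w, Set.smul_mem_smul_set hw, ?_⟩
    have : y = g • (w : G ⧸ Λ) := by rw [h, smul_inv_smul]
    rw [this]
    rfl
  · rintro ⟨x, ⟨w, hw, rfl⟩, rfl⟩
    refine ⟨w, hw, ?_⟩
    change (w : G ⧸ Λ) = ((g⁻¹ * (g * w) : G) : G ⧸ Λ)
    rw [inv_mul_cancel_left]

section Top

variable [TopologicalSpace G] [IsTopologicalGroup G]

theorem isOpen_T (Λ : Subgroup G) {W : Set G} (hW : IsOpen W) : IsOpen (T Λ W) :=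
  QuotientGroup.isOpenMap_coe _ hW

section Meas

variable {Λ : Subgroup G} [MeasurableSpace (G ⧸ Λ)] [BorelSpace (G ⧸ Λ)]
  {ν : Measure (G ⧸ Λ)}

theorem measure_T_smul (hν : Covol.Inv Λ ν) {W : Set G} (hW : IsOpen W) (g : G) :
    ν (T Λ (g • W)) = ν (T Λ W) := by
  rw [← preimage_T, hν g⁻¹ _ (isOpen_T Λ hW).measurableSet]

theorem measure_T_ne_zero [IsProbabilityMeasure ν] [ν.Regular] (hν : Covol.Inv Λ ν) {W : Set G}
    (hW : IsOpen W) (h1 : (1 : G) ∈ W) : ν (T Λ W) ≠ 0 := by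
  intro h0
  have hopen : ∀ g : G, IsOpen (T Λ (g • W)) := fun g => isOpen_T Λ (hW.smul g)
  have hz : ∀ g : G, ν (T Λ (g • W)) = 0 := fun g => by rw [measure_T_smul hν hW, h0]
  have hcov : (Set.univ : Set (G ⧸ Λ)) ⊆ ⋃ g : G, T Λ (g • W) := by
    intro y _
    obtain ⟨g, rfl⟩ := QuotientGroup.mk_surjective y
    refine Set.mem_iUnion.mpr ⟨g, g, ?_, rfl⟩
    have := Set.smul_mem_smul_set (a := g) h1
    simpa using this
  have h1 : ν Set.univ = 0 := by
    rw [isOpen_univ.measure_eq_iSup_isCompact ν]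
    simp only [ENNReal.iSup_eq_zero]
    intro K _ hK
    obtain ⟨t, ht⟩ := hK.elim_finite_subcover _ hopen ((Set.subset_univ K).trans hcov)
    refine measure_mono_null ht ?_
    exact (measure_biUnion_null_iff t.countable_toSet).mpr fun g _ => hz g
  simp at h1

end Meas

/-- infinitely many elements of `V` with disjoint translates of `W` -/
theorem exists_seq (V : Subgroup G) (hV : IsOpen (V : Set G)) (hVc : ¬ IsCompact (V : Set G))
    (W K : Set G) (hWK : W ⊆ K) (hK : IsCompact K) :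
    ∃ f : ℕ → G, (∀ n, f n ∈ V) ∧ ∀ m n, m < n → (f m)⁻¹ * f n ∉ W * W⁻¹ := by
  classical
  refine exists_seq_of_forall_finset_exists (fun x => x ∈ V)
    (fun x y => x⁻¹ * y ∉ W * W⁻¹) ?_
  intro s _
  by_contra hcon
  push Not at hcon
  have hsub : (V : Set G) ⊆ ⋃ x ∈ s, x • (K * K⁻¹) := by
    intro y hy
    obtain ⟨x, hx, hxy⟩ := hcon y hy
    simp only [Set.mem_iUnion]
    refine ⟨x, hx, x⁻¹ * y, ?_, by simp⟩
    exact Set.mul_subset_mul hWK (Set.inv_subset_inv.2 hWK) hxy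
  have hcomp : IsCompact (⋃ x ∈ s, x • (K * K⁻¹)) :=
    s.isCompact_biUnion fun x _ => (hK.mul hK.inv).smul x
  exact hVc (hcomp.of_isClosed_subset (V.isClosed_of_isOpen hV) hsub)

end Top

end LatInf

open LatInf

/-- If V is an open noncompact subgroup then a lattice meets it in an infinite group. -/
theorem infinite_inter_of_lattice {G : Type u} [Group G] [TopologicalSpace G]
    [IsTopologicalGroup G] [T2Space G] [LocallyCompactSpace G] (Γ' : Subgroup G)
    (h : IsLattice Γ') (V : Subgroup G) (hV : IsOpen (V : Set G))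
    (hVc : ¬ IsCompact (V : Set G)) : Infinite (V.subgroupOf Γ') := by
  classical
  rw [← not_finite_iff_infinite]
  intro hfin
  obtain ⟨-, hν⟩ := h
  let _ : MeasurableSpace (G ⧸ Γ') := borel (G ⧸ Γ')
  have _ : BorelSpace (G ⧸ Γ') := ⟨rfl⟩
  obtain ⟨ν, hp, hreg, hinv⟩ := hν
  have hν : Covol.Inv Γ' ν := hinv
  -- the finite set S
  have hS : ({x : G | x ∈ V ∧ x ∈ Γ'} : Set G).Finite := by
    have : ({x : G | x ∈ V ∧ x ∈ Γ'} : Set G) = (fun x : Γ' => (x : G)) '' (V.subgroupOf Γ') := by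
      ext x
      constructor
      · rintro ⟨h1, h2⟩
        exact ⟨⟨x, h2⟩, h1, rfl⟩
      · rintro ⟨y, hy, rfl⟩
        exact ⟨hy, y.2⟩
    rw [this]
    exact (Set.toFinite _).image _
  set S : Finset G := hS.toFinset with hSd
  -- the open set W
  obtain ⟨K, hK, hKV⟩ := exists_compact_subset hV V.one_mem
  set W : Set G := interior K with hW
  have hWo : IsOpen W := isOpen_interior
  have hW1 : (1 : G) ∈ W := hKV.1
  have hWV : W ⊆ V := interior_subset.trans hKV.2
  obtain ⟨f, hfV, hf⟩ := exists_seq V hV hVc W K interior_subset hK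
  set E : ℕ → Set (G ⧸ Γ') := fun i => T Γ' (f i • W) with hE
  have hEm : ∀ i, MeasurableSet (E i) := fun i => (isOpen_T Γ' (hWo.smul (f i))).measurableSet
  have hEν : ∀ i, ν (E i) = ν (T Γ' W) := fun i => measure_T_smul hν hWo (f i)
  have hinj : ∀ i j, ∀ w ∈ W, ∀ w' ∈ W, f i * w = f j * w' → i = j := by
    intro i j w hw w' hw' he
    by_contra hij
    rcases lt_or_gt_of_ne hij with hlt | hlt
    · refine hf i j hlt ?_
      have : (f i)⁻¹ * f j = w * w'⁻¹ := by
        rw [inv_mul_eq_iff_eq_mul, ← mul_assoc, he, mul_inv_cancel_right]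
      rw [this]
      exact Set.mul_mem_mul hw (Set.inv_mem_inv.2 hw')
    · refine hf j i hlt ?_
      have : (f j)⁻¹ * f i = w' * w⁻¹ := by
        rw [inv_mul_eq_iff_eq_mul, ← mul_assoc, ← he, mul_inv_cancel_right]
      rw [this]
      exact Set.mul_mem_mul hw' (Set.inv_mem_inv.2 hw)
  have hmult : ∀ (n : ℕ) (y : G ⧸ Γ'),
      ∑ i ∈ Finset.range n, (E i).indicator (fun _ => (1 : ℝ≥0∞)) y ≤ S.card := by
    intro n y
    have h1 : ∑ i ∈ Finset.range n, (E i).indicator (fun _ => (1 : ℝ≥0∞)) y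
        = ((Finset.range n).filter fun i => y ∈ E i).card := by
      rw [Finset.card_filter]
      push_cast
      refine Finset.sum_congr rfl fun i _ => ?_
      by_cases hi : y ∈ E i
      · simp [hi]
      · simp [hi]
    rw [h1, Nat.cast_le]
    rcases ((Finset.range n).filter fun i => y ∈ E i).eq_empty_or_nonempty with he | ⟨i₀, hi₀⟩
    · rw [he]; simp
    · obtain ⟨-, x₀, ⟨w₀, hw₀, rfl⟩, hx₀⟩ := Finset.mem_filter.1 hi₀
      have h2 : ∀ i, ∃ w : G, y ∈ E i → w ∈ W ∧ ((f i * w : G) : G ⧸ Γ') = y := by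
        intro i
        by_cases hi : y ∈ E i
        · obtain ⟨x, ⟨w, hw, rfl⟩, hx⟩ := hi
          exact ⟨w, fun _ => ⟨hw, hx⟩⟩
        · exact ⟨1, fun h => absurd h hi⟩
      choose w hw using h2
      refine Finset.card_le_card_of_injOn (fun i => (f i₀ * w₀)⁻¹ * (f i * w i)) ?_ ?_
      · intro i hi
        have hi' := (Finset.mem_filter.1 hi).2
        obtain ⟨hwi, hyi⟩ := hw i hi'
        simp only [hSd, Finset.mem_coe, Set.Finite.mem_toFinset, Set.mem_ofPred_eq]
        refine ⟨V.mul_mem (V.inv_mem (V.mul_mem (hfV i₀) (hWV hw₀)))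
          (V.mul_mem (hfV i) (hWV hwi)), ?_⟩
        refine QuotientGroup.eq.1 ?_
        rw [hyi]
        exact hx₀
      · intro i hi j hj hij
        have hi' := hw i (Finset.mem_filter.1 hi).2
        have hj' := hw j (Finset.mem_filter.1 hj).2
        exact hinj i j _ hi'.1 _ hj'.1 (mul_left_cancel hij)
  have hsum : ∀ n : ℕ, (n : ℝ≥0∞) * ν (T Γ' W) ≤ S.card := by
    intro n
    calc (n : ℝ≥0∞) * ν (T Γ' W) = ∑ i ∈ Finset.range n, ν (E i) := by
          simp only [hEν, Finset.sum_const, Finset.card_range, nsmul_eq_mul]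
      _ = ∑ i ∈ Finset.range n, ∫⁻ y, (E i).indicator (fun _ => (1 : ℝ≥0∞)) y ∂ν := by
          refine Finset.sum_congr rfl fun i _ => ?_
          rw [lintegral_indicator_const (hEm i), one_mul]
      _ = ∫⁻ y, ∑ i ∈ Finset.range n, (E i).indicator (fun _ => (1 : ℝ≥0∞)) y ∂ν := by
          rw [lintegral_finsetSum]
          exact fun i _ => measurable_const.indicator (hEm i)
      _ ≤ ∫⁻ y, (S.card : ℝ≥0∞) ∂ν := lintegral_mono fun y => hmult n y
      _ = S.card := by simp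
  have hne := measure_T_ne_zero hν hWo hW1
  have hfin : ν (T Γ' W) ≠ ∞ := measure_ne_top _ _
  obtain ⟨n, hn⟩ := exists_nat_gt ((S.card : ℝ) / (ν (T Γ' W)).toReal)
  have hpos : 0 < (ν (T Γ' W)).toReal := ENNReal.toReal_pos hne hfin
  rw [div_lt_iff₀ hpos] at hn
  have h3 := ENNReal.toReal_mono (ENNReal.natCast_ne_top _) (hsum n)
  rw [ENNReal.toReal_mul, ENNReal.toReal_natCast, ENNReal.toReal_natCast] at h3
  linarith

end MP6c9f91
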