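import Pool.Agent.MP6c9f91.GYDefs

/-!
# T7a : good data
-/

open Topology Filter Pointwise

universe u v w

namespace GY

section T7

/-- An open subgroup V of G with an open surjective homomorphism with compact kernel onto a
connected NSS group. -/
structure GoodDatum (G : Type u) [Group G] [TopologicalSpace G] where
  V : Subgroup G
  P : Type u
  [grp : Group P]
  [top : TopologicalSpace P]
  [tgrp : IsTopologicalGroup P]
  [t2 : T2Space P]
  [lc : LocallyCompactSpace P]
  [conn : ConnectedSpace P]
  f : V →* P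
  isOpen : IsOpen (V : Set G)
  cont : Continuous f
  openMap : IsOpenMap f
  surj : Function.Surjective f
  ker : IsCompact (f.ker : Set V)
  nss : NSS P

attribute [instance] GoodDatum.grp GoodDatum.top GoodDatum.tgrp GoodDatum.t2 GoodDatum.lc
  GoodDatum.conn

/-- NSS passes to subgroups. -/
theorem NSS.subgroup {P : Type u} [Group P] [TopologicalSpace P] (h : NSS P) (S : Subgroup P) :
    NSS S := by
  obtain ⟨W, hW, hS⟩ := h
  refine ⟨Subtype.val ⁻¹' W, ?_, ?_⟩
  · refine continuous_subtype_val.continuousAt.preimage_mem_nhds ?_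
    simpa using hW
  · intro T hT
    have h1 : T.map S.subtype = ⊥ := by
      apply hS
      rintro _ ⟨x, hx, rfl⟩
      exact hT hx
    rw [Subgroup.map_eq_bot_iff_of_injective] at h1
    · exact h1
    · exact S.subtype_injective

variable (G : Type u) [Group G] [TopologicalSpace G] [IsTopologicalGroup G] [T2Space G]
  [LocallyCompactSpace G]

omit [IsTopologicalGroup G] [T2Space G] [LocallyCompactSpace G] in
/-- The construction of good data from the output of `gleason_yamabe'` and
`exists_open_connected`. -/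
theorem goodDatum_of_parts {P : Type u} [Group P] [TopologicalSpace P] [IsTopologicalGroup P]
    [T2Space P] [LocallyCompactSpace P] (V : Subgroup G) (f : V →* P) (hV : IsOpen (V : Set G))
    (hf : Continuous f) (hfo : IsOpenMap f) (hfs : Function.Surjective f)
    (hk : IsCompact (f.ker : Set V)) (hP : NSS P) (P₀ : Subgroup P) (hP₀ : IsOpen (P₀ : Set P))
    (hc : IsConnected (P₀ : Set P)) : Nonempty (GoodDatum G) := by
  set V' : Subgroup G := (P₀.comap f).map V.subtype with hV'
  have hV'V : V' ≤ V := by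
    rintro _ ⟨x, _, rfl⟩
    exact x.2
  have hVe : IsOpenEmbedding (Subtype.val : V → G) := hV.isOpenEmbedding_subtypeVal
  have hV'o : IsOpen (V' : Set G) := by
    have : (V' : Set G) = (Subtype.val : V → G) '' (f ⁻¹' (P₀ : Set P)) := rfl
    rw [this]
    exact hVe.isOpenMap _ (hP₀.preimage hf)
  set i : V' →* V := Subgroup.inclusion hV'V with hi
  have hmem : ∀ x : V', f (i x) ∈ P₀ := by
    rintro ⟨_, ⟨x, hx, rfl⟩⟩
    exact hx
  have hio : IsOpenEmbedding i := by
    have h1 : IsOpenEmbedding (Subtype.val : V' → G) := hV'o.isOpenEmbedding_subtypeVal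
    have h2 : (Subtype.val : V' → G) = (Subtype.val : V → G) ∘ i := rfl
    rw [h2] at h1
    exact IsOpenEmbedding.of_comp i hVe h1
  have hcont : Continuous ((f.comp i).codRestrict P₀ hmem) :=
    (hf.comp hio.continuous).subtype_mk _
  have : ConnectedSpace P₀ := isConnected_iff_connectedSpace.mp hc
  have : LocallyCompactSpace P₀ := hP₀.locallyCompactSpace
  refine ⟨⟨V', P₀, (f.comp i).codRestrict P₀ hmem, hV'o, hcont, ?_, ?_, ?_, hP.subgroup P₀⟩⟩
  · intro A hA
    have h1 : IsOpen ((f ∘ i) '' A) := (hfo.comp hio.isOpenMap) A hA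
    have h2 : ((f.comp i).codRestrict P₀ hmem) '' A = Subtype.val ⁻¹' ((f ∘ i) '' A) := by
      ext y
      constructor
      · rintro ⟨x, hx, rfl⟩
        exact ⟨x, hx, rfl⟩
      · rintro ⟨x, hx, hxy⟩
        exact ⟨x, hx, Subtype.ext hxy⟩
    rw [h2]
    exact h1.preimage continuous_subtype_val
  · rintro ⟨y, hy⟩
    obtain ⟨x, rfl⟩ := hfs y
    exact ⟨⟨x, ⟨x, hy, rfl⟩⟩, Subtype.ext rfl⟩
  · rw [hio.isInducing.isCompact_iff]
    convert hk using 1
    ext x
    constructor
    · rintro ⟨z, hz, rfl⟩
      have : ((f.comp i).codRestrict P₀ hmem) z = 1 := hz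
      exact congrArg Subtype.val this
    · intro hx
      have hx1 : f x = 1 := hx
      refine ⟨⟨x, ⟨x, ?_, rfl⟩⟩, ?_, rfl⟩
      · change f x ∈ P₀
        rw [hx1]; exact P₀.one_mem
      · exact Subtype.ext hx1

variable {G}

omit [T2Space G] [LocallyCompactSpace G] [IsTopologicalGroup G] in
/-- P is connected, so it has no proper open subgroup. -/
theorem GoodDatum.surj_of_open (D : GoodDatum G) (W : Subgroup G) (hW : IsOpen (W : Set G))
    (y : D.P) : ∃ w : D.V, (w : G) ∈ W ∧ D.f w = y := by
  set S : Subgroup D.P := (W.comap D.V.subtype).map D.f with hS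
  have hSo : IsOpen (S : Set D.P) := by
    have : (S : Set D.P) = D.f '' ((Subtype.val : D.V → G) ⁻¹' (W : Set G)) := rfl
    rw [this]
    exact D.openMap _ (hW.preimage continuous_subtype_val)
  have hSc : IsClosed (S : Set D.P) := S.isClosed_of_isOpen hSo
  have hSu : (S : Set D.P) = Set.univ := IsClopen.eq_univ ⟨hSc, hSo⟩ ⟨1, S.one_mem⟩
  have hy : y ∈ (S : Set D.P) := by rw [hSu]; trivial
  obtain ⟨w, hw, rfl⟩ := hy
  exact ⟨w, hw, rfl⟩

omit [T2Space G] [LocallyCompactSpace G] in
/-- Every open subgroup has finite index in V. -/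
theorem GoodDatum.relIndex_ne_zero (D : GoodDatum G) (W : Subgroup G)
    (hW : IsOpen (W : Set G)) : W.relIndex D.V ≠ 0 := by
  set H : Subgroup D.V := W.subgroupOf D.V with hH
  have hHo : IsOpen (H : Set D.V) := by
    have : (H : Set D.V) = ((Subtype.val : D.V → G) ⁻¹' (W : Set G)) := rfl
    rw [this]
    exact hW.preimage continuous_subtype_val
  have : DiscreteTopology (D.V ⧸ H) := QuotientGroup.discreteTopology hHo
  have himg : ((↑) : D.V → D.V ⧸ H) '' (D.f.ker : Set D.V) = Set.univ := by
    rw [Set.eq_univ_iff_forall]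
    intro q
    obtain ⟨v, rfl⟩ := QuotientGroup.mk_surjective q
    obtain ⟨w, hw, hwv⟩ := D.surj_of_open W hW (D.f v)
    refine ⟨v * w⁻¹, ?_, ?_⟩
    · change D.f (v * w⁻¹) = 1
      rw [map_mul, map_inv, hwv, mul_inv_cancel]
    · rw [QuotientGroup.eq]
      have : (v * w⁻¹)⁻¹ * v = w := by group
      rw [this]
      exact hw
  have hcpt : IsCompact (Set.univ : Set (D.V ⧸ H)) := by
    rw [← himg]
    exact D.ker.image continuous_quotient_mk'
  have : Finite (D.V ⧸ H) := by
    have : CompactSpace (D.V ⧸ H) := ⟨hcpt⟩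
    exact finite_of_compact_of_discrete
  exact Subgroup.index_ne_zero_of_finite

/-- the intersection of all open subgroups -/
def openCore (G : Type u) [Group G] [TopologicalSpace G] : Subgroup G :=
  sInf {W : Subgroup G | IsOpen (W : Set G)}

omit [T2Space G] [LocallyCompactSpace G] [IsTopologicalGroup G] in
theorem mem_openCore {g : G} : g ∈ openCore G ↔ ∀ W : Subgroup G, IsOpen (W : Set G) → g ∈ W := by
  simp [openCore, Subgroup.mem_sInf]

omit [T2Space G] [LocallyCompactSpace G] in
theorem openCore_normal : (openCore G).Normal := by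
  refine ⟨fun n hn g => ?_⟩
  rw [mem_openCore] at hn ⊢
  intro W hW
  have h1 : IsOpen ((W.comap (MulAut.conj g).toMonoidHom : Subgroup G) : Set G) := by
    have : ((W.comap (MulAut.conj g).toMonoidHom : Subgroup G) : Set G)
        = (fun x => g * x * g⁻¹) ⁻¹' (W : Set G) := by
      ext x; simp
    rw [this]
    exact hW.preimage (by fun_prop)
  have h2 := hn _ h1
  simpa using h2

omit [T2Space G] [LocallyCompactSpace G] in
theorem openCore_isClosed : IsClosed (openCore G : Set G) := by
  have : (openCore G : Set G) = ⋂ W ∈ {W : Subgroup G | IsOpen (W : Set G)}, (W : Set G) := by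
    simp [openCore, Subgroup.coe_sInf]
  rw [this]
  exact isClosed_biInter fun W hW => W.isClosed_of_isOpen hW

omit [T2Space G] [LocallyCompactSpace G] in
/-- The open core maps onto P. -/
theorem GoodDatum.surj_openCore (D : GoodDatum G) (y : D.P) :
    ∃ w : D.V, (w : G) ∈ openCore G ∧ D.f w = y := by
  obtain ⟨v, hv⟩ := D.surj y
  have hfib : IsCompact (D.f ⁻¹' {y}) := by
    have : D.f ⁻¹' {y} = (fun x => v * x) '' (D.f.ker : Set D.V) := by
      ext x
      constructor
      · intro hx
        have hx1 : D.f x = y := hx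
        refine ⟨v⁻¹ * x, ?_, by simp⟩
        change D.f (v⁻¹ * x) = 1
        rw [map_mul, map_inv, hx1, hv, inv_mul_cancel]
      · rintro ⟨z, hz, rfl⟩
        have hz1 : D.f z = 1 := hz
        change D.f (v * z) = y
        rw [map_mul, hz1, hv, mul_one]
    rw [this]
    exact D.ker.image (by fun_prop)
  have hfibc : IsClosed (D.f ⁻¹' {y}) := isClosed_singleton.preimage D.cont
  have key : (⋂ W : {W : Subgroup G // IsOpen (W : Set G)},
      (D.f ⁻¹' {y} ∩ (Subtype.val : D.V → G) ⁻¹' (W.1 : Set G))).Nonempty := by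
    have : Nonempty {W : Subgroup G // IsOpen (W : Set G)} := ⟨⟨⊤, isOpen_univ⟩⟩
    apply IsCompact.nonempty_iInter_of_directed_nonempty_isCompact_isClosed
    · intro A B
      refine ⟨⟨A.1 ⊓ B.1, A.2.inter B.2⟩, ?_, ?_⟩
      · rintro x ⟨hx, hx2⟩
        exact ⟨hx, hx2.1⟩
      · rintro x ⟨hx, hx2⟩
        exact ⟨hx, hx2.2⟩
    · intro W
      obtain ⟨w, hw, hwy⟩ := D.surj_of_open W.1 W.2 y
      exact ⟨w, hwy, hw⟩
    · intro W
      exact hfib.inter_right ((W.1.isClosed_of_isOpen W.2).preimage continuous_subtype_val)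
    · intro W
      exact hfibc.inter ((W.1.isClosed_of_isOpen W.2).preimage continuous_subtype_val)
  obtain ⟨w, hw⟩ := key
  rw [Set.mem_iInter] at hw
  refine ⟨w, ?_, ?_⟩
  · rw [mem_openCore]
    intro W hW
    exact (hw ⟨W, hW⟩).2
  · exact (hw ⟨⊤, isOpen_univ⟩).1

end T7

end GY
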