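import Mathlib

/-!
# MP_6c9f91_an, package T6a: faithful representations of groups of exponent `p`
-/

set_option autoImplicit false
set_option linter.unusedSectionVars false
set_option linter.unusedVariables false
set_option linter.style.haveILetI false

universe u v

namespace GY

open Module
open scoped TensorProduct

section CommReps

variable {K : Type*} [Field K] [CharZero K] {E : Type*} [AddCommGroup E] [Module K E]

/-- an operator of finite order has no Jordan blocks -/
theorem sub_smul_aux {f : Module.End K E} {z : K} {x : E}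
    (hx : (f - z • (1 : Module.End K E)) ((f - z • (1 : Module.End K E)) x) = 0) (k : ℕ) :
    (f ^ (k + 1)) x = z ^ (k + 1) • x +
      ((k + 1 : K) * z ^ k) • (f - z • (1 : Module.End K E)) x := by
  obtain ⟨N, hN⟩ : ∃ N, N = f - z • (1 : Module.End K E) := ⟨_, rfl⟩
  rw [← hN] at hx ⊢
  have hf : ∀ y, f y = z • y + N y := by
    intro y
    rw [hN]
    simp
  induction k with
  | zero => simp [hf]
  | succ k ih =>
    rw [pow_succ' f (k + 1)]
    change f ((f ^ (k + 1)) x) = _
    rw [ih, map_add, map_smul, map_smul, hf x, hf (N x), hx]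
    push_cast
    module

theorem ker_inf_range {p : ℕ} (hp : 0 < p) {f : Module.End K E} (hf : f ^ p = 1) {z : K}
    (hz : z ^ p = 1) :
    LinearMap.ker (f - z • (1 : Module.End K E)) ⊓
      LinearMap.range (f - z • (1 : Module.End K E)) = ⊥ := by
  rw [eq_bot_iff]
  rintro _ ⟨h1, ⟨x, rfl⟩⟩
  rw [Submodule.mem_bot]
  obtain ⟨k, rfl⟩ : ∃ k, p = k + 1 := ⟨p - 1, by omega⟩
  have h2 := sub_smul_aux (f := f) (z := z) (x := x) h1 k
  rw [hf, hz, one_smul] at h2
  have h3 : ((k + 1 : K) * z ^ k) • (f - z • (1 : Module.End K E)) x = 0 := by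
    have h4 : x = x + ((k + 1 : K) * z ^ k) • (f - z • (1 : Module.End K E)) x := h2
    exact add_eq_left.1 h4.symm
  have hz0 : z ≠ 0 := by
    rintro rfl
    rw [zero_pow (by omega)] at hz
    exact zero_ne_one hz
  refine (smul_eq_zero.1 h3).resolve_left (mul_ne_zero ?_ (pow_ne_zero _ hz0))
  exact_mod_cast (Nat.succ_ne_zero k)

end CommReps

section

variable {A : Type v} [CommGroup A]

/-- restriction of a representation to an invariant subspace -/
noncomputable def resRep {K : Type*} [Field K] {E : Type*} [AddCommGroup E] [Module K E]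
    (ρ : A →* Module.End K E) (W : Submodule K E) (hW : ∀ a, ∀ x ∈ W, ρ a x ∈ W) :
    A →* Module.End K W where
  toFun a := (ρ a).restrict (hW a)
  map_one' := by
    ext x
    change ρ 1 x.1 = x.1
    rw [map_one]; rfl
  map_mul' a b := by
    ext x
    change ρ (a * b) x.1 = ρ a (ρ b x.1)
    rw [map_mul]; rfl

theorem resRep_apply {K : Type*} [Field K] {E : Type*} [AddCommGroup E] [Module K E]
    (ρ : A →* Module.End K E) (W : Submodule K E) (hW : ∀ a, ∀ x ∈ W, ρ a x ∈ W) (a : A) (x : W) :
    ((resRep ρ W hW a x : W) : E) = ρ a x.1 := rfl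

theorem ker_index_le (p : ℕ) (hp : p.Prime) [Finite A] (hA : ∀ a : A, a ^ p = 1) (n : ℕ) :
    ∀ (E : Type u) [AddCommGroup E] [Module ℂ E] [FiniteDimensional ℂ E]
      (ρ : A →* Module.End ℂ E), finrank ℂ E = n → ρ.ker.index ≤ p ^ n := by
  induction n using Nat.strong_induction_on with
  | _ n ih =>
    intro E _ _ _ ρ hn
    have hidx : ∀ H : Subgroup A, H.index ≠ 0 := fun H => Subgroup.FiniteIndex.index_ne_zero
    have hρp : ∀ a, (ρ a) ^ p = 1 := fun a => by rw [← map_pow, hA, map_one]
    by_cases hE : Nontrivial E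
    swap
    · rw [not_nontrivial_iff_subsingleton] at hE
      have h1 : ρ.ker = ⊤ := by
        rw [eq_top_iff]
        intro a _
        rw [MonoidHom.mem_ker]
        ext x
        exact Subsingleton.elim _ _
      rw [h1, Subgroup.index_top]
      exact Nat.one_le_pow _ _ hp.pos
    have hn0 : 0 < n := by rw [← hn]; exact finrank_pos
    by_cases hsc : ∀ a, ∃ c : ℂ, ρ a = c • (1 : Module.End ℂ E)
    · -- all operators are scalars
      choose c hc using hsc
      obtain ⟨x, hx⟩ := exists_ne (0 : E)
      have huniq : ∀ a b : ℂ, a • x = b • x → a = b := fun a b hab => smul_left_injective ℂ hx hab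
      have hcx : ∀ a, ρ a x = c a • x := fun a => by rw [hc]; simp
      let χ : A →* ℂ :=
        { toFun := c
          map_one' := by
            apply huniq
            rw [← hcx, map_one, one_smul]; rfl
          map_mul' := fun a b => by
            apply huniq
            rw [← hcx, map_mul]
            change ρ a (ρ b x) = _
            rw [hcx b, map_smul, hcx, smul_smul, mul_comm] }
      have hker : χ.toHomUnits.ker ≤ ρ.ker := by
        intro a ha
        rw [MonoidHom.mem_ker] at ha ⊢
        have h1 : c a = 1 := by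
          have := congrArg Units.val ha
          exact this
        rw [hc, h1, one_smul]
      have h1 : ρ.ker.index ≤ χ.toHomUnits.ker.index :=
        Nat.le_of_dvd (Nat.pos_of_ne_zero (hidx _)) (Subgroup.index_dvd_of_le hker)
      have h2 : χ.toHomUnits.range ≤ rootsOfUnity p ℂ := by
        rintro _ ⟨a, rfl⟩
        rw [mem_rootsOfUnity, ← map_pow, hA, map_one]
      haveI : NeZero p := ⟨hp.ne_zero⟩
      have h3 : Nat.card χ.toHomUnits.range ≤ p := by
        have hc := card_rootsOfUnity ℂ p
        haveI : Finite (rootsOfUnity p ℂ) := inferInstance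
        refine (Nat.card_mono (Set.toFinite (rootsOfUnity p ℂ : Set ℂˣ)) (show
          (χ.toHomUnits.range : Set ℂˣ) ⊆ (rootsOfUnity p ℂ : Set ℂˣ) from h2)).trans ?_
        exact hc
      rw [Subgroup.index_ker] at h1
      calc ρ.ker.index ≤ p := h1.trans h3
        _ = p ^ 1 := (pow_one p).symm
        _ ≤ p ^ n := Nat.pow_le_pow_right hp.pos hn0
    · -- some operator is not a scalar
      push Not at hsc
      obtain ⟨a₀, ha₀⟩ := hsc
      obtain ⟨z, hz⟩ := Module.End.exists_eigenvalue (ρ a₀)
      obtain ⟨v, hv⟩ := hz.exists_hasEigenvector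
      have hv1 : ρ a₀ v = z • v := hv.apply_eq_smul
      have hv0 : v ≠ 0 := hv.2
      have hzp : z ^ p = 1 := by
        have h1 : ∀ k : ℕ, ((ρ a₀) ^ k) v = z ^ k • v := by
          intro k
          induction k with
          | zero => simp
          | succ k ihk =>
            rw [pow_succ' (ρ a₀)]
            change ρ a₀ (((ρ a₀) ^ k) v) = _
            rw [ihk, map_smul, hv1, smul_smul, ← pow_succ]
        have h2 := h1 p
        rw [hρp] at h2
        have h3 : (1 : ℂ) • v = z ^ p • v := by rw [one_smul]; exact h2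
        exact (smul_left_injective ℂ hv0 h3).symm
      obtain ⟨N, hN⟩ : ∃ N, N = ρ a₀ - z • (1 : Module.End ℂ E) := ⟨_, rfl⟩
      have hinf : LinearMap.ker N ⊓ LinearMap.range N = ⊥ := by
        rw [hN]; exact ker_inf_range hp.pos (hρp a₀) hzp
      have hdim := LinearMap.finrank_range_add_finrank_ker N
      rw [hn] at hdim
      have hNa : ∀ a x, ρ a (N x) = N (ρ a x) := by
        intro a x
        have h1 : ρ a (ρ a₀ x) = ρ a₀ (ρ a x) := by
          have h2 : ρ a * ρ a₀ = ρ a₀ * ρ a := by rw [← map_mul, ← map_mul, mul_comm]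
          exact LinearMap.congr_fun h2 x
        rw [hN]
        simp only [LinearMap.sub_apply, LinearMap.smul_apply, Module.End.one_apply, map_sub,
          map_smul, h1]
      have hker : ∀ a, ∀ x ∈ LinearMap.ker N, ρ a x ∈ LinearMap.ker N := by
        intro a x hx
        rw [LinearMap.mem_ker] at hx ⊢
        rw [← hNa, hx, map_zero]
      have hran : ∀ a, ∀ x ∈ LinearMap.range N, ρ a x ∈ LinearMap.range N := by
        rintro a _ ⟨x, rfl⟩
        exact ⟨ρ a x, (hNa a x).symm⟩
      have hk0 : 0 < finrank ℂ (LinearMap.ker N) := by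
        rw [finrank_pos_iff]
        refine ⟨⟨⟨v, ?_⟩, 0, fun h => hv0 (congrArg Subtype.val h)⟩⟩
        rw [LinearMap.mem_ker, hN]
        simp [hv1]
      have hr0 : 0 < finrank ℂ (LinearMap.range N) := by
        rw [finrank_pos_iff, Submodule.nontrivial_iff_ne_bot]
        intro h
        rw [LinearMap.range_eq_bot] at h
        apply ha₀ z
        rw [hN] at h
        exact sub_eq_zero.1 h
      have i1 := ih (finrank ℂ (LinearMap.ker N)) (by omega) (LinearMap.ker N)
        (resRep ρ _ hker) rfl
      have i2 := ih (finrank ℂ (LinearMap.range N)) (by omega) (LinearMap.range N)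
        (resRep ρ _ hran) rfl
      have hsup : LinearMap.ker N ⊔ LinearMap.range N = ⊤ := by
        apply Submodule.eq_top_of_finrank_eq
        have h1 := Submodule.finrank_sup_add_finrank_inf_eq (LinearMap.ker N) (LinearMap.range N)
        rw [hinf, finrank_bot] at h1
        omega
      have hle : (resRep ρ _ hker).ker ⊓ (resRep ρ _ hran).ker ≤ ρ.ker := by
        rintro a ⟨h1, h2⟩
        replace h1 := MonoidHom.mem_ker.1 h1
        replace h2 := MonoidHom.mem_ker.1 h2
        rw [MonoidHom.mem_ker]
        ext x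
        have hx : x ∈ LinearMap.ker N ⊔ LinearMap.range N := by rw [hsup]; trivial
        obtain ⟨y, hy, w, hw, rfl⟩ := Submodule.mem_sup.1 hx
        have e1 : ρ a y = y := by
          have := congrArg Subtype.val (LinearMap.congr_fun h1 ⟨y, hy⟩)
          exact this
        have e2 : ρ a w = w := by
          have := congrArg Subtype.val (LinearMap.congr_fun h2 ⟨w, hw⟩)
          exact this
        rw [map_add, e1, e2]; rfl
      calc ρ.ker.index ≤ ((resRep ρ _ hker).ker ⊓ (resRep ρ _ hran).ker).index :=
            Nat.le_of_dvd (Nat.pos_of_ne_zero (hidx _)) (Subgroup.index_dvd_of_le hle)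
        _ ≤ (resRep ρ _ hker).ker.index * (resRep ρ _ hran).ker.index := Subgroup.index_inf_le
        _ ≤ p ^ (finrank ℂ (LinearMap.ker N)) * p ^ (finrank ℂ (LinearMap.range N)) :=
            Nat.mul_le_mul i1 i2
        _ = p ^ n := by rw [← pow_add]; congr 1; omega

end

/-- T6a `CommReps.lean`.  Linear algebra: a finite commutative group of exponent p acting
faithfully on a real vector space of dimension n has at most p^n elements. -/
theorem exists_ne_one_of_card {E : Type u} [AddCommGroup E] [Module ℝ E] [FiniteDimensional ℝ E]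
    (p : ℕ) (hp : p.Prime) (A : Type v) [CommGroup A] [Finite A] (hA : ∀ a : A, a ^ p = 1)
    (ρ : A →* Module.End ℝ E) (hcard : p ^ Module.finrank ℝ E < Nat.card A) :
    ∃ a : A, a ≠ 1 ∧ ρ a = 1 := by
  let ρ' : A →* Module.End ℂ (TensorProduct ℝ ℂ E) :=
    { toFun := fun a => (ρ a).baseChange ℂ
      map_one' := by
        rw [map_one]
        ext x
        simp
      map_mul' := fun a b => by
        rw [map_mul]
        exact LinearMap.baseChange_mul (A := ℂ) (ρ a) (ρ b) }
  have h1 := ker_index_le p hp hA (finrank ℝ E) (TensorProduct ℝ ℂ E) ρ'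
    (Module.finrank_baseChange)
  have h2 : ρ'.ker.index * Nat.card ρ'.ker = Nat.card A := Subgroup.index_mul_card _
  have h3 : 1 < Nat.card ρ'.ker := by
    by_contra hcon
    push Not at hcon
    have h4 : ρ'.ker.index * Nat.card ρ'.ker ≤ p ^ finrank ℝ E * 1 := Nat.mul_le_mul h1 hcon
    omega
  haveI := Finite.one_lt_card_iff_nontrivial.1 h3
  obtain ⟨⟨a, ha⟩, ha1⟩ := exists_ne (1 : ρ'.ker)
  refine ⟨a, fun h => ha1 (Subtype.ext h), ?_⟩
  ext x
  have h4 : (ρ a).baseChange ℂ = 1 := ha
  have h5 : (1 : ℂ) ⊗ₜ[ℝ] (ρ a x) = (1 : ℂ) ⊗ₜ[ℝ] x := by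
    have := LinearMap.congr_fun h4 ((1 : ℂ) ⊗ₜ[ℝ] x)
    rwa [LinearMap.baseChange_tmul] at this
  exact Module.FaithfullyFlat.tensorProduct_mk_injective (A := ℝ) (B := ℂ) E h5

end GY
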