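import Pool.Agent.MP6c9f91.LieMain
import Pool.Agent.MP6c9f91.CommReps

/-!
# Functoriality of Lie data (package T6b of stage 2 of MP_6c9f91_an)
-/

open Topology Filter Pointwise MeasureTheory

universe u v

namespace GY

section one

variable {G : Type u} [Group G] [TopologicalSpace G]

theorem LieData.e_zero (D : LieData G) : D.e 0 = 1 := by
  have := D.add_smul 0 0 0
  simpa using this

theorem LieData.e_nsmul (D : LieData G) (X : D.E) (n : ℕ) : D.e (n • X) = D.e X ^ n := by
  induction n with
  | zero => simpa using D.e_zero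
  | succ n ih =>
    have := D.add_smul X (n : ℝ) 1
    rw [one_smul, Nat.cast_smul_eq_nsmul, ih] at this
    rw [pow_succ, ← this, ← Nat.cast_smul_eq_nsmul ℝ]
    push_cast
    rfl

/-- the one-parameter subgroup of a vector -/
def LieData.ops (D : LieData G) (X : D.E) : OPS G where
  toFun t := D.e (t • X)
  cont := D.cont.comp (continuous_id.smul continuous_const)
  map_add s t := D.add_smul X s t

theorem LieData.eq_of_forall (D : LieData G) {X Y : D.E}
    (h : ∀ t : ℝ, D.e (t • X) = D.e (t • Y)) : X = Y :=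
  (D.exists_unique (D.ops X)).unique (fun _ => rfl) h

theorem LieData.eq_of_small (D : LieData G) {X Y : D.E} {t₀ : ℝ} (h0 : 0 < t₀)
    (h : ∀ t : ℝ, |t| ≤ t₀ → D.e (t • X) = D.e (t • Y)) : X = Y := by
  apply D.eq_of_forall
  intro t
  obtain ⟨n, hn⟩ := exists_nat_ge (|t| / t₀)
  have hpos : (0 : ℝ) < (n + 1 : ℕ) := by positivity
  have key : ∀ Z : D.E, D.e (t • Z) = D.e ((t / (n + 1 : ℕ)) • Z) ^ (n + 1) := by
    intro Z
    rw [← D.e_nsmul, ← Nat.cast_smul_eq_nsmul ℝ, smul_smul, mul_div_cancel₀ _ hpos.ne']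
  rw [key X, key Y, h]
  rw [abs_div, abs_of_pos hpos, div_le_iff₀ hpos]
  rw [div_le_iff₀ h0] at hn
  push_cast
  nlinarith

end one

section two

variable {G G' : Type u} [Group G] [TopologicalSpace G] [Group G'] [TopologicalSpace G']

theorem LieData.exists_map (D : LieData G) (D' : LieData G') (f : G →* G') (hf : Continuous f)
    (X : D.E) : ∃ X' : D'.E, ∀ t : ℝ, f (D.e (t • X)) = D'.e (t • X') := by
  obtain ⟨X', h, -⟩ := D'.exists_unique
    { toFun := fun t => f (D.e (t • X))
      cont := hf.comp (D.ops X).cont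
      map_add := fun s t => by
        rw [D.add_smul, map_mul] }
  exact ⟨X', h⟩

/-- the differential, as a map -/
noncomputable def LieData.dmap (D : LieData G) (D' : LieData G') (f : G →* G')
    (hf : Continuous f) (X : D.E) : D'.E := (D.exists_map D' f hf X).choose

theorem LieData.dmap_spec (D : LieData G) (D' : LieData G') (f : G →* G')
    (hf : Continuous f) (X : D.E) (t : ℝ) :
    f (D.e (t • X)) = D'.e (t • D.dmap D' f hf X) :=
  (D.exists_map D' f hf X).choose_spec t

theorem LieData.dmap_spec1 (D : LieData G) (D' : LieData G') (f : G →* G')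
    (hf : Continuous f) (X : D.E) : f (D.e X) = D'.e (D.dmap D' f hf X) := by
  simpa using D.dmap_spec D' f hf X 1

theorem LieData.dmap_smul (D : LieData G) (D' : LieData G') (f : G →* G')
    (hf : Continuous f) (s : ℝ) (X : D.E) :
    D.dmap D' f hf (s • X) = s • D.dmap D' f hf X := by
  apply D'.eq_of_forall
  intro t
  rw [← D.dmap_spec, smul_smul, smul_smul, ← D.dmap_spec]

theorem LieData.dmap_add [IsTopologicalGroup G'] [T2Space G'] (D : LieData G) (D' : LieData G')
    (f : G →* G') (hf : Continuous f) (X Y : D.E) :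
    D.dmap D' f hf (X + Y) = D.dmap D' f hf X + D.dmap D' f hf Y := by
  obtain ⟨t₀, h0, ht⟩ := D.trotter X Y
  obtain ⟨t₁, h1, ht'⟩ := D'.trotter (D.dmap D' f hf X) (D.dmap D' f hf Y)
  refine D'.eq_of_small (lt_min h0 h1) fun t hle => ?_
  rw [← D.dmap_spec]
  have a1 := (hf.tendsto _).comp (ht t (hle.trans (min_le_left _ _)))
  have a2 := ht' t (hle.trans (min_le_right _ _))
  refine tendsto_nhds_unique a1 (a2.congr fun n => ?_)
  simp only [Function.comp, map_pow, map_mul, D.dmap_spec D' f hf]

/-- the differential -/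
noncomputable def LieData.dlin [IsTopologicalGroup G'] [T2Space G'] (D : LieData G)
    (D' : LieData G') (f : G →* G') (hf : Continuous f) : D.E →ₗ[ℝ] D'.E where
  toFun := D.dmap D' f hf
  map_add' := D.dmap_add D' f hf
  map_smul' := D.dmap_smul D' f hf

theorem LieData.dlin_spec [IsTopologicalGroup G'] [T2Space G'] (D : LieData G)
    (D' : LieData G') (f : G →* G') (hf : Continuous f) (X : D.E) :
    f (D.e X) = D'.e (D.dlin D' f hf X) := D.dmap_spec1 D' f hf X

theorem LieData.dlin_small [IsTopologicalGroup G'] [T2Space G'] (D : LieData G)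
    (D' : LieData G') (f : G →* G') (hf : Continuous f) :
    ∃ r > 0, Set.InjOn D'.e (Metric.ball 0 r) ∧ ∃ s > 0, ∀ X ∈ Metric.ball (0 : D.E) s,
      D.dlin D' f hf X ∈ Metric.ball (0 : D'.E) r := by
  obtain ⟨r, hr, hinj⟩ := D'.inj
  refine ⟨r, hr, hinj, ?_⟩
  have hc : Continuous (D.dlin D' f hf) := LinearMap.continuous_of_finiteDimensional _
  have h : (D.dlin D' f hf) ⁻¹' Metric.ball 0 r ∈ 𝓝 (0 : D.E) :=
    hc.continuousAt.preimage_mem_nhds (by
      rw [map_zero]
      exact Metric.ball_mem_nhds _ hr)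
  obtain ⟨s, hs, hsub⟩ := Metric.mem_nhds_iff.1 h
  exact ⟨s, hs, fun X hX => hsub hX⟩

theorem LieData.dlin_surjective [IsTopologicalGroup G'] [T2Space G'] (D : LieData G)
    (D' : LieData G') (f : G →* G') (hf : Continuous f) (ho : IsOpenMap f) :
    Function.Surjective (D.dlin D' f hf) := by
  obtain ⟨r, hr, hinj, s, hs, hsub⟩ := D.dlin_small D' f hf
  have h1 : f '' (D.e '' Metric.ball 0 s) ∈ 𝓝 (1 : G') := by
    have := ho.image_mem_nhds (D.nhds s hs)
    rwa [map_one] at this
  have h2 : D'.e ⁻¹' (f '' (D.e '' Metric.ball 0 s)) ∈ 𝓝 (0 : D'.E) :=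
    D'.cont.continuousAt.preimage_mem_nhds (by rwa [D'.e_zero])
  have h3 : D'.e ⁻¹' (f '' (D.e '' Metric.ball 0 s)) ∩ Metric.ball 0 r ∈ 𝓝 (0 : D'.E) :=
    inter_mem h2 (Metric.ball_mem_nhds _ hr)
  have h4 : (LinearMap.range (D.dlin D' f hf) : Set D'.E) ∈ 𝓝 (0 : D'.E) := by
    refine mem_of_superset h3 ?_
    rintro Y ⟨⟨-, ⟨X, hX, rfl⟩, hXY⟩, hY⟩
    rw [D.dlin_spec D' f hf] at hXY
    exact ⟨X, hinj (hsub X hX) hY hXY⟩
  have h5 : LinearMap.range (D.dlin D' f hf) = ⊤ :=
    Submodule.eq_top_of_nonempty_interior' _ ⟨0, mem_interior_iff_mem_nhds.2 h4⟩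
  exact LinearMap.range_eq_top.1 h5

end two

section three

variable {P P' : Type u} [Group P] [TopologicalSpace P] [IsTopologicalGroup P] [T2Space P]
  [LocallyCompactSpace P] [Group P'] [TopologicalSpace P'] [IsTopologicalGroup P'] [T2Space P']
  [LocallyCompactSpace P']

theorem LieData.finrank_le (D : LieData P) (D' : LieData P') (f : P →* P') (hf : Continuous f)
    (ho : IsOpenMap f) : Module.finrank ℝ D'.E ≤ Module.finrank ℝ D.E :=
  LinearMap.finrank_le_finrank_of_surjective (D.dlin_surjective D' f hf ho)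

theorem dimL_eq_finrank (D : LieData P) : dimL P = Module.finrank ℝ D.E := by
  have hne : {n | ∃ D : LieData P, n = Module.finrank ℝ D.E}.Nonempty := ⟨_, D, rfl⟩
  obtain ⟨D₁, hD₁⟩ := Nat.sInf_mem hne
  unfold dimL
  rw [hD₁]
  exact le_antisymm (D.finrank_le D₁ (MonoidHom.id P) continuous_id IsOpenMap.id)
    (D₁.finrank_le D (MonoidHom.id P) continuous_id IsOpenMap.id)

/-- T6b. Open surjective homomorphisms and the dimension. -/
theorem dimL_le_of_open (hP : NSS P) (hP' : NSS P') (f : P →* P') (hf : Continuous f)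
    (ho : IsOpenMap f) (hs : Function.Surjective f) :
    dimL P' ≤ dimL P ∧
      (dimL P' = dimL P → ∃ W ∈ 𝓝 (1 : P), ∀ g ∈ W, f g = 1 → g = 1) := by
  obtain ⟨D⟩ := exists_lieData hP
  obtain ⟨D'⟩ := exists_lieData hP'
  rw [dimL_eq_finrank D, dimL_eq_finrank D']
  refine ⟨D.finrank_le D' f hf ho, fun heq => ?_⟩
  obtain ⟨r, hr, hinj, s, hs', hsub⟩ := D.dlin_small D' f hf
  have hinjL : Function.Injective (D.dlin D' f hf) :=
    (LinearMap.injective_iff_surjective_of_finrank_eq_finrank heq.symm).2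
      (D.dlin_surjective D' f hf ho)
  refine ⟨_, D.nhds s hs', ?_⟩
  rintro _ ⟨X, hX, rfl⟩ hX1
  rw [D.dlin_spec D' f hf, ← D'.e_zero] at hX1
  have h1 := hinj (hsub X hX) (Metric.mem_ball_self hr) hX1
  rw [← map_zero (D.dlin D' f hf)] at h1
  rw [hinjL h1, D.e_zero]

/-- T6b. A finite group of exponent `p` acting on a connected group. -/
theorem exists_acts_trivially [ConnectedSpace P] (hP : NSS P) (p : ℕ) (hp : p.Prime)
    (A : Type v) [CommGroup A] [Finite A] (hA : ∀ a : A, a ^ p = 1) (α : A →* MulAut P)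
    (hα : ∀ a, Continuous (α a)) (hcard : p ^ dimL P < Nat.card A) :
    ∃ a : A, a ≠ 1 ∧ α a = 1 := by
  obtain ⟨D⟩ := exists_lieData hP
  rw [dimL_eq_finrank D] at hcard
  let ρ : A →* Module.End ℝ D.E :=
    { toFun := fun a => D.dlin D (α a).toMonoidHom (hα a)
      map_one' := by
        ext X
        apply D.eq_of_forall
        intro t
        have := D.dmap_spec D (α 1).toMonoidHom (hα 1) X t
        rw [Module.End.one_apply]
        refine this.symm.trans ?_
        simp
      map_mul' := by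
        intro a b
        ext X
        apply D.eq_of_forall
        intro t
        have h1 := D.dmap_spec D (α (a * b)).toMonoidHom (hα (a * b)) X t
        have h2 := D.dmap_spec D (α b).toMonoidHom (hα b) X t
        have h3 := D.dmap_spec D (α a).toMonoidHom (hα a)
          (D.dmap D (α b).toMonoidHom (hα b) X) t
        rw [Module.End.mul_apply]
        refine h1.symm.trans (Eq.trans ?_ h3)
        rw [← h2]
        simp }
  obtain ⟨a, ha, hρ⟩ := exists_ne_one_of_card p hp A hA ρ hcard
  refine ⟨a, ha, ?_⟩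
  have hfix : ∀ X : D.E, α a (D.e X) = D.e X := by
    intro X
    have h1 := D.dlin_spec D (α a).toMonoidHom (hα a) X
    have h2 : D.dlin D (α a).toMonoidHom (hα a) X = X := by
      have : ρ a X = X := by rw [hρ]; rfl
      exact this
    rw [h2] at h1
    exact h1
  -- the fixed subgroup is open
  let F : Subgroup P :=
    { carrier := {x | α a x = x}
      mul_mem' := fun {x y} hx hy => by
        simp only [Set.mem_ofPred_eq, map_mul] at *
        rw [hx, hy]
      one_mem' := by simp
      inv_mem' := fun {x} hx => by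
        simp only [Set.mem_ofPred_eq, map_inv] at *
        rw [hx] }
  have hFo : IsOpen (F : Set P) := by
    apply Subgroup.isOpen_of_mem_nhds (g := 1)
    refine mem_of_superset (D.nhds 1 one_pos) ?_
    rintro _ ⟨X, -, rfl⟩
    exact hfix X
  have hFt : F = ⊤ := by
    have hclopen : IsClopen (F : Set P) := ⟨Subgroup.isClosed_of_isOpen _ hFo, hFo⟩
    have := hclopen.eq_univ ⟨1, F.one_mem⟩
    exact SetLike.coe_injective (by simpa using this)
  ext x
  have : x ∈ F := by rw [hFt]; trivial
  exact this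

/-- T6b. The identity component is open. -/
theorem exists_open_connected (hP : NSS P) :
    ∃ P₀ : Subgroup P, IsOpen (P₀ : Set P) ∧ IsConnected (P₀ : Set P) := by
  obtain ⟨D⟩ := exists_lieData hP
  refine ⟨Subgroup.connectedComponentOfOne P, ?_, isConnected_connectedComponent⟩
  apply Subgroup.isOpen_of_mem_nhds (g := 1)
  refine mem_of_superset (D.nhds 1 one_pos) ?_
  have hr : IsPreconnected (Set.range D.e) := isPreconnected_range D.cont
  have hsub : Set.range D.e ⊆ connectedComponent (1 : P) :=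
    hr.subset_connectedComponent ⟨0, D.e_zero⟩
  exact (Set.image_subset_range _ _).trans hsub

end three

end GY
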