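import Pool.Agent.MP6c9f91.GYDefs

/-!
# T2: the Gleason function
-/

open Topology Filter Pointwise MeasureTheory

universe u v w

namespace GY

section T2aux

variable {G : Type u} [Group G]

/-- the length attached to a weight -/
noncomputable def glen (w : G → ℝ) (x : G) : ℝ :=
  sInf {s : ℝ | ∃ l : List G, l.prod = x ∧ s = (l.map w).sum}

/-- the cut off length -/
noncomputable def gpsi (w : G → ℝ) (x : G) : ℝ := max 0 (1 - glen w x)

/-- the Gleason supremum -/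
noncomputable def gth (τ ψ : G → ℝ) (x : G) : ℝ := ⨆ y, ψ y * τ (y⁻¹ * x)

omit [Group G] in
theorem list_sum_nonneg' {w : G → ℝ} (hw : ∀ g, 0 ≤ w g) (l : List G) : 0 ≤ (l.map w).sum :=
  List.sum_nonneg (by
    intro x hx
    obtain ⟨g, -, rfl⟩ := List.mem_map.1 hx
    exact hw g)

theorem glen_bdd {w : G → ℝ} (hw : ∀ g, 0 ≤ w g) (x : G) :
    BddBelow {s : ℝ | ∃ l : List G, l.prod = x ∧ s = (l.map w).sum} := by
  refine ⟨0, ?_⟩
  rintro s ⟨l, -, rfl⟩
  exact list_sum_nonneg' hw l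

theorem glen_nonempty (w : G → ℝ) (x : G) :
    {s : ℝ | ∃ l : List G, l.prod = x ∧ s = (l.map w).sum}.Nonempty :=
  ⟨_, [x], by simp, rfl⟩

theorem glen_nonneg {w : G → ℝ} (hw : ∀ g, 0 ≤ w g) (x : G) : 0 ≤ glen w x := by
  refine le_csInf (glen_nonempty w x) ?_
  rintro s ⟨l, -, rfl⟩
  exact list_sum_nonneg' hw l

theorem glen_one {w : G → ℝ} (hw : ∀ g, 0 ≤ w g) : glen w 1 = 0 := by
  refine le_antisymm (csInf_le (glen_bdd hw 1) ⟨[], by simp, by simp⟩) (glen_nonneg hw 1)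

theorem glen_mul_le {w : G → ℝ} (hw : ∀ g, 0 ≤ w g) (g x : G) :
    glen w (g * x) ≤ w g + glen w x := by
  rw [← sub_le_iff_le_add']
  refine le_csInf (glen_nonempty w x) ?_
  rintro s ⟨l, rfl, rfl⟩
  rw [sub_le_iff_le_add']
  exact csInf_le (glen_bdd hw _) ⟨g :: l, by simp, by simp⟩

theorem glen_le_mul {w : G → ℝ} (hw : ∀ g, 0 ≤ w g) (hwi : ∀ g, w g⁻¹ = w g) (g x : G) :
    glen w x ≤ w g + glen w (g * x) := by
  have := glen_mul_le hw g⁻¹ (g * x)
  rwa [hwi, inv_mul_cancel_left] at this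

theorem gpsi_nonneg (w : G → ℝ) (x : G) : 0 ≤ gpsi w x := le_max_left _ _

theorem gpsi_le_one {w : G → ℝ} (hw : ∀ g, 0 ≤ w g) (x : G) : gpsi w x ≤ 1 :=
  max_le zero_le_one (by linarith [glen_nonneg hw x])

theorem gpsi_one {w : G → ℝ} (hw : ∀ g, 0 ≤ w g) : gpsi w 1 = 1 := by
  simp [gpsi, glen_one hw]

theorem gpsi_lip {w : G → ℝ} (hw : ∀ g, 0 ≤ w g) (hwi : ∀ g, w g⁻¹ = w g) (g x : G) :
    |gpsi w (g * x) - gpsi w x| ≤ w g := by
  have h1 := glen_mul_le hw g x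
  have h2 := glen_le_mul hw hwi g x
  have h3 : |gpsi w (g * x) - gpsi w x| ≤ |(1 - glen w (g * x)) - (1 - glen w x)| := by
    unfold gpsi
    rw [max_comm 0, max_comm 0]
    exact abs_max_sub_max_le_abs _ _ _
  refine h3.trans ?_
  rw [abs_le]
  constructor <;> linarith

theorem gpsi_supp {w : G → ℝ} {U : Set G}
    (hU : ∀ l : List G, (l.map w).sum < 1 → l.prod ∈ U) {x : G} (hx : gpsi w x ≠ 0) : x ∈ U := by
  have h1 : glen w x < 1 := by
    by_contra h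
    exact hx (by simp [gpsi]; linarith)
  obtain ⟨s, ⟨l, rfl, rfl⟩, hl⟩ := exists_lt_of_csInf_lt (glen_nonempty w x) h1
  exact hU l hl

theorem gth_bdd {τ ψ : G → ℝ} (hτ : ∀ x, τ x ∈ Set.Icc (0 : ℝ) 1)
    (hψ : ∀ x, ψ x ∈ Set.Icc (0 : ℝ) 1) (x : G) :
    BddAbove (Set.range fun y => ψ y * τ (y⁻¹ * x)) := by
  refine ⟨1, ?_⟩
  rintro s ⟨y, rfl⟩
  exact mul_le_one₀ (hψ y).2 (hτ _).1 (hτ _).2

theorem gth_nonneg {τ ψ : G → ℝ} (hτ : ∀ x, τ x ∈ Set.Icc (0 : ℝ) 1)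
    (hψ : ∀ x, ψ x ∈ Set.Icc (0 : ℝ) 1) (x : G) : 0 ≤ gth τ ψ x :=
  Real.iSup_nonneg fun y => mul_nonneg (hψ y).1 (hτ _).1

theorem gth_le_one {τ ψ : G → ℝ} (hτ : ∀ x, τ x ∈ Set.Icc (0 : ℝ) 1)
    (hψ : ∀ x, ψ x ∈ Set.Icc (0 : ℝ) 1) (x : G) : gth τ ψ x ≤ 1 :=
  Real.iSup_le (fun y => mul_le_one₀ (hψ y).2 (hτ _).1 (hτ _).2) zero_le_one

theorem le_gth {τ ψ : G → ℝ} (hτ : ∀ x, τ x ∈ Set.Icc (0 : ℝ) 1)
    (hψ : ∀ x, ψ x ∈ Set.Icc (0 : ℝ) 1) (h1 : ψ 1 = 1) (x : G) : τ x ≤ gth τ ψ x := by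
  have h2 := le_ciSup (gth_bdd hτ hψ x) 1
  simp only [h1, one_mul, inv_one] at h2
  exact h2

theorem gth_supp {τ ψ : G → ℝ} {U : Set G} (hτ : ∀ x, τ x ≠ 0 → x ∈ U)
    (hψ : ∀ x, ψ x ≠ 0 → x ∈ U) {x : G} (hx : gth τ ψ x ≠ 0) : x ∈ U * U := by
  by_contra h
  apply hx
  have : ∀ y, ψ y * τ (y⁻¹ * x) = 0 := by
    intro y
    by_contra hy
    have h1 : ψ y ≠ 0 := left_ne_zero_of_mul hy
    have h2 : τ (y⁻¹ * x) ≠ 0 := right_ne_zero_of_mul hy
    exact h ⟨y, hψ y h1, y⁻¹ * x, hτ _ h2, by simp⟩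
  simp [gth, this]

theorem iSup_le_add {ι : Type*} [Nonempty ι] {f g : ι → ℝ} {ε : ℝ} (hg : BddAbove (Set.range g))
    (h : ∀ i, f i ≤ g i + ε) : (⨆ i, f i) ≤ (⨆ i, g i) + ε :=
  ciSup_le fun i => (h i).trans (by linarith [le_ciSup hg i])

theorem iSup_sub_le {ι : Type*} [Nonempty ι] {f g : ι → ℝ} {ε : ℝ}
    (hf : BddAbove (Set.range f)) (hg : BddAbove (Set.range g))
    (h : ∀ i, |f i - g i| ≤ ε) : |(⨆ i, f i) - ⨆ i, g i| ≤ ε := by
  have h1 := iSup_le_add hg (ε := ε) (f := f) fun i => by linarith [(abs_le.1 (h i)).2]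
  have h2 := iSup_le_add hf (ε := ε) (f := g) fun i => by linarith [(abs_le.1 (h i)).1]
  rw [abs_le]
  constructor <;> linarith

/-- (ii) -/
theorem gth_right {τ ψ : G → ℝ} (hτ : ∀ x, τ x ∈ Set.Icc (0 : ℝ) 1)
    (hψ : ∀ x, ψ x ∈ Set.Icc (0 : ℝ) 1) {z : G} {ε : ℝ} (hz : ∀ v, |τ (v * z) - τ v| ≤ ε)
    (x : G) : |gth τ ψ (x * z) - gth τ ψ x| ≤ ε := by
  refine iSup_sub_le (gth_bdd hτ hψ _) (gth_bdd hτ hψ _) fun y => ?_
  rw [← mul_sub, abs_mul, abs_of_nonneg (hψ y).1, ← mul_assoc]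
  calc ψ y * |τ (y⁻¹ * x * z) - τ (y⁻¹ * x)| ≤ 1 * |τ (y⁻¹ * x * z) - τ (y⁻¹ * x)| :=
        mul_le_mul_of_nonneg_right (hψ y).2 (abs_nonneg _)
    _ ≤ ε := by rw [one_mul]; exact hz _

/-- (iii) -/
theorem gth_left {τ ψ : G → ℝ} (hτ : ∀ x, τ x ∈ Set.Icc (0 : ℝ) 1)
    (hψ : ∀ x, ψ x ∈ Set.Icc (0 : ℝ) 1) {g : G} {ε : ℝ} (hg : ∀ v, |ψ (g * v) - ψ v| ≤ ε)
    (x : G) : |gth τ ψ (g * x) - gth τ ψ x| ≤ ε := by
  have h1 : gth τ ψ (g * x) = ⨆ y, ψ (g * y) * τ (y⁻¹ * x) := by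
    unfold gth
    rw [← (Equiv.mulLeft g).surjective.iSup_comp]
    refine iSup_congr fun y => ?_
    simp only [Equiv.coe_mulLeft, mul_inv_rev]
    congr 2
    group
  rw [h1]
  refine iSup_sub_le ?_ (gth_bdd hτ hψ _) fun y => ?_
  · refine ⟨1, ?_⟩
    rintro s ⟨y, rfl⟩
    exact mul_le_one₀ (hψ _).2 (hτ _).1 (hτ _).2
  · rw [← sub_mul, abs_mul, abs_of_nonneg (hτ _).1]
    calc |ψ (g * y) - ψ y| * τ (y⁻¹ * x) ≤ |ψ (g * y) - ψ y| * 1 :=
          mul_le_mul_of_nonneg_left (hτ _).2 (abs_nonneg _)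
      _ ≤ ε := by rw [mul_one]; exact hg _

end T2aux

section T2top

variable {G : Type u} [Group G] [TopologicalSpace G] [IsTopologicalGroup G]

/-- uniform continuity of τ -/
theorem tau_unif {τ : G → ℝ} (hc : Continuous τ) {U : Set G} (hUc : IsCompact U)
    (hU1 : U ∈ 𝓝 (1 : G)) (hUs : U⁻¹ = U) (hτ : ∀ x, τ x ≠ 0 → x ∈ U) {ε : ℝ} (hε : 0 < ε) :
    {z : G | ∀ v, |τ (v * z) - τ v| ≤ ε} ∈ 𝓝 (1 : G) := by
  have h1 : ∀ᶠ z in 𝓝 (1 : G), ∀ v ∈ U * U, |τ (v * z) - τ v| < ε := by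
    refine (hUc.mul hUc).eventually_forall_of_forall_eventually fun v _ => ?_
    have hcont : Continuous fun p : G × G => |τ (p.2 * p.1) - τ p.2| := by fun_prop
    have h0 : (fun p : G × G => |τ (p.2 * p.1) - τ p.2|) (1, v) < ε := by simpa using hε
    exact hcont.continuousAt.eventually_lt continuousAt_const h0
  filter_upwards [h1, hU1] with z hz hzU v
  by_cases hv : v ∈ U * U
  · exact (hz v hv).le
  · have h2 : τ v = 0 := by
      by_contra h
      exact hv ⟨v, hτ v h, 1, mem_of_mem_nhds hU1, by simp⟩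
    have h3 : τ (v * z) = 0 := by
      by_contra h
      refine hv ⟨v * z, hτ _ h, z⁻¹, ?_, by simp⟩
      rw [← hUs]
      simpa using hzU
    simp [h2, h3, hε.le]

/-- conjugation is uniformly continuous over compact sets -/
theorem conj_unif {K N : Set G} (hK : IsCompact K) (hN : N ∈ 𝓝 (1 : G)) :
    {h : G | ∀ x ∈ K, x⁻¹ * h * x ∈ N} ∈ 𝓝 (1 : G) := by
  have : ∀ᶠ h in 𝓝 (1 : G), ∀ x ∈ K, x⁻¹ * h * x ∈ N := by
    refine hK.eventually_forall_of_forall_eventually fun v _ => ?_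
    have hcont : Continuous fun p : G × G => p.2⁻¹ * p.1 * p.2 := by fun_prop
    have h0 : Tendsto (fun p : G × G => p.2⁻¹ * p.1 * p.2) (𝓝 (1, v)) (𝓝 1) := by
      have := hcont.tendsto (1, v)
      simpa using this
    exact h0 hN
  exact this

end T2top

section T2

variable (G : Type u) [Group G] [TopologicalSpace G] [IsTopologicalGroup G] [T2Space G]
  [LocallyCompactSpace G]

theorem gleason_weight (U : Set G) (hUc : IsCompact U) (hU1 : U ∈ 𝓝 (1 : G)) (hUs : U⁻¹ = U) :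
    ∃ (c C : ℝ) (V : ℝ → Set G), 0 < c ∧ 0 < C ∧ (∀ δ > 0, V δ ∈ 𝓝 (1 : G)) ∧
      ∀ w : G → ℝ, (∀ g, 0 ≤ w g) → (∀ g, w g⁻¹ = w g) →
        (∀ l : List G, (l.map w).sum < 1 → l.prod ∈ U) →
        ∃ φ : G → ℝ, c ≤ φ 1 ∧ (∀ x, |φ x| ≤ C) ∧ (∀ x, φ x ≠ 0 → x ∈ U * U * U * U) ∧
          (∀ g x, |φ (g * x) - φ x| ≤ C * w g) ∧
          (∀ δ > 0, ∀ h ∈ V δ, ∀ x, |φ (h * x) - φ x| ≤ δ) ∧
          (∀ δ > 0, ∀ g ∈ U, ∀ h ∈ V δ, ∀ x,
            |(φ (g * (h * x)) - φ (h * x)) - (φ (g * x) - φ x)| ≤ δ * w g) ∧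
          (∀ g ∈ U, ∀ h ∈ U, ∀ D' : ℝ,
            (∀ x ∈ U * U * U * U * U * U, w (x⁻¹ * h⁻¹ * x) ≤ D') → ∀ x,
            |(φ (g * (h * x)) - φ (h * x)) - (φ (g * x) - φ x)| ≤ C * w g * D') := by
  let _ : MeasurableSpace G := borel G
  have _ : BorelSpace G := ⟨rfl⟩
  set μ : Measure G := Measure.haar with hμ
  have h1U : (1 : G) ∈ U := mem_of_mem_nhds hU1
  have hinv : ∀ {x : G}, x ∈ U → x⁻¹ ∈ U := by
    intro x hx
    rw [← hUs]
    simpa using hx
  -- the function tau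
  obtain ⟨τ, hτ1, hτ0, hτc, hτI⟩ := exists_continuous_one_zero_of_isCompact
    (isCompact_singleton (x := (1 : G))) (isOpen_interior (s := U)).isClosed_compl (by
      rw [Set.disjoint_singleton_left]
      exact fun h => h (mem_interior_iff_mem_nhds.2 hU1))
  have hτ1 : τ 1 = 1 := hτ1 rfl
  have hτs : ∀ x, τ x ≠ 0 → x ∈ U := by
    intro x hx
    by_contra h
    exact hx (hτ0 (fun h' => h (interior_subset h')))
  set c : ℝ := ∫ x, τ x * τ x ∂μ with hc
  have hτ2c : HasCompactSupport (fun x => τ x * τ x) := hτc.mul_left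
  have hcpos : 0 < c := by
    refine Continuous.integral_pos_of_hasCompactSupport_nonneg_nonzero (x := 1) (by fun_prop)
      hτ2c (fun x => mul_self_nonneg _) (by simp [hτ1])
  have hK2 : IsCompact (U * U) := hUc.mul hUc
  set m : ℝ := μ.real (U * U) with hm
  have hm0 : 0 ≤ m := measureReal_nonneg
  set C : ℝ := 2 * m + 1 with hC
  have hC0 : 0 < C := by positivity
  -- neighbourhoods
  set R : ℝ → Set G := fun ε => {k | k ∈ U ∧ ∀ v ∈ U * U * U, v⁻¹ * k * v ∈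
    {z : G | ∀ v, |τ (v * z) - τ v| ≤ ε}} with hR
  have hRn : ∀ ε > 0, R ε ∈ 𝓝 (1 : G) := by
    intro ε hε
    exact inter_mem hU1 (conj_unif (hK2.mul hUc) (tau_unif τ.continuous hUc hU1 hUs hτs hε))
  set V : ℝ → Set G := fun δ => R (δ / C) ∩ (U ∩ {h | ∀ x ∈ U * U * U * U * U * U,
    x⁻¹ * h * x ∈ (R (δ / C))⁻¹}) with hV
  have hVn : ∀ δ > 0, V δ ∈ 𝓝 (1 : G) := by
    intro δ hδ
    refine inter_mem (hRn _ (by positivity)) (inter_mem hU1 (conj_unif ?_ ?_))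
    · exact ((((hK2.mul hUc).mul hUc).mul hUc).mul hUc)
    · have := inv_mem_nhds_one G (hRn (δ / C) (by positivity))
      exact this
  refine ⟨c, C, V, hcpos, hC0, hVn, ?_⟩
  intro w hw0 hwi hwU
  set ψ : G → ℝ := gpsi w with hψ
  have hψI : ∀ x, ψ x ∈ Set.Icc (0 : ℝ) 1 := fun x => ⟨gpsi_nonneg w x, gpsi_le_one hw0 x⟩
  have hψs : ∀ x, ψ x ≠ 0 → x ∈ U := fun x hx => gpsi_supp hwU hx
  set θ : G → ℝ := gth τ ψ with hθ
  have hθ0 : ∀ x, 0 ≤ θ x := gth_nonneg hτI hψI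
  have hθ1 : ∀ x, θ x ≤ 1 := gth_le_one hτI hψI
  have hθτ : ∀ x, τ x ≤ θ x := le_gth hτI hψI (gpsi_one hw0)
  have hθs : ∀ x, θ x ≠ 0 → x ∈ U * U := fun x hx => gth_supp hτs hψs hx
  have hθr : ∀ z ε, (∀ v, |τ (v * z) - τ v| ≤ ε) → ∀ x, |θ (x * z) - θ x| ≤ ε :=
    fun z ε hz x => gth_right hτI hψI hz x
  have hθl : ∀ g x, |θ (g * x) - θ x| ≤ w g :=
    fun g x => gth_left hτI hψI (fun v => gpsi_lip hw0 hwi g v) x
  have hθR : ∀ ε, 0 < ε → ∀ k ∈ R ε, ∀ u, |θ (k * u) - θ u| ≤ ε := by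
    intro ε hε k hk u
    by_cases hu : u ∈ U * U * U
    · have h1 := hθr _ ε (hk.2 u hu) u
      rwa [← mul_assoc, mul_inv_cancel_left] at h1
    · have h2 : θ u = 0 := by
        by_contra h
        obtain ⟨a, ha, b, hb, hab⟩ := hθs u h
        exact hu ⟨a * b, ⟨a, ha, b, hb, rfl⟩, 1, h1U, by simpa using hab⟩
      have h3 : θ (k * u) = 0 := by
        by_contra h
        obtain ⟨a, ha, b, hb, hab⟩ := hθs _ h
        refine hu ⟨k⁻¹ * a, ⟨k⁻¹, hinv hk.1, a, ha, rfl⟩, b, hb, ?_⟩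
        simp only at hab ⊢
        rw [mul_assoc, hab, inv_mul_cancel_left]
      simp [h2, h3, hε.le]
  have hθc : Continuous θ := by
    rw [continuous_iff_continuousAt]
    intro x
    rw [Metric.continuousAt_iff']
    intro ε hε
    have h1 : Tendsto (fun y => x⁻¹ * y) (𝓝 x) (𝓝 1) := by
      have : Continuous fun y => x⁻¹ * y := by fun_prop
      simpa using this.tendsto x
    filter_upwards [h1 (tau_unif τ.continuous hUc hU1 hUs hτs (half_pos hε))] with y hy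
    have h2 := hθr _ _ hy x
    rw [mul_inv_cancel_left] at h2
    rw [Real.dist_eq]
    linarith
  have hθcs : HasCompactSupport θ := HasCompactSupport.intro hK2 (fun x hx => by
    by_contra h
    exact hx (hθs x h))
  -- integrability
  have hθt : ∀ a, HasCompactSupport (fun u => θ (a * u)) := fun a =>
    hθcs.comp_homeomorph (Homeomorph.mulLeft a)
  have hint : ∀ a b, Integrable (fun u => θ (a * u) * θ (b * u)) μ := by
    intro a b
    have h1 : Continuous (fun u => θ (a * u) * θ (b * u)) :=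
      (hθc.comp (continuous_const_mul a)).mul (hθc.comp (continuous_const_mul b))
    exact h1.integrable_of_hasCompactSupport (HasCompactSupport.mul_left (hθt b))
  have hint1 : ∀ a, Integrable (fun u => θ (a * u) * θ u) μ := by
    intro a
    simpa using hint a 1
  set φ : G → ℝ := fun x => ∫ u, θ (x * u) * θ u ∂μ with hφ
  -- a bound for integrals
  have hbd : ∀ (f : G → ℝ) (S : Set G) (ε : ℝ), IsCompact S → (∀ u, f u ≠ 0 → u ∈ S) →
      (∀ u, |f u| ≤ ε) → |∫ u, f u ∂μ| ≤ ε * μ.real S := by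
    intro f S ε hS hf hε
    rw [← setIntegral_eq_integral_of_forall_compl_eq_zero (s := S) (fun u hu => by
      by_contra h
      exact hu (hf u h))]
    have := norm_setIntegral_le_of_norm_le_const (f := f) (C := ε) (hS.measure_lt_top (μ := μ))
      (fun u _ => (Real.norm_eq_abs _).trans_le (hε u))
    exact (Real.norm_eq_abs _).symm.trans_le this
  have hφ4 : ∀ x, φ x ≠ 0 → x ∈ U * U * U * U := by
    intro x hx
    have : ∃ u, θ (x * u) * θ u ≠ 0 := by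
      by_contra h
      push Not at h
      exact hx (by simp [hφ, h])
    obtain ⟨u, hu⟩ := this
    obtain ⟨a, ha, b, hb, hab⟩ := hθs _ (left_ne_zero_of_mul hu)
    obtain ⟨a', ha', b', hb', hab'⟩ := hθs _ (right_ne_zero_of_mul hu)
    simp only at hab hab'
    refine ⟨a * b * b'⁻¹, ⟨a * b, ⟨a, ha, b, hb, rfl⟩, b'⁻¹, hinv hb', rfl⟩, a'⁻¹, hinv ha', ?_⟩
    simp only
    rw [hab, ← hab']
    group
  have hφd : ∀ g x, φ (g * x) - φ x = ∫ u, (θ (g * (x * u)) - θ (x * u)) * θ u ∂μ := by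
    intro g x
    simp only [hφ, sub_mul]
    rw [integral_sub]
    · simp only [mul_assoc]
    · simpa only [mul_assoc] using hint1 (g * x)
    · exact hint1 x
  have hsd : ∀ g h x, (φ (g * (h * x)) - φ (h * x)) - (φ (g * x) - φ x) =
      ∫ u, (θ (g * (x * u)) - θ (x * u)) * (θ ((x⁻¹ * h⁻¹ * x) * u) - θ u) ∂μ := by
    intro g h x
    rw [hφd g (h * x), hφd g x]
    have h1 : ∫ u, (θ (g * (h * x * u)) - θ (h * x * u)) * θ u ∂μ =
        ∫ u, (θ (g * (x * u)) - θ (x * u)) * θ ((x⁻¹ * h⁻¹ * x) * u) ∂μ := by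
      rw [← integral_mul_left_eq_self (fun u => (θ (g * (h * x * u)) - θ (h * x * u)) * θ u)
        (x⁻¹ * h⁻¹ * x)]
      refine integral_congr_ae (Eventually.of_forall fun u => ?_)
      have h2 : h * x * (x⁻¹ * h⁻¹ * x * u) = x * u := by group
      simp only [h2]
    rw [h1, ← integral_sub]
    · simp only [mul_sub]
    · have := (hint (g * x) (x⁻¹ * h⁻¹ * x)).sub (hint x (x⁻¹ * h⁻¹ * x))
      refine this.congr (Eventually.of_forall fun u => ?_)
      simp only [Pi.sub_apply, sub_mul, mul_assoc]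
    · have := (hint1 (g * x)).sub (hint1 x)
      refine this.congr (Eventually.of_forall fun u => ?_)
      simp only [Pi.sub_apply, sub_mul, mul_assoc]
  have hsd0 : ∀ g ∈ U, ∀ h ∈ U, ∀ x, x ∉ U * U * U * U * U * U →
      (φ (g * (h * x)) - φ (h * x)) - (φ (g * x) - φ x) = 0 := by
    intro g hg h hh x hx
    have h0 : ∀ a ∈ U, ∀ b ∈ U, φ (a * (b * x)) = 0 := by
      intro a ha b hb
      by_contra hne
      have h1 := hφ4 _ hne
      apply hx
      have h2 : b⁻¹ * (a⁻¹ * (a * (b * x))) ∈ U * (U * (U * U * U * U)) :=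
        ⟨b⁻¹, hinv hb, _, ⟨a⁻¹, hinv ha, _, h1, rfl⟩, rfl⟩
      simpa [mul_assoc] using h2
    have h1 := h0 g hg h hh
    have h2 : φ (h * x) = 0 := by simpa using h0 h hh 1 h1U
    have h3 : φ (g * x) = 0 := by simpa using h0 g hg 1 h1U
    have h4 : φ x = 0 := by simpa using h0 1 h1U 1 h1U
    simp [h1, h2, h3, h4]
  have hpre : ∀ a : G, IsCompact ((fun u => a * u) ⁻¹' (U * U)) := fun a =>
    (Homeomorph.mulLeft a).isClosedEmbedding.isCompact_preimage hK2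
  have hsdb : ∀ g h x ε, 0 ≤ ε → (∀ u, |θ ((x⁻¹ * h⁻¹ * x) * u) - θ u| ≤ ε) →
      |(φ (g * (h * x)) - φ (h * x)) - (φ (g * x) - φ x)| ≤ w g * ε * (2 * m) := by
    intro g h x ε hε hu
    rw [hsd]
    set S : Set G := (fun u => (g * x) * u) ⁻¹' (U * U) ∪ (fun u => x * u) ⁻¹' (U * U) with hS
    have hSm : μ.real S ≤ 2 * m := by
      refine (measureReal_union_le _ _).trans ?_
      rw [measureReal_def, measureReal_def, measure_preimage_mul, measure_preimage_mul,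
        ← measureReal_def, ← hm]
      linarith
    refine (hbd _ S (w g * ε) ((hpre _).union (hpre _)) ?_ ?_).trans
      (mul_le_mul_of_nonneg_left hSm (mul_nonneg (hw0 g) hε))
    · intro u hu
      by_contra hn
      have h1 : θ (g * (x * u)) = 0 := by
        by_contra h
        exact hn (Or.inl (by
          have := hθs _ h
          simpa [mul_assoc] using this))
      have h2 : θ (x * u) = 0 := by
        by_contra h
        exact hn (Or.inr (hθs _ h))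
      exact hu (by simp [h1, h2])
    · intro u
      rw [abs_mul]
      exact mul_le_mul (hθl _ _) (hu u) (abs_nonneg _) (hw0 g)
  refine ⟨φ, ?_, ?_, hφ4, ?_, ?_, ?_, ?_⟩
  · -- c ≤ φ 1
    simp only [hφ, one_mul, hc]
    refine integral_mono ?_ ?_ fun u => ?_
    · exact Continuous.integrable_of_hasCompactSupport (by fun_prop) hτ2c
    · simpa using hint 1 1
    · exact mul_le_mul (hθτ u) (hθτ u) (hτI u).1 (hθ0 u)
  · intro x
    have := hbd (fun u => θ (x * u) * θ u) (U * U) 1 hK2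
      (fun u hu => hθs u (right_ne_zero_of_mul hu))
      (fun u => by
        rw [abs_of_nonneg (mul_nonneg (hθ0 _) (hθ0 _))]
        exact mul_le_one₀ (hθ1 _) (hθ0 _) (hθ1 _))
    refine this.trans ?_
    rw [← hm]
    linarith
  · intro g x
    rw [hφd]
    have := hbd (fun u => (θ (g * (x * u)) - θ (x * u)) * θ u) (U * U) (w g) hK2
      (fun u hu => hθs u (right_ne_zero_of_mul hu))
      (fun u => by
        rw [abs_mul, abs_of_nonneg (hθ0 u)]
        exact (mul_le_mul (hθl _ _) (hθ1 _) (hθ0 _) (hw0 g)).trans (by simp))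
    refine this.trans ?_
    rw [← hm, mul_comm]
    exact mul_le_mul_of_nonneg_right (by linarith) (hw0 g)
  · intro δ hδ h hh x
    rw [hφd]
    have h1 : ∀ u, |θ (h * (x * u)) - θ (x * u)| ≤ δ / C := fun u =>
      hθR (δ / C) (by positivity) h hh.1 _
    have := hbd (fun u => (θ (h * (x * u)) - θ (x * u)) * θ u) (U * U) (δ / C) hK2
      (fun u hu => hθs u (right_ne_zero_of_mul hu))
      (fun u => by
        rw [abs_mul, abs_of_nonneg (hθ0 u)]
        exact (mul_le_mul (h1 _) (hθ1 _) (hθ0 _) (by positivity)).trans (by simp))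
    refine this.trans ?_
    rw [← hm, div_mul_eq_mul_div, div_le_iff₀ hC0]
    exact mul_le_mul_of_nonneg_left (by linarith) hδ.le
  · intro δ hδ g hg h hh x
    by_cases hx : x ∈ U * U * U * U * U * U
    · have h1 : x⁻¹ * h⁻¹ * x ∈ R (δ / C) := by
        have := hh.2.2 x hx
        simpa [mul_assoc] using this
      refine (hsdb g h x (δ / C) (by positivity) (hθR _ (by positivity) _ h1)).trans ?_
      have h2 : w g * (δ / C) * (2 * m) = (δ * w g) * (2 * m / C) := by ring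
      rw [h2]
      refine mul_le_of_le_one_right (mul_nonneg hδ.le (hw0 g)) ?_
      rw [div_le_one hC0]
      linarith
    · rw [hsd0 g hg h hh.2.1 x hx, abs_zero]
      exact mul_nonneg hδ.le (hw0 g)
  · intro g hg h hh D' hD x
    have h16 : (1 : G) ∈ U * U * U * U * U * U := by
      refine ⟨1, ⟨1, ⟨1, ⟨1, ⟨1, h1U, 1, h1U, ?_⟩, 1, h1U, ?_⟩, 1, h1U, ?_⟩, 1, h1U, ?_⟩, 1, h1U, ?_⟩
        <;> simp
    have hD0 : 0 ≤ D' := (hw0 _).trans (hD 1 h16)
    by_cases hx : x ∈ U * U * U * U * U * U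
    · refine (hsdb g h x D' hD0 (fun u => (hθl _ _).trans (hD x hx))).trans ?_
      have h2 : w g * D' * (2 * m) = (2 * m) * w g * D' := by ring
      rw [h2]
      exact mul_le_mul_of_nonneg_right (mul_le_mul_of_nonneg_right (by linarith) (hw0 g)) hD0
    · rw [hsd0 g hg h hh x hx, abs_zero]
      have := hw0 g
      positivity

end T2

end GY
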