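import Pool.Agent.MP6c9f91.PW
import Pool.Agent.MP6c9f91.GleasonFn

/-!
# Subgroup trapping (package T3a of stage 2 of MP_6c9f91_an)
-/

open Topology Filter Pointwise MeasureTheory

universe u v w

namespace GY

namespace Trap

section alg

variable {G : Type u} [Group G]

/-- products of at most `n` elements of `Q` -/
def pr (Q : Set G) (n : ℕ) : Set G :=
  {x | ∃ l : List G, l.length ≤ n ∧ (∀ y ∈ l, y ∈ Q) ∧ l.prod = x}

lemma one_mem_pr (Q : Set G) (n : ℕ) : (1 : G) ∈ pr Q n := ⟨[], by simp, by simp, by simp⟩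

lemma pr_mono (Q : Set G) {n m : ℕ} (h : n ≤ m) : pr Q n ⊆ pr Q m := by
  rintro x ⟨l, hl, hQ, rfl⟩
  exact ⟨l, hl.trans h, hQ, rfl⟩

lemma mul_mem_pr {Q : Set G} {n m : ℕ} {x y : G} (hx : x ∈ pr Q n) (hy : y ∈ pr Q m) :
    x * y ∈ pr Q (n + m) := by
  obtain ⟨l, hl, hQ, rfl⟩ := hx
  obtain ⟨l', hl', hQ', rfl⟩ := hy
  refine ⟨l ++ l', by simp only [List.length_append]; omega, ?_, by simp⟩
  intro y hy
  rw [List.mem_append] at hy
  exact hy.elim (hQ y) (hQ' y)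

lemma inv_mem_pr {Q : Set G} (hs : ∀ g ∈ Q, g⁻¹ ∈ Q) {n : ℕ} {x : G} (hx : x ∈ pr Q n) :
    x⁻¹ ∈ pr Q n := by
  obtain ⟨l, hl, hQ, rfl⟩ := hx
  refine ⟨(l.map fun x => x⁻¹).reverse, by simpa using hl, ?_, (List.prod_inv_reverse l).symm⟩
  intro y hy
  rw [List.mem_reverse, List.mem_map] at hy
  obtain ⟨z, hz, rfl⟩ := hy
  exact hs z (hQ z hz)

/-- the elements generating a subgroup contained in `V` -/
def Qs (V : Set G) : Set G := {g | (Subgroup.zpowers g : Set G) ⊆ V}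

lemma Qs_inv {V : Set G} : ∀ g ∈ Qs V, g⁻¹ ∈ Qs V := by
  intro g hg
  change (Subgroup.zpowers g⁻¹ : Set G) ⊆ V
  rw [Subgroup.zpowers_inv]
  exact hg

lemma Qs_inv_iff {V : Set G} (g : G) : g⁻¹ ∈ Qs V ↔ g ∈ Qs V :=
  ⟨fun h => by simpa using Qs_inv _ h, fun h => Qs_inv _ h⟩

lemma pow_mem_of_Qs {V : Set G} {g : G} (hg : g ∈ Qs V) (n : ℕ) : g ^ n ∈ V :=
  hg (Subgroup.npow_mem_zpowers g n)

lemma exists_not_subset {V U : Set G} (h : ¬ (Subgroup.closure (Qs V) : Set G) ⊆ U) :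
    ∃ n, ¬ pr (Qs V) n ⊆ U := by
  by_contra hcon
  push Not at hcon
  apply h
  intro x hx
  have hx' : x ∈ Submonoid.closure (Qs V ∪ (Qs V)⁻¹) := by
    rw [← Subgroup.closure_toSubmonoid]
    exact hx
  obtain ⟨l, hl, rfl⟩ := Submonoid.exists_list_of_mem_closure hx'
  refine hcon l.length ⟨l, le_rfl, ?_, rfl⟩
  intro y hy
  rcases hl y hy with h1 | h1
  · exact h1
  · exact (Qs_inv_iff y).1 h1

/-- the first `n` for which the products of `n` elements of `Qs V` leave `U` -/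
noncomputable def mm (U V : Set G) : ℕ := sInf {n | ¬ pr (Qs V) n ⊆ U}

lemma mm_spec {U V : Set G} (h : ∃ n, ¬ pr (Qs V) n ⊆ U) : ¬ pr (Qs V) (mm U V) ⊆ U :=
  Nat.sInf_mem (s := {n | ¬ pr (Qs V) n ⊆ U}) h

lemma subset_of_lt_mm {U V : Set G} {n : ℕ} (h : n < mm U V) : pr (Qs V) n ⊆ U := by
  by_contra hc
  exact Nat.notMem_of_lt_sInf h hc

lemma mm_pos {U V : Set G} (h1 : (1 : G) ∈ U) (h : ∃ n, ¬ pr (Qs V) n ⊆ U) : 1 ≤ mm U V := by
  rw [Nat.one_le_iff_ne_zero]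
  intro h0
  have h2 := mm_spec h
  rw [h0] at h2
  apply h2
  rintro x ⟨l, hl, -, rfl⟩
  have : l = [] := List.eq_nil_of_length_eq_zero (by omega)
  rw [this]
  simpa using h1

lemma mm_mono {U U' V : Set G} (hU : U' ⊆ U) (h : ∃ n, ¬ pr (Qs V) n ⊆ U) :
    mm U' V ≤ mm U V :=
  Nat.sInf_le (fun hc => mm_spec h (hc.trans hU))

lemma key_est {φ : G → ℝ} {g : G} {δ a : ℝ} (x : G)
    (h1 : ∀ n : ℕ, |φ (g ^ n * x) - φ x| ≤ δ)
    (h2 : ∀ n : ℕ, |(φ (g * (g ^ n * x)) - φ (g ^ n * x)) - (φ (g * x) - φ x)| ≤ a) :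
    |φ (g * x) - φ x| ≤ a := by
  set d := φ (g * x) - φ x with hd
  have h3 : ∀ n : ℕ, |(φ (g ^ n * x) - φ x) - n * d| ≤ n * a := by
    intro n
    induction n with
    | zero => simp
    | succ n ih =>
      have e : (φ (g ^ (n + 1) * x) - φ x) - ((n + 1 : ℕ) : ℝ) * d
          = ((φ (g ^ n * x) - φ x) - n * d) + ((φ (g * (g ^ n * x)) - φ (g ^ n * x)) - d) := by
        rw [pow_succ', mul_assoc]
        push_cast
        ring
      rw [e]
      refine (abs_add_le _ _).trans ?_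
      push_cast
      have := h2 n
      linarith
  by_contra hc
  push Not at hc
  obtain ⟨n, hn⟩ := exists_nat_gt (δ / (|d| - a))
  have hpos : 0 < |d| - a := by linarith
  rw [div_lt_iff₀ hpos] at hn
  have h4 : n * |d| ≤ δ + n * a := by
    have h5 : |(n : ℝ) * d| ≤ |φ (g ^ n * x) - φ x| + |(φ (g ^ n * x) - φ x) - n * d| := by
      calc |(n : ℝ) * d| = |(φ (g ^ n * x) - φ x) + -((φ (g ^ n * x) - φ x) - n * d)| := by
            congr 1; ring
        _ ≤ _ := by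
            refine (abs_add_le _ _).trans (le_of_eq ?_)
            rw [abs_neg]
    rw [abs_mul, Nat.abs_cast] at h5
    linarith [h1 n, h3 n]
  nlinarith

lemma list_est {φ : G → ℝ} {Q : Set G} {a : ℝ} (h : ∀ g ∈ Q, ∀ x, |φ (g * x) - φ x| ≤ a)
    (l : List G) (hl : ∀ g ∈ l, g ∈ Q) : |φ l.prod - φ 1| ≤ l.length * a := by
  induction l with
  | nil => simp
  | cons b l ih =>
    rw [List.prod_cons]
    have h1 := h b (hl b (by simp)) l.prod
    have h2 := ih (fun g hg => hl g (by simp [hg]))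
    have e : φ (b * l.prod) - φ 1 = (φ (b * l.prod) - φ l.prod) + (φ l.prod - φ 1) := by ring
    rw [e]
    refine (abs_add_le _ _).trans ?_
    rw [List.length_cons]
    push_cast
    linarith

end alg

section top

variable {G : Type u} [Group G] [TopologicalSpace G]

/-- the index type: neighbourhoods of `1` -/
abbrev Idx (G : Type u) [Group G] [TopologicalSpace G] : Type u := {V : Set G // V ∈ 𝓝 (1 : G)}

instance : Nonempty (Idx G) := ⟨⟨Set.univ, univ_mem⟩⟩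

instance : IsCodirectedOrder (Idx G) :=
  ⟨fun V W => ⟨⟨V.1 ∩ W.1, inter_mem V.2 W.2⟩, Set.inter_subset_left, Set.inter_subset_right⟩⟩

variable [IsTopologicalGroup G]

/-- the group of limits of products of at most `K * mm U V` elements of `Qs V` -/
def HH (𝒰 : Ultrafilter (Idx G)) (U : Set G) : Subgroup G where
  carrier := {z | ∃ K : ℕ, ∃ y : Idx G → G,
    (∀ᶠ V in (𝒰 : Filter (Idx G)), y V ∈ pr (Qs V.1) (K * mm U V.1)) ∧ Tendsto y 𝒰 (𝓝 z)}
  one_mem' := ⟨0, fun _ => 1, Eventually.of_forall fun _ => one_mem_pr _ _, tendsto_const_nhds⟩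
  mul_mem' := by
    rintro a b ⟨K, y, hy, hya⟩ ⟨K', y', hy', hyb⟩
    refine ⟨K + K', fun V => y V * y' V, ?_, hya.mul hyb⟩
    filter_upwards [hy, hy'] with V h h'
    rw [add_mul]
    exact mul_mem_pr h h'
  inv_mem' := by
    rintro a ⟨K, y, hy, hya⟩
    refine ⟨K, fun V => (y V)⁻¹, ?_, hya.inv⟩
    filter_upwards [hy] with V h
    exact inv_mem_pr Qs_inv h

variable [T2Space G] [LocallyCompactSpace G]

lemma claimA (U : Set G) (hUc : IsCompact U) (hU1 : U ∈ 𝓝 (1 : G)) (hUs : U⁻¹ = U)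
    (hbad : ∀ V ∈ 𝓝 (1 : G), ∃ n, ¬ pr (Qs V) n ⊆ U) (K : ℕ) :
    ∃ V₀ ∈ 𝓝 (1 : G), ∀ V ∈ 𝓝 (1 : G), V ⊆ V₀ →
      pr (Qs V) (K * mm U V) ⊆ U * U * U * U := by
  classical
  obtain ⟨c, C, VV, hc, hC, hVV, H⟩ := gleason_weight G U hUc hU1 hUs
  set δ : ℝ := c / (2 * (K + 1)) with hδ
  have hδ0 : 0 < δ := by positivity
  refine ⟨VV δ ∩ U, inter_mem (hVV δ hδ0) hU1, ?_⟩
  intro V hV hVsub
  have hM1 : 1 ≤ mm U V := mm_pos (mem_of_mem_nhds hU1) (hbad V hV)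
  set M := mm U V with hM
  have hM0 : (0 : ℝ) < M := by exact_mod_cast hM1
  let w : G → ℝ := fun g => if g ∈ Qs V then 1 / (M : ℝ) else 1
  have hw0 : ∀ g, 0 ≤ w g := by
    intro g
    simp only [w]
    split_ifs
    · positivity
    · exact zero_le_one
  have hwi : ∀ g, w g⁻¹ = w g := by
    intro g
    simp only [w, Qs_inv_iff]
  have hws : ∀ l : List G, (l.map w).sum < 1 → l.prod ∈ U := by
    intro l hl
    have h1 : ∀ (l : List G), (l.map w).sum < 1 →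
        (∀ y ∈ l, y ∈ Qs V) ∧ (l.map w).sum = l.length * (1 / (M : ℝ)) := by
      intro l
      induction l with
      | nil => simp
      | cons a l ih =>
        intro h
        rw [List.map_cons, List.sum_cons] at h
        have hnn : 0 ≤ (l.map w).sum := List.sum_nonneg (by
          intro x hx
          obtain ⟨y, -, rfl⟩ := List.mem_map.1 hx
          exact hw0 y)
        have ha : a ∈ Qs V := by
          by_contra hna
          have : w a = 1 := by simp only [w, if_neg hna]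
          linarith
        have hwa : w a = 1 / (M : ℝ) := by simp only [w, if_pos ha]
        obtain ⟨h2, h3⟩ := ih (by linarith [hw0 a])
        refine ⟨?_, ?_⟩
        · intro y hy
          rcases List.mem_cons.1 hy with rfl | hy
          · exact ha
          · exact h2 y hy
        · rw [List.map_cons, List.sum_cons, h3, hwa, List.length_cons]
          push_cast
          ring
    obtain ⟨h2, h3⟩ := h1 l hl
    rw [h3, mul_one_div, div_lt_one hM0] at hl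
    have h4 : l.length < M := by exact_mod_cast hl
    exact subset_of_lt_mm h4 ⟨l, le_rfl, h2, rfl⟩
  obtain ⟨φ, hφ1, hbd, hsupp, -, hδ1, hδ2, -⟩ := H w hw0 hwi hws
  have key : ∀ g ∈ Qs V, ∀ x, |φ (g * x) - φ x| ≤ δ * (1 / (M : ℝ)) := by
    intro g hg x
    have hwg : w g = 1 / (M : ℝ) := by simp only [w, if_pos hg]
    have hp : ∀ n : ℕ, g ^ n ∈ VV δ ∩ U := fun n => hVsub (pow_mem_of_Qs hg n)
    refine key_est (δ := δ) x (fun n => hδ1 δ hδ0 _ (hp n).1 x) (fun n => ?_)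
    have hgU : g ∈ U := by simpa using (hp 1).2
    have := hδ2 δ hδ0 g hgU _ (hp n).1 x
    rw [hwg] at this
    exact this
  rintro x ⟨l, hl, hlQ, rfl⟩
  apply hsupp
  have h1 := list_est key l hlQ
  have h2 : (l.length : ℝ) * (δ * (1 / (M : ℝ))) ≤ K * δ := by
    have h3 : (l.length : ℝ) ≤ K * M := by exact_mod_cast hl
    calc (l.length : ℝ) * (δ * (1 / (M : ℝ))) ≤ (K * M) * (δ * (1 / (M : ℝ))) :=
          mul_le_mul_of_nonneg_right h3 (by positivity)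
      _ = K * δ := by field_simp
  have h3 : K * δ < c := by
    rw [hδ, mul_div_assoc', div_lt_iff₀ (by positivity)]
    nlinarith
  have h4 := (abs_le.1 (h1.trans h2)).1
  intro h0
  rw [h0] at h4
  linarith

lemma HH_subset (𝒰 : Ultrafilter (Idx G)) (h𝒰 : (𝒰 : Filter (Idx G)) ≤ atBot)
    (U : Set G) (hUc : IsCompact U) (hU1 : U ∈ 𝓝 (1 : G)) (hUs : U⁻¹ = U)
    (hbad : ∀ V ∈ 𝓝 (1 : G), ∃ n, ¬ pr (Qs V) n ⊆ U) :
    (HH 𝒰 U : Set G) ⊆ U * U * U * U := by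
  rintro z ⟨K, y, hy, hyz⟩
  obtain ⟨V₀, hV₀, hsub⟩ := claimA U hUc hU1 hUs hbad K
  have hcl : IsClosed (U * U * U * U) := (((hUc.mul hUc).mul hUc).mul hUc).isClosed
  refine hcl.mem_of_tendsto hyz ?_
  have h1 : ∀ᶠ V : Idx G in (𝒰 : Filter (Idx G)), V ≤ ⟨V₀, hV₀⟩ :=
    h𝒰 (eventually_le_atBot _)
  filter_upwards [hy, h1] with V h2 h3
  exact hsub V.1 V.2 h3 h2

lemma HH_point (𝒰 : Ultrafilter (Idx G)) (h𝒰 : (𝒰 : Filter (Idx G)) ≤ atBot)
    (U : Set G) (hUc : IsCompact U) (hU1 : U ∈ 𝓝 (1 : G)) (hUs : U⁻¹ = U)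
    (hbad : ∀ V ∈ 𝓝 (1 : G), ∃ n, ¬ pr (Qs V) n ⊆ U) :
    ∃ x ∈ HH 𝒰 U, x ∉ interior U := by
  have h1 : ∀ V : Idx G, ∃ y, y ∈ pr (Qs V.1) (mm U V.1) ∧ y ∉ U := fun V =>
    Set.not_subset.1 (mm_spec (hbad V.1 V.2))
  choose y hy1 hy2 using h1
  obtain ⟨V₀, hV₀, hsub⟩ := claimA U hUc hU1 hUs hbad 1
  have h2 : ∀ᶠ V : Idx G in (𝒰 : Filter (Idx G)), y V ∈ U * U * U * U := by
    have h1 : ∀ᶠ V : Idx G in (𝒰 : Filter (Idx G)), V ≤ ⟨V₀, hV₀⟩ :=
      h𝒰 (eventually_le_atBot _)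
    filter_upwards [h1] with V h3
    refine hsub V.1 V.2 h3 ?_
    rw [one_mul]
    exact hy1 V
  have hcomp : IsCompact (U * U * U * U) := ((hUc.mul hUc).mul hUc).mul hUc
  obtain ⟨x, -, hx⟩ := hcomp.ultrafilter_le_nhds' (𝒰.map y) h2
  refine ⟨x, ⟨1, y, Eventually.of_forall fun V => by rw [one_mul]; exact hy1 V, hx⟩, ?_⟩
  intro hxi
  have h3 : ∀ᶠ V in (𝒰 : Filter (Idx G)), y V ∈ interior U :=
    hx (isOpen_interior.mem_nhds hxi)
  obtain ⟨V, hV⟩ := h3.exists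
  exact hy2 V (interior_subset hV)

omit [T2Space G] [LocallyCompactSpace G] in
lemma HH_mono (𝒰 : Ultrafilter (Idx G)) {U U' : Set G} (h : U' ⊆ U)
    (hbad : ∀ V ∈ 𝓝 (1 : G), ∃ n, ¬ pr (Qs V) n ⊆ U) : HH 𝒰 U' ≤ HH 𝒰 U := by
  rintro z ⟨K, y, hy, hyz⟩
  refine ⟨K, y, ?_, hyz⟩
  filter_upwards [hy] with V hV
  exact pr_mono _ (Nat.mul_le_mul_left K (mm_mono h (hbad V.1 V.2))) hV

/-- a compact subgroup inside an open set has a compact symmetric neighbourhood whose fourth power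
is inside the open set -/
lemma exists_nhd_of_compact_subgroup (N : Subgroup G) (hN : IsCompact (N : Set G)) (O O' : Set G)
    (hO : IsOpen O) (hNO : (N : Set G) ⊆ O) (hO' : IsOpen O') (hNO' : (N : Set G) ⊆ O') :
    ∃ U : Set G, IsCompact U ∧ U⁻¹ = U ∧ (N : Set G) ⊆ interior U ∧ U ⊆ O' ∧
      U * U * U * U ⊆ O := by
  have step : ∀ O : Set G, IsOpen O → (N : Set G) ⊆ O →
      ∃ T : Set G, IsOpen T ∧ (N : Set G) ⊆ T ∧ T * T ⊆ O := by
    intro O hO hNO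
    have hop : IsOpen {p : G × G | p.1 * p.2 ∈ O} := hO.preimage continuous_mul
    have hsub : (N : Set G) ×ˢ (N : Set G) ⊆ {p : G × G | p.1 * p.2 ∈ O} := by
      rintro ⟨a, b⟩ ⟨ha, hb⟩
      exact hNO (N.mul_mem ha hb)
    obtain ⟨u, v, hu, hv, hNu, hNv, huv⟩ := generalized_tube_lemma hN hN hop hsub
    refine ⟨u ∩ v, hu.inter hv, Set.subset_inter hNu hNv, ?_⟩
    rintro x ⟨a, ha, b, hb, rfl⟩
    exact huv (Set.mk_mem_prod ha.1 hb.2)
  obtain ⟨O₁, hO₁, hN₁, h₁⟩ := step O hO hNO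
  obtain ⟨O₂, hO₂, hN₂, h₂⟩ := step O₁ hO₁ hN₁
  obtain ⟨L, hL, hNL, hLs⟩ := exists_compact_between hN (hO₂.inter hO')
    (Set.subset_inter hN₂ hNO')
  refine ⟨L ∩ L⁻¹, hL.inter hL.inv, ?_, ?_, ?_, ?_⟩
  · rw [Set.inter_inv, inv_inv, Set.inter_comm]
  · rw [interior_inter]
    refine Set.subset_inter hNL ?_
    intro x hx
    have h1 : interior (L⁻¹) = (interior L)⁻¹ := by
      have := (Homeomorph.inv G).preimage_interior L
      exact this.symm
    rw [h1, Set.mem_inv]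
    exact hNL (N.inv_mem hx)
  · exact Set.inter_subset_left.trans (hLs.trans Set.inter_subset_right)
  · have h3 : L ∩ L⁻¹ ⊆ O₂ := Set.inter_subset_left.trans (hLs.trans Set.inter_subset_left)
    have h4 : (L ∩ L⁻¹) * (L ∩ L⁻¹) ⊆ O₁ := (Set.mul_subset_mul h3 h3).trans h₂
    rw [mul_assoc ((L ∩ L⁻¹) * (L ∩ L⁻¹))]
    exact (Set.mul_subset_mul h4 h4).trans h₁

end top

end Trap

open Trap

/-- T3a: subgroup trapping. -/
theorem subgroup_trapping (G : Type u) [Group G] [TopologicalSpace G] [IsTopologicalGroup G]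
    [T2Space G] [LocallyCompactSpace G] (U : Set G) (hU : U ∈ 𝓝 (1 : G)) :
    ∃ V ∈ 𝓝 (1 : G),
      (Subgroup.closure {g : G | (Subgroup.zpowers g : Set G) ⊆ V} : Set G) ⊆ U := by
  -- a compact symmetric neighbourhood
  obtain ⟨U₀, hU₀c, hU₀s, hU₀1, hU₀U, -⟩ := exists_nhd_of_compact_subgroup (⊥ : Subgroup G)
    (by simp) Set.univ (interior U) isOpen_univ (Set.subset_univ _) isOpen_interior
    (by
      rw [Subgroup.coe_bot, Set.singleton_subset_iff]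
      exact mem_interior_iff_mem_nhds.2 hU)
  have hU₀n : U₀ ∈ 𝓝 (1 : G) := mem_interior_iff_mem_nhds.1 (hU₀1 (by simp))
  by_contra hcon
  push Not at hcon
  have hbad : ∀ V ∈ 𝓝 (1 : G), ∃ n, ¬ pr (Qs V) n ⊆ U₀ := by
    intro V hV
    refine exists_not_subset (fun hs => hcon V hV ?_)
    exact hs.trans (hU₀U.trans interior_subset)
  set 𝒰 : Ultrafilter (Idx G) := Ultrafilter.of atBot with h𝒰d
  have h𝒰 : (𝒰 : Filter (Idx G)) ≤ atBot := Ultrafilter.of_le _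
  -- the compact group H
  set H : Subgroup G := (HH 𝒰 U₀).topologicalClosure with hH
  have hHsub : (H : Set G) ⊆ U₀ * U₀ * U₀ * U₀ := by
    have hcl : IsClosed (U₀ * U₀ * U₀ * U₀) := (((hU₀c.mul hU₀c).mul hU₀c).mul hU₀c).isClosed
    rw [hH, Subgroup.topologicalClosure_coe]
    exact hcl.closure_subset_iff.2 (HH_subset 𝒰 h𝒰 U₀ hU₀c hU₀n hU₀s hbad)
  have hHc : IsCompact (H : Set G) :=
    (((hU₀c.mul hU₀c).mul hU₀c).mul hU₀c).of_isClosed_subset
      (Subgroup.isClosed_topologicalClosure _) hHsub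
  have : CompactSpace H := isCompact_iff_compactSpace.1 hHc
  obtain ⟨N, -, hNc, hNO, W, hW, hNW, hWS⟩ := exists_normal_small H
    {h : H | (h : G) ∈ interior U₀}
    ((isOpen_interior.preimage continuous_subtype_val).mem_nhds (hU₀1 (by simp)))
  obtain ⟨W₀, hW₀, hWW₀⟩ := isOpen_induced_iff.1 hW
  set N' : Subgroup G := N.map H.subtype with hN'
  have hN'c : IsCompact (N' : Set G) := by
    rw [hN', Subgroup.coe_map]
    exact hNc.isCompact.image continuous_subtype_val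
  have hN'U : (N' : Set G) ⊆ interior U₀ := by
    rintro x ⟨n, hn, rfl⟩
    exact hNO hn
  have hN'W : (N' : Set G) ⊆ W₀ := by
    rintro x ⟨n, hn, rfl⟩
    have := hNW hn
    rw [← hWW₀] at this
    exact this
  obtain ⟨U', hU'c, hU's, hU'1, hU'U, hU'4⟩ := exists_nhd_of_compact_subgroup N' hN'c W₀
    (interior U₀) hW₀ hN'W isOpen_interior hN'U
  have hU'n : U' ∈ 𝓝 (1 : G) := mem_interior_iff_mem_nhds.1 (hU'1 N'.one_mem)
  have hU'U₀ : U' ⊆ U₀ := hU'U.trans interior_subset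
  have hbad' : ∀ V ∈ 𝓝 (1 : G), ∃ n, ¬ pr (Qs V) n ⊆ U' := by
    intro V hV
    obtain ⟨n, hn⟩ := hbad V hV
    exact ⟨n, fun h => hn (h.trans hU'U₀)⟩
  obtain ⟨x, hx, hxi⟩ := HH_point 𝒰 h𝒰 U' hU'c hU'n hU's hbad'
  have hle : HH 𝒰 U' ≤ H := (HH_mono 𝒰 hU'U₀ hbad).trans (Subgroup.le_topologicalClosure _)
  have hS : ((HH 𝒰 U').subgroupOf H : Set H) ⊆ W := by
    intro h hh
    rw [← hWW₀]
    exact hU'4 (HH_subset 𝒰 h𝒰 U' hU'c hU'n hU's hbad' (Subgroup.mem_subgroupOf.1 hh))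
  have hSN := hWS _ hS
  apply hxi
  apply hU'1
  have hxH : x ∈ H := hle hx
  exact ⟨⟨x, hxH⟩, hSN (Subgroup.mem_subgroupOf.2 hx), rfl⟩

end GY
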