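import Pool.Agent.MP6c9f91.PW
import Pool.Agent.MP6c9f91.Trapping

/-! T3b: the Gleason-Yamabe theorem from the trapping theorem and the Peter-Weyl lemma. -/

open Topology Filter Pointwise MeasureTheory

universe u v w

namespace GY

variable (G : Type u) [Group G] [TopologicalSpace G] [IsTopologicalGroup G] [T2Space G]
  [LocallyCompactSpace G]

/-- conjugates of a compact set by small elements stay in an open set containing it -/
theorem gy_conj_near {K W : Set G} (hK : IsCompact K) (hW : IsOpen W) (hKW : K ⊆ W) :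
    ∀ᶠ g in 𝓝 (1 : G), ∀ k ∈ K, g * k * g⁻¹ ∈ W := by
  apply hK.eventually_forall_of_forall_eventually
  intro k hk
  have h1 : ContinuousAt (fun p : G × G => p.1 * p.2 * p.1⁻¹) (1, k) := by fun_prop
  have h2 : W ∈ 𝓝 ((fun p : G × G => p.1 * p.2 * p.1⁻¹) (1, k)) := by
    simp only [one_mul, inv_one, mul_one]
    exact hW.mem_nhds (hKW hk)
  exact h1.eventually_mem h2

theorem gleason_yamabe (O : Set G) (hO : O ∈ 𝓝 (1 : G)) :
    ∃ V K : Subgroup G, IsOpen (V : Set G) ∧ IsCompact (K : Set G) ∧ K ≤ V ∧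
      (∀ v ∈ V, ∀ k ∈ K, v * k * v⁻¹ ∈ K) ∧ (K : Set G) ⊆ O ∧
      ∃ W : Set G, IsOpen W ∧ (K : Set G) ⊆ W ∧
        ∀ S : Subgroup G, (S : Set G) ⊆ W → S ≤ K := by
  obtain ⟨O', hO'n, hO'O, hO'c⟩ := local_compact_nhds hO
  obtain ⟨V₀, hV₀, hV₀O⟩ := subgroup_trapping G O' hO'n
  set V₁ := interior V₀ with hV₁
  have hV₁o : IsOpen V₁ := isOpen_interior
  have hV₁1 : (1 : G) ∈ V₁ := mem_interior_iff_mem_nhds.2 hV₀
  have hmono : {g : G | (Subgroup.zpowers g : Set G) ⊆ V₁} ⊆
      {g : G | (Subgroup.zpowers g : Set G) ⊆ V₀} := fun g hg => hg.trans interior_subset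
  set H := (Subgroup.closure {g : G | (Subgroup.zpowers g : Set G) ⊆ V₁}).topologicalClosure with hH
  have hHO' : (H : Set G) ⊆ O' := by
    rw [hH, Subgroup.topologicalClosure_coe]
    apply closure_minimal _ hO'c.isClosed
    refine Set.Subset.trans ?_ hV₀O
    exact Subgroup.closure_mono hmono
  have hHcl : IsClosed (H : Set G) := Subgroup.isClosed_topologicalClosure _
  have hHc : IsCompact (H : Set G) := hO'c.of_isClosed_subset hHcl hHO'
  haveI : CompactSpace H := isCompact_iff_compactSpace.1 hHc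
  have hO1 : ((↑) : H → G) ⁻¹' V₁ ∈ 𝓝 (1 : H) :=
    (hV₁o.preimage continuous_subtype_val).mem_nhds (by simpa using hV₁1)
  obtain ⟨N, hNn, hNcl, hNV, W₀', hW₀'o, hNW, hNS⟩ := exists_normal_small H _ hO1
  obtain ⟨W₀, hW₀o, hW₀⟩ := isOpen_induced_iff.1 hW₀'o
  set K : Subgroup G := N.map H.subtype with hK
  have hKc : IsCompact (K : Set G) := by
    rw [hK, Subgroup.coe_map]
    exact hNcl.isCompact.image continuous_subtype_val
  have hKW : (K : Set G) ⊆ W₀ ∩ V₁ := by
    rintro _ ⟨n, hn, rfl⟩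
    constructor
    · have h1 : n ∈ W₀' := hNW hn
      rw [← hW₀] at h1
      exact h1
    · exact hNV hn
  have hKO : (K : Set G) ⊆ O := by
    rintro _ ⟨n, hn, rfl⟩
    exact hO'O (hHO' n.2)
  have hWo : IsOpen (W₀ ∩ V₁) := hW₀o.inter hV₁o
  have hS : ∀ S : Subgroup G, (S : Set G) ⊆ W₀ ∩ V₁ → S ≤ K := by
    intro S hSW
    have hSH : S ≤ H := by
      intro s hs
      apply Subgroup.le_topologicalClosure
      apply Subgroup.subset_closure
      change (Subgroup.zpowers s : Set G) ⊆ V₁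
      have h1 : Subgroup.zpowers s ≤ S := by rwa [Subgroup.zpowers_le]
      exact fun x hx => (hSW (h1 hx)).2
    have h2 : S.subgroupOf H ≤ N := by
      apply hNS
      intro x hx
      rw [← hW₀]
      exact (hSW (Subgroup.mem_subgroupOf.1 hx)).1
    intro s hs
    exact ⟨⟨s, hSH hs⟩, h2 (Subgroup.mem_subgroupOf.2 hs), rfl⟩
  have hnorm : ∀ᶠ g in 𝓝 (1 : G), g ∈ Subgroup.normalizer (K : Set G) := by
    have h1 := gy_conj_near G hKc hWo hKW
    have h2 : ∀ᶠ g in 𝓝 (1 : G), ∀ k ∈ (K : Set G), g⁻¹ * k * g⁻¹⁻¹ ∈ W₀ ∩ V₁ := by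
      have h3 : Tendsto (fun g : G => g⁻¹) (𝓝 1) (𝓝 1) := by
        simpa using (continuous_inv.tendsto (1 : G))
      exact h3.eventually h1
    have key : ∀ g : G, (∀ k ∈ (K : Set G), g * k * g⁻¹ ∈ W₀ ∩ V₁) →
        ∀ k ∈ K, g * k * g⁻¹ ∈ K := by
      intro g hg k hk
      have h4 : K.map (MulAut.conj g).toMonoidHom ≤ K := by
        apply hS
        rintro _ ⟨k', hk', rfl⟩
        exact hg k' hk'
      exact h4 ⟨k, hk, rfl⟩
    filter_upwards [h1, h2] with g hg1 hg2
    rw [Subgroup.mem_normalizer_iff]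
    intro h
    refine ⟨fun hh => key g hg1 h hh, fun hh => ?_⟩
    have := key g⁻¹ hg2 _ hh
    simpa [mul_assoc] using this
  refine ⟨Subgroup.normalizer (K : Set G), K, Subgroup.isOpen_of_mem_nhds _ hnorm, hKc, Subgroup.le_normalizer, ?_, hKO,
    W₀ ∩ V₁, hWo, hKW, hS⟩
  intro v hv k hk
  exact (Subgroup.mem_normalizer_iff.1 hv k).1 hk

theorem gleason_yamabe' :
    ∃ (V : Subgroup G) (P : Type u) (_ : Group P) (_ : TopologicalSpace P)
      (_ : IsTopologicalGroup P) (_ : T2Space P) (_ : LocallyCompactSpace P) (f : V →* P),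
      IsOpen (V : Set G) ∧ Continuous f ∧ IsOpenMap f ∧ Function.Surjective f ∧
      IsCompact (f.ker : Set V) ∧ NSS P := by
  obtain ⟨V, K, hVo, hKc, hKV, hnorm, -, W, hWo, hKW, hS⟩ := gleason_yamabe G Set.univ univ_mem
  set N : Subgroup V := K.subgroupOf V with hN
  haveI hNn : N.Normal := by
    constructor
    intro n hn g
    exact hnorm g g.2 n (Subgroup.mem_subgroupOf.1 hn)
  have hNcl : IsClosed (N : Set V) := by
    have : (N : Set V) = ((↑) : V → G) ⁻¹' (K : Set G) := rfl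
    rw [this]
    exact hKc.isClosed.preimage continuous_subtype_val
  haveI : IsClosed (N : Set V) := hNcl
  haveI : LocallyCompactSpace V := hVo.isOpenEmbedding_subtypeVal.locallyCompactSpace
  have himg : ((↑) : V → G) '' (N : Set V) = (K : Set G) := by
    ext x
    constructor
    · rintro ⟨y, hy, rfl⟩
      exact Subgroup.mem_subgroupOf.1 hy
    · intro hx
      exact ⟨⟨x, hKV hx⟩, Subgroup.mem_subgroupOf.2 hx, rfl⟩
  have hNc : IsCompact (N : Set V) := by
    rw [Subtype.isCompact_iff, himg]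
    exact hKc
  refine ⟨V, V ⧸ N, inferInstance, inferInstance, inferInstance, inferInstance, inferInstance,
    QuotientGroup.mk' N, hVo, continuous_quot_mk, QuotientGroup.isOpenMap_coe,
    QuotientGroup.mk'_surjective N, ?_, ?_⟩
  · rw [QuotientGroup.ker_mk']
    exact hNc
  · obtain ⟨V', hV', hV'K⟩ := compact_open_separated_mul_left hKc hWo hKW
    refine ⟨QuotientGroup.mk' N '' (((↑) : V → G) ⁻¹' V'), ?_, ?_⟩
    · have h1 : (((↑) : V → G) ⁻¹' V') ∈ 𝓝 (1 : V) :=
        continuous_subtype_val.continuousAt.preimage_mem_nhds (by simpa using hV')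
      have h2 := (QuotientGroup.isOpenMap_coe (N := N)).image_mem_nhds h1
      simpa using h2
    · intro S hSW
      have h3 : (S.comap (QuotientGroup.mk' N)).map V.subtype ≤ K := by
        apply hS
        rintro _ ⟨v, hv, rfl⟩
        obtain ⟨v', hv', hvv'⟩ := hSW (Subgroup.mem_comap.1 hv)
        have h4 : v'⁻¹ * v ∈ N := by
          have h5 : (v' : V ⧸ N) = (v : V ⧸ N) := hvv'
          exact QuotientGroup.eq.1 h5
        apply hV'K
        refine Set.mem_mul.2 ⟨(v' : G), hv', ((v'⁻¹ * v : V) : G), Subgroup.mem_subgroupOf.1 h4, ?_⟩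
        simp
      rw [eq_bot_iff]
      intro s hs
      obtain ⟨v, rfl⟩ := QuotientGroup.mk'_surjective N s
      have h6 : (v : G) ∈ K := h3 ⟨v, hs, rfl⟩
      have h7 : v ∈ N := Subgroup.mem_subgroupOf.2 h6
      rw [Subgroup.mem_bot]
      exact (QuotientGroup.eq_one_iff v).2 h7

end GY
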