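import Pool.Agent.MP6c9f91.GYDefs
import Pool.Agent.MP6c9f91.GYThm
import Pool.Agent.MP6c9f91.LieFun
import Pool.Agent.MP6c9f91.GoodDatum

/-!
# Minimal good data (package T7b)
-/

open Topology Filter Pointwise

universe u v w

namespace GY

/-- finite normal subgroups of connected groups are central -/
theorem central_of_finite_normal {P : Type u} [Group P] [TopologicalSpace P]
    [IsTopologicalGroup P] [T2Space P] [ConnectedSpace P] (C : Subgroup P) (hC : C.Normal)
    (hCf : Finite C) : ∀ c ∈ C, ∀ x : P, x * c = c * x := by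
  intro c hc x
  let g : P → C := fun y => ⟨y * c * y⁻¹, hC.conj_mem c hc y⟩
  have hg : Continuous g :=
    Continuous.subtype_mk ((continuous_id.mul continuous_const).mul continuous_inv) _
  have h : g x = g 1 := PreconnectedSpace.constant inferInstance hg
  have h2 : x * c * x⁻¹ = 1 * c * 1⁻¹ := congrArg Subtype.val h
  rw [one_mul, inv_one, mul_one] at h2
  rw [mul_inv_eq_iff_eq_mul] at h2
  exact h2

/-- A neighbourhood `U` of `1` with `U⁻¹ = U` and `U * U * U ⊆ W`. -/
theorem exists_small_sym {P : Type u} [Group P] [TopologicalSpace P]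
    [IsTopologicalGroup P] (W : Set P) (hW : W ∈ 𝓝 (1 : P)) :
    ∃ U ∈ 𝓝 (1 : P), U⁻¹ = U ∧ ∀ a ∈ U, ∀ b ∈ U, ∀ c ∈ U, a * b * c ∈ W := by
  have h3 : Tendsto (fun q : P × P × P => q.1 * q.2.1 * q.2.2) (𝓝 (1, 1, 1)) (𝓝 (1 : P)) := by
    have : Continuous (fun q : P × P × P => q.1 * q.2.1 * q.2.2) := by fun_prop
    have h := this.tendsto (1, 1, 1)
    simpa using h
  have h4 := h3 hW
  rw [mem_map, nhds_prod_eq, nhds_prod_eq] at h4
  obtain ⟨A, hA, B, hB, hAB⟩ := mem_prod_iff.mp h4
  obtain ⟨B1, hB1, B2, hB2, hBB⟩ := mem_prod_iff.mp hB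
  let U0 := A ∩ B1 ∩ B2
  have hU0 : U0 ∈ 𝓝 (1 : P) := inter_mem (inter_mem hA hB1) hB2
  refine ⟨U0 ∩ U0⁻¹, inter_mem hU0 (inv_mem_nhds_one P hU0), ?_, ?_⟩
  · rw [Set.inter_inv, inv_inv, Set.inter_comm]
  · intro a ha b hb c hc
    exact hAB (show (a, b, c) ∈ A ×ˢ B from ⟨ha.1.1.1, hBB ⟨hb.1.1.2, hc.1.2⟩⟩)

/-- NSS passes along an open surjective homomorphism with finite kernel. -/
theorem NSS.of_finite_ker {P P' : Type u} [Group P] [TopologicalSpace P] [IsTopologicalGroup P]
    [T2Space P] [Group P'] [TopologicalSpace P'] [IsTopologicalGroup P'] (hP : NSS P)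
    (f : P →* P') (_hf : Continuous f) (ho : IsOpenMap f) (_hs : Function.Surjective f)
    (hk : Finite f.ker) : NSS P' := by
  obtain ⟨W, hW, hWs⟩ := hP
  have hfin : ((f.ker : Set P) \ {1}).Finite := (Set.toFinite (f.ker : Set P)).subset
    Set.sdiff_subset
  have hW2 : W ∩ ((f.ker : Set P) \ {1})ᶜ ∈ 𝓝 (1 : P) :=
    inter_mem hW (hfin.isClosed.isOpen_compl.mem_nhds (fun h => h.2 rfl))
  obtain ⟨U, hU, hUs, hU3⟩ := exists_small_sym _ hW2
  have h1U : (1 : P) ∈ U := mem_of_mem_nhds hU
  refine ⟨f '' U, ?_, ?_⟩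
  · have := ho.image_mem_nhds hU
    rwa [map_one] at this
  · intro S' hS'
    -- the trace of the preimage on U is a subgroup
    let S : Subgroup P := S'.comap f
    have hdec : ∀ s ∈ S, ∃ u ∈ U, u ∈ S ∧ u⁻¹ * s ∈ f.ker := by
      intro s hs
      obtain ⟨u, hu, hfu⟩ := hS' (show f s ∈ S' from hs)
      refine ⟨u, hu, ?_, ?_⟩
      · show f u ∈ S'
        rw [hfu]; exact hs
      · rw [MonoidHom.mem_ker, map_mul, map_inv, hfu, inv_mul_cancel]
    have hker1 : ∀ a ∈ U, ∀ b ∈ U, ∀ c ∈ U, a * b * c ∈ f.ker → a * b * c = 1 := by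
      intro a ha b hb c hc hk
      by_contra h
      exact (hU3 a ha b hb c hc).2 ⟨hk, h⟩
    have hinvU : ∀ a ∈ U, a⁻¹ ∈ U := by
      intro a ha
      rw [← hUs]
      simpa using ha
    let T : Subgroup P :=
      { carrier := (S : Set P) ∩ U
        mul_mem' := by
          intro a b ha hb
          have hab : a * b ∈ S := S.mul_mem ha.1 hb.1
          obtain ⟨u, hu, _, huk⟩ := hdec _ hab
          refine ⟨hab, ?_⟩
          have h1 := hker1 u⁻¹ (hinvU u hu) a ha.2 b hb.2 (by rw [mul_assoc]; exact huk)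
          have h2 : a * b = u := by
            rw [mul_assoc] at h1
            exact (inv_mul_eq_one.mp h1).symm
          rw [h2]; exact hu
        one_mem' := ⟨S.one_mem, h1U⟩
        inv_mem' := by
          intro a ha
          exact ⟨S.inv_mem ha.1, hinvU a ha.2⟩ }
    have hT : T = ⊥ := by
      apply hWs
      intro a ha
      have := hU3 a ha.2 1 h1U 1 h1U
      rw [mul_one, mul_one] at this
      exact this.1
    rw [eq_bot_iff]
    intro y hy
    obtain ⟨u, hu, rfl⟩ := hS' hy
    have huT : u ∈ T := ⟨hy, hu⟩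
    rw [hT, Subgroup.mem_bot] at huT
    rw [huT, map_one]
    exact Subgroup.one_mem _

/-- an open surjective homomorphism with compact kernel from a locally compact group is proper -/
theorem isCompact_preimage_of_isCompact_ker {V P : Type*} [Group V] [TopologicalSpace V]
    [IsTopologicalGroup V] [LocallyCompactSpace V] [Group P] [TopologicalSpace P]
    [IsTopologicalGroup P] [T2Space P] (f : V →* P) (hf : Continuous f) (ho : IsOpenMap f)
    (hs : Function.Surjective f) (hk : IsCompact (f.ker : Set V)) (K : Set P)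
    (hK : IsCompact K) : IsCompact (f ⁻¹' K) := by
  obtain ⟨B, hB, hB1⟩ := exists_compact_mem_nhds (1 : V)
  have hcover : ∀ x ∈ K, ∃ t ∈ 𝓝[K] x, ∃ v : V, t ⊆ f '' ((fun b => v * b) '' B) := by
    intro x _
    obtain ⟨v, rfl⟩ := hs x
    refine ⟨_, mem_nhdsWithin_of_mem_nhds ?_, v, subset_rfl⟩
    apply ho.image_mem_nhds
    have : (fun b => v * b) '' B ∈ 𝓝 (v * 1) := (isOpenMap_mul_left v).image_mem_nhds hB1
    rwa [mul_one] at this
  have key : ∃ s : Finset V, K ⊆ ⋃ v ∈ s, f '' ((fun b => v * b) '' B) := by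
    have h := hK.induction_on (p := fun S => ∃ s : Finset V,
      S ⊆ ⋃ v ∈ s, f '' ((fun b => v * b) '' B)) ⟨∅, Set.empty_subset _⟩
      (fun s t hst ⟨a, ha⟩ => ⟨a, hst.trans ha⟩) ?_ ?_
    · exact h
    · classical
      rintro s t ⟨a, ha⟩ ⟨b, hb⟩
      refine ⟨a ∪ b, ?_⟩
      rw [Finset.set_biUnion_union]
      exact Set.union_subset_union ha hb
    · intro x hx
      obtain ⟨t, ht, v, hv⟩ := hcover x hx
      exact ⟨t, ht, {v}, by simpa using hv⟩
  obtain ⟨s, hs'⟩ := key
  have hcpt : IsCompact (⋃ v ∈ s, ((fun b => v * b) '' B) * (f.ker : Set V)) :=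
    s.finite_toSet.isCompact_biUnion fun v _ =>
      (hB.image (continuous_const.mul continuous_id)).mul hk
  refine hcpt.of_isClosed_subset (hK.isClosed.preimage hf) ?_
  intro x hx
  obtain ⟨v, hv, y, hy, hyx⟩ := Set.mem_iUnion₂.mp (hs' hx)
  refine Set.mem_iUnion₂.mpr ⟨v, hv, ?_⟩
  refine ⟨y, hy, y⁻¹ * x, ?_, mul_inv_cancel_left y x⟩
  show y⁻¹ * x ∈ f.ker
  rw [MonoidHom.mem_ker, map_mul, map_inv, hyx, inv_mul_cancel]

variable {G : Type u} [Group G] [TopologicalSpace G] [IsTopologicalGroup G] [T2Space G]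
  [LocallyCompactSpace G]

/-- In a good datum of minimal dimension compact normal subgroups of `P` are finite. -/
theorem GoodDatum.finite_of_compact_normal (D : GoodDatum G)
    (hmin : ∀ D' : GoodDatum G, dimL D.P ≤ dimL D'.P) (C : Subgroup D.P) (hC : C.Normal)
    (hCc : IsCompact (C : Set D.P)) : Finite C := by
  have : IsClosed (C : Set D.P) := hCc.isClosed
  have : LocallyCompactSpace D.V := D.isOpen.locallyCompactSpace
  obtain ⟨V', P'', i1, i2, i3, i4, i5, f', hV', hf', hfo', hfs', hfk', hn⟩ :=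
    gleason_yamabe' (D.P ⧸ C)
  have : ConnectedSpace (D.P ⧸ C) :=
    (QuotientGroup.mk_surjective (s := C)).connectedSpace continuous_quotient_mk'
  have hVtop : V' = ⊤ := by
    have hcl : IsClopen (V' : Set (D.P ⧸ C)) := ⟨V'.isClosed_of_isOpen hV', hV'⟩
    rcases isClopen_iff.mp hcl with h | h
    · exact absurd (show (1 : D.P ⧸ C) ∈ (V' : Set (D.P ⧸ C)) from V'.one_mem)
        (by rw [h]; exact Set.notMem_empty _)
    · rw [← SetLike.coe_set_eq, h]; rfl
  -- the map P → V'
  let q : D.P →* V' :=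
    { toFun := fun x => ⟨(QuotientGroup.mk x : D.P ⧸ C), by rw [hVtop]; exact Subgroup.mem_top _⟩
      map_one' := rfl
      map_mul' := fun _ _ => rfl }
  have hqc : Continuous q := Continuous.subtype_mk continuous_quotient_mk' _
  have hqo : IsOpenMap q := by
    intro U hU
    rw [isOpen_induced_iff]
    refine ⟨(QuotientGroup.mk : D.P → D.P ⧸ C) '' U, QuotientGroup.isOpenMap_coe U hU, ?_⟩
    ext y
    constructor
    · rintro ⟨x, hx, hxy⟩
      exact ⟨x, hx, Subtype.ext hxy⟩
    · rintro ⟨x, hx, rfl⟩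
      exact ⟨x, hx, rfl⟩
  have hqs : Function.Surjective q := by
    rintro ⟨y, hy⟩
    obtain ⟨x, rfl⟩ := QuotientGroup.mk_surjective y
    exact ⟨x, rfl⟩
  have hqk : (q.ker : Set D.P) = C := by
    ext x
    show q x = 1 ↔ x ∈ C
    rw [Subtype.ext_iff]
    exact QuotientGroup.eq_one_iff x
  let g : D.P →* P'' := f'.comp q
  have hgc : Continuous g := hf'.comp hqc
  have hgo : IsOpenMap g := hfo'.comp hqo
  have hgs : Function.Surjective g := hfs'.comp hqs
  have : LocallyCompactSpace V' := hV'.locallyCompactSpace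
  have hgk : IsCompact (g.ker : Set D.P) := by
    have h := isCompact_preimage_of_isCompact_ker q hqc hqo hqs (by rw [hqk]; exact hCc)
      (f'.ker : Set V') hfk'
    exact h
  have : ConnectedSpace P'' := hgs.connectedSpace hgc
  let D' : GoodDatum G :=
    { V := D.V
      P := P''
      f := g.comp D.f
      isOpen := D.isOpen
      cont := hgc.comp D.cont
      openMap := hgo.comp D.openMap
      surj := hgs.comp D.surj
      ker := isCompact_preimage_of_isCompact_ker D.f D.cont D.openMap D.surj D.ker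
        (g.ker : Set D.P) hgk
      nss := hn }
  have hle : dimL D.P ≤ dimL P'' := hmin D'
  obtain ⟨hge, hdisc⟩ := dimL_le_of_open D.nss hn g hgc hgo hgs
  obtain ⟨W, hW, hW1⟩ := hdisc (le_antisymm hge hle)
  have hsub : ∀ x ∈ C, x ∈ W → x = 1 := by
    intro x hx hxW
    apply hW1 x hxW
    show f' (q x) = 1
    have : q x = 1 := by
      have h2 : x ∈ (q.ker : Set D.P) := by rw [hqk]; exact hx
      exact h2
    rw [this, map_one]
  have : CompactSpace C := isCompact_iff_compactSpace.mp hCc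
  have : DiscreteTopology C := by
    have h3 : ({1} : Set C) ∈ 𝓝 (1 : C) := by
      have h4 : (Subtype.val ⁻¹' W : Set C) ∈ 𝓝 (1 : C) :=
        continuous_subtype_val.continuousAt.preimage_mem_nhds (by simpa using hW)
      refine mem_of_superset h4 ?_
      intro x hx
      exact Subtype.ext (hsub x x.2 hx)
    exact discreteTopology_of_isOpen_singleton_one (isOpen_singleton_iff_nhds_eq_pure (1 : C) |>.mpr
      (le_antisymm (le_pure_iff.mpr h3) (pure_le_nhds _)))
  exact finite_of_compact_of_discrete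

end GY
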