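import Pool.Agent.MP6c9f91.GYThm
import Pool.Agent.MP6c9f91.LieFun
import Pool.Agent.MP6c9f91.GoodDatum
import Pool.Agent.MP6c9f91.MinDatum

/-!
# T7c: the structure theorem
-/

open Topology Filter Pointwise MeasureTheory

universe u v w

namespace GY

section T7caux

variable {G : Type u} [Group G] [TopologicalSpace G] [IsTopologicalGroup G]

theorem compact_sup {H N : Subgroup G} (hn : N.Normal) (hH : IsCompact (H : Set G))
    (hN : IsCompact (N : Set G)) : IsCompact ((H ⊔ N : Subgroup G) : Set G) := by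
  rw [Subgroup.mul_normal]
  exact hH.mul hN

theorem compact_iSup {ι : Type v} [Finite ι] (C : ι → Subgroup G) (hn : ∀ i, (C i).Normal)
    (hc : ∀ i, IsCompact (C i : Set G)) : IsCompact ((⨆ i, C i : Subgroup G) : Set G) := by
  classical
  have := Fintype.ofFinite ι
  have key : ∀ s : Finset ι, IsCompact ((⨆ i ∈ s, C i : Subgroup G) : Set G) ∧
      (⨆ i ∈ s, C i : Subgroup G).Normal := by
    intro s
    refine ⟨?_, Subgroup.biSup_normal (s : Set ι) C fun i _ => hn i⟩
    induction s using Finset.induction_on with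
    | empty => simp
    | insert a s _ ih =>
      rw [Finset.iSup_insert]
      exact compact_sup (Subgroup.biSup_normal (s : Set ι) C fun i _ => hn i) (hc a) ih
  have := (key Finset.univ).1
  simpa using this

/-- some compact normal subgroup of `G₀` contains all commutators of `g` with `G₀` -/
def QProp (G₀ : Subgroup G) [G₀.Normal] (g : G) : Prop :=
  ∃ C : Subgroup G₀, C.Normal ∧ IsCompact (C : Set G₀) ∧
    ∀ x : G₀, (MulAut.conjNormal g x : G₀) * x⁻¹ ∈ C

theorem conjNormal_cont (G₀ : Subgroup G) [G₀.Normal] (g : G) :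
    Continuous (fun x : G₀ => (MulAut.conjNormal g x : G₀)) := by
  refine continuous_induced_rng.2 ?_
  have : Continuous fun x : G₀ => g * (x : G) * g⁻¹ := by fun_prop
  exact this

theorem map_conj_good {G₀ : Subgroup G} [G₀.Normal] (g : G) {C : Subgroup G₀} (hn : C.Normal)
    (hc : IsCompact (C : Set G₀)) :
    (C.map (MulAut.conjNormal g : MulAut G₀).toMonoidHom).Normal ∧
      IsCompact ((C.map (MulAut.conjNormal g : MulAut G₀).toMonoidHom : Subgroup G₀) : Set G₀) := by
  refine ⟨hn.map _ (MulAut.conjNormal g : MulAut G₀).surjective, ?_⟩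
  rw [Subgroup.coe_map]
  exact hc.image (conjNormal_cont G₀ g)

/-- the subgroup of all `g` with `QProp` -/
def Qgrp (G₀ : Subgroup G) [G₀.Normal] : Subgroup G where
  carrier := {g | QProp G₀ g}
  one_mem' := ⟨⊥, inferInstance, by simp, fun x => by simp⟩
  mul_mem' := by
    rintro g g' ⟨C, hn, hc, h⟩ ⟨C', hn', hc', h'⟩
    obtain ⟨h1, h2⟩ := map_conj_good g hn' hc'
    refine ⟨C.map (MulAut.conjNormal (1 : G) : MulAut G₀).toMonoidHom ⊔
      C'.map (MulAut.conjNormal g : MulAut G₀).toMonoidHom, ?_, ?_, ?_⟩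
    · have := h1
      have := (map_conj_good (1 : G) hn hc).1
      infer_instance
    · exact compact_sup h1 (map_conj_good (1 : G) hn hc).2 h2
    · intro x
      have e : (MulAut.conjNormal (g * g') x : G₀) * x⁻¹ =
          (MulAut.conjNormal g ((MulAut.conjNormal g' x : G₀) * x⁻¹) : G₀) *
            ((MulAut.conjNormal g x : G₀) * x⁻¹) := by
        simp only [map_mul, MulAut.mul_apply, map_inv]
        group
      rw [e]
      refine mul_mem (Subgroup.mem_sup_right ⟨_, h' x, rfl⟩) (Subgroup.mem_sup_left ?_)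
      exact ⟨_, h x, by simp⟩
  inv_mem' := by
    rintro g ⟨C, hn, hc, h⟩
    refine ⟨C, hn, hc, fun x => ?_⟩
    have h1 := h ((MulAut.conjNormal g⁻¹ x : G₀))
    have h2 := C.inv_mem h1
    simpa using h2

theorem Qgrp_normal (G₀ : Subgroup G) [G₀.Normal] : (Qgrp G₀).Normal := by
  refine ⟨?_⟩
  rintro g ⟨C, hn, hc, h⟩ k
  obtain ⟨h1, h2⟩ := map_conj_good k hn hc
  refine ⟨_, h1, h2, fun x => ⟨_, h (MulAut.conjNormal k⁻¹ x : G₀), ?_⟩⟩
  simp [MulAut.mul_apply]

end T7caux

section T7cmain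

variable {G : Type u} [Group G] [TopologicalSpace G] [IsTopologicalGroup G] [T2Space G]
  [LocallyCompactSpace G]

omit [T2Space G] [LocallyCompactSpace G] in
theorem openCore_le (W : Subgroup G) (hW : IsOpen (W : Set G)) : openCore G ≤ W := sInf_le hW

omit [T2Space G] [LocallyCompactSpace G] in
theorem openCore_closed : IsClosed (openCore G : Set G) := by
  have : (openCore G : Set G) = ⋂ W : {W : Subgroup G // IsOpen (W : Set G)}, (W.1 : Set G) := by
    ext x
    simp [openCore]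
  rw [this]
  exact isClosed_iInter fun W => Subgroup.isClosed_of_isOpen _ W.2

/-- the map of the core to the quotient -/
def coreMap (D : GoodDatum G) : openCore G →* D.P :=
  D.f.comp (Subgroup.inclusion (openCore_le D.V D.isOpen))

omit [T2Space G] [LocallyCompactSpace G] in
theorem coreMap_cont (D : GoodDatum G) : Continuous (coreMap D) :=
  D.cont.comp (continuous_inclusion (openCore_le D.V D.isOpen))

theorem coreMap_surj (D : GoodDatum G) : Function.Surjective (coreMap D) := by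
  intro y
  obtain ⟨w, hw, rfl⟩ := D.surj_openCore y
  exact ⟨⟨w, hw⟩, rfl⟩

theorem central_of_Q (D : GoodDatum G) (hmin : ∀ D' : GoodDatum G, dimL D.P ≤ dimL D'.P)
    [(openCore G).Normal] (g : D.V) (hg : QProp (openCore G) (g : G)) (y : D.P) :
    D.f g * y * (D.f g)⁻¹ * y⁻¹ = 1 := by
  obtain ⟨C, hn, hc, h⟩ := hg
  have hfin : Finite (C.map (coreMap D)) := by
    refine D.finite_of_compact_normal hmin _ (hn.map _ (coreMap_surj D)) ?_
    rw [Subgroup.coe_map]
    exact hc.image (coreMap_cont D)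
  have hmem : ∀ y : D.P, D.f g * y * (D.f g)⁻¹ * y⁻¹ ∈ (C.map (coreMap D) : Set D.P) := by
    intro y
    obtain ⟨x, rfl⟩ := coreMap_surj D y
    refine ⟨_, h x, ?_⟩
    simp only [coreMap, MonoidHom.comp_apply]
    rw [← map_mul, ← map_inv, ← map_mul, ← map_inv, ← map_mul]
    congr 1
  have hfin' : (C.map (coreMap D) : Set D.P).Finite := Set.toFinite _
  have hdisc : IsDiscrete (C.map (coreMap D) : Set D.P) := hfin'.isDiscrete
  have hcont : Continuous fun y : D.P => D.f g * y * (D.f g)⁻¹ * y⁻¹ := by fun_prop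
  have h1 := isPreconnected_univ.constant_of_mapsTo hdisc hcont.continuousOn
    (fun y _ => hmem y) (Set.mem_univ y) (Set.mem_univ (1 : D.P))
  simpa using h1

/-! ### The exponent p part -/

variable {A : Type u} [CommGroup A] [Finite A]

/-- the intersection of the conjugates of `D.V` -/
def V0 (D : GoodDatum G) (ι : A →* G) : Subgroup G :=
  ⨅ a : A, D.V.comap (MulAut.conj (ι a)).toMonoidHom

theorem mem_V0 (D : GoodDatum G) (ι : A →* G) (x : G) :
    x ∈ V0 D ι ↔ ∀ a : A, ι a * x * (ι a)⁻¹ ∈ D.V := by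
  simp [V0, Subgroup.mem_iInf]

theorem V0_open (D : GoodDatum G) (ι : A →* G) : IsOpen (V0 D ι : Set G) := by
  have : (V0 D ι : Set G) = ⋂ a : A, (fun x => ι a * x * (ι a)⁻¹) ⁻¹' (D.V : Set G) := by
    ext x
    simp [mem_V0]
  rw [this]
  refine isOpen_iInter_of_finite fun a => D.isOpen.preimage (by fun_prop)

theorem V0_conj (D : GoodDatum G) (ι : A →* G) (a : A) {x : G} (hx : x ∈ V0 D ι) :
    ι a * x * (ι a)⁻¹ ∈ V0 D ι := by
  rw [mem_V0] at hx ⊢
  intro b
  have := hx (b * a)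
  simpa [mul_assoc] using this

/-- the hom `v ↦ f (a v a⁻¹)` -/
def kmap (D : GoodDatum G) (ι : A →* G) (a : A) : V0 D ι →* D.P where
  toFun v := D.f ⟨ι a * v * (ι a)⁻¹, (mem_V0 D ι v).1 v.2 a⟩
  map_one' := by
    rw [← map_one D.f]
    congr 1
    ext
    simp
  map_mul' x y := by
    rw [← map_mul D.f]
    congr 1
    ext
    simp

theorem kmap_cont (D : GoodDatum G) (ι : A →* G) (a : A) : Continuous (kmap D ι a) := by
  refine D.cont.comp ?_
  refine continuous_induced_rng.2 ?_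
  have : Continuous fun v : V0 D ι => ι a * (v : G) * (ι a)⁻¹ := by fun_prop
  exact this

theorem kmap_conj (D : GoodDatum G) (ι : A →* G) (a b : A) (v : V0 D ι) :
    kmap D ι a ⟨ι b * v * (ι b)⁻¹, V0_conj D ι b v.2⟩ = kmap D ι (a * b) v := by
  simp only [kmap, MonoidHom.coe_mk, OneHom.coe_mk]
  congr 1
  ext
  simp [mul_assoc]

theorem kmap_ker_compact (D : GoodDatum G) (ι : A →* G) (a : A) :
    IsCompact ((kmap D ι a).ker : Set (V0 D ι)) := by
  have h1 : IsCompact ((fun v : D.V => (v : G)) '' (D.f.ker : Set D.V)) :=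
    D.ker.image continuous_subtype_val
  have h2 : IsClosedEmbedding (fun v : V0 D ι => ι a * (v : G) * (ι a)⁻¹) := by
    have h3 : IsClosedEmbedding (fun v : V0 D ι => (v : G)) :=
      (Subgroup.isClosed_of_isOpen _ (V0_open D ι)).isClosedEmbedding_subtypeVal
    exact (((Homeomorph.mulLeft (ι a)).trans
      (Homeomorph.mulRight (ι a)⁻¹)).isClosedEmbedding.comp h3)
  have h4 := h2.isCompact_preimage h1
  convert h4 using 1
  ext v
  constructor
  · intro hv
    exact ⟨⟨ι a * v * (ι a)⁻¹, (mem_V0 D ι v).1 v.2 a⟩, hv, rfl⟩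
  · rintro ⟨u, hu, hu'⟩
    have : u = ⟨ι a * v * (ι a)⁻¹, (mem_V0 D ι v).1 v.2 a⟩ := Subtype.ext hu'
    rw [this] at hu
    exact hu

/-- the compact normal subgroup -/
def K0 (D : GoodDatum G) (ι : A →* G) : Subgroup (V0 D ι) := ⨆ a : A, (kmap D ι a).ker

instance K0_normal (D : GoodDatum G) (ι : A →* G) : (K0 D ι).Normal :=
  Subgroup.iSup_normal _

theorem K0_compact (D : GoodDatum G) (ι : A →* G) : IsCompact (K0 D ι : Set (V0 D ι)) :=
  compact_iSup _ (fun _ => inferInstance) fun a => kmap_ker_compact D ι a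

/-- conjugation on `V0` -/
def conjV0 (D : GoodDatum G) (ι : A →* G) (a : A) : MulAut (V0 D ι) where
  toFun v := ⟨ι a * v * (ι a)⁻¹, V0_conj D ι a v.2⟩
  invFun v := ⟨ι a⁻¹ * v * (ι a⁻¹)⁻¹, V0_conj D ι a⁻¹ v.2⟩
  left_inv v := by
    ext
    simp [mul_assoc]
  right_inv v := by
    ext
    simp [mul_assoc]
  map_mul' x y := by
    ext
    simp

theorem conjV0_coe (D : GoodDatum G) (ι : A →* G) (a : A) (v : V0 D ι) :
    (conjV0 D ι a v : G) = ι a * v * (ι a)⁻¹ := rfl

theorem conjV0_mul (D : GoodDatum G) (ι : A →* G) (a b : A) (v : V0 D ι) :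
    conjV0 D ι (a * b) v = conjV0 D ι a (conjV0 D ι b v) := by
  ext
  simp [conjV0_coe, mul_assoc]

theorem conjV0_cont (D : GoodDatum G) (ι : A →* G) (a : A) :
    Continuous (fun v => conjV0 D ι a v) := by
  refine continuous_induced_rng.2 ?_
  have : Continuous fun v : V0 D ι => ι a * (v : G) * (ι a)⁻¹ := by fun_prop
  exact this

theorem K0_map_le (D : GoodDatum G) (ι : A →* G) (a : A) :
    (K0 D ι).map (conjV0 D ι a : V0 D ι →* V0 D ι) ≤ K0 D ι := by
  rw [K0, Subgroup.map_iSup]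
  refine iSup_le fun b => ?_
  refine le_trans ?_ (le_iSup _ (b * a⁻¹))
  rintro x ⟨v, hv, rfl⟩
  have h1 := kmap_conj D ι (b * a⁻¹) a v
  rw [inv_mul_cancel_right] at h1
  rw [MonoidHom.mem_ker]
  exact h1.trans hv

theorem K0_map (D : GoodDatum G) (ι : A →* G) (a : A) :
    (K0 D ι).map (conjV0 D ι a : V0 D ι →* V0 D ι) = K0 D ι := by
  refine le_antisymm (K0_map_le D ι a) fun x hx => ?_
  refine ⟨conjV0 D ι a⁻¹ x, K0_map_le D ι a⁻¹ ⟨x, hx, rfl⟩, ?_⟩
  have := conjV0_mul D ι a a⁻¹ x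
  rw [mul_inv_cancel] at this
  have h1 : conjV0 D ι 1 x = x := by
    ext
    simp [conjV0_coe]
  exact this.symm.trans h1

/-- the action on the quotient -/
noncomputable def alphaV0 (D : GoodDatum G) (ι : A →* G) : A →* MulAut (V0 D ι ⧸ K0 D ι) where
  toFun a := QuotientGroup.congr (K0 D ι) (K0 D ι) (conjV0 D ι a) (K0_map D ι a)
  map_one' := by
    ext x
    induction x using QuotientGroup.induction_on with
    | H v =>
      have h1 : conjV0 D ι 1 v = v := by
        ext
        simp [conjV0_coe]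
      simp [h1]
  map_mul' a b := by
    ext x
    induction x using QuotientGroup.induction_on with
    | H v => simp [conjV0_mul, MulAut.mul_apply]

theorem alphaV0_mk (D : GoodDatum G) (ι : A →* G) (a : A) (v : V0 D ι) :
    alphaV0 D ι a (QuotientGroup.mk v) = QuotientGroup.mk (conjV0 D ι a v) := rfl

theorem alphaV0_cont (D : GoodDatum G) (ι : A →* G) (a : A) : Continuous (alphaV0 D ι a) := by
  refine (QuotientGroup.isQuotientMap_mk (K0 D ι)).continuous_iff.2 ?_
  exact QuotientGroup.continuous_mk.comp (conjV0_cont D ι a)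

theorem kmap_one_surj (D : GoodDatum G) (ι : A →* G) : Function.Surjective (kmap D ι 1) := by
  intro y
  obtain ⟨w, hw, rfl⟩ := D.surj_of_open (V0 D ι) (V0_open D ι) y
  refine ⟨⟨w, hw⟩, ?_⟩
  simp only [kmap, MonoidHom.coe_mk, OneHom.coe_mk]
  congr 1
  ext
  simp

theorem kmap_one_open (D : GoodDatum G) (ι : A →* G) : IsOpenMap (kmap D ι 1) := by
  have h1 : IsOpenMap (fun v : V0 D ι =>
      (⟨ι 1 * v * (ι 1)⁻¹, (mem_V0 D ι v).1 v.2 1⟩ : D.V)) := by
    refine (D.isOpen.isOpenEmbedding_subtypeVal.isOpenMap_iff).2 ?_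
    have h2 : ((fun v : D.V => (v : G)) ∘ fun v : V0 D ι =>
      (⟨ι 1 * v * (ι 1)⁻¹, (mem_V0 D ι v).1 v.2 1⟩ : D.V)) = fun v : V0 D ι => (v : G) := by
      ext v
      simp
    have h3 : IsOpenMap (fun v : V0 D ι => (v : G)) :=
      (V0_open D ι).isOpenEmbedding_subtypeVal.isOpenMap
    rw [← h2] at h3
    exact h3
  exact D.openMap.comp h1

/-- the hom from `P` to the quotient -/
noncomputable def Fmap (D : GoodDatum G) (ι : A →* G) : D.P →* V0 D ι ⧸ K0 D ι :=
  (kmap D ι 1).liftOfSurjective (kmap_one_surj D ι) ⟨QuotientGroup.mk' (K0 D ι), by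
    rw [QuotientGroup.ker_mk']
    exact le_iSup (fun a : A => (kmap D ι a).ker) 1⟩

theorem Fmap_apply (D : GoodDatum G) (ι : A →* G) (v : V0 D ι) :
    Fmap D ι (kmap D ι 1 v) = QuotientGroup.mk v := by
  unfold Fmap
  rw [MonoidHom.liftOfSurjective, MonoidHom.liftOfRightInverse_comp_apply]
  rfl

theorem Fmap_comp (D : GoodDatum G) (ι : A →* G) :
    (Fmap D ι : D.P → V0 D ι ⧸ K0 D ι) ∘ (kmap D ι 1) = QuotientGroup.mk := by
  ext v
  exact Fmap_apply D ι v

theorem Fmap_cont (D : GoodDatum G) (ι : A →* G) : Continuous (Fmap D ι) := by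
  have h1 : IsQuotientMap (kmap D ι 1) :=
    (kmap_one_open D ι).isQuotientMap (kmap_cont D ι 1) (kmap_one_surj D ι)
  rw [h1.continuous_iff, Fmap_comp]
  exact QuotientGroup.continuous_mk

theorem Fmap_open (D : GoodDatum G) (ι : A →* G) : IsOpenMap (Fmap D ι) := by
  intro W hW
  have h1 : Fmap D ι '' W = QuotientGroup.mk '' (kmap D ι 1 ⁻¹' W) := by
    rw [← Fmap_comp, Set.image_comp, Set.image_preimage_eq W (kmap_one_surj D ι)]
  rw [h1]
  exact QuotientGroup.isOpenMap_coe _ (hW.preimage (kmap_cont D ι 1))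

theorem Fmap_surj (D : GoodDatum G) (ι : A →* G) : Function.Surjective (Fmap D ι) := by
  intro y
  induction y using QuotientGroup.induction_on with
  | H v => exact ⟨_, Fmap_apply D ι v⟩

theorem Fmap_ker (D : GoodDatum G) (hmin : ∀ D' : GoodDatum G, dimL D.P ≤ dimL D'.P)
    (ι : A →* G) : Finite (Fmap D ι).ker := by
  have h1 : Finite ((K0 D ι).map (kmap D ι 1)) := by
    refine D.finite_of_compact_normal hmin _ ((K0_normal D ι).map _ (kmap_one_surj D ι)) ?_
    rw [Subgroup.coe_map]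
    exact (K0_compact D ι).image (kmap_cont D ι 1)
  have h2 : (Fmap D ι).ker ≤ (K0 D ι).map (kmap D ι 1) := by
    intro y hy
    obtain ⟨v, rfl⟩ := kmap_one_surj D ι y
    rw [MonoidHom.mem_ker, Fmap_apply, QuotientGroup.eq_one_iff] at hy
    exact ⟨v, hy, rfl⟩
  exact Set.Finite.subset (s := ((K0 D ι).map (kmap D ι 1) : Set D.P)) (Set.toFinite _) h2

theorem exists_QProp (D : GoodDatum G) (hmin : ∀ D' : GoodDatum G, dimL D.P ≤ dimL D'.P)
    [(openCore G).Normal] (p : ℕ) (hp : p.Prime) (hA : ∀ a : A, a ^ p = 1) (ι : A →* G)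
    (hcard : p ^ dimL D.P < Nat.card A) : ∃ a : A, a ≠ 1 ∧ QProp (openCore G) (ι a) := by
  have : LocallyCompactSpace (V0 D ι) := (V0_open D ι).locallyCompactSpace
  have : IsClosed (K0 D ι : Set (V0 D ι)) := (K0_compact D ι).isClosed
  have : ConnectedSpace (V0 D ι ⧸ K0 D ι) := (Fmap_surj D ι).connectedSpace (Fmap_cont D ι)
  have hnss : NSS (V0 D ι ⧸ K0 D ι) := D.nss.of_finite_ker (Fmap D ι) (Fmap_cont D ι)
    (Fmap_open D ι) (Fmap_surj D ι) (Fmap_ker D hmin ι)
  have hdim : dimL (V0 D ι ⧸ K0 D ι) ≤ dimL D.P :=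
    (dimL_le_of_open D.nss hnss (Fmap D ι) (Fmap_cont D ι) (Fmap_open D ι) (Fmap_surj D ι)).1
  obtain ⟨a, ha, hα⟩ := exists_acts_trivially hnss p hp A hA (alphaV0 D ι) (alphaV0_cont D ι)
    (lt_of_le_of_lt (Nat.pow_le_pow_right hp.pos hdim) hcard)
  refine ⟨a, ha, ?_⟩
  have hle : openCore G ≤ V0 D ι := openCore_le _ (V0_open D ι)
  refine ⟨(K0 D ι).comap (Subgroup.inclusion hle), inferInstance, ?_, fun x => ?_⟩
  · have h1 : IsClosedEmbedding (Subgroup.inclusion hle) := by
      have h2 : IsEmbedding (Subgroup.inclusion hle) := Topology.IsEmbedding.inclusion hle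
      refine ⟨h2, ?_⟩
      have h3 : Set.range (Subgroup.inclusion hle) =
          (fun v : V0 D ι => (v : G)) ⁻¹' (openCore G : Set G) := by
        ext v
        constructor
        · rintro ⟨x, rfl⟩
          exact x.2
        · intro hv
          exact ⟨⟨v, hv⟩, rfl⟩
      rw [h3]
      exact openCore_closed.preimage continuous_subtype_val
    exact h1.isCompact_preimage (K0_compact D ι)
  · rw [Subgroup.mem_comap]
    set v : V0 D ι := Subgroup.inclusion hle x with hv
    have h1 : alphaV0 D ι a (QuotientGroup.mk v) = QuotientGroup.mk v := by rw [hα]; rfl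
    rw [alphaV0_mk, QuotientGroup.eq_iff_div_mem, div_eq_mul_inv] at h1
    exact h1

end T7cmain

section T7c

variable (G : Type u) [Group G] [TopologicalSpace G] [IsTopologicalGroup G] [T2Space G]
  [LocallyCompactSpace G]

theorem exists_structure
    (hG : ¬ ∃ K : Subgroup G, IsCompact (K : Set G) ∧ IsOpen (K : Set G)) :
    ∃ (V Q : Subgroup G) (K : Set G) (d : ℕ), IsOpen (V : Set G) ∧ ¬ IsCompact (V : Set G) ∧
      Q.Normal ∧ (∀ g : G, (V.map (MulAut.conj g).toMonoidHom).relIndex V ≠ 0) ∧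
      IsCompact K ∧ (∀ a ∈ V ⊓ Q, ∀ b ∈ V ⊓ Q, a * b * a⁻¹ * b⁻¹ ∈ K) ∧
      (∀ p : ℕ, p.Prime → ∀ A : Subgroup G, Finite A → (∀ a ∈ A, ∀ b ∈ A, a * b = b * a) →
        (∀ a ∈ A, a ^ p = 1) → p ^ d < Nat.card A → ∃ a ∈ A, a ≠ 1 ∧ a ∈ Q) := by
  have hcn : (openCore G).Normal := openCore_normal
  have : Nonempty (GoodDatum G) := by
    obtain ⟨V, P, _, _, _, _, _, f, hV, hf, hfo, hfs, hk, hP⟩ := gleason_yamabe' G
    obtain ⟨P₀, hP₀, hc⟩ := exists_open_connected hP
    exact goodDatum_of_parts G V f hV hf hfo hfs hk hP P₀ hP₀ hc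
  obtain ⟨D, hD⟩ : ∃ D : GoodDatum G, ∀ D' : GoodDatum G, dimL D.P ≤ dimL D'.P :=
    ⟨Function.argmin (fun D : GoodDatum G => dimL D.P),
      fun D' => Function.argmin_le (fun D : GoodDatum G => dimL D.P) D'⟩
  refine ⟨D.V, Qgrp (openCore G), (fun v : D.V => (v : G)) '' (D.f.ker : Set D.V), dimL D.P,
    D.isOpen, fun h => hG ⟨D.V, h, D.isOpen⟩, Qgrp_normal _, ?_, D.ker.image continuous_subtype_val,
    ?_, ?_⟩
  · intro g
    refine D.relIndex_ne_zero _ ?_
    rw [Subgroup.coe_map]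
    have h1 : IsOpenMap (fun x : G => g * x * g⁻¹) :=
      ((Homeomorph.mulLeft g).trans (Homeomorph.mulRight g⁻¹)).isOpenMap
    exact h1 _ D.isOpen
  · rintro a ⟨haV, haQ⟩ b ⟨hbV, hbQ⟩
    refine ⟨⟨a, haV⟩ * ⟨b, hbV⟩ * ⟨a, haV⟩⁻¹ * ⟨b, hbV⟩⁻¹, ?_, rfl⟩
    have := central_of_Q D hD ⟨a, haV⟩ haQ (D.f ⟨b, hbV⟩)
    simp only [SetLike.mem_coe, MonoidHom.mem_ker, map_mul, map_inv]
    exact this
  · intro p hp A hfin hcomm hpow hcard
    let _ : CommGroup A := { (inferInstance : Group A) with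
      mul_comm := fun a b => Subtype.ext (hcomm a a.2 b b.2) }
    obtain ⟨a, ha, hQ⟩ := exists_QProp (A := A) D hD p hp
      (fun a => Subtype.ext (by simpa using hpow a a.2)) A.subtype hcard
    exact ⟨a, a.2, fun h => ha (Subtype.ext h), hQ⟩

end T7c

end GY
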