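import Pool.Agent.MP6c9f91.CompactOpen
import Pool.Agent.MP6c9f91.StructureThm
import Pool.Agent.MP6c9f91.AlgContra
import Pool.Agent.MP6c9f91.LatInf

/-!
# Clause 2 for all locally compact groups (final assembly of MP_6c9f91_an)
-/

open Topology Filter Pointwise MeasureTheory

universe u v w

namespace MP6c9f91

/-- Gam has elements of order `p` for arbitrarily large primes. -/
theorem Gam_large_torsion : ∀ n : ℕ, ∃ p > n, p.Prime ∧ ∃ g : Gam, orderOf g = p := by
  intro n
  obtain ⟨p, hp, hpp⟩ := Nat.exists_infinite_primes (n + 3)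
  exact ⟨p, by omega, hpp, Gam_torsion p hpp (by omega)⟩

/-- `Gam` and `F₂ × F₂` are never virtually isomorphic to lattices of the same locally compact
group. -/
theorem clause2_general {G : Type u} [Group G] [TopologicalSpace G]
    [IsTopologicalGroup G] [T2Space G] [LocallyCompactSpace G] (Γ' Λ' : Subgroup G)
    (hΓ' : IsLattice Γ') (hΛ' : IsLattice Λ') (h1 : VirtIso Gam Γ') (h2 : VirtIso F22 Λ') :
    False := by
  by_cases hK : ∃ K : Subgroup G, IsCompact (K : Set G) ∧ IsOpen (K : Set G)
  · obtain ⟨K, hKc, hKo⟩ := hK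
    exact clause2_compactOpen K hKc hKo Γ' Λ' hΓ'.1 hΛ' (torsion_of_virtIso h1 Gam_large_torsion) h2
  obtain ⟨V, Q, K, d, hVo, hVc, hQ, hcom, hKc, hcK, hA⟩ := GY.exists_structure G hK
  have hinf := infinite_inter_of_lattice Γ' hΓ' V hVo hVc
  have hdisc : DiscreteTopology Γ' := hΓ'.1
  have hclosed : IsClosed (Γ' : Set G) := Subgroup.isClosed_of_discrete
  -- the finite set
  set F : Set Γ' := {x | (x : G) ∈ K} with hFdef
  have hF : F.Finite := by
    have h3 : IsCompact F := by
      have : F = Subtype.val ⁻¹' K := rfl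
      rw [this]
      exact hclosed.isClosedEmbedding_subtypeVal.isCompact_preimage hKc
    exact h3.finite_of_discrete
  refine alg_contradiction h1 (V.subgroupOf Γ') (Q.subgroupOf Γ') inferInstance ?_ hinf F hF ?_ d ?_
  · intro g
    have h3 := hcom (g : G)
    have h4 : (V.subgroupOf Γ').map (MulAut.conj g).toMonoidHom =
        (V.map (MulAut.conj (g : G)).toMonoidHom).subgroupOf Γ' := by
      ext x
      simp only [Subgroup.mem_map, Subgroup.mem_subgroupOf]
      constructor
      · rintro ⟨y, hy, rfl⟩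
        exact ⟨y, hy, by simp⟩
      · rintro ⟨y, hy, hxy⟩
        have hy' : y = (g : G)⁻¹ * x * g := by
          rw [← hxy]; simp [mul_assoc]
        refine ⟨g⁻¹ * x * g, ?_, ?_⟩
        · simpa [← hy'] using hy
        · simp [mul_assoc]
    rw [h4]
    exact Subgroup.relIndex_comap_ne_zero Γ'.subtype h3
  · intro a ha b hb
    exact hcK a ⟨ha.1, ha.2⟩ b ⟨hb.1, hb.2⟩
  · intro p hp A hAf hAc hAp hAcard
    have hmapf : Finite (A.map Γ'.subtype) := by
      have : ((A.map Γ'.subtype : Subgroup G) : Set G).Finite := by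
        rw [Subgroup.coe_map]
        exact (Set.toFinite _).image _
      exact this
    have e1 : ∀ a ∈ A.map Γ'.subtype, ∀ b ∈ A.map Γ'.subtype, a * b = b * a := by
      rintro _ ⟨a, ha, rfl⟩ _ ⟨b, hb, rfl⟩
      rw [← map_mul, hAc a ha b hb, map_mul]
    have e2 : ∀ a ∈ A.map Γ'.subtype, a ^ p = 1 := by
      rintro _ ⟨a, ha, rfl⟩
      rw [← map_pow, hAp a ha, map_one]
    have e3 : p ^ d < Nat.card (A.map Γ'.subtype) := by
      rwa [Subgroup.card_map_of_injective Γ'.subtype_injective]
    obtain ⟨a, ha, ha1, haQ⟩ := hA p hp (A.map Γ'.subtype) hmapf e1 e2 e3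
    obtain ⟨b, hb, rfl⟩ := ha
    exact ⟨b, hb, fun h => ha1 (by simp [h]), haQ⟩

/-- A lattice of the locally compact group `G`: a discrete subgroup `Λ` such that `G ⧸ Λ` carries
a `G`-invariant Borel probability measure, which is required to be regular when `G` is not second
countable. -/
def LatticeIn {G : Type u} [Group G] [TopologicalSpace G] (Λ : Subgroup G) : Prop :=
  DiscreteTopology Λ ∧
    letI : MeasurableSpace (G ⧸ Λ) := borel (G ⧸ Λ)
    ∃ ν : Measure (G ⧸ Λ), IsProbabilityMeasure ν ∧ (SecondCountableTopology G ∨ ν.Regular) ∧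
      ∀ (g : G) (E : Set (G ⧸ Λ)), MeasurableSet E → ν ((fun x => g • x) ⁻¹' E) = ν E

theorem regular_of_secondCountable {G : Type u} [Group G] [TopologicalSpace G]
    [IsTopologicalGroup G] [T2Space G] [LocallyCompactSpace G] [SecondCountableTopology G]
    (Λ : Subgroup G) (hΛ : DiscreteTopology Λ) [MeasurableSpace (G ⧸ Λ)] [BorelSpace (G ⧸ Λ)]
    (ν : Measure (G ⧸ Λ)) [IsFiniteMeasure ν] : ν.Regular := by
  have hclosed : IsClosed (Λ : Set G) := Subgroup.isClosed_of_discrete
  have : T2Space (G ⧸ Λ) := inferInstance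
  have : SecondCountableTopology (G ⧸ Λ) := inferInstance
  infer_instance

theorem LatticeIn.isLattice {G : Type u} [Group G] [TopologicalSpace G]
    [IsTopologicalGroup G] [T2Space G] [LocallyCompactSpace G] {Λ : Subgroup G}
    (h : LatticeIn Λ) : IsLattice Λ := by
  obtain ⟨hΛ, ν, hν, hreg, hinv⟩ := h
  refine ⟨hΛ, ν, hν, ?_, hinv⟩
  rcases hreg with h2 | h2
  · letI : MeasurableSpace (G ⧸ Λ) := borel (G ⧸ Λ)
    have : BorelSpace (G ⧸ Λ) := ⟨rfl⟩
    exact regular_of_secondCountable Λ hΛ ν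
  · exact h2

end MP6c9f91
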