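import Pool.Agent.MP6c9f91.Defs

/-!
# Lattices and compact open subgroups (package P4, helper60)

* `finiteIndex_of_lattice`: an open subgroup containing a lattice has finite index;
* `exists_covol`: the inverse covolume (scaled by `q`) as a natural number valued function on the
  compact open subgroups.
-/

set_option linter.unusedSectionVars false

open MeasureTheory
open scoped ENNReal

namespace MP6c9f91

universe u

namespace Covol

variable {G : Type u} [Group G]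

/-- The `V`-orbit of a point of `G ⧸ Λ`. -/
def O (Λ V : Subgroup G) (x : G ⧸ Λ) : Set (G ⧸ Λ) := {y | ∃ v ∈ V, v • x = y}

theorem self_mem_O (Λ V : Subgroup G) (x : G ⧸ Λ) : x ∈ O Λ V x := ⟨1, V.one_mem, one_smul _ _⟩

/-- The conjugate subgroup `g⁻¹ V g`. -/
def cj (g : G) (V : Subgroup G) : Subgroup G := V.comap (MulAut.conj g).toMonoidHom

theorem mem_cj {g u : G} {V : Subgroup G} : u ∈ cj g V ↔ g * u * g⁻¹ ∈ V := Iff.rfl

theorem cj_mul (g h : G) (V : Subgroup G) : cj (g * h) V = cj h (cj g V) := by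
  ext u
  simp only [mem_cj, mul_inv_rev, mul_assoc]

theorem cj_one (V : Subgroup G) : cj 1 V = V := by
  ext u
  simp [mem_cj]

theorem cj_mono (g : G) {V W : Subgroup G} (h : W ≤ V) : cj g W ≤ cj g V :=
  fun _ hu => h hu

theorem relIndex_cj (g : G) (V W : Subgroup G) : (cj g W).relIndex (cj g V) = W.relIndex V := by
  unfold cj
  rw [Subgroup.relIndex_comap, Subgroup.map_comap_eq_self_of_surjective]
  exact (MulAut.conj g).surjective

theorem preimage_O (Λ V : Subgroup G) (g : G) (x : G ⧸ Λ) :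
    (fun y : G ⧸ Λ => g • y) ⁻¹' (O Λ V (g • x)) = O Λ (cj g V) x := by
  ext y
  simp only [O, Set.mem_preimage, Set.mem_ofPred_eq]
  constructor
  · rintro ⟨v, hv, h⟩
    refine ⟨g⁻¹ * v * g, ?_, ?_⟩
    · rw [mem_cj]
      have : g * (g⁻¹ * v * g) * g⁻¹ = v := by group
      rwa [this]
    · rw [mul_smul, mul_smul, h, inv_smul_smul]
  · rintro ⟨u, hu, rfl⟩
    refine ⟨g * u * g⁻¹, hu, ?_⟩
    rw [mul_smul, mul_smul, inv_smul_smul]

section Top

variable [TopologicalSpace G] [IsTopologicalGroup G]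

theorem isOpen_O (Λ V : Subgroup G) (hV : IsOpen (V : Set G)) (x : G ⧸ Λ) :
    IsOpen (O Λ V x) := by
  obtain ⟨h, rfl⟩ := QuotientGroup.mk_surjective x
  have : O Λ V (h : G ⧸ Λ) = (QuotientGroup.mk : G → G ⧸ Λ) '' ((Homeomorph.mulRight h) '' V) := by
    ext y
    simp only [O, Set.mem_ofPred_eq, Set.mem_image, SetLike.mem_coe, exists_exists_and_eq_and]
    rfl
  rw [this]
  exact QuotientGroup.isOpenMap_coe _ ((Homeomorph.mulRight h).isOpenMap _ hV)

theorem continuous_conj (g : G) : Continuous (fun u : G => g * u * g⁻¹) := by fun_prop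

theorem isOpen_cj (g : G) {V : Subgroup G} (hV : IsOpen (V : Set G)) :
    IsOpen (cj g V : Set G) := hV.preimage (continuous_conj g)

theorem isCompact_cj (g : G) {V : Subgroup G} (hV : IsCompact (V : Set G)) :
    IsCompact (cj g V : Set G) := by
  have : (cj g V : Set G) = (fun u : G => g⁻¹ * u * g) '' (V : Set G) := by
    ext u
    simp only [Set.mem_image, SetLike.mem_coe, mem_cj]
    constructor
    · intro h
      exact ⟨_, h, by group⟩
    · rintro ⟨v, hv, rfl⟩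
      have : g * (g⁻¹ * v * g) * g⁻¹ = v := by group
      rwa [this]
  rw [this]
  exact hV.image (by fun_prop)

theorem relIndex_ne_zero {V W : Subgroup G} (hV : IsCompact (V : Set G))
    (hW : IsOpen (W : Set G)) : W.relIndex V ≠ 0 := by
  have : CompactSpace V := isCompact_iff_compactSpace.mp hV
  have hWo : IsOpen ((W.subgroupOf V : Subgroup V) : Set V) := hW.preimage continuous_subtype_val
  have := Subgroup.quotient_finite_of_isOpen (W.subgroupOf V) hWo
  exact Subgroup.index_ne_zero_of_finite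

theorem finite_inf [T2Space G] (Λ V : Subgroup G) (hΛ : DiscreteTopology Λ)
    (hV : IsCompact (V : Set G)) : Finite (V ⊓ Λ : Subgroup G) := by
  have h1 : IsClosed (Λ : Set G) := Subgroup.isClosed_of_discrete
  have h2 : IsCompact ((V : Set G) ∩ Λ) := hV.inter_right h1
  have h4 : IsDiscrete (Λ : Set G) := isDiscrete_iff_discreteTopology.mpr hΛ
  have h3 : ((V : Set G) ∩ Λ).Finite := h2.finite (h4.mono Set.inter_subset_right)
  exact h3.to_subtype

section Meas

variable [T2Space G] (Λ : Subgroup G) [MeasurableSpace (G ⧸ Λ)] [BorelSpace (G ⧸ Λ)]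
  (ν : Measure (G ⧸ Λ))

/-- Invariance of the measure. -/
def Inv : Prop := ∀ (g : G) (E : Set (G ⧸ Λ)), MeasurableSet E → ν ((fun x => g • x) ⁻¹' E) = ν E

variable {Λ ν}

omit [T2Space G] in
theorem measure_O_smul (hν : Inv Λ ν) {V : Subgroup G} (hV : IsOpen (V : Set G)) (g : G)
    (x : G ⧸ Λ) : ν (O Λ V (g • x)) = ν (O Λ (cj g V) x) := by
  rw [← preimage_O, hν g _ (isOpen_O Λ V hV _).measurableSet]

omit [T2Space G] in
/-- Orbits of open subgroups have positive measure. -/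
theorem measure_O_ne_zero [IsProbabilityMeasure ν] [ν.Regular] (hν : Inv Λ ν) {V : Subgroup G}
    (hV : IsOpen (V : Set G)) (x : G ⧸ Λ) : ν (O Λ V x) ≠ 0 := by
  intro h0
  have hopen : ∀ g : G, IsOpen ((fun y : G ⧸ Λ => g • y) ⁻¹' (O Λ V x)) := fun g =>
    (isOpen_O Λ V hV x).preimage (continuous_const_smul g)
  have hz : ∀ g : G, ν ((fun y : G ⧸ Λ => g • y) ⁻¹' (O Λ V x)) = 0 := fun g => by
    rw [hν g _ (isOpen_O Λ V hV _).measurableSet, h0]
  have hcov : (Set.univ : Set (G ⧸ Λ)) ⊆ ⋃ g : G, (fun y : G ⧸ Λ => g • y) ⁻¹' (O Λ V x) := by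
    intro y _
    obtain ⟨g, hg⟩ := MulAction.exists_smul_eq G y x
    exact Set.mem_iUnion.mpr ⟨g, by
      change g • y ∈ O Λ V x
      rw [hg]; exact self_mem_O Λ V x⟩
  have h1 : ν Set.univ = 0 := by
    rw [isOpen_univ.measure_eq_iSup_isCompact ν]
    simp only [ENNReal.iSup_eq_zero]
    intro K _ hK
    obtain ⟨t, ht⟩ := hK.elim_finite_subcover _ hopen ((Set.subset_univ K).trans hcov)
    refine measure_mono_null ht ?_
    exact (measure_biUnion_null_iff t.countable_toSet).mpr fun g _ => hz g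
  simp at h1

/-- The piece of the orbit of the base point corresponding to a coset. -/
def A (Λ V W : Subgroup G) (s : V ⧸ W.subgroupOf V) : Set (G ⧸ Λ) :=
  {y | ∃ v : V, (v : V ⧸ W.subgroupOf V) = s ∧ (v : G) • ((1 : G) : G ⧸ Λ) = y}

omit [TopologicalSpace G] [IsTopologicalGroup G] [T2Space G] [MeasurableSpace (G ⧸ Λ)]
  [BorelSpace (G ⧸ Λ)] in
theorem A_eq {V W : Subgroup G} (hWV : W ≤ V) (v : V) :
    A Λ V W (v : V ⧸ W.subgroupOf V) =
      (fun y : G ⧸ Λ => (v : G)⁻¹ • y) ⁻¹' (O Λ W ((1 : G) : G ⧸ Λ)) := by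
  ext y
  simp only [A, O, Set.mem_ofPred_eq, Set.mem_preimage]
  constructor
  · rintro ⟨v', hv', rfl⟩
    refine ⟨(v : G)⁻¹ * v', ?_, by rw [mul_smul]⟩
    have := QuotientGroup.eq.mp hv'.symm
    rw [Subgroup.mem_subgroupOf] at this
    simpa using this
  · rintro ⟨w, hw, h⟩
    refine ⟨v * ⟨w, hWV hw⟩, ?_, ?_⟩
    · refine (QuotientGroup.eq.mpr ?_).symm
      rw [Subgroup.mem_subgroupOf]
      simpa using hw
    · change ((v : G) * w) • ((1 : G) : G ⧸ Λ) = y
      rw [mul_smul, h, smul_inv_smul]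

omit [TopologicalSpace G] [IsTopologicalGroup G] [T2Space G] [MeasurableSpace (G ⧸ Λ)]
  [BorelSpace (G ⧸ Λ)] in
/-- The number of pieces through a point. -/
theorem card_pieces {V W : Subgroup G} (u : V) :
    Nat.card {s : V ⧸ W.subgroupOf V | (u : G) • ((1 : G) : G ⧸ Λ) ∈ A Λ V W s} =
      Nat.card ((V ⊓ Λ : Subgroup G) ⧸ W.subgroupOf (V ⊓ Λ)) := by
  let f : (V ⊓ Λ : Subgroup G) → V ⧸ W.subgroupOf V := fun l => ((u * ⟨l, l.2.1⟩ : V) : V ⧸ _)
  have hf : ∀ a b : (V ⊓ Λ : Subgroup G), f a = f b ↔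
      (a : (V ⊓ Λ : Subgroup G) ⧸ W.subgroupOf (V ⊓ Λ)) = b := by
    intro a b
    rw [QuotientGroup.eq, QuotientGroup.eq, Subgroup.mem_subgroupOf, Subgroup.mem_subgroupOf]
    have : (((u * ⟨a, a.2.1⟩ : V)⁻¹ * (u * ⟨b, b.2.1⟩ : V) : V) : G) =
        ((a⁻¹ * b : (V ⊓ Λ : Subgroup G)) : G) := by
      simp
    rw [this]
  let ψ : (V ⊓ Λ : Subgroup G) ⧸ W.subgroupOf (V ⊓ Λ) → V ⧸ W.subgroupOf V :=
    Quotient.lift f (fun a b hab => (hf a b).mpr (Quotient.sound hab))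
  have hψ : Function.Injective ψ := by
    intro a b
    induction a using QuotientGroup.induction_on
    induction b using QuotientGroup.induction_on
    intro h
    exact (hf _ _).mp h
  have hr : {s : V ⧸ W.subgroupOf V | (u : G) • ((1 : G) : G ⧸ Λ) ∈ A Λ V W s} =
      Set.range ψ := by
    ext s
    simp only [A, Set.mem_ofPred_eq, Set.mem_range]
    constructor
    · rintro ⟨v, rfl, h⟩
      have h1 : (u : G)⁻¹ * v ∈ Λ := by
        have h2 : ((u * 1 : G) : G ⧸ Λ) = ((v * 1 : G) : G ⧸ Λ) := h.symm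
        have h3 := QuotientGroup.eq.mp h2
        simpa using h3
      refine ⟨((⟨(u : G)⁻¹ * v, ⟨V.mul_mem (V.inv_mem u.2) v.2, h1⟩⟩ : (V ⊓ Λ : Subgroup G)) :
        (V ⊓ Λ : Subgroup G) ⧸ W.subgroupOf (V ⊓ Λ)), ?_⟩
      change ((u * ⟨(u : G)⁻¹ * v, _⟩ : V) : V ⧸ W.subgroupOf V) = v
      congr 1
      ext
      simp
    · rintro ⟨l, rfl⟩
      induction l using QuotientGroup.induction_on with
      | H l =>
        refine ⟨u * ⟨l, l.2.1⟩, rfl, ?_⟩
        change ((u * l * 1 : G) : G ⧸ Λ) = ((u * 1 : G) : G ⧸ Λ)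
        refine (QuotientGroup.eq.mpr ?_).symm
        simpa using l.2.2
  rw [hr]
  exact Nat.card_congr (Equiv.ofInjective ψ hψ).symm

omit [T2Space G] in
/-- The sizes of the finite subgroups: comparison of two open subgroups at the base point. -/
theorem covol_rel (hν : Inv Λ ν) {V W : Subgroup G}
    (hVc : IsCompact (V : Set G)) (hWo : IsOpen (W : Set G)) (hVo : IsOpen (V : Set G))
    (hWV : W ≤ V) :
    (Nat.card (V ⊓ Λ : Subgroup G) : ℝ≥0∞) * ν (O Λ V ((1 : G) : G ⧸ Λ)) =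
      (W.relIndex V : ℝ≥0∞) * ((Nat.card (W ⊓ Λ : Subgroup G) : ℝ≥0∞) *
        ν (O Λ W ((1 : G) : G ⧸ Λ))) := by
  classical
  have hne := relIndex_ne_zero hVc hWo
  have hfi : (W.subgroupOf V).FiniteIndex := ⟨hne⟩
  have hfin : Finite (V ⧸ W.subgroupOf V) := Subgroup.finite_quotient_of_finiteIndex
  have : Fintype (V ⧸ W.subgroupOf V) := Fintype.ofFinite _
  set x₀ : G ⧸ Λ := ((1 : G) : G ⧸ Λ) with hx₀
  set N := Nat.card ((V ⊓ Λ : Subgroup G) ⧸ W.subgroupOf (V ⊓ Λ)) with hN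
  have hOm : MeasurableSet (O Λ V x₀) := (isOpen_O Λ V hVo _).measurableSet
  have hOWm : MeasurableSet (O Λ W x₀) := (isOpen_O Λ W hWo _).measurableSet
  have hAm : ∀ s, MeasurableSet (A Λ V W s) := by
    intro s
    induction s using QuotientGroup.induction_on with
    | H v =>
      rw [A_eq hWV]
      exact ((isOpen_O Λ W hWo _).preimage (continuous_const_smul _)).measurableSet
  have hA : ∀ s, ν (A Λ V W s) = ν (O Λ W x₀) := by
    intro s
    induction s using QuotientGroup.induction_on with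
    | H v => rw [A_eq hWV, hν _ _ hOWm]
  have hsum : ∀ y, ∑ s : V ⧸ W.subgroupOf V, (A Λ V W s).indicator (1 : G ⧸ Λ → ℝ≥0∞) y =
      (N : ℝ≥0∞) * (O Λ V x₀).indicator (1 : G ⧸ Λ → ℝ≥0∞) y := by
    intro y
    by_cases hy : y ∈ O Λ V x₀
    · obtain ⟨u, hu, rfl⟩ := hy
      have h1 := card_pieces (Λ := Λ) (V := V) (W := W) ⟨u, hu⟩
      rw [Set.indicator_of_mem (show u • x₀ ∈ O Λ V x₀ from ⟨u, hu, rfl⟩), hN, ← h1]
      simp only [Set.indicator_apply, Pi.one_apply, mul_one, Finset.sum_boole]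
      rw [Nat.card_eq_fintype_card, Fintype.card_subtype]
      rfl
    · rw [Set.indicator_of_notMem hy, mul_zero]
      refine Finset.sum_eq_zero fun s _ => Set.indicator_of_notMem ?_ _
      rintro ⟨v, _, h⟩
      exact hy ⟨v, v.2, h⟩
  have hint : (W.relIndex V : ℝ≥0∞) * ν (O Λ W x₀) = N * ν (O Λ V x₀) := by
    have h2 : ∫⁻ y, ∑ s : V ⧸ W.subgroupOf V, (A Λ V W s).indicator (1 : G ⧸ Λ → ℝ≥0∞) y ∂ν =
        ∫⁻ y, (N : ℝ≥0∞) * (O Λ V x₀).indicator (1 : G ⧸ Λ → ℝ≥0∞) y ∂ν := by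
      simp only [hsum]
    rw [lintegral_finsetSum _ (fun s _ => measurable_one.indicator (hAm s)),
      lintegral_const_mul _ (measurable_one.indicator hOm)] at h2
    simp only [lintegral_indicator_one (hAm _), lintegral_indicator_one hOm, hA, Finset.sum_const,
      Finset.card_univ, nsmul_eq_mul] at h2
    rw [← h2, Subgroup.relIndex, Subgroup.index, Nat.card_eq_fintype_card]
  have hcard : Nat.card (V ⊓ Λ : Subgroup G) = N * Nat.card (W ⊓ Λ : Subgroup G) := by
    rw [Subgroup.card_eq_card_quotient_mul_card_subgroup (W.subgroupOf (V ⊓ Λ)), ← hN]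
    congr 1
    have h3 : (W.subgroupOf (V ⊓ Λ)).map (V ⊓ Λ).subtype = W ⊓ Λ := by
      rw [Subgroup.subgroupOf_map_subtype]
      ext x
      simp only [Subgroup.mem_inf]
      constructor
      · rintro ⟨h1, h2, h3⟩
        exact ⟨h1, h3⟩
      · rintro ⟨h1, h3⟩
        exact ⟨h1, hWV h1, h3⟩
    rw [← h3]
    exact (Nat.card_congr ((W.subgroupOf (V ⊓ Λ)).equivMapOfInjective _
      (Subgroup.subtype_injective _)).toEquiv)
  rw [hcard, Nat.cast_mul]
  calc (N : ℝ≥0∞) * (Nat.card (W ⊓ Λ : Subgroup G) : ℝ≥0∞) * ν (O Λ V x₀)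
      = (Nat.card (W ⊓ Λ : Subgroup G) : ℝ≥0∞) * (N * ν (O Λ V x₀)) := by ring
    _ = (Nat.card (W ⊓ Λ : Subgroup G) : ℝ≥0∞) * (W.relIndex V * ν (O Λ W x₀)) := by rw [hint]
    _ = _ := by ring

/-- The constant `c(V) = |V ∩ Λ| ν(V x₀)`. -/
noncomputable def c (Λ : Subgroup G) [MeasurableSpace (G ⧸ Λ)] (ν : Measure (G ⧸ Λ))
    (V : Subgroup G) : ℝ≥0∞ :=
  (Nat.card (V ⊓ Λ : Subgroup G) : ℝ≥0∞) * ν (O Λ V ((1 : G) : G ⧸ Λ))

theorem c_ne_zero [IsProbabilityMeasure ν] [ν.Regular] (hν : Inv Λ ν) (hΛ : DiscreteTopology Λ)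
    {V : Subgroup G} (hVc : IsCompact (V : Set G)) (hVo : IsOpen (V : Set G)) : c Λ ν V ≠ 0 := by
  have := finite_inf Λ V hΛ hVc
  refine mul_ne_zero ?_ (measure_O_ne_zero hν hVo _)
  exact_mod_cast Nat.card_pos.ne'

omit [BorelSpace (G ⧸ Λ)] in
theorem c_le [IsProbabilityMeasure ν] {q : ℕ} (hq : 0 < q)
    (hfin : ∀ Φ : Subgroup G, Φ ≤ Λ → Finite Φ → Nat.card Φ ∣ q)
    (hΛ : DiscreteTopology Λ) {V : Subgroup G} (hVc : IsCompact (V : Set G)) :
    c Λ ν V ≤ q := by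
  have := finite_inf Λ V hΛ hVc
  have h1 : Nat.card (V ⊓ Λ : Subgroup G) ≤ q := Nat.le_of_dvd hq (hfin _ inf_le_right this)
  calc c Λ ν V ≤ (q : ℝ≥0∞) * 1 := by
        unfold c
        gcongr
        exact prob_le_one
    _ = q := mul_one _

omit [T2Space G] in
theorem c_rel (hν : Inv Λ ν) {V W : Subgroup G}
    (hVc : IsCompact (V : Set G)) (hWo : IsOpen (W : Set G)) (hVo : IsOpen (V : Set G))
    (hWV : W ≤ V) : c Λ ν V = (W.relIndex V : ℝ≥0∞) * c Λ ν W :=
  covol_rel hν hVc hWo hVo hWV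

/-- Unimodularity. -/
theorem c_cj [IsProbabilityMeasure ν] [ν.Regular] (hν : Inv Λ ν) (hΛ : DiscreteTopology Λ) {q : ℕ}
    (hq : 0 < q) (hfin : ∀ Φ : Subgroup G, Φ ≤ Λ → Finite Φ → Nat.card Φ ∣ q)
    {V : Subgroup G} (hVc : IsCompact (V : Set G)) (hVo : IsOpen (V : Set G)) (g : G) :
    c Λ ν (cj g V) = c Λ ν V := by
  set W := V ⊓ cj g V with hW
  have hWo : IsOpen (W : Set G) := hVo.inter (isOpen_cj g hVo)
  set a := W.relIndex V with ha
  set b := W.relIndex (cj g V) with hb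
  have h1 : ∀ h : G, c Λ ν (cj h V) = a * c Λ ν (cj h W) := by
    intro h
    rw [c_rel hν (isCompact_cj h hVc) (isOpen_cj h hWo) (isOpen_cj h hVo)
      (cj_mono h inf_le_left), relIndex_cj]
  have h2 : ∀ h : G, c Λ ν (cj (g * h) V) = b * c Λ ν (cj h W) := by
    intro h
    rw [cj_mul, c_rel hν (isCompact_cj h (isCompact_cj g hVc)) (isOpen_cj h hWo)
      (isOpen_cj h (isOpen_cj g hVo)) (cj_mono h inf_le_right), relIndex_cj]
  have h3 : ∀ h : G, (a : ℝ≥0∞) * c Λ ν (cj (g * h) V) = b * c Λ ν (cj h V) := by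
    intro h
    rw [h2, h1 h]
    ring
  set M : ℝ≥0∞ := ⨆ h : G, c Λ ν (cj h V) with hM
  have hM0 : M ≠ 0 := by
    intro h0
    rw [hM, ENNReal.iSup_eq_zero] at h0
    exact c_ne_zero hν hΛ (isCompact_cj 1 hVc) (isOpen_cj 1 hVo) (h0 1)
  have hMt : M ≠ ⊤ := by
    refine ne_top_of_le_ne_top (ENNReal.natCast_ne_top q) ?_
    exact iSup_le fun h => c_le hq hfin hΛ (isCompact_cj h hVc)
  have hM' : (⨆ h : G, c Λ ν (cj (g * h) V)) = M :=
    (Equiv.mulLeft g).iSup_comp (g := fun h => c Λ ν (cj h V))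
  have h4 : (a : ℝ≥0∞) * M = b * M := by
    calc (a : ℝ≥0∞) * M = a * ⨆ h : G, c Λ ν (cj (g * h) V) := by rw [hM']
      _ = ⨆ h : G, a * c Λ ν (cj (g * h) V) := ENNReal.mul_iSup _ _
      _ = ⨆ h : G, b * c Λ ν (cj h V) := iSup_congr h3
      _ = b * M := (ENNReal.mul_iSup _ _).symm
  have h5 : (a : ℝ≥0∞) = b := (ENNReal.mul_left_inj hM0 hMt).mp h4
  have h6 := h3 1
  rw [mul_one, cj_one, ← h5] at h6
  have ha0 : (a : ℝ≥0∞) ≠ 0 := by exact_mod_cast relIndex_ne_zero hVc hWo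
  exact (ENNReal.mul_right_inj ha0 (ENNReal.natCast_ne_top a)).mp h6

/-- `q / c(V)` is a natural number. -/
theorem exists_nat [IsProbabilityMeasure ν] [ν.Regular] (hν : Inv Λ ν) (hΛ : DiscreteTopology Λ)
    {q : ℕ} (hq : 0 < q) (hfin : ∀ Φ : Subgroup G, Φ ≤ Λ → Finite Φ → Nat.card Φ ∣ q)
    {V : Subgroup G} (hVc : IsCompact (V : Set G)) (hVo : IsOpen (V : Set G)) :
    ∃ n : ℕ, (n : ℝ≥0∞) * c Λ ν V = q := by
  classical
  have hc0 := c_ne_zero hν hΛ hVc hVo
  have hct : c Λ ν V ≠ ⊤ := ne_top_of_le_ne_top (ENNReal.natCast_ne_top q) (c_le hq hfin hΛ hVc)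
  -- the measure of an orbit
  have horb : ∀ x : G ⧸ Λ, ∃ m : ℕ, 0 < m ∧ m ∣ q ∧ (m : ℝ≥0∞) * ν (O Λ V x) = c Λ ν V := by
    intro x
    obtain ⟨g, rfl⟩ := QuotientGroup.mk_surjective x
    have hf := finite_inf Λ (cj g V) hΛ (isCompact_cj g hVc)
    refine ⟨Nat.card (cj g V ⊓ Λ : Subgroup G), Nat.card_pos, hfin _ inf_le_right hf, ?_⟩
    rw [← c_cj hν hΛ hq hfin hVc hVo g, c, ← measure_O_smul hν hVo]
    congr 3
    change (g : G ⧸ Λ) = ((g * 1 : G) : G ⧸ Λ)
    rw [mul_one]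
  let S : Setoid (G ⧸ Λ) := MulAction.orbitRel V (G ⧸ Λ)
  let As : Quotient S → Set (G ⧸ Λ) := fun o => {y | Quotient.mk S y = o}
  have hAs : ∀ x : G ⧸ Λ, As (Quotient.mk S x) = O Λ V x := by
    intro x
    ext y
    change Quotient.mk S y = Quotient.mk S x ↔ _
    rw [Quotient.eq]
    change y ∈ MulAction.orbit V x ↔ _
    constructor
    · rintro ⟨v, hv⟩
      exact ⟨v, v.2, hv⟩
    · rintro ⟨v, hv, h⟩
      exact ⟨⟨v, hv⟩, h⟩
  have hAm : ∀ o, MeasurableSet (As o) := by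
    intro o
    induction o using Quotient.inductionOn with
    | h x =>
      rw [hAs]
      exact (isOpen_O Λ V hVo x).measurableSet
  have hdisj : Pairwise (Function.onFun Disjoint As) := by
    intro o o' hne
    refine Set.disjoint_left.mpr fun y hy hy' => hne ?_
    exact hy.symm.trans hy'
  have hun : (⋃ o, As o) = Set.univ := by
    refine Set.eq_univ_of_forall fun y => Set.mem_iUnion.mpr ⟨Quotient.mk S y, rfl⟩
  have hlow : ∀ o, c Λ ν V / q ≤ ν (As o) := by
    intro o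
    induction o using Quotient.inductionOn with
    | h x =>
      rw [hAs]
      obtain ⟨m, hm, hmq, h⟩ := horb x
      refine ENNReal.div_le_of_le_mul ?_
      rw [← h, mul_comm]
      gcongr
      exact_mod_cast Nat.le_of_dvd hq hmq
  have hfinι : Finite (Quotient S) := by
    have h1 := Measure.finite_const_le_meas_of_disjoint_iUnion ν (ε := c Λ ν V / q)
      (ENNReal.div_pos hc0 (ENNReal.natCast_ne_top q)) hAm hdisj
      (by rw [hun]; simp)
    have h2 : {o | c Λ ν V / q ≤ ν (As o)} = Set.univ := Set.eq_univ_of_forall hlow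
    rw [h2] at h1
    exact Set.finite_univ_iff.mp h1
  have : Fintype (Quotient S) := Fintype.ofFinite _
  have hn : ∀ o, ∃ n : ℕ, (n : ℝ≥0∞) * c Λ ν V = q * ν (As o) := by
    intro o
    induction o using Quotient.inductionOn with
    | h x =>
      rw [hAs]
      obtain ⟨m, hm, ⟨n, rfl⟩, h⟩ := horb x
      refine ⟨n, ?_⟩
      rw [← h]
      push_cast
      ring
  choose n hn using hn
  refine ⟨∑ o, n o, ?_⟩
  rw [Nat.cast_sum, Finset.sum_mul, Finset.sum_congr rfl (fun o _ => hn o), ← Finset.mul_sum]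
  have h3 : ∑ o, ν (As o) = 1 := by
    rw [← measure_univ (μ := ν), ← hun, measure_iUnion hdisj hAm, tsum_fintype]
  rw [h3, mul_one]

end Meas

end Top

end Covol

open Covol

variable {G : Type u} [Group G] [TopologicalSpace G] [IsTopologicalGroup G] [T2Space G]

/-- An open subgroup containing a lattice has finite index. -/
theorem finiteIndex_of_lattice (Λ : Subgroup G) (hΛ : IsLattice Λ) (U : Subgroup G)
    (hU : IsOpen (U : Set G)) (h : Λ ≤ U) : U.FiniteIndex := by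
  classical
  obtain ⟨hd, hν⟩ := hΛ
  let _ : MeasurableSpace (G ⧸ Λ) := borel (G ⧸ Λ)
  have _ : BorelSpace (G ⧸ Λ) := ⟨rfl⟩
  obtain ⟨ν, hp, hreg, hinv⟩ := hν
  have hν : Inv Λ ν := hinv
  let p : G ⧸ Λ → G ⧸ U := Subgroup.quotientMapOfLE h
  have hpg : ∀ (g : G) (x : G ⧸ Λ), p (g • x) = g • p x := by
    intro g x
    induction x using QuotientGroup.induction_on with
    | H x => rfl
  have hp1 : p ⁻¹' {((1 : G) : G ⧸ U)} = O Λ U ((1 : G) : G ⧸ Λ) := by
    ext y
    induction y using QuotientGroup.induction_on with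
    | H y =>
      simp only [Set.mem_preimage, Set.mem_singleton_iff]
      constructor
      · intro hy
        have h1 : ((y : G) : G ⧸ U) = ((1 : G) : G ⧸ U) := hy
        have h2 := QuotientGroup.eq.mp h1.symm
        refine ⟨y, by simpa using h2, ?_⟩
        change ((y * 1 : G) : G ⧸ Λ) = y
        rw [mul_one]
      · rintro ⟨u, hu, hy⟩
        rw [← hy, hpg]
        change ((u * 1 : G) : G ⧸ U) = ((1 : G) : G ⧸ U)
        refine (QuotientGroup.eq.mpr ?_).symm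
        simpa using hu
  have hpo : IsOpen (p ⁻¹' {((1 : G) : G ⧸ U)}) := by
    rw [hp1]
    exact isOpen_O Λ U hU _
  have hps : ∀ s : G ⧸ U, MeasurableSet (p ⁻¹' {s}) ∧
      ν (p ⁻¹' {s}) = ν (O Λ U ((1 : G) : G ⧸ Λ)) := by
    intro s
    induction s using QuotientGroup.induction_on with
    | H g =>
      have h1 : p ⁻¹' {(g : G ⧸ U)} =
          (fun y : G ⧸ Λ => g⁻¹ • y) ⁻¹' (p ⁻¹' {((1 : G) : G ⧸ U)}) := by
        ext y
        simp only [Set.mem_preimage, Set.mem_singleton_iff, hpg]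
        rw [inv_smul_eq_iff]
        change _ ↔ _ = ((g * 1 : G) : G ⧸ U)
        rw [mul_one]
      rw [h1]
      exact ⟨(hpo.preimage (continuous_const_smul _)).measurableSet, by
        rw [hν _ _ hpo.measurableSet, hp1]⟩
  have hfin := Measure.finite_const_le_meas_of_disjoint_iUnion ν
    (ε := ν (O Λ U ((1 : G) : G ⧸ Λ))) (pos_iff_ne_zero.mpr (measure_O_ne_zero hν hU _))
    (As := fun s : G ⧸ U => p ⁻¹' {s}) (fun s => (hps s).1)
    (fun s t hst => Set.disjoint_left.mpr fun y hy hy' => hst (hy.symm.trans hy'))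
    (measure_ne_top _ _)
  have h2 : {s : G ⧸ U | ν (O Λ U ((1 : G) : G ⧸ Λ)) ≤ ν (p ⁻¹' {s})} = Set.univ :=
    Set.eq_univ_of_forall fun s => (hps s).2.ge
  rw [h2] at hfin
  have : Finite (G ⧸ U) := Set.finite_univ_iff.mp hfin
  exact Subgroup.finiteIndex_of_finite_quotient

theorem exists_covol (Λ : Subgroup G) (hΛ : IsLattice Λ) (q : ℕ) (hq : 0 < q)
    (hfin : ∀ Φ : Subgroup G, Φ ≤ Λ → Finite Φ → Nat.card Φ ∣ q) :
    ∃ r : Subgroup G → ℕ, (∀ V : Subgroup G, IsCompact (V : Set G) → IsOpen (V : Set G) → 0 < r V) ∧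
      (∀ V W : Subgroup G, IsCompact (V : Set G) → IsOpen (V : Set G) →
        IsCompact (W : Set G) → IsOpen (W : Set G) → W ≤ V → r W = W.relIndex V * r V) := by
  classical
  obtain ⟨hd, hν⟩ := hΛ
  let _ : MeasurableSpace (G ⧸ Λ) := borel (G ⧸ Λ)
  have _ : BorelSpace (G ⧸ Λ) := ⟨rfl⟩
  obtain ⟨ν, hp, hreg, hinv⟩ := hν
  have hν : Inv Λ ν := hinv
  have key : ∀ V : Subgroup G, ∃ n : ℕ, IsCompact (V : Set G) → IsOpen (V : Set G) →
      (n : ℝ≥0∞) * c Λ ν V = q := by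
    intro V
    by_cases hV : IsCompact (V : Set G) ∧ IsOpen (V : Set G)
    · obtain ⟨n, hn⟩ := exists_nat hν hd hq hfin hV.1 hV.2
      exact ⟨n, fun _ _ => hn⟩
    · exact ⟨0, fun h1 h2 => absurd ⟨h1, h2⟩ hV⟩
  choose r hr using key
  refine ⟨r, ?_, ?_⟩
  · intro V hVc hVo
    rcases Nat.eq_zero_or_pos (r V) with h0 | h0
    · have := hr V hVc hVo
      rw [h0, Nat.cast_zero, zero_mul] at this
      exact absurd (by exact_mod_cast this.symm) hq.ne'
    · exact h0
  · intro V W hVc hVo hWc hWo hWV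
    have h1 := hr V hVc hVo
    have h2 := hr W hWc hWo
    rw [c_rel hν hVc hWo hVo hWV, ← h2, ← mul_assoc] at h1
    have hct : c Λ ν W ≠ ⊤ := ne_top_of_le_ne_top (ENNReal.natCast_ne_top q) (c_le hq hfin hd hWc)
    have h3 := (ENNReal.mul_left_inj (c_ne_zero hν hd hWc hWo) hct).mp h1
    have h4 : r V * W.relIndex V = r W := by exact_mod_cast h3
    rw [← h4, mul_comm]

end MP6c9f91
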