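import Pool.Agent.MP6c9f91.Defs
import Pool.Agent.MP6c9f91.VI
import Pool.Agent.MP6c9f91.Covol

/-!
# MP_6c9f91, package P5: torsion and compact open subgroups (helper93)

If `G` has a compact open subgroup `K` and a finitely generated lattice whose finite subgroups have
order dividing `q`, then for all large primes `p` all elements of order `p` of `G` are in `K`.
-/

set_option autoImplicit false

open MeasureTheory Monoid
open scoped Pointwise

namespace MP6c9f91

universe u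

section Algebra

variable {G : Type u} [Group G]

/-- `g K g⁻¹` -/
def cj (g : G) (K : Subgroup G) : Subgroup G := MulAut.conj g • K

theorem mem_cj {g x : G} {K : Subgroup G} : x ∈ cj g K ↔ g⁻¹ * x * g ∈ K := by
  unfold cj
  rw [Subgroup.mem_pointwise_smul_iff_inv_smul_mem, MulAut.smul_def, MulAut.conj_inv_apply]

theorem cj_mul (g h : G) (K : Subgroup G) : cj (g * h) K = cj g (cj h K) := by
  ext x
  simp only [mem_cj, mul_inv_rev, mul_assoc]

theorem cj_one (K : Subgroup G) : cj 1 K = K := by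
  ext x
  simp [mem_cj]

theorem cj_of_mem {g : G} {K : Subgroup G} (hg : g ∈ K) : cj g K = K := by
  ext x
  rw [mem_cj]
  constructor
  · intro h
    have := K.mul_mem (K.mul_mem hg h) (K.inv_mem hg)
    simpa [mul_assoc] using this
  · intro h
    exact K.mul_mem (K.mul_mem (K.inv_mem hg) h) hg

theorem relIndex_cj (g : G) (J K : Subgroup G) : (cj g J).relIndex (cj g K) = J.relIndex K :=
  Subgroup.relIndex_pointwise_smul _ _ _

end Algebra

section Topology

variable {G : Type u} [Group G] [TopologicalSpace G] [IsTopologicalGroup G]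

theorem isOpen_cj (g : G) {K : Subgroup G} (hK : IsOpen (K : Set G)) :
    IsOpen (cj g K : Set G) := by
  have h : (cj g K : Set G) = (fun x : G => g⁻¹ * x * g) ⁻¹' (K : Set G) := by
    ext x
    exact mem_cj
  rw [h]
  exact hK.preimage (by fun_prop)

theorem relIndex_ne_zero_of_isOpen (V W : Subgroup G) (hV : IsCompact (V : Set G))
    (hW : IsOpen (W : Set G)) : W.relIndex V ≠ 0 := by
  have : CompactSpace V := isCompact_iff_compactSpace.1 hV
  have hopen : IsOpen ((W.subgroupOf V : Subgroup V) : Set V) :=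
    hW.preimage continuous_subtype_val
  have := Subgroup.quotient_finite_of_isOpen (W.subgroupOf V) hopen
  exact Subgroup.index_ne_zero_of_finite

/-- open subgroups `V ≤ K` whose index in `K` has no prime factor `> d` -/
def Sm (K : Subgroup G) (d : ℕ) (V : Subgroup G) : Prop :=
  V ≤ K ∧ IsOpen (V : Set G) ∧ ∀ p : ℕ, p.Prime → d < p → ¬ p ∣ V.relIndex K

omit [IsTopologicalGroup G] in
theorem Sm.step {K : Subgroup G} {d : ℕ} {V V' : Subgroup G} (h : Sm K d V) (hle : V' ≤ V)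
    (ho : IsOpen (V' : Set G)) (hd : V'.relIndex V ≤ d) (h0 : V'.relIndex V ≠ 0) :
    Sm K d V' := by
  refine ⟨hle.trans h.1, ho, fun p hp hdp hdvd => ?_⟩
  rw [← Subgroup.relIndex_mul_relIndex V' V K hle h.1] at hdvd
  rcases (hp.dvd_mul).1 hdvd with h1 | h1
  · have := Nat.le_of_dvd (Nat.pos_of_ne_zero h0) h1
    omega
  · exact h.2.2 p hp hdp h1

theorem small_step {K : Subgroup G} (hKc : IsCompact (K : Set G)) (hKo : IsOpen (K : Set G))
    {d : ℕ} {x y : G} (hy : (cj y K).relIndex K ≤ d)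
    (ih : ∀ V, Sm K d V → ∃ V', Sm K d V' ∧ V' ≤ V ∧ V' ≤ cj x K) :
    ∀ V, Sm K d V → ∃ V', Sm K d V' ∧ V' ≤ V ∧ V' ≤ cj (x * y) K := by
  intro V hV
  obtain ⟨V₁, hV₁, hV₁V, hV₁x⟩ := ih V hV
  have hne : (cj (x * y) K).relIndex (cj x K) ≠ 0 := by
    rw [cj_mul, relIndex_cj]
    exact relIndex_ne_zero_of_isOpen K (cj y K) hKc (isOpen_cj y hKo)
  have hle : (cj (x * y) K).relIndex V₁ ≤ d := by
    refine (Subgroup.relIndex_le_of_le_right hV₁x hne).trans ?_
    rw [cj_mul, relIndex_cj]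
    exact hy
  have hne1 : (cj (x * y) K).relIndex V₁ ≠ 0 :=
    fun h => hne (Subgroup.relIndex_eq_zero_of_le_right hV₁x h)
  refine ⟨V₁ ⊓ cj (x * y) K, hV₁.step inf_le_left ?_ ?_ ?_, inf_le_left.trans hV₁V, inf_le_right⟩
  · rw [Subgroup.coe_inf]
    exact hV₁.2.1.inter (isOpen_cj _ hKo)
  · rwa [Subgroup.inf_relIndex_left]
  · rwa [Subgroup.inf_relIndex_left]

theorem exists_small {K : Subgroup G} (hKc : IsCompact (K : Set G)) (hKo : IsOpen (K : Set G))
    (T : Set G) (d : ℕ)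
    (hd : ∀ t ∈ T, (cj t K).relIndex K ≤ d ∧ (cj t⁻¹ K).relIndex K ≤ d) {g : G}
    (hg : g ∈ Subgroup.closure ((K : Set G) ∪ T)) :
    ∀ V, Sm K d V → ∃ V', Sm K d V' ∧ V' ≤ V ∧ V' ≤ cj g K := by
  induction hg using Subgroup.closure_induction_right with
  | one =>
    intro V hV
    exact ⟨V, hV, le_rfl, by rw [cj_one]; exact hV.1⟩
  | mul_right x hx y hy ih =>
    rcases hy with hy | hy
    · rw [cj_mul, cj_of_mem hy]
      exact ih
    · exact small_step hKc hKo (hd y hy).1 ih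
  | mul_inv_cancel x hx y hy ih =>
    rcases hy with hy | hy
    · rw [cj_mul, cj_of_mem (K.inv_mem hy)]
      exact ih
    · exact small_step hKc hKo (hd y hy).2 ih

end Topology

section Main

variable {G : Type u} [Group G] [TopologicalSpace G] [IsTopologicalGroup G] [T2Space G]

/-- For all large primes `p`, all elements of order `p` are in `K`. -/
theorem compactOpen_torsion (K : Subgroup G) (hKc : IsCompact (K : Set G))
    (hKo : IsOpen (K : Set G)) (Λ : Subgroup G) (hΛ : IsLattice Λ) (hfg : Λ.FG) (q : ℕ)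
    (hq : 0 < q) (hfin : ∀ Φ : Subgroup G, Φ ≤ Λ → Finite Φ → Nat.card Φ ∣ q) :
    ∃ n₀ : ℕ, ∀ p > n₀, p.Prime → ∀ g : G, orderOf g = p → g ∈ K := by
  classical
  obtain ⟨r, hrpos, hr⟩ := exists_covol Λ hΛ q hq hfin
  obtain ⟨T, hT⟩ := hfg
  -- the open subgroup generated by `K` and `T`
  set G₁ : Subgroup G := Subgroup.closure ((K : Set G) ∪ (T : Set G)) with hG₁
  have hKG₁ : K ≤ G₁ := fun x hx => Subgroup.subset_closure (Or.inl hx)
  have hΛG₁ : Λ ≤ G₁ := by
    rw [← hT]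
    exact Subgroup.closure_mono Set.subset_union_right
  have hG₁o : IsOpen (G₁ : Set G) := Subgroup.isOpen_mono hKG₁ hKo
  have hG₁fi : G₁.FiniteIndex := finiteIndex_of_lattice Λ hΛ G₁ hG₁o hΛG₁
  -- the constant `d`
  obtain ⟨d, hd⟩ : ∃ d : ℕ, ∀ t ∈ (T : Set G),
      (cj t K).relIndex K ≤ d ∧ (cj t⁻¹ K).relIndex K ≤ d := by
    refine ⟨∑ t ∈ T, ((cj t K).relIndex K + (cj t⁻¹ K).relIndex K), fun t ht => ?_⟩
    have h := Finset.single_le_sum (f := fun t => (cj t K).relIndex K + (cj t⁻¹ K).relIndex K)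
      (fun i _ => Nat.zero_le _) (Finset.mem_coe.1 ht)
    omega
  refine ⟨max d (max G₁.index (r K)), fun p hp hprime g hg => ?_⟩
  have hpd : d < p := lt_of_le_of_lt (le_max_left _ _) hp
  have hpi : G₁.index < p :=
    lt_of_le_of_lt ((le_max_left _ _).trans (le_max_right _ _)) hp
  have hpr : r K < p :=
    lt_of_le_of_lt ((le_max_right _ _).trans (le_max_right _ _)) hp
  have hgG₁ : g ∈ G₁ := mem_of_orderOf_prime G₁ hG₁fi.index_ne_zero hprime hpi hg
  -- iterate over the powers of `g`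
  have key : ∀ m : ℕ, ∃ V, Sm K d V ∧ ∀ i < m, V ≤ cj (g ^ i) K := by
    intro m
    induction m with
    | zero =>
      refine ⟨K, ⟨le_rfl, hKo, fun p hp _ h => ?_⟩, fun i hi => absurd hi (Nat.not_lt_zero _)⟩
      rw [Subgroup.relIndex_self] at h
      exact hp.one_lt.ne' (Nat.dvd_one.1 h)
    | succ m ih =>
      obtain ⟨V, hV, hVi⟩ := ih
      obtain ⟨V', hV', hV'V, hV'm⟩ := exists_small hKc hKo (T : Set G) d hd
        (G₁.pow_mem hgG₁ m) V hV
      refine ⟨V', hV', fun i hi => ?_⟩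
      rcases Nat.lt_succ_iff_lt_or_eq.1 hi with h | h
      · exact hV'V.trans (hVi i h)
      · rw [h]; exact hV'm
  obtain ⟨V, hV, hVi⟩ := key p
  -- the intersection of the conjugates of `K` under powers of `g`
  set K₀ : Subgroup G := ⨅ i : Fin p, cj (g ^ (i : ℕ)) K with hK₀
  have hpos : 0 < p := hprime.pos
  have hgp : g ^ p = 1 := by rw [← hg]; exact pow_orderOf_eq_one g
  have hVK₀ : V ≤ K₀ := le_iInf fun i => hVi i i.2
  have hK₀K : K₀ ≤ K := by
    refine (iInf_le _ (⟨0, hpos⟩ : Fin p)).trans ?_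
    simp [cj_one]
  have hK₀o : IsOpen (K₀ : Set G) := Subgroup.isOpen_mono hVK₀ hV.2.1
  have hK₀c : IsCompact (K₀ : Set G) :=
    hKc.of_isClosed_subset (Subgroup.isClosed_of_isOpen K₀ hK₀o) hK₀K
  have hmemK₀ : ∀ x : G, x ∈ K₀ ↔ ∀ i : ℕ, (g ^ i)⁻¹ * x * g ^ i ∈ K := by
    intro x
    rw [hK₀, Subgroup.mem_iInf]
    simp only [mem_cj]
    constructor
    · intro h i
      have h1 := h ⟨i % p, Nat.mod_lt _ hpos⟩
      have h2 : g ^ (i % p) = g ^ i := by
        rw [← hg]; exact pow_mod_orderOf g i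
      simpa only [h2] using h1
    · intro h i
      exact h i
  have hnorm : ∀ x : G, x ∈ K₀ ↔ g * x * g⁻¹ ∈ K₀ := by
    intro x
    rw [hmemK₀, hmemK₀]
    constructor
    · intro h i
      have h1 := h (i + (p - 1))
      have h2 : g ^ (i + (p - 1)) = g⁻¹ * g ^ i := by
        have h3 : g ^ (p - 1) = g⁻¹ := by
          rw [eq_inv_iff_mul_eq_one, ← pow_succ, Nat.sub_add_cancel hpos, hgp]
        rw [add_comm, pow_add, h3]
      rw [h2] at h1
      have h4 : (g⁻¹ * g ^ i)⁻¹ * x * (g⁻¹ * g ^ i) = (g ^ i)⁻¹ * (g * x * g⁻¹) * g ^ i := by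
        group
      rwa [h4] at h1
    · intro h i
      have h1 := h (i + 1)
      have h4 : (g ^ (i + 1))⁻¹ * (g * x * g⁻¹) * g ^ (i + 1) = (g ^ i)⁻¹ * x * g ^ i := by
        rw [pow_succ']
        group
      rwa [h4] at h1
  have hgnorm : Subgroup.zpowers g ≤ Subgroup.normalizer (K₀ : Set G) := by
    rw [Subgroup.zpowers_le]
    exact Subgroup.mem_normalizer_iff.2 hnorm
  by_contra hgK
  have hgK₀ : g ∉ K₀ := fun h => hgK (hK₀K h)
  -- the compact open subgroup `⟨g⟩ K₀`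
  set V' : Subgroup G := Subgroup.zpowers g ⊔ K₀ with hV'
  have hK₀V' : K₀ ≤ V' := le_sup_right
  have hV'o : IsOpen (V' : Set G) := Subgroup.isOpen_mono hK₀V' hK₀o
  have hcard : Nat.card (Subgroup.zpowers g) = p := by
    rw [Nat.card_zpowers, hg]
  have hfinz : Finite (Subgroup.zpowers g) := Nat.finite_of_card_ne_zero (by rw [hcard]; omega)
  have hV'c : IsCompact (V' : Set G) := by
    rw [hV', Subgroup.coe_mul_of_left_le_normalizer_right _ _ hgnorm]
    exact (Set.toFinite (Subgroup.zpowers g : Set G)).isCompact.mul hK₀c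
  have hrel : K₀.relIndex V' = p := by
    have h1 : K₀.relIndex V' = K₀.relIndex (Subgroup.zpowers g) := by
      have i1 := Subgroup.normal_subgroupOf_of_le_normalizer hgnorm
      have i2 := Subgroup.normal_subgroupOf_sup_of_le_normalizer hgnorm
      have e := QuotientGroup.quotientInfEquivProdNormalizerQuotient (Subgroup.zpowers g) K₀ hgnorm
      exact (Nat.card_congr e.toEquiv).symm
    have h2 : K₀.relIndex (Subgroup.zpowers g) ∣ p := by
      have := Subgroup.card_mul_index (K₀.subgroupOf (Subgroup.zpowers g))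
      rw [hcard] at this
      exact ⟨_, by rw [mul_comm]; exact this.symm⟩
    have h3 : K₀.relIndex (Subgroup.zpowers g) ≠ 1 := by
      intro h
      rw [Subgroup.relIndex_eq_one] at h
      exact hgK₀ (h (Subgroup.mem_zpowers g))
    rw [h1]
    exact ((Nat.dvd_prime hprime).1 h2).resolve_left h3
  have e1 : r K₀ = p * r V' := by
    rw [hr V' K₀ hV'c hV'o hK₀c hK₀o hK₀V', hrel]
  have e2 : r K₀ = K₀.relIndex K * r K := hr K K₀ hKc hKo hK₀c hK₀o hK₀K
  have hnd : ¬ p ∣ K₀.relIndex K := by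
    intro h
    apply hV.2.2 p hprime hpd
    rw [← Subgroup.relIndex_mul_relIndex V K₀ K hVK₀ hK₀K]
    exact Dvd.dvd.mul_left h _
  have hdvd : p ∣ K₀.relIndex K * r K := ⟨r V', by rw [← e2, e1]⟩
  have hdvd' : p ∣ r K := ((hprime.dvd_mul).1 hdvd).resolve_left hnd
  have := Nat.le_of_dvd (hrpos K hKc hKo) hdvd'
  omega

/-- Clause 2 when there is a compact open subgroup. -/
theorem clause2_compactOpen (K : Subgroup G) (hKc : IsCompact (K : Set G))
    (hKo : IsOpen (K : Set G)) (Γ' Λ' : Subgroup G) (hΓ' : DiscreteTopology Γ')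
    (hΛ' : IsLattice Λ') (hΓ : ∀ n : ℕ, ∃ p > n, p.Prime ∧ ∃ g : Γ', orderOf g = p)
    (hΛ : VirtIso F22 Λ') : False := by
  classical
  have hfg : Λ'.FG := (Group.fg_iff_subgroup_fg Λ').1 (F22_virtIso_fg hΛ)
  obtain ⟨q, hq, hfin⟩ := F22_virtIso_finite hΛ
  have hfin' : ∀ Φ : Subgroup G, Φ ≤ Λ' → Finite Φ → Nat.card Φ ∣ q := by
    intro Φ hle hf
    let e : Φ.subgroupOf Λ' ≃* Φ := Subgroup.subgroupOfEquivOfLe hle
    have h1 : Finite (Φ.subgroupOf Λ') := Finite.of_equiv Φ e.symm.toEquiv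
    rw [← Nat.card_congr e.toEquiv]
    exact hfin _ h1
  obtain ⟨n₀, hn₀⟩ := compactOpen_torsion K hKc hKo Λ' hΛ' hfg q hq hfin'
  -- `Γ' ∩ K` is finite
  have hclosed : IsClosed (Γ' : Set G) := Subgroup.isClosed_of_discrete
  have hcomp : IsCompact ((Γ' ⊓ K : Subgroup G) : Set G) := by
    rw [Subgroup.coe_inf]
    exact hKc.inter_left hclosed
  have hdisc : DiscreteTopology ((Γ' ⊓ K : Subgroup G) : Set G) :=
    DiscreteTopology.of_subset (s := (Γ' : Set G)) hΓ' (by
      rw [Subgroup.coe_inf]; exact Set.inter_subset_left)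
  have hfinite : Finite (Γ' ⊓ K : Subgroup G) := hcomp.finite ⟨hdisc⟩
  obtain ⟨p, hp, hprime, g, hg⟩ := hΓ (max n₀ (Nat.card (Γ' ⊓ K : Subgroup G)))
  have hg' : orderOf (g : G) = p := by
    rw [← hg]
    exact orderOf_injective Γ'.subtype Subtype.coe_injective g
  have hgK : (g : G) ∈ K := hn₀ p (lt_of_le_of_lt (le_max_left _ _) hp) hprime g hg'
  have h1 : orderOf (⟨(g : G), g.2, hgK⟩ : (Γ' ⊓ K : Subgroup G)) = p := by
    rw [← hg']
    exact (orderOf_injective (Γ' ⊓ K : Subgroup G).subtype Subtype.coe_injective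
      ⟨(g : G), g.2, hgK⟩).symm
  have h2 : orderOf (⟨(g : G), g.2, hgK⟩ : (Γ' ⊓ K : Subgroup G)) ∣
      Nat.card (Γ' ⊓ K : Subgroup G) := orderOf_dvd_natCard _
  rw [h1] at h2
  have h3 := Nat.le_of_dvd Nat.card_pos h2
  have h4 : Nat.card (Γ' ⊓ K : Subgroup G) < p := lt_of_le_of_lt (le_max_right _ _) hp
  omega

end Main

end MP6c9f91
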