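import Mathlib

/-!
# MP_6c9f91_an : groups measure equivalent to F₂ × F₂ -- definitions and the group `Gam`

All notions of the statement (`MeasureEquiv`, `VirtIso`, `IsLattice`) and the concrete groups

* `DD = ⨁ₙ ℤ/(4n+6)` (written multiplicatively),
* `NN = DD * DD` (free product, index `false` = first factor, `true` = second factor),
* `Gam = NN ⋊[theta] NN`, where the second `NN` acts on the first one through
  `NN → (kill the first factor) DD → (parity) ∏ₙ {±1}`, and `∏ₙ {±1}` acts on `NN` by inverting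
  coordinates of the second factor `DD`.
-/

open MeasureTheory

namespace MP6c9f91

universe u v w

/-! ### Notions used in the statement -/

/-- Measure equivalence of two (countable) groups: there is a nonzero σ-finite measure on a
standard Borel space with commuting, essentially free, measure preserving actions of the two
groups, each of them having a measurable fundamental domain of finite measure (`IsFundamentalDomain`
is Mathlib's a.e. notion). -/
def MeasureEquiv (Γ : Type u) (Λ : Type v) [Group Γ] [Group Λ] : Prop :=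
  ∃ (Ω : Type) (_ : MeasurableSpace Ω) (_ : StandardBorelSpace Ω) (m : Measure Ω)
    (_ : MulAction Γ Ω) (_ : MulAction Λ Ω),
    SigmaFinite m ∧ m ≠ 0 ∧
    (∀ g : Γ, MeasurePreserving (fun x : Ω => g • x) m m) ∧
    (∀ l : Λ, MeasurePreserving (fun x : Ω => l • x) m m) ∧
    (∀ (g : Γ) (l : Λ) (x : Ω), g • l • x = l • g • x) ∧
    (∀ g : Γ, g ≠ 1 → ∀ᵐ x ∂m, g • x ≠ x) ∧
    (∀ l : Λ, l ≠ 1 → ∀ᵐ x ∂m, l • x ≠ x) ∧
    (∃ Y : Set Ω, IsFundamentalDomain Γ Y m ∧ m Y < ⊤) ∧
    (∃ Z : Set Ω, IsFundamentalDomain Λ Z m ∧ m Z < ⊤)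

/-- The group `H` is measure equivalent to a (countable) free group. -/
def IsMEFree (H : Type u) [Group H] : Prop :=
  ∃ α : Type, Countable α ∧ MeasureEquiv H (FreeGroup α)

/-- Virtual isomorphism: isomorphism between finite index subgroups modulo finite normal
subgroups. -/
def VirtIso (Γ : Type u) (Λ : Type v) [Group Γ] [Group Λ] : Prop :=
  ∃ (Γ₀ : Subgroup Γ) (Λ₀ : Subgroup Λ) (N : Subgroup Γ₀) (M : Subgroup Λ₀)
    (_ : N.Normal) (_ : M.Normal),
    Γ₀.FiniteIndex ∧ Λ₀.FiniteIndex ∧ Finite N ∧ Finite M ∧ Nonempty ((Γ₀ ⧸ N) ≃* (Λ₀ ⧸ M))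

/-- A lattice: a discrete subgroup `Λ` such that `G ⧸ Λ` carries a `G`-invariant (regular) Borel
probability measure. (If `G` is second countable, regularity is automatic.) -/
def IsLattice {G : Type u} [Group G] [TopologicalSpace G] (Λ : Subgroup G) : Prop :=
  DiscreteTopology Λ ∧
    letI : MeasurableSpace (G ⧸ Λ) := borel (G ⧸ Λ)
    ∃ ν : Measure (G ⧸ Λ), IsProbabilityMeasure ν ∧ ν.Regular ∧
      ∀ (g : G) (E : Set (G ⧸ Λ)), MeasurableSet E → ν ((fun x => g • x) ⁻¹' E) = ν E

/-- `F₂ × F₂`. -/
abbrev F22 : Type := FreeGroup (Fin 2) × FreeGroup (Fin 2)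

/-! ### The exact (everywhere) form of measure equivalence, for internal use -/

/-- Measure equivalence with everywhere conditions: the fundamental domains are measurable and
every orbit meets them in exactly one point (in particular both actions are free everywhere). -/
def MEExact (Γ : Type u) (Λ : Type v) [Group Γ] [Group Λ] : Prop :=
  ∃ (Ω : Type) (_ : MeasurableSpace Ω) (_ : StandardBorelSpace Ω) (m : Measure Ω)
    (_ : MulAction Γ Ω) (_ : MulAction Λ Ω),
    SigmaFinite m ∧ m ≠ 0 ∧
    (∀ g : Γ, MeasurePreserving (fun x : Ω => g • x) m m) ∧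
    (∀ l : Λ, MeasurePreserving (fun x : Ω => l • x) m m) ∧
    (∀ (g : Γ) (l : Λ) (x : Ω), g • l • x = l • g • x) ∧
    (∃ Y : Set Ω, MeasurableSet Y ∧ m Y < ⊤ ∧ ∀ x : Ω, ∃! g : Γ, g • x ∈ Y) ∧
    (∃ Z : Set Ω, MeasurableSet Z ∧ m Z < ⊤ ∧ ∀ x : Ω, ∃! l : Λ, l • x ∈ Z)

/-- Property used in the Adams lemma: `p` has infinite order and commutes with a pair `x, y` having
a paradoxical decomposition of the whole group. -/
def HasParadox (H : Type u) [Group H] : Prop :=
  ∃ (p x y : H) (W : Set H), orderOf p = 0 ∧ Commute p x ∧ Commute p y ∧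
    (∀ h ∈ W, y * h ∉ W ∧ y * y * h ∉ W) ∧ (∀ h, h ∉ W → x * h ∈ W ∧ x * x * h ∈ W)

/-! ### The group `Gam` -/

/-- The moduli `4n+6 = 2(2n+3)`. -/
abbrev kk (n : ℕ) : ℕ := 4 * n + 6

instance (n : ℕ) : NeZero (kk n) := ⟨by unfold kk; omega⟩

/-- `DD = ⨁ₙ ℤ/(4n+6)`, written multiplicatively. -/
abbrev DD : Type := Multiplicative (Π₀ n : ℕ, ZMod (kk n))

/-- The free product `DD * DD`. -/
abbrev NN : Type := Monoid.CoprodI (fun _ : Bool => DD)

/-- The embedding of the factor `b`. -/
abbrev inc (b : Bool) : DD →* NN := Monoid.CoprodI.of (M := fun _ : Bool => DD) (i := b)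

/-- The group of sign sequences `∏ₙ {±1}`. -/
abbrev Sgn : Type := ℕ → ℤˣ

/-- The parity of an element of `ℤ/(4n+6)` as a sign. -/
def parity (n : ℕ) : ZMod (kk n) →+ Additive ℤˣ :=
  ZMod.lift (kk n) ⟨zmultiplesHom (Additive ℤˣ) (Additive.ofMul (-1 : ℤˣ)), by
    have h : ((kk n : ℕ) : ℤ) = 2 * (2 * n + 3) := by simp [kk]; ring
    rw [h, zmultiplesHom_apply, ← ofMul_zpow, zpow_mul]
    simp⟩

/-- The parity of a sequence, `∏ₙ ℤ/(4n+6) → ∏ₙ {±1}`. -/
def paritySeq (x : ∀ n : ℕ, ZMod (kk n)) : Sgn := fun n => (parity n (x n)).toMul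

/-- The parity homomorphism on `DD`. -/
def parityD : DD →* Sgn where
  toFun d := paritySeq (fun n => (Multiplicative.toAdd d) n)
  map_one' := by
    funext n; simp [paritySeq]
  map_mul' a b := by
    funext n; simp [paritySeq]

/-- A sign sequence acts on `DD` by inverting the coordinates where the sign is `-1`. -/
def flipD (κ : Sgn) : DD →* DD :=
  AddMonoidHom.toMultiplicative
    (DFinsupp.mapRange.addMonoidHom (fun n => DistribSMul.toAddMonoidHom (ZMod (kk n)) (κ n)))

theorem flipD_apply (κ : Sgn) (d : DD) (n : ℕ) :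
    (Multiplicative.toAdd (flipD κ d)) n = (κ n : ℤ) • (Multiplicative.toAdd d) n := by
  rfl

theorem DD.ext {d e : DD} (h : ∀ n, (Multiplicative.toAdd d) n = (Multiplicative.toAdd e) n) :
    d = e :=
  Multiplicative.toAdd.injective (DFinsupp.ext h)

theorem flipD_one : flipD 1 = MonoidHom.id DD := by
  refine MonoidHom.ext fun d => DD.ext fun n => ?_
  rw [flipD_apply]
  simp

theorem flipD_mul (κ κ' : Sgn) : flipD (κ * κ') = (flipD κ).comp (flipD κ') := by
  refine MonoidHom.ext fun d => DD.ext fun n => ?_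
  rw [MonoidHom.comp_apply, flipD_apply, flipD_apply, flipD_apply, Pi.mul_apply, Units.val_mul,
    mul_smul]

/-- The endomorphism of `NN` which is the identity on the first factor and `flipD κ` on the
second one. -/
def flipN (κ : Sgn) : NN →* NN :=
  Monoid.CoprodI.lift (fun b => (inc b).comp (bif b then flipD κ else MonoidHom.id DD))

theorem flipN_inc_false (κ : Sgn) (d : DD) : flipN κ (inc false d) = inc false d := by
  simp [flipN]

theorem flipN_inc_true (κ : Sgn) (d : DD) : flipN κ (inc true d) = inc true (flipD κ d) := by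
  simp [flipN]

theorem flipN_one : flipN 1 = MonoidHom.id NN := by
  apply Monoid.CoprodI.ext_hom
  intro b
  refine MonoidHom.ext fun d => ?_
  cases b
  · simp [flipN_inc_false]
  · simp [flipN_inc_true, flipD_one]

theorem flipN_mul (κ κ' : Sgn) : flipN (κ * κ') = (flipN κ).comp (flipN κ') := by
  apply Monoid.CoprodI.ext_hom
  intro b
  refine MonoidHom.ext fun d => ?_
  cases b
  · simp [flipN_inc_false]
  · simp [flipN_inc_true, flipD_mul]

/-- `κ ↦ flipN κ` as a homomorphism to the automorphism group. -/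
def flipAut : Sgn →* MulAut NN where
  toFun κ := MonoidHom.toMulEquiv (flipN κ) (flipN κ⁻¹)
    (by rw [← flipN_mul, inv_mul_cancel, flipN_one])
    (by rw [← flipN_mul, mul_inv_cancel, flipN_one])
  map_one' := by
    ext x; simp [flipN_one]
  map_mul' a b := by
    ext x; simp [flipN_mul]

theorem flipAut_apply (κ : Sgn) (x : NN) : flipAut κ x = flipN κ x := rfl

/-- `NN → ∏ₙ {±1}`: kill the first factor, take the parity of the second one. -/
def piN : NN →* Sgn :=
  Monoid.CoprodI.lift (fun b => bif b then parityD else 1)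

theorem piN_inc_false (d : DD) : piN (inc false d) = 1 := by simp [piN]

theorem piN_inc_true (d : DD) : piN (inc true d) = parityD d := by simp [piN]

/-- The action of the second `NN` on the first one. -/
def theta : NN →* MulAut NN := flipAut.comp piN

theorem theta_apply (h x : NN) : theta h x = flipN (piN h) x := rfl

/-- The counterexample group `Γ = NN ⋊ NN`. -/
abbrev Gam : Type := NN ⋊[theta] NN

end MP6c9f91
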