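import Pool.Agent.MP6c9f91.GleasonFn

/-!
# The escape norm: comparison and the product estimate (package T4a of stage 2 of MP_6c9f91_an)
-/

open Topology Filter Pointwise MeasureTheory

universe u

namespace GY

section basic

variable {G : Type u} [Group G]

/-- the escape norm -/
noncomputable def esc (U : Set G) (g : G) : ℝ :=
  sInf {r : ℝ | ∃ n : ℕ, r = 1 / (n + 1) ∧ ∀ j ≤ n, g ^ j ∈ U}

theorem esc_bddBelow (U : Set G) (g : G) :
    BddBelow {r : ℝ | ∃ n : ℕ, r = 1 / (n + 1) ∧ ∀ j ≤ n, g ^ j ∈ U} :=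
  ⟨0, by rintro r ⟨n, rfl, -⟩; positivity⟩

theorem esc_nonneg (U : Set G) (g : G) : 0 ≤ esc U g :=
  Real.sInf_nonneg (by rintro r ⟨n, rfl, -⟩; positivity)

theorem esc_le {U : Set G} {g : G} {n : ℕ} (h : ∀ j ≤ n, g ^ j ∈ U) :
    esc U g ≤ 1 / (n + 1) :=
  csInf_le (esc_bddBelow U g) ⟨n, rfl, h⟩

theorem le_esc {U : Set G} (h1 : (1 : G) ∈ U) {g : G} {a : ℝ}
    (h : ∀ n : ℕ, (∀ j ≤ n, g ^ j ∈ U) → a ≤ 1 / (n + 1)) : a ≤ esc U g := by
  apply le_csInf
  · refine ⟨_, 0, rfl, fun j hj => ?_⟩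
    have : j = 0 := by omega
    subst this
    simpa using h1
  · rintro r ⟨n, rfl, hn⟩
    exact h n hn

theorem esc_le_one {U : Set G} (h1 : (1 : G) ∈ U) (g : G) : esc U g ≤ 1 := by
  have := esc_le (U := U) (g := g) (n := 0) (fun j hj => by
    have : j = 0 := by omega
    subst this
    simpa using h1)
  simpa using this

theorem esc_one {U : Set G} (h1 : (1 : G) ∈ U) : esc U (1 : G) = 0 := by
  apply le_antisymm _ (esc_nonneg U 1)
  have h : ∀ n : ℕ, esc U (1 : G) ≤ 1 / (n + 1) := fun n =>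
    esc_le (fun j _ => by simpa using h1)
  exact ge_of_tendsto' tendsto_one_div_add_atTop_nhds_zero_nat h

theorem esc_inv {U : Set G} (hs : U⁻¹ = U) (g : G) : esc U g⁻¹ = esc U g := by
  unfold esc
  congr 1
  ext r
  have : ∀ j : ℕ, (g⁻¹) ^ j ∈ U ↔ g ^ j ∈ U := by
    intro j
    rw [inv_pow, ← Set.mem_inv, hs]
  simp only [this]

theorem mem_of_esc_lt_one {U : Set G} (h1 : (1 : G) ∈ U) {g : G} (h : esc U g < 1) :
    g ∈ U := by
  by_contra hg
  refine absurd h (not_lt.2 (le_esc h1 fun n hn => ?_))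
  rcases Nat.eq_zero_or_pos n with rfl | hn'
  · simp
  · exact absurd (by simpa using hn 1 hn') hg

/-- If the escape norm of `g` is less than `1 / n` then the powers up to `n` are in `U`. -/
theorem pow_mem_of_esc_lt {U : Set G} (h1 : (1 : G) ∈ U) {g : G} {n : ℕ}
    (h : (n : ℝ) * esc U g < 1) : ∀ j ≤ n, g ^ j ∈ U := by
  by_contra hg
  rcases Nat.eq_zero_or_pos n with rfl | hn'
  · apply hg
    intro j hj
    have : j = 0 := by omega
    subst this
    simpa using h1
  · refine absurd h (not_lt.2 ?_)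
    have hn0 : (0 : ℝ) < n := by exact_mod_cast hn'
    have : 1 / (n : ℝ) ≤ esc U g := by
      refine le_esc h1 fun m hm => ?_
      have hmn : m + 1 ≤ n := by
        by_contra hmn
        exact hg fun j hj => hm j (by omega)
      apply one_div_le_one_div_of_le (by positivity)
      exact_mod_cast hmn
    rw [div_le_iff₀ hn0] at this
    linarith

theorem esc_pos {U : Set G} (hs : U⁻¹ = U) (h1 : (1 : G) ∈ U)
    (hns : ∀ S : Subgroup G, (S : Set G) ⊆ U → S = ⊥) {g : G} (hg : g ≠ 1) : 0 < esc U g := by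
  rcases (esc_nonneg U g).lt_or_eq with h | h
  · exact h
  · exfalso
    apply hg
    have hall : ∀ j : ℕ, g ^ j ∈ U := fun j =>
      pow_mem_of_esc_lt h1 (n := j) (by rw [← h]; simp) j le_rfl
    have hz : (Subgroup.zpowers g : Set G) ⊆ U := by
      rintro x ⟨k, rfl⟩
      rcases Int.eq_nat_or_neg k with ⟨n, rfl | rfl⟩
      · simpa using hall n
      · have := hall n
        rw [← hs, Set.mem_inv]
        simpa using this
    have := hns _ hz
    rwa [Subgroup.zpowers_eq_bot] at this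

end basic

section top

variable {G : Type u} [Group G] [TopologicalSpace G] [IsTopologicalGroup G] [T2Space G]

/-- T4a. Comparison of escape times. -/
theorem esc_compare (U U' : Set G) (hU : U ∈ 𝓝 (1 : G)) (hU' : IsCompact U')
    (hns : ∀ S : Subgroup G, (S : Set G) ⊆ U' → S = ⊥) (hs : U'⁻¹ = U') :
    ∃ n₀ : ℕ, 1 ≤ n₀ ∧ ∀ (g : G) (n : ℕ), (∀ j ≤ n₀ * n, g ^ j ∈ U') → ∀ j ≤ n, g ^ j ∈ U := by
  suffices H : ∃ n₀ : ℕ, ∀ g : G, (∀ j ≤ n₀, g ^ j ∈ U') → g ∈ U by
    obtain ⟨n₀, hn₀⟩ := H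
    refine ⟨n₀ + 1, by omega, fun g n h j hj => hn₀ _ fun i hi => ?_⟩
    rw [← pow_mul]
    apply h
    calc j * i ≤ n * (n₀ + 1) := Nat.mul_le_mul hj (by omega)
      _ = (n₀ + 1) * n := mul_comm _ _
  by_contra hcon
  push Not at hcon
  -- the sets K n
  let K : ℕ → Set G := fun n => (⋂ j ∈ {j : ℕ | j ≤ n}, (fun g : G => g ^ j) ⁻¹' U') ∩
    (U' \ interior U)
  have hclosed : ∀ n, IsClosed (K n) := by
    intro n
    refine IsClosed.inter ?_ (hU'.isClosed.sdiff isOpen_interior)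
    exact isClosed_biInter fun j _ => hU'.isClosed.preimage (continuous_pow j)
  have hanti : ∀ n, K (n + 1) ⊆ K n := by
    rintro n x ⟨hx, hx'⟩
    refine ⟨?_, hx'⟩
    simp only [Set.mem_iInter, Set.mem_ofPred_eq, Set.mem_preimage] at hx ⊢
    exact fun j hj => hx j (by omega)
  have hne : ∀ n, (K n).Nonempty := by
    intro n
    obtain ⟨g, hg, hgU⟩ := hcon (n + 1)
    refine ⟨g, ?_, ?_, ?_⟩
    · simp only [Set.mem_iInter, Set.mem_ofPred_eq, Set.mem_preimage]
      exact fun j hj => hg j (by omega)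
    · simpa using hg 1 (by omega)
    · exact fun h => hgU (interior_subset h)
  have hcomp : IsCompact (K 0) := hU'.of_isClosed_subset (hclosed 0) (fun x hx => hx.2.1)
  obtain ⟨g, hg⟩ := IsCompact.nonempty_iInter_of_sequence_nonempty_isCompact_isClosed K hanti hne
    hcomp hclosed
  rw [Set.mem_iInter] at hg
  have hall : ∀ j : ℕ, g ^ j ∈ U' := by
    intro j
    have := (hg j).1
    simp only [Set.mem_iInter, Set.mem_ofPred_eq, Set.mem_preimage] at this
    exact this j le_rfl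
  have hz : (Subgroup.zpowers g : Set G) ⊆ U' := by
    rintro x ⟨k, rfl⟩
    rcases Int.eq_nat_or_neg k with ⟨n, rfl | rfl⟩
    · simpa using hall n
    · have := hall n
      rw [← hs, Set.mem_inv]
      simpa using this
  have := hns _ hz
  rw [Subgroup.zpowers_eq_bot] at this
  apply (hg 0).2.2
  rw [this]
  exact mem_interior_iff_mem_nhds.2 hU

/-- Comparison of escape norms. -/
theorem esc_le_mul_esc {G : Type u} [Group G] {U U' : Set G} (h1 : (1 : G) ∈ U) (h1' : (1 : G) ∈ U') {n₀ : ℕ}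
    (hn₀ : 1 ≤ n₀)
    (h : ∀ (g : G) (n : ℕ), (∀ j ≤ n₀ * n, g ^ j ∈ U') → ∀ j ≤ n, g ^ j ∈ U) (g : G) :
    esc U g ≤ 2 * n₀ * esc U' g := by
  have hn₀' : (1 : ℝ) ≤ n₀ := by exact_mod_cast hn₀
  suffices H : esc U g / (2 * n₀) ≤ esc U' g by
    rw [div_le_iff₀ (by positivity)] at H
    linarith
  refine le_esc h1' fun N hN => ?_
  rw [div_le_div_iff₀ (by positivity) (by positivity)]
  rcases Nat.eq_zero_or_pos (N / n₀) with hz | hpos
  · have : N < n₀ := by
      rcases Nat.div_eq_zero_iff.1 hz with h | h <;> omega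
    have hN1 : (N : ℝ) + 1 ≤ n₀ := by exact_mod_cast this
    have := esc_le_one h1 g
    nlinarith [esc_nonneg U g]
  · have h2 : ∀ j ≤ N / n₀, g ^ j ∈ U := h g _ fun j hj => hN j (hj.trans (Nat.mul_div_le _ _))
    have h3 := esc_le h2
    have h4 : N + 1 ≤ n₀ * (N / n₀ + 1) := by
      have := Nat.lt_mul_div_succ N (show 0 < n₀ by omega)
      omega
    have h5 : (N : ℝ) + 1 ≤ n₀ * ((N / n₀ : ℕ) + 1) := by exact_mod_cast h4
    rw [le_div_iff₀ (by positivity)] at h3
    nlinarith [esc_nonneg U g]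

theorem esc_tele {G : Type u} [Group G] (φ : G → ℝ) (g x : G) (n : ℕ) :
    (n : ℝ) * (φ (g * x) - φ x) = (φ (g ^ n * x) - φ x) -
      ∑ i ∈ Finset.range n,
        ((φ (g * (g ^ i * x)) - φ (g ^ i * x)) - (φ (g * x) - φ x)) := by
  induction n with
  | zero => simp
  | succ n ih =>
    rw [Finset.sum_range_succ]
    push_cast
    have : g ^ (n + 1) * x = g * (g ^ n * x) := by rw [pow_succ', mul_assoc]
    rw [this]
    linarith

theorem esc_step {G : Type u} [Group G] {U V : Set G} {C δ : ℝ} {w φ : G → ℝ} {m : ℕ}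
    (h1 : (1 : G) ∈ U) (hw : ∀ g, 0 ≤ w g) (hδ : 0 ≤ δ) (hC : 0 < C)
    (hφC : ∀ x, |φ x| ≤ C)
    (hφ2 : ∀ g ∈ U, ∀ h ∈ V, ∀ x,
      |(φ (g * (h * x)) - φ (h * x)) - (φ (g * x) - φ x)| ≤ δ * w g)
    (hm : 1 ≤ m) (hcmp : ∀ (g : G) (n : ℕ), (∀ j ≤ m * n, g ^ j ∈ U) → ∀ j ≤ n, g ^ j ∈ V)
    (g x : G) : |φ (g * x) - φ x| ≤ 4 * C * m * esc U g + δ * w g := by
  have hm' : (1 : ℝ) ≤ m := by exact_mod_cast hm
  have hδw : 0 ≤ δ * w g := mul_nonneg hδ (hw g)
  have h2C : ∀ y z, |φ y - φ z| ≤ 2 * C := fun y z => by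
    calc |φ y - φ z| ≤ |φ y| + |φ z| := abs_sub _ _
      _ ≤ 2 * C := by linarith [hφC y, hφC z]
  suffices H : (|φ (g * x) - φ x| - δ * w g) / (4 * C * m) ≤ esc U g by
    rw [div_le_iff₀ (by positivity)] at H
    linarith
  refine le_esc h1 fun N hN => ?_
  rw [div_le_div_iff₀ (by positivity) (by positivity)]
  rcases Nat.eq_zero_or_pos (N / m) with hz | hpos
  · have : N < m := by
      rcases Nat.div_eq_zero_iff.1 hz with h | h <;> omega
    have hN1 : (N : ℝ) + 1 ≤ m := by exact_mod_cast this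
    have h3 := h2C (g * x) x
    have hN0 : (0 : ℝ) ≤ N := Nat.cast_nonneg N
    nlinarith [mul_le_mul_of_nonneg_left hN1 hC.le]
  · set n := N / m with hn
    have hnpos : (1 : ℝ) ≤ n := by exact_mod_cast hpos
    have hmn : m * n ≤ N := Nat.mul_div_le _ _
    have hV : ∀ j ≤ n, g ^ j ∈ V := hcmp g _ fun j hj => hN j (hj.trans hmn)
    have hgU : g ∈ U := by
      simpa using hN 1 (by nlinarith)
    have h4 : N + 1 ≤ m * (n + 1) := by
      have := Nat.lt_mul_div_succ N (show 0 < m by omega)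
      rw [← hn] at this
      omega
    have h5 : (N : ℝ) + 1 ≤ m * (n + 1) := by exact_mod_cast h4
    have hsum : |∑ i ∈ Finset.range n,
        ((φ (g * (g ^ i * x)) - φ (g ^ i * x)) - (φ (g * x) - φ x))| ≤ n * (δ * w g) := by
      calc _ ≤ ∑ i ∈ Finset.range n,
            |(φ (g * (g ^ i * x)) - φ (g ^ i * x)) - (φ (g * x) - φ x)| :=
            Finset.abs_sum_le_sum_abs _ _
        _ ≤ ∑ i ∈ Finset.range n, δ * w g := by
            apply Finset.sum_le_sum
            intro i hi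
            exact hφ2 g hgU _ (hV i (Finset.mem_range.1 hi).le) x
        _ = n * (δ * w g) := by simp
    have htele := esc_tele φ g x n
    have h6 : (n : ℝ) * |φ (g * x) - φ x| ≤ 2 * C + n * (δ * w g) := by
      have : (n : ℝ) * |φ (g * x) - φ x| = |(n : ℝ) * (φ (g * x) - φ x)| := by
        rw [abs_mul, abs_of_nonneg (by positivity : (0 : ℝ) ≤ n)]
      rw [this, htele]
      calc _ ≤ |φ (g ^ n * x) - φ x| + |∑ i ∈ Finset.range n,
            ((φ (g * (g ^ i * x)) - φ (g ^ i * x)) - (φ (g * x) - φ x))| := abs_sub _ _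
        _ ≤ _ := by linarith [h2C (g ^ n * x) x]
    have h7 : (n : ℝ) * (|φ (g * x) - φ x| - δ * w g) ≤ 2 * C := by linarith
    -- (|..| - δ w) (N+1) ≤ 4 C m
    by_cases hpos' : |φ (g * x) - φ x| - δ * w g ≤ 0
    · have : (|φ (g * x) - φ x| - δ * w g) * ((N : ℝ) + 1) ≤ 0 :=
        mul_nonpos_of_nonpos_of_nonneg hpos' (by positivity)
      have h8 : 0 ≤ 1 * (4 * C * (m : ℝ)) := by positivity
      linarith
    · push Not at hpos'
      have h8 : (N : ℝ) + 1 ≤ 2 * m * n := by nlinarith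
      calc (|φ (g * x) - φ x| - δ * w g) * ((N : ℝ) + 1)
          ≤ (|φ (g * x) - φ x| - δ * w g) * (2 * m * n) :=
            mul_le_mul_of_nonneg_left h8 hpos'.le
        _ = 2 * m * (n * (|φ (g * x) - φ x| - δ * w g)) := by ring
        _ ≤ 2 * m * (2 * C) := mul_le_mul_of_nonneg_left h7 (by positivity)
        _ = 1 * (4 * C * m) := by ring

theorem esc_list {G : Type u} [Group G] {φ B : G → ℝ}
    (hB : ∀ g x, |φ (g * x) - φ x| ≤ B g) (l : List G) :
    ∀ y, |φ (l.prod * y) - φ y| ≤ (l.map B).sum := by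
  induction l with
  | nil => intro y; simp
  | cons a l ih =>
    intro y
    rw [List.prod_cons, List.map_cons, List.sum_cons, mul_assoc]
    calc |φ (a * (l.prod * y)) - φ y|
        = |(φ (a * (l.prod * y)) - φ (l.prod * y)) + (φ (l.prod * y) - φ y)| := by ring_nf
      _ ≤ _ := abs_add_le _ _
      _ ≤ _ := add_le_add (hB _ _) (ih y)

theorem esc_power {G : Type u} [Group G] {φ : G → ℝ} {x : G} {L : ℝ}
    (hL : ∀ y, |φ (x * y) - φ y| ≤ L) (j : ℕ) : |φ (x ^ j) - φ 1| ≤ j * L := by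
  induction j with
  | zero => simp
  | succ j ih =>
    rw [pow_succ']
    calc |φ (x * x ^ j) - φ 1| = |(φ (x * x ^ j) - φ (x ^ j)) + (φ (x ^ j) - φ 1)| := by ring_nf
      _ ≤ _ := abs_add_le _ _
      _ ≤ L + j * L := add_le_add (hL _) ih
      _ = ((j + 1 : ℕ) : ℝ) * L := by push_cast; ring

/-- If `φ` moves by at most `L` under left translation by `x`, then `esc U x ≤ n₁ L / c`. -/
theorem esc_le_of_move {G : Type u} [Group G] {U U' : Set G} {φ : G → ℝ} {c L : ℝ} {n₁ : ℕ}
    (hc : 0 < c) (hn₁ : 1 ≤ n₁) (hL0 : 0 ≤ L)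
    (hcmp : ∀ (g : G) (n : ℕ), (∀ j ≤ n₁ * n, g ^ j ∈ U') → ∀ j ≤ n, g ^ j ∈ U)
    (hφ1 : c ≤ φ 1) (hφ0 : ∀ x, φ x ≠ 0 → x ∈ U') {x : G}
    (hL : ∀ y, |φ (x * y) - φ y| ≤ L) : esc U x ≤ n₁ * L / c := by
  have hn₁' : (1 : ℝ) ≤ n₁ := by exact_mod_cast hn₁
  have key : ∀ n : ℕ, (n₁ : ℝ) * n * L < c → esc U x ≤ 1 / (n + 1) := by
    intro n hn
    refine esc_le (hcmp x n fun j hj => hφ0 _ ?_)
    have h1 := esc_power hL j
    have h2 : (j : ℝ) * L ≤ n₁ * n * L := by
      apply mul_le_mul_of_nonneg_right _ hL0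
      exact_mod_cast hj
    have h3 := (abs_le.1 h1).1
    intro h0
    rw [h0] at h3
    linarith
  rcases hL0.lt_or_eq with hLpos | hLz
  · set v : ℝ := c / (n₁ * L) with hv
    have hvpos : 0 < v := by positivity
    have hceil : 1 ≤ ⌈v⌉₊ := Nat.one_le_ceil_iff.2 hvpos
    obtain ⟨n, hn⟩ : ∃ n, ⌈v⌉₊ = n + 1 := ⟨⌈v⌉₊ - 1, by omega⟩
    have hnlt : (n : ℝ) < v := by
      have : n < ⌈v⌉₊ := by omega
      exact Nat.lt_ceil.1 this
    have h1 := key n (by
      rw [hv, lt_div_iff₀ (by positivity)] at hnlt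
      linarith)
    have h2 : v ≤ n + 1 := by
      have := Nat.le_ceil v
      rw [hn] at this
      exact_mod_cast this
    calc esc U x ≤ 1 / (n + 1) := h1
      _ ≤ 1 / v := one_div_le_one_div_of_le hvpos h2
      _ = n₁ * L / c := by rw [hv, one_div_div]
  · have h0 : esc U x ≤ 0 := by
      refine ge_of_tendsto' tendsto_one_div_add_atTop_nhds_zero_nat fun n => key n ?_
      rw [← hLz]
      simpa using hc
    rw [← hLz]
    simpa using h0

variable [LocallyCompactSpace G]

/-- T4a. The product estimate. -/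
theorem esc_prod (U : Set G) (hUc : IsCompact U) (hU1 : U ∈ 𝓝 (1 : G)) (hUs : U⁻¹ = U)
    (hns : ∀ S : Subgroup G, (S : Set G) ⊆ U * U * U * U → S = ⊥) :
    ∃ M : ℝ, 1 ≤ M ∧ ∀ l : List G, esc U l.prod ≤ M * (l.map (esc U)).sum := by
  have h1 : (1 : G) ∈ U := mem_of_mem_nhds hU1
  have hsub : U ⊆ U * U * U * U := by
    intro x hx
    have : x = x * 1 * 1 * 1 := by simp
    rw [this]
    exact Set.mul_mem_mul (Set.mul_mem_mul (Set.mul_mem_mul hx h1) h1) h1
  have hnsU : ∀ S : Subgroup G, (S : Set G) ⊆ U → S = ⊥ := fun S hS => hns S (hS.trans hsub)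
  have hU4c : IsCompact (U * U * U * U) := ((hUc.mul hUc).mul hUc).mul hUc
  have hU4s : (U * U * U * U)⁻¹ = U * U * U * U := by
    simp only [mul_inv_rev, hUs, mul_assoc]
  obtain ⟨c, C, V, hc, hC, hV, hgw⟩ := gleason_weight G U hUc hU1 hUs
  obtain ⟨n₁, hn₁, hcmp₁⟩ := esc_compare U (U * U * U * U) hU1 hU4c hns hU4s
  have hn₁' : (1 : ℝ) ≤ n₁ := by exact_mod_cast hn₁
  set δ : ℝ := c / (2 * n₁) with hδ
  have hδpos : 0 < δ := by positivity
  obtain ⟨m, hm, hcmp₂⟩ := esc_compare (V δ) U (hV δ hδpos) hUc hnsU hUs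
  have hm' : (1 : ℝ) ≤ m := by exact_mod_cast hm
  set A : ℝ := n₁ * (4 * C * m) / c with hA
  have hApos : 0 < A := by positivity
  -- validity
  have improve : ∀ ε : ℝ, 0 < ε → ∀ M : ℝ, 0 ≤ M →
      (∀ l : List G, esc U l.prod ≤ M * (l.map fun g => esc U g + ε).sum) →
      ∀ l : List G, esc U l.prod ≤ (A + M / 2) * (l.map fun g => esc U g + ε).sum := by
    intro ε hε M hM hval l
    obtain ⟨φ, hφ1, hφC, hφ0, -, -, hφ2, -⟩ := hgw (fun g => M * (esc U g + ε))
      (fun g => mul_nonneg hM (by linarith [esc_nonneg U g]))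
      (fun g => by simp only [esc_inv hUs])
      (fun l hl => mem_of_esc_lt_one h1 ((hval l).trans_lt (by
        rwa [List.sum_map_mul_left] at hl)))
    have hstep : ∀ g x, |φ (g * x) - φ x| ≤ (4 * C * m + δ * M) * (esc U g + ε) := by
      intro g x
      have := esc_step (V := V δ) (w := fun g => M * (esc U g + ε)) h1
        (fun g => mul_nonneg hM (by linarith [esc_nonneg U g])) hδpos.le hC hφC
        (fun g hg h hh x => hφ2 δ hδpos g hg h hh x) hm hcmp₂ g x
      have h3 : 0 ≤ 4 * C * m * ε := by positivity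
      calc _ ≤ _ := this
        _ ≤ _ := by nlinarith
    set s : ℝ := (l.map fun g => esc U g + ε).sum with hs
    have hs0 : 0 ≤ s := List.sum_nonneg (by
      intro a ha
      obtain ⟨g, -, rfl⟩ := List.mem_map.1 ha
      linarith [esc_nonneg U g])
    have hmove : ∀ y, |φ (l.prod * y) - φ y| ≤ (4 * C * m + δ * M) * s := by
      intro y
      have := esc_list hstep l y
      rwa [List.sum_map_mul_left] at this
    have hres := esc_le_of_move hc hn₁ (by positivity) hcmp₁ hφ1 hφ0 hmove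
    calc esc U l.prod ≤ _ := hres
      _ = (A + M / 2) * s := by
        rw [hA, hδ]
        field_simp
  -- iterate
  have hiter : ∀ ε : ℝ, 0 < ε → ∀ k : ℕ, ∀ l : List G,
      esc U l.prod ≤ (2 * A + 1 / ε / 2 ^ k) * (l.map fun g => esc U g + ε).sum := by
    intro ε hε k
    induction k with
    | zero =>
      intro l
      rcases l with _ | ⟨a, l⟩
      · simp [esc_one h1]
      · have hs : ε ≤ ((a :: l).map fun g => esc U g + ε).sum := by
          rw [List.map_cons, List.sum_cons]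
          have : 0 ≤ (l.map fun g => esc U g + ε).sum := List.sum_nonneg (by
            intro a ha
            obtain ⟨g, -, rfl⟩ := List.mem_map.1 ha
            linarith [esc_nonneg U g])
          linarith [esc_nonneg U a]
        calc esc U (a :: l).prod ≤ 1 := esc_le_one h1 _
          _ = 1 / ε * ε := by field_simp
          _ ≤ (2 * A + 1 / ε / 2 ^ 0) * ε := by
            apply mul_le_mul_of_nonneg_right _ hε.le
            simp only [pow_zero, div_one]
            linarith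
          _ ≤ _ := by
            apply mul_le_mul_of_nonneg_left hs
            positivity
    | succ k ih =>
      intro l
      have := improve ε hε _ (by positivity) ih l
      calc _ ≤ _ := this
        _ = _ := by
          congr 1
          rw [pow_succ]
          field_simp
          ring
  have hlim : ∀ ε : ℝ, 0 < ε → ∀ l : List G,
      esc U l.prod ≤ 2 * A * (l.map fun g => esc U g + ε).sum := by
    intro ε hε l
    have ht : Tendsto (fun k : ℕ => (2 * A + 1 / ε / 2 ^ k) *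
        (l.map fun g => esc U g + ε).sum) atTop
        (𝓝 ((2 * A + 0) * (l.map fun g => esc U g + ε).sum)) := by
      apply Tendsto.mul_const
      apply Tendsto.const_add
      have := (tendsto_pow_atTop_nhds_zero_of_lt_one (r := (1 / 2 : ℝ)) (by norm_num)
        (by norm_num)).const_mul (1 / ε)
      simp only [mul_zero] at this
      refine this.congr fun k => ?_
      rw [one_div_pow]
      ring
    rw [add_zero] at ht
    exact ge_of_tendsto' ht fun k => hiter ε hε k l
  refine ⟨max 1 (2 * A), le_max_left _ _, fun l => ?_⟩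
  have hsum0 : 0 ≤ (l.map (esc U)).sum := List.sum_nonneg (by
    intro a ha
    obtain ⟨g, -, rfl⟩ := List.mem_map.1 ha
    exact esc_nonneg U g)
  have hfin : esc U l.prod ≤ 2 * A * (l.map (esc U)).sum := by
    have ht : Tendsto (fun ε : ℝ => 2 * A * ((l.map (esc U)).sum + l.length * ε)) (𝓝[>] 0)
        (𝓝 (2 * A * ((l.map (esc U)).sum + l.length * 0))) := by
      apply tendsto_nhdsWithin_of_tendsto_nhds
      exact ((continuous_const.mul (continuous_const.add
        (continuous_const.mul continuous_id))).tendsto (0 : ℝ))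
    simp only [mul_zero, add_zero] at ht
    refine ge_of_tendsto ht ?_
    filter_upwards [self_mem_nhdsWithin] with ε hε
    have := hlim ε hε l
    rwa [List.sum_map_add, List.map_const', List.sum_replicate, nsmul_eq_mul] at this
  calc esc U l.prod ≤ _ := hfin
    _ ≤ _ := mul_le_mul_of_nonneg_right (le_max_right _ _) hsum0

end top

end GY
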