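import Pool.Agent.MP6c9f91.GYDefs

/-!
# T5a: estimates for a Gleason norm (MP_6c9f91_an, stage 2)
-/

open Topology Filter Pointwise

universe u

namespace GY

namespace T5a

variable {G : Type u} [Group G] [TopologicalSpace G]

theorem N_pow (ν : GleasonNorm G) (g : G) (n : ℕ) : ν.N (g ^ n) ≤ n * ν.N g := by
  induction n with
  | zero => simp [ν.map_one]
  | succ n ih =>
    rw [pow_succ]
    push_cast
    have := ν.map_mul (g ^ n) g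
    linarith

theorem Cpos (ν : GleasonNorm G) : 0 < ν.C := lt_of_lt_of_le one_pos ν.one_le

theorem conj_le (ν : GleasonNorm G) (g h : G) (hg : ν.N g ≤ 1 / ν.C) (hh : ν.N h ≤ 1 / ν.C) :
    ν.N (h * g * h⁻¹) ≤ (1 + ν.C * ν.N h) * ν.N g := by
  have e : h * g * h⁻¹ = (h * g * h⁻¹ * g⁻¹) * g := by group
  rw [e]
  have h1 := ν.map_mul (h * g * h⁻¹ * g⁻¹) g
  have h2 := ν.comm h g hh hg
  linarith [h1, h2]

/-- estimate (B) with explicit constants -/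
theorem estB_aux (ν : GleasonNorm G) (g h : G) (n : ℕ) (hg : n * ν.N g ≤ 1 / (8 * ν.C))
    (hh : n * ν.N h ≤ 1 / (8 * ν.C)) (k : ℕ) (hk : k ≤ n) :
    ν.N ((g ^ k * h ^ k)⁻¹ * (g * h) ^ k) ≤
      ν.C * ((1 + ν.C * ν.N h) ^ k * (1 + ν.C * ν.N g) ^ k) * (k : ℝ) ^ 2 * ν.N g * ν.N h := by
  have hC := Cpos ν
  have hNg := ν.nonneg g
  have hNh := ν.nonneg h
  have hC8 : 8 * (1 / (8 * ν.C)) = 1 / ν.C := by field_simp
  have hC8' : 0 < 1 / (8 * ν.C) := by positivity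
  induction k with
  | zero => simp [ν.map_one]
  | succ k ih =>
    have ih := ih (by omega)
    set a := (g ^ k * h ^ k)⁻¹ * (g * h) ^ k with ha
    have hkn : ((k : ℝ) + 1) ≤ n := by exact_mod_cast hk
    have hk0 : (0 : ℝ) ≤ k := Nat.cast_nonneg k
    have hkg : ((k : ℝ) + 1) * ν.N g ≤ 1 / (8 * ν.C) :=
      le_trans (mul_le_mul_of_nonneg_right hkn hNg) hg
    have hkh : ((k : ℝ) + 1) * ν.N h ≤ 1 / (8 * ν.C) :=
      le_trans (mul_le_mul_of_nonneg_right hkn hNh) hh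
    have hkg0 : 0 ≤ (k : ℝ) * ν.N g := by positivity
    have hkh0 : 0 ≤ (k : ℝ) * ν.N h := by positivity
    have e : (g ^ (k + 1) * h ^ (k + 1))⁻¹ * (g * h) ^ (k + 1) =
        h⁻¹ * (((h ^ k)⁻¹ * g⁻¹ * (h ^ k)⁻¹⁻¹ * g⁻¹⁻¹) * (g⁻¹ * a * g⁻¹⁻¹)) * h⁻¹⁻¹ := by
      rw [ha, pow_succ g, pow_succ' h, pow_succ (g * h)]
      have e2 : h * h ^ k = h ^ k * h := by rw [← pow_succ, ← pow_succ']
      rw [e2]
      group
    have hag : ν.N a ≤ 2 * (k * ν.N g) + 2 * (k * ν.N h) := by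
      have h1 := ν.map_mul (g ^ k * h ^ k)⁻¹ ((g * h) ^ k)
      rw [ν.map_inv] at h1
      have h2 := ν.map_mul (g ^ k) (h ^ k)
      have h3 := N_pow ν g k
      have h4 := N_pow ν h k
      have h5 := N_pow ν (g * h) k
      have h6 := mul_le_mul_of_nonneg_left (ν.map_mul g h) hk0
      rw [ha]
      linarith
    have hA : ν.N ((h ^ k)⁻¹ * g⁻¹ * (h ^ k)⁻¹⁻¹ * g⁻¹⁻¹) ≤ ν.C * (k * ν.N h) * ν.N g := by
      have h4 := N_pow ν h k
      have h1 := ν.comm ((h ^ k)⁻¹) g⁻¹ (by rw [ν.map_inv]; linarith)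
        (by rw [ν.map_inv]; linarith)
      rw [ν.map_inv, ν.map_inv] at h1
      refine h1.trans ?_
      exact mul_le_mul_of_nonneg_right (mul_le_mul_of_nonneg_left h4 hC.le) hNg
    have hA' : ν.N ((h ^ k)⁻¹ * g⁻¹ * (h ^ k)⁻¹⁻¹ * g⁻¹⁻¹) ≤
        2 * (k * ν.N h) + 2 * ν.N g := by
      have h4 := N_pow ν h k
      have h1 := ν.map_mul ((h ^ k)⁻¹ * g⁻¹ * (h ^ k)⁻¹⁻¹) g⁻¹⁻¹
      have h2 := ν.map_mul ((h ^ k)⁻¹ * g⁻¹) (h ^ k)⁻¹⁻¹
      have h3 := ν.map_mul (h ^ k)⁻¹ g⁻¹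
      simp only [ν.map_inv] at h1 h2 h3
      linarith
    have hB : ν.N (g⁻¹ * a * g⁻¹⁻¹) ≤ (1 + ν.C * ν.N g) * ν.N a := by
      have := conj_le ν a g⁻¹ (by linarith) (by rw [ν.map_inv]; linarith)
      rwa [ν.map_inv] at this
    have hB' : ν.N (g⁻¹ * a * g⁻¹⁻¹) ≤ 2 * ν.N g + ν.N a := by
      have h1 := ν.map_mul (g⁻¹ * a) g⁻¹⁻¹
      have h2 := ν.map_mul g⁻¹ a
      simp only [ν.map_inv] at h1 h2
      linarith
    have hAB := ν.map_mul ((h ^ k)⁻¹ * g⁻¹ * (h ^ k)⁻¹⁻¹ * g⁻¹⁻¹) (g⁻¹ * a * g⁻¹⁻¹)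
    have hD := conj_le ν (((h ^ k)⁻¹ * g⁻¹ * (h ^ k)⁻¹⁻¹ * g⁻¹⁻¹) * (g⁻¹ * a * g⁻¹⁻¹)) h⁻¹
      (by linarith) (by rw [ν.map_inv]; linarith)
    rw [ν.map_inv] at hD
    rw [e]
    refine hD.trans ?_
    have hqh : 1 ≤ 1 + ν.C * ν.N h := by
      have : 0 ≤ ν.C * ν.N h := by positivity
      linarith
    have hqg : 1 ≤ 1 + ν.C * ν.N g := by
      have : 0 ≤ ν.C * ν.N g := by positivity
      linarith
    set p := 1 + ν.C * ν.N h with hp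
    set q := 1 + ν.C * ν.N g with hq
    have hstep : ν.N (((h ^ k)⁻¹ * g⁻¹ * (h ^ k)⁻¹⁻¹ * g⁻¹⁻¹) * (g⁻¹ * a * g⁻¹⁻¹)) ≤
        ν.C * (k * ν.N h) * ν.N g +
          q * (ν.C * (p ^ k * q ^ k) * (k : ℝ) ^ 2 * ν.N g * ν.N h) := by
      refine hAB.trans (add_le_add hA (hB.trans ?_))
      exact mul_le_mul_of_nonneg_left ih (by linarith)
    refine (mul_le_mul_of_nonneg_left hstep (by linarith)).trans ?_
    have hpk : 1 ≤ p ^ k * q ^ (k + 1) :=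
      one_le_mul_of_one_le_of_one_le (one_le_pow₀ hqh) (one_le_pow₀ hqg)
    have hs : 0 ≤ ν.C * ν.N g * ν.N h := by positivity
    have e1 : p * (ν.C * (k * ν.N h) * ν.N g +
          q * (ν.C * (p ^ k * q ^ k) * (k : ℝ) ^ 2 * ν.N g * ν.N h)) =
        (ν.C * ν.N g * ν.N h) * (p * k + (p ^ (k + 1) * q ^ (k + 1)) * (k : ℝ) ^ 2) := by
      ring
    have e2 : ν.C * (p ^ (k + 1) * q ^ (k + 1)) * ((k + 1 : ℕ) : ℝ) ^ 2 * ν.N g * ν.N h =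
        (ν.C * ν.N g * ν.N h) * ((p ^ (k + 1) * q ^ (k + 1)) * ((k : ℝ) + 1) ^ 2) := by
      push_cast
      ring
    rw [e1, e2]
    refine mul_le_mul_of_nonneg_left ?_ hs
    have hpp : 0 ≤ p := by linarith
    have h7 : p * k ≤ (p ^ (k + 1) * q ^ (k + 1)) * k := by
      refine mul_le_mul_of_nonneg_right ?_ hk0
      calc p = p * 1 := by ring
        _ ≤ p * (p ^ k * q ^ (k + 1)) := mul_le_mul_of_nonneg_left hpk hpp
        _ = _ := by ring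
    have h8 : 0 ≤ p ^ (k + 1) * q ^ (k + 1) := by positivity
    nlinarith [mul_nonneg h8 hk0]

theorem estB (ν : GleasonNorm G) (g h : G) (n : ℕ) (hg : n * ν.N g ≤ 1 / (8 * ν.C))
    (hh : n * ν.N h ≤ 1 / (8 * ν.C)) :
    ν.N ((g ^ n * h ^ n)⁻¹ * (g * h) ^ n) ≤ 9 * ν.C * (n : ℝ) ^ 2 * ν.N g * ν.N h := by
  refine (estB_aux ν g h n hg hh n le_rfl).trans ?_
  have hC := Cpos ν
  have hNg := ν.nonneg g
  have hNh := ν.nonneg h
  have key : ∀ x : ℝ, 0 ≤ x → n * x ≤ 1 / (8 * ν.C) → (1 + ν.C * x) ^ n ≤ 3 := by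
    intro x hx hx1
    have h1 : (1 + ν.C * x) ^ n ≤ Real.exp (n * (ν.C * x)) := by
      rw [Real.exp_nat_mul]
      refine pow_le_pow_left₀ (by positivity) ?_ n
      linarith [Real.add_one_le_exp (ν.C * x)]
    refine h1.trans ?_
    have h2 : n * (ν.C * x) ≤ 1 := by
      have : n * (ν.C * x) = ν.C * (n * x) := by ring
      rw [this]
      calc ν.C * (n * x) ≤ ν.C * (1 / (8 * ν.C)) := mul_le_mul_of_nonneg_left hx1 hC.le
        _ = 1 / 8 := by field_simp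
        _ ≤ 1 := by norm_num
    calc Real.exp (n * (ν.C * x)) ≤ Real.exp 1 := Real.exp_le_exp.mpr h2
      _ ≤ 3 := by
        have := Real.exp_one_lt_d9
        linarith
  have h1 := key (ν.N h) hNh hh
  have h2 := key (ν.N g) hNg hg
  have h3 : (1 + ν.C * ν.N h) ^ n * (1 + ν.C * ν.N g) ^ n ≤ 3 * 3 :=
    mul_le_mul h1 h2 (by positivity) (by norm_num)
  have hs : 0 ≤ ν.C * (n : ℝ) ^ 2 * ν.N g * ν.N h := by positivity
  calc ν.C * ((1 + ν.C * ν.N h) ^ n * (1 + ν.C * ν.N g) ^ n) * (n : ℝ) ^ 2 * ν.N g * ν.N h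
      = (ν.C * (n : ℝ) ^ 2 * ν.N g * ν.N h) *
          ((1 + ν.C * ν.N h) ^ n * (1 + ν.C * ν.N g) ^ n) := by ring
    _ ≤ (ν.C * (n : ℝ) ^ 2 * ν.N g * ν.N h) * (3 * 3) := mul_le_mul_of_nonneg_left h3 hs
    _ = _ := by ring

theorem estA (ν : GleasonNorm G) (g h : G) (n : ℕ) (hg : n * ν.N g ≤ 1 / (2 * ν.C))
    (hh : n * ν.N h ≤ 1 / (2 * ν.C)) (k : ℕ) (hk : k ≤ n) :
    ν.N ((g ^ k)⁻¹ * h ^ k) ≤ 2 * k * ν.N (g⁻¹ * h) := by
  have hC := Cpos ν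
  have hNg := ν.nonneg g
  have hNh := ν.nonneg h
  have hC8 : 2 * (1 / (2 * ν.C)) = 1 / ν.C := by field_simp
  have hC8' : 0 < 1 / (2 * ν.C) := by positivity
  induction k with
  | zero => simp [ν.map_one]
  | succ k ih =>
    have ih := ih (by omega)
    have hkn : ((k : ℝ) + 1) ≤ n := by exact_mod_cast hk
    have hk0 : (0 : ℝ) ≤ k := Nat.cast_nonneg k
    have hkg : ((k : ℝ) + 1) * ν.N g ≤ 1 / (2 * ν.C) :=
      le_trans (mul_le_mul_of_nonneg_right hkn hNg) hg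
    have hkh : ((k : ℝ) + 1) * ν.N h ≤ 1 / (2 * ν.C) :=
      le_trans (mul_le_mul_of_nonneg_right hkn hNh) hh
    have hkg0 : 0 ≤ (k : ℝ) * ν.N g := by positivity
    have hkh0 : 0 ≤ (k : ℝ) * ν.N h := by positivity
    have e : (g ^ (k + 1))⁻¹ * h ^ (k + 1) =
        ((g ^ k)⁻¹ * (g⁻¹ * h) * (g ^ k)⁻¹⁻¹) * ((g ^ k)⁻¹ * h ^ k) := by
      rw [pow_succ' g, pow_succ' h]
      group
    have hgh := ν.map_mul g⁻¹ h
    rw [ν.map_inv] at hgh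
    have hNk := N_pow ν g k
    have h1 := conj_le ν (g⁻¹ * h) (g ^ k)⁻¹ (by linarith) (by rw [ν.map_inv]; linarith)
    rw [ν.map_inv] at h1
    have h2 := ν.map_mul ((g ^ k)⁻¹ * (g⁻¹ * h) * (g ^ k)⁻¹⁻¹) ((g ^ k)⁻¹ * h ^ k)
    rw [e]
    have h3 : ν.C * ν.N (g ^ k) ≤ 1 := by
      calc ν.C * ν.N (g ^ k) ≤ ν.C * (1 / ν.C) :=
            mul_le_mul_of_nonneg_left (by linarith) hC.le
        _ = 1 := by field_simp
    have h4 : (1 + ν.C * ν.N (g ^ k)) * ν.N (g⁻¹ * h) ≤ 2 * ν.N (g⁻¹ * h) :=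
      mul_le_mul_of_nonneg_right (by linarith) (ν.nonneg _)
    push_cast
    linarith

theorem estD (ν : GleasonNorm G) (g h : G) (n : ℕ) (hg : n * ν.N g ≤ 1 / (18 * ν.C ^ 2))
    (hh : n * ν.N h ≤ 1 / (18 * ν.C ^ 2)) :
    n * ν.N (g⁻¹ * h) ≤ 2 * ν.C * ν.N ((g ^ n)⁻¹ * h ^ n) := by
  have hC := Cpos ν
  have hC1 := ν.one_le
  have hle : 1 / (18 * ν.C ^ 2) ≤ 1 / (16 * ν.C) := by
    apply one_div_le_one_div_of_le (by positivity)
    nlinarith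
  have h16 : 2 * (1 / (16 * ν.C)) = 1 / (8 * ν.C) := by field_simp; norm_num
  have h8 : 1 / (8 * ν.C) ≤ 1 / ν.C := by
    apply one_div_le_one_div_of_le hC
    linarith
  have h16' : 0 < 1 / (16 * ν.C) := by positivity
  have hn0 : (0 : ℝ) ≤ n := Nat.cast_nonneg n
  set k := g⁻¹ * h with hk
  have hgk : g * k = h := by rw [hk]; group
  have hNk : ν.N k ≤ ν.N g + ν.N h := by
    have := ν.map_mul g⁻¹ h
    rwa [ν.map_inv] at this
  have hnk : n * ν.N k ≤ 1 / (8 * ν.C) := by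
    have := mul_le_mul_of_nonneg_left hNk hn0
    linarith
  have hB := estB ν g k n (by linarith) hnk
  rw [hgk] at hB
  set a := (g ^ n * k ^ n)⁻¹ * h ^ n with ha
  have hkn : k ^ n = ((g ^ n)⁻¹ * h ^ n) * a⁻¹ := by rw [ha]; group
  have h1 : ν.N (k ^ n) ≤ ν.N ((g ^ n)⁻¹ * h ^ n) + ν.N a := by
    have := ν.map_mul ((g ^ n)⁻¹ * h ^ n) a⁻¹
    rw [ν.map_inv, ← hkn] at this
    exact this
  have h2 := ν.escape k n (hnk.trans h8)
  have h3 : ν.C * (9 * ν.C * (n : ℝ) ^ 2 * ν.N g * ν.N k) ≤ 1 / 2 * (n * ν.N k) := by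
    have e : ν.C * (9 * ν.C * (n : ℝ) ^ 2 * ν.N g * ν.N k) =
        (9 * ν.C ^ 2 * (n * ν.N g)) * (n * ν.N k) := by ring
    rw [e]
    refine mul_le_mul_of_nonneg_right ?_ (mul_nonneg hn0 (ν.nonneg k))
    calc 9 * ν.C ^ 2 * (n * ν.N g) ≤ 9 * ν.C ^ 2 * (1 / (18 * ν.C ^ 2)) :=
          mul_le_mul_of_nonneg_left hg (by positivity)
      _ = 1 / 2 := by field_simp; norm_num
  have h4 : ν.C * ν.N (k ^ n) ≤ ν.C * ν.N ((g ^ n)⁻¹ * h ^ n) + 1 / 2 * (n * ν.N k) := by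
    calc ν.C * ν.N (k ^ n) ≤ ν.C * (ν.N ((g ^ n)⁻¹ * h ^ n) + ν.N a) :=
          mul_le_mul_of_nonneg_left h1 hC.le
      _ = ν.C * ν.N ((g ^ n)⁻¹ * h ^ n) + ν.C * ν.N a := by ring
      _ ≤ ν.C * ν.N ((g ^ n)⁻¹ * h ^ n) + ν.C * (9 * ν.C * (n : ℝ) ^ 2 * ν.N g * ν.N k) := by
          have := mul_le_mul_of_nonneg_left hB hC.le
          linarith
      _ ≤ _ := by linarith
  linarith

theorem estE (ν : GleasonNorm G) (g : G) (n : ℕ)
    (h : ∀ j ≤ n, ν.N (g ^ j) ≤ 1 / (18 * ν.C ^ 2)) : n * ν.N g ≤ ν.C * ν.N (g ^ n) := by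
  have hC := Cpos ν
  have hC1 := ν.one_le
  have key : ∀ j ≤ n, j * ν.N g ≤ 1 / ν.C := by
    intro j hj
    induction j with
    | zero => simp; positivity
    | succ j ih =>
      have h1 := ν.escape g j (ih (by omega))
      have h2 := h j (by omega)
      have h3 := h 1 (by omega)
      rw [pow_one] at h3
      push_cast
      have h4 : ν.C * ν.N (g ^ j) ≤ ν.C * (1 / (18 * ν.C ^ 2)) :=
        mul_le_mul_of_nonneg_left h2 hC.le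
      have h5 : ν.C * (1 / (18 * ν.C ^ 2)) = 1 / 18 * (1 / ν.C) := by field_simp
      have h6 : 1 / (18 * ν.C ^ 2) ≤ 1 / 18 * (1 / ν.C) := by
        have : 1 / 18 * (1 / ν.C) = 1 / (18 * ν.C) := by field_simp
        rw [this]
        apply one_div_le_one_div_of_le (by positivity)
        nlinarith
      have h7 : 0 < 1 / ν.C := by positivity
      linarith
  exact ν.escape g n (key n le_rfl)

end T5a

variable {G : Type u} [Group G] [TopologicalSpace G]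

theorem GleasonNorm.estimates (ν : GleasonNorm G) : ∃ ρ K : ℝ, 0 < ρ ∧ 1 ≤ K ∧
    (∀ g h, ν.N g ≤ ρ → ν.N h ≤ ρ → ν.N (h * g * h⁻¹) ≤ 2 * ν.N g) ∧
    (∀ (g h : G) (n : ℕ), n * ν.N g ≤ ρ → n * ν.N h ≤ ρ →
      ν.N ((g ^ n)⁻¹ * h ^ n) ≤ 2 * n * ν.N (g⁻¹ * h)) ∧
    (∀ (g h : G) (n : ℕ), n * ν.N g ≤ ρ → n * ν.N h ≤ ρ →
      ν.N ((g ^ n * h ^ n)⁻¹ * (g * h) ^ n) ≤ K * n ^ 2 * ν.N g * ν.N h) ∧
    (∀ (g h : G) (n : ℕ), n * ν.N g ≤ ρ → n * ν.N h ≤ ρ →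
      n * ν.N (g⁻¹ * h) ≤ K * ν.N ((g ^ n)⁻¹ * h ^ n)) ∧
    (∀ (g : G) (n : ℕ), (∀ j ≤ n, ν.N (g ^ j) ≤ ρ) → n * ν.N g ≤ K * ν.N (g ^ n)) := by
  have hC := T5a.Cpos ν
  have hC1 := ν.one_le
  have l1 : 1 / (18 * ν.C ^ 2) ≤ 1 / ν.C := by
    apply one_div_le_one_div_of_le hC
    nlinarith
  have l2 : 1 / (18 * ν.C ^ 2) ≤ 1 / (2 * ν.C) := by
    apply one_div_le_one_div_of_le (by positivity)
    nlinarith
  have l3 : 1 / (18 * ν.C ^ 2) ≤ 1 / (8 * ν.C) := by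
    apply one_div_le_one_div_of_le (by positivity)
    nlinarith
  refine ⟨1 / (18 * ν.C ^ 2), 9 * ν.C, by positivity, by linarith, ?_, ?_, ?_, ?_, ?_⟩
  · intro g h hg hh
    refine (T5a.conj_le ν g h (hg.trans l1) (hh.trans l1)).trans ?_
    refine mul_le_mul_of_nonneg_right ?_ (ν.nonneg g)
    have : ν.C * ν.N h ≤ ν.C * (1 / ν.C) := mul_le_mul_of_nonneg_left (hh.trans l1) hC.le
    have e : ν.C * (1 / ν.C) = 1 := by field_simp
    linarith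
  · intro g h n hg hh
    exact T5a.estA ν g h n (hg.trans l2) (hh.trans l2) n le_rfl
  · intro g h n hg hh
    exact T5a.estB ν g h n (hg.trans l3) (hh.trans l3)
  · intro g h n hg hh
    refine (T5a.estD ν g h n hg hh).trans ?_
    have := ν.nonneg ((g ^ n)⁻¹ * h ^ n)
    nlinarith
  · intro g n h
    refine (T5a.estE ν g n h).trans ?_
    have := ν.nonneg (g ^ n)
    nlinarith

end GY
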