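import Pool.Agent.MP6c9f91.Defs

/-!
# MP_6c9f91_an, package P1: facts about the free product `NN = DD * DD`
-/

open MeasureTheory Monoid

namespace MP6c9f91

section P1

open Monoid.CoprodI

open scoped Classical in
/-- the index of the first letter of the reduced word -/
noncomputable def FI (n : NN) : Option Bool :=
  (Word.equiv (M := fun _ : Bool => DD) n).fstIdx

theorem FI_one : FI 1 = none := by
  classical
  unfold FI
  have : (Word.equiv (M := fun _ : Bool => DD) (1 : NN)) = Word.empty := by
    simp [Word.equiv]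
  rw [this]
  rfl

theorem FI_mul (b : Bool) (x : DD) (hx : x ≠ 1) (n : NN) (h : FI n ≠ some b) :
    FI (inc b x * n) = some b := by
  classical
  unfold FI at h ⊢
  have e : (Word.equiv (M := fun _ : Bool => DD) (inc b x * n)) =
      (CoprodI.of (M := fun _ : Bool => DD) (i := b) x) •
        (Word.equiv (M := fun _ : Bool => DD) n) := by
    simp [Word.equiv, mul_smul]
  rw [e, ← Word.cons_eq_smul (M := fun _ : Bool => DD) (h1 := h) (h2 := hx)]
  simp

/-- the two factors meet trivially -/
theorem inc_inter {x y : DD} (h : inc false x = inc true y) : x = 1 ∧ y = 1 := by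
  by_cases hx : x = 1
  · subst hx
    refine ⟨rfl, ?_⟩
    rw [map_one] at h
    by_contra hy
    have := FI_mul true y hy 1 (by rw [FI_one]; simp)
    rw [mul_one, ← h, FI_one] at this
    simp at this
  · exfalso
    have h1 := FI_mul false x hx 1 (by rw [FI_one]; simp)
    by_cases hy : y = 1
    · subst hy
      rw [mul_one, h, map_one, FI_one] at h1
      simp at h1
    · have h2 := FI_mul true y hy 1 (by rw [FI_one]; simp)
      rw [mul_one] at h1 h2
      rw [h, h2] at h1
      simp at h1

theorem inc_injective (b : Bool) : Function.Injective (inc b) :=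
  CoprodI.of_injective (M := fun _ : Bool => DD) b

theorem word_prod_injective :
    Function.Injective (Word.prod : Word (fun _ : Bool => DD) → NN) := by
  classical
  exact (Word.equiv (M := fun _ : Bool => DD)).symm.injective

theorem toList_of_inc (b : Bool) (z : DD) (w : Word (fun _ : Bool => DD))
    (h : w.prod = inc b z) : w.toList.length ≤ 1 := by
  by_cases hz : z = 1
  · subst hz
    have : w = Word.empty := word_prod_injective (by rw [h]; simp)
    rw [this]
    simp
  · have h2 : (NeWord.singleton (M := fun _ : Bool => DD) (i := b) z hz).toWord.prod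
        = inc b z := NeWord.prod_singleton (M := fun _ : Bool => DD) z hz
    have : w = (NeWord.singleton (M := fun _ : Bool => DD) (i := b) z hz).toWord :=
      word_prod_injective (by rw [h, h2])
    rw [this]
    simp [NeWord.toWord]

theorem aux_inv {G : Type*} [Group G] {a n : G} (h : a = n⁻¹) : a⁻¹ = n := by
  rw [h, inv_inv]

theorem aux_tail {G : Type*} [Group G] {a t n : G} (h : a * t = n⁻¹) : t = a⁻¹ * n⁻¹ := by
  rw [← h]; group

theorem aux_conj {G : Type*} [Group G] (a x n t : G) (h : t = a⁻¹ * n⁻¹) :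
    t⁻¹ * (a⁻¹ * x * a) * t = n * x * n⁻¹ := by
  rw [h]; group

theorem aux_mul_inv {G : Type*} [Group G] (a b : G) : (a * b)⁻¹ = b⁻¹ * a⁻¹ := mul_inv_rev a b

theorem aux_comm {G : Type*} [Group G] {x n : G} (h : Commute n x) : n * x * n⁻¹ = x := by
  rw [h.eq, mul_inv_cancel_right]

/-- Malnormality of the factors. -/
theorem malnormal (b : Bool) (x : DD) (hx : x ≠ 1) (n : NN)
    (h : n * inc b x * n⁻¹ ∈ (inc b).range) : n ∈ (inc b).range := by
  classical
  obtain ⟨z, hz⟩ := h
  -- decompose `n⁻¹ = a * t`
  set w := (Word.equiv (M := fun _ : Bool => DD) n⁻¹) with hw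
  have hwp : w.prod = n⁻¹ := (Word.equiv (M := fun _ : Bool => DD)).symm_apply_apply n⁻¹
  set p := Word.equivPair (M := fun _ : Bool => DD) b w with hp
  have hpp : inc b p.head * p.tail.prod = n⁻¹ := by
    have := Word.equivPair_head_smul_equivPair_tail (M := fun _ : Bool => DD) (i := b) w
    rw [← hwp, ← this, Word.prod_smul, ← hp]
  by_cases ht : p.tail = Word.empty
  · rw [ht, Word.prod_empty, mul_one] at hpp
    refine ⟨p.head⁻¹, ?_⟩
    rw [map_inv]
    exact aux_inv (G := NN) hpp
  · exfalso
    obtain ⟨i, j, w', hw'⟩ := NeWord.of_word p.tail ht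
    have hi : i ≠ b := by
      intro hib
      apply p.fstIdx_ne
      rw [← hw']
      unfold Word.fstIdx
      change Option.map Sigma.fst w'.toList.head? = some b
      rw [NeWord.toList_head?]
      simp [hib]
    have hx' : (p.head)⁻¹ * x * p.head ≠ 1 := by
      intro h1
      apply hx
      have : x = p.head * ((p.head)⁻¹ * x * p.head) * (p.head)⁻¹ := by group
      rw [this, h1]; group
    -- `inc b z = t⁻¹ * inc b (h⁻¹ x h) * t`
    set W := NeWord.append (NeWord.append w'.inv hi
      (NeWord.singleton (M := fun _ : Bool => DD) (i := b) _ hx')) hi.symm w' with hW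
    have hWp : W.toWord.prod = inc b z := by
      change W.prod = _
      rw [hz, hW, NeWord.append_prod, NeWord.append_prod, NeWord.inv_prod, NeWord.prod_singleton]
      have e1 : w'.prod = p.tail.prod := by
        unfold NeWord.prod; rw [hw']
      rw [e1]
      have e2 : p.tail.prod = (inc b p.head)⁻¹ * n⁻¹ := aux_tail (G := NN) hpp
      have e3 : inc b (p.head⁻¹ * x * p.head) = (inc b p.head)⁻¹ * inc b x * inc b p.head := by
        rw [map_mul, map_mul, map_inv]
      change (p.tail.prod)⁻¹ * inc b (p.head⁻¹ * x * p.head) * p.tail.prod = n * inc b x * n⁻¹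
      rw [e3]
      exact aux_conj (G := NN) _ _ _ _ e2
    have := toList_of_inc b z _ hWp
    have h1 : 0 < w'.inv.toList.length := List.length_pos_iff.2 (NeWord.toList_ne_nil _)
    have h2 : 0 < w'.toList.length := List.length_pos_iff.2 (NeWord.toList_ne_nil _)
    have h3 : W.toWord.toList = (w'.inv.toList ++ [⟨b, (p.head)⁻¹ * x * p.head⟩]) ++ w'.toList :=
      rfl
    rw [h3] at this
    simp only [List.length_append, List.length_singleton] at this
    omega

/-- consequence: centralisers of factor elements (D is abelian) -/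
theorem mem_range_of_commute (b : Bool) (x : DD) (hx : x ≠ 1) (n : NN)
    (h : Commute n (inc b x)) : n ∈ (inc b).range := by
  apply malnormal b x hx n
  exact ⟨x, (aux_comm (G := NN) h).symm⟩

instance : Infinite DD := by
  apply Infinite.of_injective (fun n : ℕ => (Multiplicative.ofAdd
    (DFinsupp.single n (1 : ZMod (kk n))) : DD))
  intro m n h
  by_contra hmn
  have h1 : (DFinsupp.single m (1 : ZMod (kk m)) : Π₀ n : ℕ, ZMod (kk n)) =
    DFinsupp.single n (1 : ZMod (kk n)) := Multiplicative.ofAdd.injective h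
  have h2 := DFunLike.congr_fun h1 m
  rw [DFinsupp.single_eq_same, DFinsupp.single_eq_of_ne (by simpa using hmn)] at h2
  have : Fact (1 < kk m) := ⟨by unfold kk; omega⟩
  exact one_ne_zero h2

/-- a factor has infinite index; more precisely a finite index subgroup meets every factor
nontrivially (DD is infinite) -/
theorem exists_mem_inter (L : Subgroup NN) [L.FiniteIndex] (b : Bool) :
    ∃ x : DD, x ≠ 1 ∧ inc b x ∈ L := by
  by_contra hcon
  push Not at hcon
  have hbot : L.comap (inc b) = ⊥ := by
    rw [Subgroup.eq_bot_iff_forall]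
    intro x hx
    by_contra hx1
    exact hcon x hx1 hx
  have hfi : (L.comap (inc b)).FiniteIndex :=
    ⟨by
      rw [Subgroup.index_comap]
      exact (Subgroup.isFiniteRelIndex_of_finiteIndex (H := L)).relIndex_ne_zero⟩
  rw [hbot] at hfi
  have : Finite DD := by
    have h1 : Nat.card DD ≠ 0 := by
      rw [← Subgroup.index_bot]
      exact hfi.index_ne_zero
    exact Nat.finite_of_card_ne_zero h1
  exact not_finite DD

/-- Two commuting subgroups with product of finite index: one is trivial. -/
theorem NN_commuting (P Q : Subgroup NN) (hPQ : ∀ p ∈ P, ∀ q ∈ Q, Commute p q)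
    (hfi : (P ⊔ Q).FiniteIndex) : P = ⊥ ∨ Q = ⊥ := by
  classical
  -- elements of `P ⊔ Q` are products
  have hsup : ∀ g ∈ P ⊔ Q, ∃ p ∈ P, ∃ q ∈ Q, g = p * q := by
    intro g hg
    have hle : P ⊔ Q ≤ Subgroup.closure {g | ∃ p ∈ P, ∃ q ∈ Q, g = p * q} := by
      rw [sup_le_iff]
      constructor
      · intro p hp
        exact Subgroup.subset_closure ⟨p, hp, 1, Q.one_mem, by simp⟩
      · intro q hq
        exact Subgroup.subset_closure ⟨1, P.one_mem, q, hq, by simp⟩
    have hg' := hle hg
    clear hg
    induction hg' using Subgroup.closure_induction with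
    | mem x hx => exact hx
    | one => exact ⟨1, P.one_mem, 1, Q.one_mem, by simp⟩
    | mul x y _ _ hx hy =>
      obtain ⟨p, hp, q, hq, rfl⟩ := hx
      obtain ⟨p', hp', q', hq', rfl⟩ := hy
      refine ⟨p * p', P.mul_mem hp hp', q * q', Q.mul_mem hq hq', ?_⟩
      have := (hPQ p' hp' q hq).eq
      calc p * q * (p' * q') = p * (q * p') * q' := by group
        _ = p * (p' * q) * q' := by rw [this]
        _ = _ := by group
    | inv x _ hx =>
      obtain ⟨p, hp, q, hq, rfl⟩ := hx
      refine ⟨p⁻¹, P.inv_mem hp, q⁻¹, Q.inv_mem hq, ?_⟩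
      rw [(hPQ p hp q hq).eq]
      exact aux_mul_inv (G := NN) q p
  -- the key: `P ⊔ Q` cannot be contained in the first factor
  have hkey : ¬ (P ⊔ Q ≤ (inc false).range) := by
    intro hle
    obtain ⟨x, hx, hxL⟩ := exists_mem_inter (P ⊔ Q) true
    obtain ⟨y, hy⟩ := hle hxL
    exact hx (inc_inter hy).2
  obtain ⟨a, ha, haL⟩ := exists_mem_inter (P ⊔ Q) false
  obtain ⟨p, hp, q, hq, hpq⟩ := hsup _ haL
  have hcp : Commute p (inc false a) := by
    rw [hpq]
    exact (Commute.refl p).mul_right (hPQ p hp q hq)
  have hcq : Commute q (inc false a) := by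
    rw [hpq]
    exact (hPQ p hp q hq).symm.mul_right (Commute.refl q)
  obtain ⟨p₀, hp₀⟩ := mem_range_of_commute false a ha p hcp
  obtain ⟨q₀, hq₀⟩ := mem_range_of_commute false a ha q hcq
  -- symmetric argument
  have main : ∀ (R S : Subgroup NN), (∀ p ∈ R, ∀ q ∈ S, Commute p q) →
      (R ⊔ S = P ⊔ Q) → (∃ r₀ : DD, r₀ ≠ 1 ∧ inc false r₀ ∈ R) → S = ⊥ := by
    intro R S hRS hsup' ⟨r₀, hr₀, hr⟩
    by_contra hS
    have hSle : S ≤ (inc false).range := by
      intro s hs
      exact mem_range_of_commute false r₀ hr₀ s (hRS _ hr s hs).symm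
    obtain ⟨s, hs, hs1⟩ : ∃ s ∈ S, s ≠ 1 := by
      by_contra hc
      push Not at hc
      exact hS ((Subgroup.eq_bot_iff_forall S).2 hc)
    obtain ⟨s₀, hs₀⟩ := hSle hs
    have hs₀1 : s₀ ≠ 1 := by
      rintro rfl
      apply hs1
      rw [← hs₀, map_one]
    have hRle : R ≤ (inc false).range := by
      intro r hr'
      exact mem_range_of_commute false s₀ hs₀1 r (by rw [hs₀]; exact hRS r hr' s hs)
    apply hkey
    rw [← hsup']
    exact sup_le hRle hSle
  by_cases hp1 : p₀ = 1
  · have hq1 : q₀ ≠ 1 := by
      rintro rfl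
      subst hp1
      rw [← hp₀, ← hq₀, map_one, one_mul] at hpq
      exact ha (inc_injective false (by rw [hpq, map_one]))
    left
    exact main Q P (fun q hq p hp => (hPQ p hp q hq).symm) (sup_comm _ _)
      ⟨q₀, hq1, by rw [hq₀]; exact hq⟩
  · right
    exact main P Q hPQ rfl ⟨p₀, hp1, by rw [hp₀]; exact hp⟩

/-- The set W of words not starting with a letter of the second factor. -/
theorem exists_ping_pong : ∃ W : Set NN, (1 : NN) ∈ W ∧
    (∀ x : DD, x ≠ 1 → ∀ h : NN, h ∉ W → inc false x * h ∈ W) ∧
    (∀ y : DD, y ≠ 1 → ∀ h : NN, h ∈ W → inc true y * h ∉ W) := by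
  refine ⟨{h | FI h ≠ some true}, ?_, ?_, ?_⟩
  · simp [FI_one]
  · intro x hx h hh
    simp only [Set.mem_ofPred_eq, not_not] at hh ⊢
    rw [FI_mul false x hx h (by rw [hh]; simp)]
    simp
  · intro y hy h hh
    simp only [Set.mem_ofPred_eq, not_not] at hh ⊢
    exact FI_mul true y hy h hh

/-- products of nontrivial elements of the two factors have infinite order -/
theorem orderOf_mul_eq_zero (x y : DD) (hx : x ≠ 1) (hy : y ≠ 1) :
    orderOf (inc false x * inc true y) = 0 := by
  have key : ∀ k : ℕ, FI ((inc false x * inc true y) ^ (k + 1)) = some false := by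
    intro k
    induction k with
    | zero =>
      rw [zero_add, pow_one]
      apply FI_mul false x hx
      have := FI_mul true y hy 1 (by rw [FI_one]; simp)
      rw [mul_one] at this
      rw [this]; simp
    | succ k ih =>
      rw [pow_succ', mul_assoc]
      apply FI_mul false x hx
      rw [FI_mul true y hy _ (by rw [ih]; simp)]
      simp
  rw [orderOf_eq_zero_iff']
  intro n hn h
  obtain ⟨k, rfl⟩ : ∃ k, n = k + 1 := ⟨n - 1, by omega⟩
  have := key k
  rw [h, FI_one] at this
  simp at this

end P1

end MP6c9f91
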