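import Mathlib

/-!
# Definitions for the Gleason-Yamabe part (stage 2 of MP_6c9f91_an)
-/

open Topology Filter Pointwise

namespace GY

universe u v w

section

variable (G : Type u) [Group G] [TopologicalSpace G]

/-- No small subgroups: some neighbourhood of `1` contains no nontrivial subgroup. -/
def NSS : Prop := ∃ W ∈ 𝓝 (1 : G), ∀ S : Subgroup G, (S : Set G) ⊆ W → S = ⊥

/-- A Gleason norm: a length function defining the topology, with the escape and the commutator
estimates. -/
structure GleasonNorm where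
  /-- the length -/
  N : G → ℝ
  /-- the constant -/
  C : ℝ
  one_le : 1 ≤ C
  nonneg : ∀ g, 0 ≤ N g
  eq_one : ∀ g, N g = 0 → g = 1
  map_one : N 1 = 0
  map_inv : ∀ g, N g⁻¹ = N g
  map_mul : ∀ g h, N (g * h) ≤ N g + N h
  small : ∀ U ∈ 𝓝 (1 : G), ∃ r > 0, ∀ g, N g < r → g ∈ U
  nhds : ∀ r > 0, {g | N g < r} ∈ 𝓝 (1 : G)
  escape : ∀ (g : G) (n : ℕ), n * N g ≤ 1 / C → n * N g ≤ C * N (g ^ n)
  comm : ∀ g h, N g ≤ 1 / C → N h ≤ 1 / C → N (g * h * g⁻¹ * h⁻¹) ≤ C * N g * N h

/-- One-parameter subgroups. -/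
structure OPS where
  /-- the underlying map -/
  toFun : ℝ → G
  cont : Continuous toFun
  map_add : ∀ s t, toFun (s + t) = toFun s * toFun t

/-- The Lie algebra (as a normed space) with its exponential map. -/
structure LieData where
  /-- the Lie algebra -/
  E : Type u
  [instN : NormedAddCommGroup E]
  [instS : NormedSpace ℝ E]
  [instF : FiniteDimensional ℝ E]
  /-- the exponential map -/
  e : E → G
  cont : Continuous e
  add_smul : ∀ (X : E) (s t : ℝ), e ((s + t) • X) = e (s • X) * e (t • X)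
  exists_unique : ∀ f : OPS G, ∃! X : E, ∀ t : ℝ, f.toFun t = e (t • X)
  inj : ∃ r > 0, Set.InjOn e (Metric.ball 0 r)
  nhds : ∀ r > 0, e '' Metric.ball 0 r ∈ 𝓝 (1 : G)
  trotter : ∀ X Y : E, ∃ t₀ > 0, ∀ t : ℝ, |t| ≤ t₀ →
    Tendsto (fun n : ℕ => (e ((t / n) • X) * e ((t / n) • Y)) ^ n) atTop
      (𝓝 (e (t • (X + Y))))

attribute [instance] LieData.instN LieData.instS LieData.instF

/-- The dimension of a group admitting Lie data (the smallest dimension of Lie data, all of them
have in fact the same dimension). -/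
noncomputable def dimL : ℕ := sInf {n | ∃ D : LieData G, n = Module.finrank ℝ D.E}

end

end GY
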