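import Pool.Agent.MP6c9f91.FreeProd

/-!
# Algebraic properties of the group `Gam`
-/

open MeasureTheory Monoid

namespace MP6c9f91

universe u v w

/-! ## Generalities -/

section General

variable {G G' : Type*} [Group G] [Group G']

theorem finiteIndex_comap (f : G' →* G) (H : Subgroup G) [H.FiniteIndex] :
    (H.comap f).FiniteIndex :=
  ⟨by
    rw [Subgroup.index_comap]
    exact (Subgroup.isFiniteRelIndex_of_finiteIndex (H := H)).relIndex_ne_zero⟩

theorem finiteIndex_map (f : G →* G') (H : Subgroup G) (hH : H.FiniteIndex)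
    (hf : f.range.FiniteIndex) : (H.map f).FiniteIndex :=
  ⟨by
    rw [Subgroup.index_map]
    refine mul_ne_zero ?_ hf.index_ne_zero
    exact (Subgroup.finiteIndex_of_le (H := H) (K := H ⊔ f.ker) le_sup_left).index_ne_zero⟩

theorem mem_sup_of_commute {P Q : Subgroup G} (hPQ : ∀ p ∈ P, ∀ q ∈ Q, Commute p q) {g : G}
    (hg : g ∈ P ⊔ Q) : ∃ p ∈ P, ∃ q ∈ Q, g = p * q := by
  have hle : P ⊔ Q ≤ Subgroup.closure {g | ∃ p ∈ P, ∃ q ∈ Q, g = p * q} := by
    rw [sup_le_iff]
    constructor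
    · intro p hp
      exact Subgroup.subset_closure ⟨p, hp, 1, Q.one_mem, by simp⟩
    · intro q hq
      exact Subgroup.subset_closure ⟨1, P.one_mem, q, hq, by simp⟩
  have hg' := hle hg
  clear hg
  induction hg' using Subgroup.closure_induction with
  | mem x hx => exact hx
  | one => exact ⟨1, P.one_mem, 1, Q.one_mem, by simp⟩
  | mul x y _ _ hx hy =>
    obtain ⟨p, hp, q, hq, rfl⟩ := hx
    obtain ⟨p', hp', q', hq', rfl⟩ := hy
    refine ⟨p * p', P.mul_mem hp hp', q * q', Q.mul_mem hq hq', ?_⟩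
    have := (hPQ p' hp' q hq).eq
    calc p * q * (p' * q') = p * (q * p') * q' := by group
      _ = p * (p' * q) * q' := by rw [this]
      _ = _ := by group
  | inv x _ hx =>
    obtain ⟨p, hp, q, hq, rfl⟩ := hx
    refine ⟨p⁻¹, P.inv_mem hp, q⁻¹, Q.inv_mem hq, ?_⟩
    rw [(hPQ p hp q hq).eq]
    exact mul_inv_rev q p

end General

/-! ## Elements of `DD` -/

/-- The generator of the coordinate `i`. -/
def ee (i : ℕ) : DD := Multiplicative.ofAdd (DFinsupp.single i (1 : ZMod (kk i)))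

/-- Differences of generators. -/
def vv (i j : ℕ) : DD := (ee j)⁻¹ * ee i

theorem vv_apply {i j : ℕ} (h : i ≠ j) : (Multiplicative.toAdd (vv i j)) i = 1 := by
  unfold vv ee
  rw [toAdd_mul, toAdd_inv, toAdd_ofAdd, toAdd_ofAdd, DFinsupp.add_apply, DFinsupp.neg_apply,
    DFinsupp.single_eq_same, DFinsupp.single_eq_of_ne h, neg_zero, zero_add]

theorem two_ne_zero_kk (i : ℕ) : (1 : ZMod (kk i)) + 1 ≠ 0 := by
  intro h
  have h2 : ((2 : ℕ) : ZMod (kk i)) = 0 := by
    push_cast
    rw [← h]; norm_num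
  rw [ZMod.natCast_eq_zero_iff] at h2
  have := Nat.le_of_dvd (by norm_num) h2
  unfold kk at this
  omega

theorem one_ne_zero_kk (i : ℕ) : (1 : ZMod (kk i)) ≠ 0 := by
  have : Fact (1 < kk i) := ⟨by unfold kk; omega⟩
  exact one_ne_zero

theorem vv_ne_one {i j : ℕ} (h : i ≠ j) : vv i j ≠ 1 := by
  intro h1
  have := vv_apply h
  rw [h1] at this
  exact one_ne_zero_kk i this.symm

theorem vv_sq_ne_one {i j : ℕ} (h : i ≠ j) : vv i j * vv i j ≠ 1 := by
  intro h1
  have h2 : (Multiplicative.toAdd (vv i j * vv i j)) i = 1 + 1 := by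
    rw [toAdd_mul, DFinsupp.add_apply, vv_apply h]
  rw [h1] at h2
  exact two_ne_zero_kk i h2.symm

theorem exists_vv (K : Subgroup DD) [K.FiniteIndex] : ∃ i j, i ≠ j ∧ vv i j ∈ K := by
  obtain ⟨j, i, hij, h⟩ := Finite.exists_ne_map_eq_of_infinite
    (fun n : ℕ => (QuotientGroup.mk (ee n) : DD ⧸ K))
  exact ⟨i, j, hij.symm, QuotientGroup.eq.1 h⟩

theorem parity_one (i : ℕ) : parity i 1 = Additive.ofMul (-1 : ℤˣ) := by
  have h1 : (1 : ZMod (kk i)) = ((1 : ℤ) : ZMod (kk i)) := by push_cast; rfl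
  rw [h1, parity, ZMod.lift_coe]
  simp

theorem parityD_vv {i j : ℕ} (h : i ≠ j) : parityD (vv i j) i = -1 := by
  show (parity i ((Multiplicative.toAdd (vv i j)) i)).toMul = -1
  rw [vv_apply h, parity_one]
  rfl

theorem sgn_sq (κ : Sgn) : κ * κ = 1 := by
  funext n
  exact Int.units_mul_self _

/-! ## Irreducibility -/

instance : Infinite NN := Infinite.of_injective _ (inc_injective false)

/-- The inclusion of the normal factor. -/
abbrev iN : NN →* Gam := SemidirectProduct.inl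

/-- The projection to the quotient. -/
abbrev rH : Gam →* NN := SemidirectProduct.rightHom

theorem iN_injective : Function.Injective iN := SemidirectProduct.inl_injective

instance instInfiniteGam : Infinite Gam := Infinite.of_injective iN iN_injective

theorem grp_aux1 {G : Type*} [Group G] {a b z : G} (h : a * b = z * a) : a * b * a⁻¹ = z := by
  rw [h, mul_assoc, mul_inv_cancel, mul_one]

theorem grp_aux2 {G : Type*} [Group G] (a z : G) (h : a = 1) : a * z * a⁻¹ = z := by
  rw [h, one_mul, inv_one, mul_one]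

/-! ### Semidirect products in general -/

section Semi

variable {N G : Type*} [Group N] [Group G] {φ : G →* MulAut N}

theorem semi_commute_inl {g : N ⋊[φ] G} {z : N} (h : Commute g (SemidirectProduct.inl z)) :
    g.left * φ g.right z * g.left⁻¹ = z := by
  have h1 := congrArg SemidirectProduct.left h.eq
  rw [SemidirectProduct.mul_left, SemidirectProduct.mul_left, SemidirectProduct.left_inl,
    SemidirectProduct.right_inl, map_one, MulAut.one_apply] at h1
  exact grp_aux1 h1

theorem semi_eq_inl {Q : Subgroup (N ⋊[φ] G)}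
    (hQ : Q.map (SemidirectProduct.rightHom : N ⋊[φ] G →* G) = ⊥) :
    ∀ q ∈ Q, q = SemidirectProduct.inl q.left := by
  intro q hq
  have h1 : (SemidirectProduct.rightHom : N ⋊[φ] G →* G) q = 1 := by
    have : (SemidirectProduct.rightHom : N ⋊[φ] G →* G) q ∈
        Q.map (SemidirectProduct.rightHom : N ⋊[φ] G →* G) := Subgroup.mem_map_of_mem _ hq
    rw [hQ] at this
    exact Subgroup.mem_bot.1 this
  refine SemidirectProduct.ext rfl ?_
  rw [SemidirectProduct.right_inl]
  exact h1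

theorem semi_finiteIndex (P Q : Subgroup (N ⋊[φ] G)) (hPQ : ∀ p ∈ P, ∀ q ∈ Q, Commute p q)
    (hfi : (P ⊔ Q).FiniteIndex)
    (hQ : Q.map (SemidirectProduct.rightHom : N ⋊[φ] G →* G) = ⊥) :
    (P.comap SemidirectProduct.inl ⊔ Q.comap SemidirectProduct.inl).FiniteIndex ∧
    (P.map (SemidirectProduct.rightHom : N ⋊[φ] G →* G)).FiniteIndex ∧
    ∀ p ∈ P.comap (SemidirectProduct.inl : N →* N ⋊[φ] G),
      ∀ q ∈ Q.comap (SemidirectProduct.inl : N →* N ⋊[φ] G), Commute p q := by
  have hQr := semi_eq_inl hQ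
  refine ⟨?_, ?_, ?_⟩
  · have hle1 : (P ⊔ Q).comap (SemidirectProduct.inl : N →* N ⋊[φ] G) ≤
        P.comap SemidirectProduct.inl ⊔ Q.comap SemidirectProduct.inl := by
      intro x hx
      obtain ⟨p, hp, q, hq, hpq⟩ := mem_sup_of_commute hPQ (Subgroup.mem_comap.1 hx)
      have hq' := hQr q hq
      have hq1 : q.left ∈ Q.comap (SemidirectProduct.inl : N →* N ⋊[φ] G) := by
        rw [Subgroup.mem_comap, ← hq']
        exact hq
      have hp1 : x * q.left⁻¹ ∈ P.comap (SemidirectProduct.inl : N →* N ⋊[φ] G) := by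
        rw [Subgroup.mem_comap, map_mul, map_inv, ← hq', hpq, mul_assoc, mul_inv_cancel, mul_one]
        exact hp
      have : x = (x * q.left⁻¹) * q.left := by rw [mul_assoc, inv_mul_cancel, mul_one]
      rw [this]
      exact Subgroup.mul_mem _ (Subgroup.mem_sup_left hp1) (Subgroup.mem_sup_right hq1)
    have hfi1 : ((P ⊔ Q).comap (SemidirectProduct.inl : N →* N ⋊[φ] G)).FiniteIndex :=
      finiteIndex_comap _ _
    exact Subgroup.finiteIndex_of_le hle1
  · have h1 : ((P ⊔ Q).map (SemidirectProduct.rightHom : N ⋊[φ] G →* G)).FiniteIndex := by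
      refine finiteIndex_map _ _ hfi ?_
      rw [MonoidHom.range_eq_top.2 SemidirectProduct.rightHom_surjective]
      infer_instance
    rwa [Subgroup.map_sup, hQ, sup_bot_eq] at h1
  · intro p hp q hq
    refine SemidirectProduct.inl_injective (φ := φ) ?_
    rw [map_mul, map_mul]
    exact (hPQ _ hp _ hq).eq

theorem semi_reduce (P Q : Subgroup (N ⋊[φ] G)) (hPQ : ∀ p ∈ P, ∀ q ∈ Q, Commute p q)
    (hfi : (P ⊔ Q).FiniteIndex)
    (hG : ∀ P Q : Subgroup G, (∀ p ∈ P, ∀ q ∈ Q, Commute p q) → (P ⊔ Q).FiniteIndex →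
      P = ⊥ ∨ Q = ⊥)
    (hmain : ∀ P Q : Subgroup (N ⋊[φ] G), (∀ p ∈ P, ∀ q ∈ Q, Commute p q) →
      (P ⊔ Q).FiniteIndex → Q.map (SemidirectProduct.rightHom : N ⋊[φ] G →* G) = ⊥ →
      P = ⊥ ∨ Q = ⊥) : P = ⊥ ∨ Q = ⊥ := by
  have h1 : ((P ⊔ Q).map (SemidirectProduct.rightHom : N ⋊[φ] G →* G)).FiniteIndex := by
    refine finiteIndex_map _ _ hfi ?_
    rw [MonoidHom.range_eq_top.2 SemidirectProduct.rightHom_surjective]
    infer_instance
  rw [Subgroup.map_sup] at h1
  have h2 : ∀ p ∈ P.map (SemidirectProduct.rightHom : N ⋊[φ] G →* G),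
      ∀ q ∈ Q.map (SemidirectProduct.rightHom : N ⋊[φ] G →* G), Commute p q := by
    rintro _ ⟨p, hp, rfl⟩ _ ⟨q, hq, rfl⟩
    exact (hPQ p hp q hq).map (SemidirectProduct.rightHom : N ⋊[φ] G →* G)
  rcases hG _ _ h2 h1 with h | h
  · exact (hmain Q P (fun q hq p hp => (hPQ p hp q hq).symm) (by rw [sup_comm]; exact hfi) h).symm
  · exact hmain P Q hPQ hfi h

end Semi

theorem bot_not_finiteIndex : ¬ (⊥ : Subgroup Gam).FiniteIndex := by
  intro h
  have h1 : Nat.card Gam ≠ 0 := by
    rw [← Subgroup.index_bot]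
    exact h.index_ne_zero
  have : Finite Gam := Nat.finite_of_card_ne_zero h1
  exact not_finite Gam

theorem flipD_injective (κ : Sgn) : Function.Injective (flipD κ) := by
  intro x y h
  have h1 : (flipD (κ * κ)) x = (flipD (κ * κ)) y := by
    rw [flipD_mul, MonoidHom.comp_apply, MonoidHom.comp_apply, h]
  rw [sgn_sq, flipD_one] at h1
  exact h1

theorem flipD_ne_one (κ : Sgn) {y : DD} (hy : y ≠ 1) : flipD κ y ≠ 1 := by
  intro h
  apply hy
  apply flipD_injective κ
  rw [h, map_one]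

/-- The essential case of `Gam_commuting`. -/
theorem Gam_commuting_aux (P Q : Subgroup Gam) (hPQ : ∀ p ∈ P, ∀ q ∈ Q, Commute p q)
    (hfi : (P ⊔ Q).FiniteIndex)
    (hQ : Subgroup.map (N := NN) rH Q = ⊥) : P = ⊥ ∨ Q = ⊥ := by
  -- elements of `Q` are in the image of `inl`
  have hQr : ∀ q ∈ Q, q = iN q.left := semi_eq_inl (N := NN) (G := NN) hQ
  obtain ⟨hfi2, hPr, hcomm1⟩ := semi_finiteIndex (N := NN) (G := NN) P Q hPQ hfi hQ
  rcases NN_commuting _ _ hcomm1 hfi2 with h | h
  swap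
  · right
    rw [Subgroup.eq_bot_iff_forall]
    intro q hq
    have h1 : q.left ∈ Subgroup.comap (G := NN) iN Q := by
      show iN q.left ∈ Q
      rw [← hQr q hq]; exact hq
    have h2 : q.left = 1 := by
      have h3 : q.left ∈ (⊥ : Subgroup NN) := h ▸ h1
      exact Subgroup.mem_bot.1 h3
    rw [hQr q hq, h2, map_one]
  -- now `P ⊓ range inl = ⊥` and `Q₁` has finite index
  exfalso
  set Q₁ : Subgroup NN := Subgroup.comap (G := NN) iN Q with hQ₁
  have hfiQ : Q₁.FiniteIndex := by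
    have h3 : (⊥ ⊔ Q₁ : Subgroup NN).FiniteIndex := h ▸ hfi2
    rwa [bot_sup_eq] at h3
  obtain ⟨x, hx, hxQ⟩ := exists_mem_inter Q₁ false
  have hpl : ∀ p ∈ P, p.left = 1 ∧ ∀ y : DD, y ≠ 1 → inc true y ∈ Q₁ →
      flipD (piN p.right) y = y := by
    intro p hp
    have h1 := semi_commute_inl (N := NN) (G := NN) (hPQ p hp _ hxQ)
    rw [theta_apply, flipN_inc_false] at h1
    have hn1 : p.left ∈ (inc false).range :=
      malnormal false x hx p.left ⟨x, h1.symm⟩
    have hy' : ∀ y : DD, inc true y ∈ Q₁ →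
        p.left * inc true (flipD (piN p.right) y) * p.left⁻¹ = inc true y := by
      intro y hyQ
      have h2 := semi_commute_inl (N := NN) (G := NN) (hPQ p hp _ hyQ)
      rwa [theta_apply, flipN_inc_true] at h2
    obtain ⟨y, hy, hyQ⟩ := exists_mem_inter Q₁ true
    have hn2 : p.left ∈ (inc true).range :=
      malnormal true _ (flipD_ne_one _ hy) p.left ⟨y, (hy' y hyQ).symm⟩
    obtain ⟨a, ha⟩ := hn1
    obtain ⟨b, hb⟩ := hn2
    have hab : a = 1 := (inc_inter (ha.trans hb.symm)).1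
    have hleft : p.left = 1 := by rw [← ha, hab, map_one]
    refine ⟨hleft, fun y' _ hyQ' => ?_⟩
    have h3 := hy' y' hyQ'
    have h4 := (grp_aux2 (G := NN) p.left (inc true (flipD (piN p.right) y')) hleft)
    exact inc_injective true (h4.symm.trans h3)
  have hK : ((Subgroup.comap (N := NN) (inc true) Q₁) ⊓
      (Subgroup.comap (N := NN) (inc true) (Subgroup.map (N := NN) rH P))).FiniteIndex := by
    have h1 := finiteIndex_comap (G := NN) (inc true) Q₁
    have h2 : (Subgroup.comap (N := NN) (inc true) (Subgroup.map (N := NN) rH P)).FiniteIndex :=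
      @finiteIndex_comap NN DD _ _ (inc true) (Subgroup.map (N := NN) rH P) hPr
    infer_instance
  obtain ⟨i, j, hij, hv⟩ := @exists_vv _ hK
  obtain ⟨hv1, hv2⟩ := Subgroup.mem_inf.1 hv
  obtain ⟨p, hp, hpv⟩ := hv2
  have h1 := (hpl p hp).2 (vv i j) (vv_ne_one hij) hv1
  have h2 : p.right = inc true (vv i j) := hpv
  rw [h2, piN_inc_true] at h1
  have h3 : (Multiplicative.toAdd (flipD (parityD (vv i j)) (vv i j))) i =
      (Multiplicative.toAdd (vv i j)) i := by rw [h1]
  rw [flipD_apply, vv_apply hij, parityD_vv hij] at h3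
  apply two_ne_zero_kk i
  have h4 : (((-1 : ℤˣ) : ℤ) • (1 : ZMod (kk i))) = -1 := by simp
  rw [h4] at h3
  nth_rewrite 1 [← h3]
  exact neg_add_cancel _

theorem Gam_commuting (P Q : Subgroup Gam) (hPQ : ∀ p ∈ P, ∀ q ∈ Q, Commute p q)
    (hfi : (P ⊔ Q).FiniteIndex) : P = ⊥ ∨ Q = ⊥ :=
  semi_reduce (N := NN) (G := NN) P Q hPQ hfi NN_commuting Gam_commuting_aux

/-- An element of `Gam` whose centraliser contains a finite index subgroup is trivial. -/
theorem Gam_icc (g : Gam) (C : Subgroup Gam) [C.FiniteIndex] (h : ∀ c ∈ C, Commute g c) :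
    g = 1 := by
  have h1 : ∀ p ∈ Subgroup.zpowers g, ∀ q ∈ C, Commute p q := by
    rintro _ ⟨n, rfl⟩ q hq
    exact (h q hq).zpow_left n
  have h2 : (Subgroup.zpowers g ⊔ C).FiniteIndex :=
    Subgroup.finiteIndex_of_le (H := C) le_sup_right
  rcases Gam_commuting _ _ h1 h2 with h3 | h3
  · exact Subgroup.zpowers_eq_bot.1 h3
  · exact absurd (h3 ▸ (inferInstance : C.FiniteIndex)) bot_not_finiteIndex

/-- A finite subgroup normalised by a finite index subgroup is trivial. -/
theorem Gam_finite_normal (L : Subgroup Gam) [L.FiniteIndex] (M : Subgroup Gam) [Finite M]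
    (hM : ∀ l ∈ L, ∀ m ∈ M, l * m * l⁻¹ ∈ M) : M = ⊥ := by
  rw [Subgroup.eq_bot_iff_forall]
  intro m hm
  -- the stabiliser of `m` in `L` acting by conjugation
  let f : L → M := fun l => ⟨(l : Gam) * m * (l : Gam)⁻¹, hM l l.2 m hm⟩
  let C : Subgroup Gam := L ⊓ Subgroup.centralizer {m}
  have hC : C.FiniteIndex := by
    have h1 : (Subgroup.centralizer {m}).IsFiniteRelIndex L := by
      rw [Subgroup.isFiniteRelIndex_iff_finiteIndex]
      rw [Subgroup.finiteIndex_iff_finite_quotient]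
      refine Finite.of_injective
        (β := M) (fun q => Quotient.liftOn' q f ?_) ?_
      · intro a b hab
        rw [QuotientGroup.leftRel_apply] at hab
        have h2 : (a : Gam)⁻¹ * b ∈ Subgroup.centralizer {m} := hab
        rw [Subgroup.mem_centralizer_singleton_iff] at h2
        apply Subtype.ext
        show (a : Gam) * m * (a : Gam)⁻¹ = (b : Gam) * m * (b : Gam)⁻¹
        have h3 : (b : Gam) * m = a * m * ((a : Gam)⁻¹ * b) := by
          calc (b : Gam) * m = a * (((a : Gam)⁻¹ * b) * m) := by group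
            _ = a * (m * ((a : Gam)⁻¹ * b)) := by rw [h2]
            _ = _ := by group
        rw [h3]
        group
      · intro q q'
        refine Quotient.inductionOn₂' q q' fun a b => ?_
        intro hab
        have h2 : (a : Gam) * m * (a : Gam)⁻¹ = (b : Gam) * m * (b : Gam)⁻¹ :=
          congrArg Subtype.val hab
        refine Quotient.sound' ?_
        rw [QuotientGroup.leftRel_apply]
        show (a : Gam)⁻¹ * b ∈ Subgroup.centralizer {m}
        rw [Subgroup.mem_centralizer_singleton_iff]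
        calc (a : Gam)⁻¹ * b * m = (a : Gam)⁻¹ * (b * m * (b : Gam)⁻¹) * b := by group
          _ = (a : Gam)⁻¹ * (a * m * (a : Gam)⁻¹) * b := by rw [h2]
          _ = _ := by group
    have h2 : C = L ⊓ Subgroup.centralizer {m} := rfl
    refine ⟨?_⟩
    have h3 := Subgroup.relIndex_mul_index (H := C) (K := L) inf_le_left
    rw [← h3]
    refine mul_ne_zero ?_ (inferInstance : L.FiniteIndex).index_ne_zero
    rw [h2, inf_comm, Subgroup.inf_relIndex_right]
    exact h1.relIndex_ne_zero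
  refine Gam_icc m C fun c hc => ?_
  have := (Subgroup.mem_inf.1 hc).2
  rw [Subgroup.mem_centralizer_singleton_iff] at this
  exact this.symm

/-! ## Paradoxical pairs -/

/-- The inclusion of the acting factor. -/
abbrev iR : NN →* Gam := SemidirectProduct.inr

theorem commute_inr_inl {h : NN} (hh : piN h = 1) (z : NN) : Commute (iR h) (iN z) := by
  have h1 := SemidirectProduct.inl_aut (φ := theta) h z
  have h2 : theta h z = z := by
    rw [theta_apply, hh, flipN_one]; rfl
  rw [h2] at h1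
  show iR h * iN z = iN z * iR h
  have h3 : iN z * iR h = (iR h * iN z * SemidirectProduct.inr h⁻¹) * iR h := by
    rw [← h1]
  rw [h3, mul_assoc]
  have h4 : (SemidirectProduct.inr h⁻¹ : Gam) * iR h = 1 := by
    have h5 : (iR (h⁻¹ * h) : Gam) = 1 := by
      have h6 : h⁻¹ * h = 1 := inv_mul_cancel (G := NN) h
      rw [h6, map_one]
    rw [← h5]
    exact (map_mul iR h⁻¹ h).symm
  rw [h4, mul_one]

theorem iN_mul_left (n : NN) (g : Gam) : (iN n * g).left = n * g.left := by
  rw [SemidirectProduct.mul_left, SemidirectProduct.left_inl, SemidirectProduct.right_inl, map_one,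
    MulAut.one_apply]

theorem Gam_paradox (L : Subgroup Gam) [L.FiniteIndex] :
    ∃ p ∈ L, ∃ x ∈ L, ∃ y ∈ L, ∃ W : Set Gam, orderOf p = 0 ∧ Commute p x ∧ Commute p y ∧
      (∀ h ∈ W, y * h ∉ W ∧ y * y * h ∉ W) ∧ (∀ h, h ∉ W → x * h ∈ W ∧ x * x * h ∈ W) := by
  obtain ⟨i₁, j₁, h₁, hv₁⟩ := @exists_vv (L.comap (iN.comp (inc false))) (finiteIndex_comap _ _)
  obtain ⟨i₂, j₂, h₂, hv₂⟩ := @exists_vv (L.comap (iN.comp (inc true))) (finiteIndex_comap _ _)
  obtain ⟨i₃, j₃, h₃, hv₃⟩ := @exists_vv (L.comap (iR.comp (inc false))) (finiteIndex_comap _ _)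
  obtain ⟨i₄, j₄, h₄, hv₄⟩ := @exists_vv (L.comap (iR.comp (inc true))) (finiteIndex_comap _ _)
  obtain ⟨W, _, hW1, hW2⟩ := exists_ping_pong
  set a := vv i₁ j₁ with ha
  set b := vv i₂ j₂ with hb
  set c := vv i₃ j₃ with hc
  set d := vv i₄ j₄ * vv i₄ j₄ with hd
  have hpar : piN (inc false c * inc true d) = 1 := by
    rw [map_mul, piN_inc_false, piN_inc_true, one_mul, hd, map_mul, sgn_sq]
  refine ⟨iR (inc false c * inc true d), ?_, iN (inc false a), hv₁, iN (inc true b), hv₂,
    {g | g.left ∈ W}, ?_, commute_inr_inl hpar _, commute_inr_inl hpar _, ?_, ?_⟩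
  · rw [map_mul]
    refine L.mul_mem hv₃ ?_
    have h5 : iR (inc true d) = iR (inc true (vv i₄ j₄)) * iR (inc true (vv i₄ j₄)) := by
      rw [hd, map_mul, map_mul]
    rw [h5]
    exact L.mul_mem hv₄ hv₄
  · have h6 : orderOf (iR (inc false c * inc true d)) = orderOf (inc false c * inc true d) :=
      orderOf_injective iR SemidirectProduct.inr_injective _
    rw [h6]
    exact orderOf_mul_eq_zero c d (vv_ne_one h₃) (vv_sq_ne_one h₄)
  · intro h hh
    refine ⟨?_, ?_⟩
    · show ¬ (iN (inc true b) * h).left ∈ W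
      rw [iN_mul_left]
      exact hW2 b (vv_ne_one h₂) _ hh
    · show ¬ (iN (inc true b) * iN (inc true b) * h).left ∈ W
      rw [← map_mul, ← map_mul, iN_mul_left]
      exact hW2 _ (vv_sq_ne_one h₂) _ hh
  · intro h hh
    refine ⟨?_, ?_⟩
    · show (iN (inc false a) * h).left ∈ W
      rw [iN_mul_left]
      exact hW1 a (vv_ne_one h₁) _ hh
    · show (iN (inc false a) * iN (inc false a) * h).left ∈ W
      rw [← map_mul, ← map_mul, iN_mul_left]
      exact hW1 _ (vv_sq_ne_one h₁) _ hh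

/-! ## Lifting paradoxical pairs through a finite kernel -/

section Lift

variable {H : Type u} [Group H] {G : Type v} [Group G]

/-- If `φ p` and `φ z` commute and `p` centralises the finite kernel, then a power of `p` commutes
with `z`. -/
theorem commute_pow_of_ker {K : Type*} [Group K] (φ : K →* G) [Finite φ.ker] (p z : K)
    (hp : ∀ c ∈ φ.ker, Commute p c) (h : Commute (φ p) (φ z)) :
    Commute (p ^ Nat.card φ.ker) z := by
  set c : K := p * z * p⁻¹ * z⁻¹ with hc
  have hck : c ∈ φ.ker := by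
    rw [MonoidHom.mem_ker, hc, map_mul, map_mul, map_mul, map_inv, map_inv, h.eq]
    group
  have hcp : Commute p c := hp c hck
  have key : ∀ n : ℕ, p ^ n * z = c ^ n * z * p ^ n := by
    intro n
    induction n with
    | zero => simp
    | succ n ih =>
      have h1 : p * z = c * z * p := by rw [hc]; group
      have h2 : p ^ n * c = c * p ^ n := (hcp.pow_left n).eq
      calc p ^ (n + 1) * z = p ^ n * (p * z) := by rw [pow_succ, mul_assoc]
        _ = (p ^ n * c) * z * p := by rw [h1]; simp only [mul_assoc]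
        _ = c * (p ^ n * z) * p := by rw [h2]; simp only [mul_assoc]
        _ = c * (c ^ n * z * p ^ n) * p := by rw [ih]
        _ = _ := by rw [pow_succ', pow_succ]; simp only [mul_assoc]
  have hcm : c ^ Nat.card φ.ker = 1 := by
    have := pow_card_eq_one' (x := (⟨c, hck⟩ : φ.ker))
    exact congrArg Subtype.val this
  have := key (Nat.card φ.ker)
  rw [hcm, one_mul] at this
  exact this

theorem exists_pow_centralise {K : Type*} [Group K] (φ : K →* G) [Finite φ.ker] (p : K) :
    ∃ s : ℕ, 0 < s ∧ ∀ c ∈ φ.ker, Commute (p ^ s) c := by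
  have : Finite (MulAut φ.ker) := by
    refine Finite.of_injective (fun f : MulAut φ.ker => (f : φ.ker → φ.ker)) ?_
    intro f g hfg
    exact MulEquiv.ext fun x => congrFun hfg x
  refine ⟨orderOf (MulAut.conjNormal p : MulAut φ.ker), orderOf_pos _, fun c hc => ?_⟩
  have h1 : (MulAut.conjNormal (p ^ orderOf (MulAut.conjNormal p : MulAut φ.ker)) :
      MulAut φ.ker) = 1 := by
    rw [map_pow, pow_orderOf_eq_one]
  have h2 := MulAut.conjNormal_apply (p ^ orderOf (MulAut.conjNormal p : MulAut φ.ker))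
    (⟨c, hc⟩ : φ.ker)
  rw [h1, MulAut.one_apply] at h2
  have h3 : c = p ^ orderOf (MulAut.conjNormal p : MulAut φ.ker) * c *
    (p ^ orderOf (MulAut.conjNormal p : MulAut φ.ker))⁻¹ := h2
  show _ * c = c * _
  nth_rewrite 2 [h3]
  group

theorem hasParadox_lift (H' : Subgroup H) (φ : H' →* G) (hker : Finite φ.ker) (p₀ x₀ y₀ : H')
    (W : Set G) (hp : orderOf (φ p₀) = 0) (hpx : Commute (φ p₀) (φ x₀))
    (hpy : Commute (φ p₀) (φ y₀)) (hW1 : ∀ h ∈ W, φ y₀ * h ∉ W ∧ φ y₀ * φ y₀ * h ∉ W)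
    (hW2 : ∀ h, h ∉ W → φ x₀ * h ∈ W ∧ φ x₀ * φ x₀ * h ∈ W) : HasParadox H := by
  obtain ⟨s, hs, hsc⟩ := exists_pow_centralise φ p₀
  set m := Nat.card φ.ker with hm
  have hm0 : 0 < m := Nat.card_pos
  set q : H' := (p₀ ^ s) ^ m with hq
  have hqx : Commute q x₀ := commute_pow_of_ker φ (p₀ ^ s) x₀ hsc (by
    rw [map_pow]; exact hpx.pow_left s)
  have hqy : Commute q y₀ := commute_pow_of_ker φ (p₀ ^ s) y₀ hsc (by
    rw [map_pow]; exact hpy.pow_left s)
  -- representatives of the right cosets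
  let r : H → H := fun h => Quotient.out (Quotient.mk (QuotientGroup.rightRel H') h)
  have hr : ∀ h, h * (r h)⁻¹ ∈ H' := by
    intro h
    have := Quotient.mk_out (s := QuotientGroup.rightRel H') h
    exact QuotientGroup.rightRel_apply.1 this
  have hr2 : ∀ (a : H') (h : H), r ((a : H) * h) = r h := by
    intro a h
    have : (Quotient.mk (QuotientGroup.rightRel H') ((a : H) * h)) =
        Quotient.mk (QuotientGroup.rightRel H') h := by
      refine Quotient.sound ?_
      refine QuotientGroup.rightRel_apply.2 ?_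
      have : h * ((a : H) * h)⁻¹ = ((a⁻¹ : H') : H) := by
        rw [mul_inv_rev, mul_inv_cancel_left]; rfl
      rw [this]
      exact (a⁻¹).2
    show Quotient.out _ = Quotient.out _
    rw [this]
  let ψ : H → G := fun h => φ ⟨h * (r h)⁻¹, hr h⟩
  have hψ : ∀ (a : H') (h : H), ψ ((a : H) * h) = φ a * ψ h := by
    intro a h
    show φ ⟨(a : H) * h * (r ((a : H) * h))⁻¹, _⟩ = φ a * φ ⟨h * (r h)⁻¹, hr h⟩
    rw [← map_mul]
    congr 1
    apply Subtype.ext
    show (a : H) * h * (r ((a : H) * h))⁻¹ = (a : H) * (h * (r h)⁻¹)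
    rw [hr2, mul_assoc]
  refine ⟨q, x₀, y₀, {h | ψ h ∈ W}, ?_, ?_, ?_, ?_, ?_⟩
  · rw [Subgroup.orderOf_coe, orderOf_eq_zero_iff']
    intro n hn hqn
    have h1 : φ p₀ ^ (s * m * n) = 1 := by
      rw [← map_pow, pow_mul, pow_mul, ← hq, hqn, map_one]
    exact (orderOf_eq_zero_iff'.1 hp) (s * m * n) (by positivity) h1
  · exact congrArg Subtype.val hqx.eq
  · exact congrArg Subtype.val hqy.eq
  · intro h hh
    have h1 := hW1 (ψ h) hh
    refine ⟨?_, ?_⟩
    · show ¬ ψ ((y₀ : H) * h) ∈ W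
      rw [hψ]; exact h1.1
    · show ¬ ψ ((y₀ : H) * (y₀ : H) * h) ∈ W
      rw [mul_assoc, hψ, hψ, ← mul_assoc]; exact h1.2
  · intro h hh
    have h1 := hW2 (ψ h) hh
    refine ⟨?_, ?_⟩
    · show ψ ((x₀ : H) * h) ∈ W
      rw [hψ]; exact h1.1
    · show ψ ((x₀ : H) * (x₀ : H) * h) ∈ W
      rw [mul_assoc, hψ, hψ, ← mul_assoc]; exact h1.2

end Lift

/-- Lifting to a group which is virtually `Γ`. -/
theorem hasParadox_of_hom {H : Type u} [Group H] (H' : Subgroup H)
    (φ : H' →* Gam) (hker : Finite φ.ker) (hran : φ.range.FiniteIndex) : HasParadox H := by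
  obtain ⟨p, hp, x, hx, y, hy, W, h1, h2, h3, h4, h5⟩ := Gam_paradox φ.range
  obtain ⟨p₀, rfl⟩ := hp
  obtain ⟨x₀, rfl⟩ := hx
  obtain ⟨y₀, rfl⟩ := hy
  exact hasParadox_lift H' φ hker p₀ x₀ y₀ W h1 h2 h3 h4 h5

end MP6c9f91
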