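import Pool.Agent.MP6c9f91.NNAction

/-!
# P11: `Γ` is measure equivalent to `F₂ × F₂`
-/

open MeasureTheory Monoid

namespace MP6c9f91

theorem countable_NN : Countable NN := by
  classical
  have := countable_DD
  have h1 : Function.Injective
      (fun w : CoprodI.Word (fun _ : Bool => DD) => w.toList) := fun w w' h => CoprodI.Word.ext h
  have h2 : Function.Injective
      (fun n : NN => (CoprodI.Word.equiv n : CoprodI.Word (fun _ : Bool => DD)).toList) :=
    h1.comp (Equiv.injective _)
  exact h2.countable

theorem countable_Gam : Countable Gam := by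
  have := countable_NN
  have h : Function.Injective (fun g : Gam => ((g.left, g.right) : NN × NN)) := by
    intro g h e
    exact SemidirectProduct.ext (congrArg Prod.fst e) (congrArg Prod.snd e)
  exact h.countable

theorem measurableSet_units (S : Set ℤˣ) : MeasurableSet S :=
  ⟨Units.val '' S, trivial, Set.preimage_image_eq S Units.val_injective⟩

theorem measurableSet_flipD (d e : DD) : MeasurableSet {σ : Sgn | flipD σ d = e} := by
  have : {σ : Sgn | flipD σ d = e} = ⋂ n : ℕ, (fun σ : Sgn => σ n) ⁻¹'
      {u : ℤˣ | (u : ℤ) • (Multiplicative.toAdd d) n = (Multiplicative.toAdd e) n} := by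
    ext σ
    simp only [Set.mem_iInter, Set.mem_preimage, Set.mem_ofPred_eq]
    constructor
    · rintro rfl n
      rw [flipD_apply]
    · intro h
      exact DD.ext fun n => by rw [flipD_apply]; exact h n
  rw [this]
  exact MeasurableSet.iInter fun n => measurable_pi_apply n (measurableSet_units _)

theorem measurableSet_flipN (l : NN) : ∀ m : NN, MeasurableSet {σ : Sgn | flipN σ l = m} := by
  have := countable_NN
  induction l using CoprodI.induction_on with
  | one =>
    intro m
    simp only [map_one]
    exact MeasurableSet.const _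
  | of b d =>
    intro m
    cases b
    · have h : ∀ σ, flipN σ (CoprodI.of (M := fun _ : Bool => DD) (i := false) d) =
          inc false d := fun σ => flipN_inc_false σ d
      simp only [h]
      exact MeasurableSet.const _
    · have h : ∀ σ, flipN σ (CoprodI.of (M := fun _ : Bool => DD) (i := true) d) =
          inc true (flipD σ d) := fun σ => flipN_inc_true σ d
      simp only [h]
      by_cases hm : ∃ e : DD, inc true e = m
      · obtain ⟨e, rfl⟩ := hm
        have e1 : {σ : Sgn | inc true (flipD σ d) = inc true e} = {σ : Sgn | flipD σ d = e} := by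
          ext σ
          simp only [Set.mem_ofPred_eq]
          exact ⟨fun h => CoprodI.of_injective true h, fun h => by rw [h]⟩
        rw [e1]
        exact measurableSet_flipD d e
      · have e1 : {σ : Sgn | inc true (flipD σ d) = m} = ∅ := by
          ext σ
          simp only [Set.mem_ofPred_eq, Set.mem_empty_iff_false, iff_false]
          exact fun h => hm ⟨_, h⟩
        rw [e1]
        exact MeasurableSet.empty
  | mul a a' ha ha' =>
    intro m
    have e1 : {σ : Sgn | flipN σ (a * a') = m} =
        ⋃ p : NN, {σ : Sgn | flipN σ a = p} ∩ {σ : Sgn | flipN σ a' = p⁻¹ * m} := by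
      ext σ
      simp only [Set.mem_ofPred_eq, Set.mem_iUnion, Set.mem_inter_iff, map_mul]
      constructor
      · rintro rfl
        exact ⟨flipN σ a, rfl, (inv_mul_cancel_left (G := NN) (flipN σ a) (flipN σ a')).symm⟩
      · rintro ⟨p, rfl, h⟩
        rw [h]
        exact mul_inv_cancel_left (G := NN) (flipN σ a) m
    rw [e1]
    exact MeasurableSet.iUnion fun p => (ha p).inter (ha' _)

theorem flipN_injective (σ : Sgn) : Function.Injective (flipN σ) := by
  intro x y h
  exact (flipAut σ).injective h

/-- `Γ` acts on `X × X` by `(n₁,n₂)⋆(x₁,x₂) = (flipAut(κ(n₂x₂))⁻¹ n₁ • x₁, n₂ • x₂)`, with the same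
orbits as `NN × NN`, i.e. as `F₂ × F₂`. -/
theorem Gam_me : MEExact Gam F22 := by
  obtain ⟨X, mX, sX, μ, pμ, actN, actF, κ, hF, hmN, hfN, horb, hκm, hκ⟩ := exists_NN_action
  have cN := countable_NN
  have cG := countable_Gam
  let actF2 : MulAction F22 (X × X) :=
    { smul := fun w x => (w.1 • x.1, w.2 • x.2)
      one_smul := fun x => by
        change ((1 : FreeGroup (Fin 2)) • x.1, (1 : FreeGroup (Fin 2)) • x.2) = x
        rw [one_smul, one_smul]
      mul_smul := fun w w' x => by
        change ((w.1 * w'.1) • x.1, (w.2 * w'.2) • x.2) = (w.1 • w'.1 • x.1, w.2 • w'.2 • x.2)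
        rw [mul_smul, mul_smul] }
  have actF2_def : ∀ (w : F22) (x : X × X), w • x = (w.1 • x.1, w.2 • x.2) := fun w x => rfl
  let actG : MulAction Gam (X × X) :=
    { smul := fun g x => (flipN (κ (g.right • x.2))⁻¹ g.left • x.1, g.right • x.2)
      one_smul := fun x => by
        change (flipN (κ ((1 : Gam).right • x.2))⁻¹ (1 : Gam).left • x.1, (1 : Gam).right • x.2) = x
        rw [SemidirectProduct.one_left, SemidirectProduct.one_right, map_one, one_smul, one_smul]
      mul_smul := fun g h x => by
        change (flipN (κ ((g * h).right • x.2))⁻¹ (g * h).left • x.1, (g * h).right • x.2) =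
          (flipN (κ (g.right • h.right • x.2))⁻¹ g.left • flipN (κ (h.right • x.2))⁻¹ h.left • x.1,
            g.right • h.right • x.2)
        rw [SemidirectProduct.mul_left, SemidirectProduct.mul_right, mul_smul g.right, map_mul,
          mul_smul, theta_apply]
        congr 2
        have e1 : flipN (κ (g.right • h.right • x.2))⁻¹ (flipN (piN g.right) h.left) =
            flipN ((κ (g.right • h.right • x.2))⁻¹ * piN g.right) h.left := by
          rw [flipN_mul]
          rfl
        rw [e1, hκ, mul_inv_rev, inv_mul_cancel_right] }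
  have actG_def : ∀ (g : Gam) (x : X × X),
      g • x = (flipN (κ (g.right • x.2))⁻¹ g.left • x.1, g.right • x.2) := fun g x => rfl
  have horbN : ∀ x y : X × X, (∃ g : Gam, g • x = y) ↔
      (∃ n : NN, n • x.1 = y.1) ∧ ∃ n : NN, n • x.2 = y.2 := by
    intro x y
    constructor
    · rintro ⟨g, rfl⟩
      exact ⟨⟨_, rfl⟩, ⟨_, rfl⟩⟩
    · rintro ⟨⟨n₁, h₁⟩, ⟨n₂, h₂⟩⟩
      refine ⟨⟨flipN (κ (n₂ • x.2)) n₁, n₂⟩, ?_⟩
      rw [actG_def]
      have e1 : flipN (κ (n₂ • x.2))⁻¹ (flipN (κ (n₂ • x.2)) n₁) = n₁ := by
        have := DFunLike.congr_fun (flipN_mul (κ (n₂ • x.2))⁻¹ (κ (n₂ • x.2))) n₁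
        rw [inv_mul_cancel, flipN_one] at this
        exact this.symm
      exact Prod.ext (by rw [← h₁]; exact congrArg (· • x.1) e1) h₂
  refine me_of_oe (X × X) (μ.prod μ) (G := F22) (H := Gam) ⟨fun w => ?_, fun w x h => ?_⟩ ?_ ?_ ?_
  · exact (hF.mp w.1).prod (hF.mp w.2)
  · rw [actF2_def] at h
    exact Prod.ext (hF.free _ _ (congrArg Prod.fst h)) (hF.free _ _ (congrArg Prod.snd h))
  · intro g
    have h2 : Measurable fun x : X × X => g.right • x.2 := (hmN g.right).comp measurable_snd
    refine Measurable.prodMk ?_ h2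
    intro S hS
    have e1 : (fun x : X × X => flipN (κ (g.right • x.2))⁻¹ g.left • x.1) ⁻¹' S =
        ⋃ m : NN, {x : X × X | flipN (κ (g.right • x.2))⁻¹ g.left = m} ∩
          (fun x : X × X => m • x.1) ⁻¹' S := by
      ext x
      simp only [Set.mem_preimage, Set.mem_iUnion, Set.mem_inter_iff, Set.mem_ofPred_eq]
      constructor
      · intro h
        exact ⟨_, rfl, h⟩
      · rintro ⟨m, rfl, h⟩
        exact h
    change MeasurableSet ((fun x : X × X => flipN (κ (g.right • x.2))⁻¹ g.left • x.1) ⁻¹' S)
    rw [e1]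
    refine MeasurableSet.iUnion fun m => MeasurableSet.inter ?_
      (((hmN m).comp measurable_fst) hS)
    have h3 : Measurable fun x : X × X => κ (g.right • x.2) := hκm.comp h2
    have h4 : MeasurableSet {σ : Sgn | flipN σ⁻¹ g.left = m} := by
      have : {σ : Sgn | flipN σ⁻¹ g.left = m} = {σ : Sgn | flipN σ g.left = m} := by
        ext σ
        have : σ⁻¹ = σ := by
          funext n
          exact Int.units_inv_eq_self _
        simp only [Set.mem_ofPred_eq, this]
      rw [this]
      exact measurableSet_flipN _ _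
    exact h3 h4
  · intro g x h
    rw [actG_def] at h
    have h1 : g.right = 1 := hfN _ _ (congrArg Prod.snd h)
    have h2 := hfN _ _ (congrArg Prod.fst h)
    have h3 : g.left = 1 := by
      apply flipN_injective (κ (g.right • x.2))⁻¹
      rw [h2, map_one]
    exact SemidirectProduct.ext h3 h1
  · intro x y
    rw [horbN, horb, horb]
    constructor
    · rintro ⟨w, rfl⟩
      exact ⟨⟨w.1, rfl⟩, ⟨w.2, rfl⟩⟩
    · rintro ⟨⟨w₁, h₁⟩, ⟨w₂, h₂⟩⟩
      exact ⟨(w₁, w₂), Prod.ext h₁ h₂⟩

end MP6c9f91
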