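import Pool.Agent.MP6c9f91.GleasonFn
import Pool.Agent.MP6c9f91.Escape

/-!
# T4b: a locally compact group without small subgroups has a Gleason norm
-/

open Topology Filter Pointwise

universe u v w

namespace GY

namespace T4b

section basic

variable {G : Type u} [Group G]

theorem esc_bddBelow (U : Set G) (g : G) :
    BddBelow {r : ℝ | ∃ n : ℕ, r = 1 / (n + 1) ∧ ∀ j ≤ n, g ^ j ∈ U} :=
  ⟨0, by rintro r ⟨n, rfl, -⟩; positivity⟩

theorem esc_nonneg (U : Set G) (g : G) : 0 ≤ esc U g := by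
  apply Real.sInf_nonneg
  rintro r ⟨n, rfl, -⟩
  positivity

theorem esc_le (U : Set G) (g : G) (n : ℕ) (h : ∀ j ≤ n, g ^ j ∈ U) :
    esc U g ≤ 1 / ((n : ℝ) + 1) :=
  csInf_le (esc_bddBelow U g) ⟨n, rfl, h⟩

theorem esc_le_one {U : Set G} (h1 : (1 : G) ∈ U) (g : G) : esc U g ≤ 1 := by
  have := esc_le U g 0 (by
    intro j hj
    obtain rfl : j = 0 := by omega
    simpa using h1)
  simpa using this

theorem le_esc {U : Set G} (h1 : (1 : G) ∈ U) (g : G) (a : ℝ)
    (h : ∀ n : ℕ, (∀ j ≤ n, g ^ j ∈ U) → a ≤ 1 / ((n : ℝ) + 1)) : a ≤ esc U g := by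
  apply le_csInf
  · exact ⟨1, 0, by simp, by
      intro j hj
      obtain rfl : j = 0 := by omega
      simpa using h1⟩
  · rintro r ⟨n, rfl, hn⟩
    exact h n hn

theorem pow_mem_of_esc {U : Set G} (h1 : (1 : G) ∈ U) {g : G} {n : ℕ}
    (h : n * esc U g < 1) : ∀ j ≤ n, g ^ j ∈ U := by
  intro j hj
  by_contra hcon
  have hn : 0 < n := by
    rcases Nat.eq_zero_or_pos n with rfl | h'
    · obtain rfl : j = 0 := by omega
      simp only [pow_zero] at hcon
      exact absurd h1 hcon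
    · exact h'
  have hn' : (0 : ℝ) < n := by exact_mod_cast hn
  have h2 : 1 / (n : ℝ) ≤ esc U g := le_esc h1 g _ (fun m hm => by
    have hmn : m < n := by
      by_contra hmn
      exact hcon (hm j (by omega))
    have : (m : ℝ) + 1 ≤ n := by exact_mod_cast hmn
    exact one_div_le_one_div_of_le (by positivity) this)
  have h3 : 1 ≤ n * esc U g := by
    calc (1 : ℝ) = n * (1 / n) := by field_simp
      _ ≤ _ := by gcongr
  linarith

theorem mem_of_esc {U : Set G} (h1 : (1 : G) ∈ U) {g : G} (h : esc U g < 1) : g ∈ U := by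
  have := pow_mem_of_esc (n := 1) h1 (g := g) (by simpa using h) 1 le_rfl
  simpa using this

theorem esc_le_mul {U V : Set G} (h1 : (1 : G) ∈ U) {g g' : G} {n₀ : ℕ} (hn₀ : 1 ≤ n₀)
    (h : ∀ n : ℕ, (∀ j ≤ n₀ * n, g ^ j ∈ U) → ∀ j ≤ n, g' ^ j ∈ V) :
    esc V g' ≤ n₀ * esc U g := by
  have hpos : (0 : ℝ) < n₀ := by exact_mod_cast hn₀
  rw [← div_le_iff₀' hpos]
  apply le_esc h1
  intro m hm
  have h2 : esc V g' ≤ 1 / (((m / n₀ : ℕ) : ℝ) + 1) :=
    esc_le V g' (m / n₀) (h _ (fun j hj => hm j (hj.trans (Nat.mul_div_le m n₀))))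
  rw [div_le_iff₀' hpos]
  refine h2.trans ?_
  have h3 : m + 1 ≤ n₀ * (m / n₀ + 1) := by
    have := Nat.lt_mul_div_succ m hn₀
    omega
  have h4 : (m : ℝ) + 1 ≤ n₀ * (((m / n₀ : ℕ) : ℝ) + 1) := by exact_mod_cast h3
  rw [mul_one_div, div_le_div_iff₀ (by positivity) (by positivity), one_mul]
  exact h4

theorem esc_inv {U : Set G} (hs : U⁻¹ = U) (g : G) : esc U g⁻¹ = esc U g := by
  have hmem : ∀ x : G, x⁻¹ ∈ U ↔ x ∈ U := by
    intro x
    constructor
    · intro hx
      rw [← hs]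
      exact hx
    · intro hx
      rw [← hs] at hx
      exact hx
  unfold esc
  simp only [inv_pow, hmem]

theorem esc_one {U : Set G} (h1 : (1 : G) ∈ U) : esc U 1 = 0 := by
  apply le_antisymm _ (esc_nonneg U 1)
  refine le_of_forall_pos_le_add ?_
  intro ε hε
  obtain ⟨n, hn⟩ := exists_nat_one_div_lt hε
  have := esc_le U (1 : G) n (by intro j _; simpa using h1)
  linarith

theorem le_of_forall_nat {e a : ℝ} (ha : 0 ≤ a)
    (h : ∀ n : ℕ, n * a < 1 → e ≤ 1 / ((n : ℝ) + 1)) : e ≤ a := by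
  by_contra hcon
  push Not at hcon
  have he : 0 < e := lt_of_le_of_lt ha hcon
  have h1 : (⌊1 / e⌋₊ : ℝ) ≤ 1 / e := Nat.floor_le (by positivity)
  have h2 : 1 / e < (⌊1 / e⌋₊ : ℝ) + 1 := Nat.lt_floor_add_one _
  set n := ⌊1 / e⌋₊ with hn
  have h3 : (n : ℝ) * e ≤ 1 := by
    rw [le_div_iff₀ he] at h1
    exact h1
  have h4 : (n : ℝ) * a < 1 := by
    rcases Nat.eq_zero_or_pos n with h0 | h0
    · rw [h0]
      simp
    · have : (0 : ℝ) < n := by exact_mod_cast h0
      have : (n : ℝ) * a < n * e := by gcongr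
      linarith
  have h5 := h n h4
  have h6 : 1 / ((n : ℝ) + 1) < e := by
    rw [div_lt_iff₀ (by positivity)]
    rw [div_lt_iff₀ he] at h2
    linarith
  linarith

/-- no nontrivial subgroup inside: zero escape norm means trivial -/
theorem eq_one_of_esc {U : Set G} (h1 : (1 : G) ∈ U) (hs : U⁻¹ = U)
    (hns : ∀ S : Subgroup G, (S : Set G) ⊆ U → S = ⊥) {g : G} (hg : esc U g = 0) : g = 1 := by
  have hpow : ∀ n : ℕ, g ^ n ∈ U := fun n =>
    pow_mem_of_esc (n := n) h1 (by rw [hg]; simp) n le_rfl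
  have hz : (Subgroup.zpowers g : Set G) ⊆ U := by
    rintro x ⟨k, rfl⟩
    obtain ⟨n, rfl | rfl⟩ := k.eq_nat_or_neg
    · simpa using hpow n
    · have : g ^ n ∈ U⁻¹ := by rw [hs]; exact hpow n
      simpa using this
  have := hns _ hz
  rw [Subgroup.zpowers_eq_bot] at this
  exact this

/-- the largest length function below `e` -/
noncomputable def len (e : G → ℝ) (g : G) : ℝ :=
  sInf {r | ∃ l : List G, l.prod = g ∧ (l.map e).sum = r}

variable {e : G → ℝ}

omit [Group G] in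
theorem sum_nonneg' (he : ∀ g, 0 ≤ e g) (l : List G) : 0 ≤ (l.map e).sum := by
  apply List.sum_nonneg
  intro x hx
  obtain ⟨y, -, rfl⟩ := List.mem_map.1 hx
  exact he y

theorem len_nonneg (he : ∀ g, 0 ≤ e g) (g : G) : 0 ≤ len e g := by
  apply Real.sInf_nonneg
  rintro r ⟨l, -, rfl⟩
  exact sum_nonneg' he l

theorem len_le (he : ∀ g, 0 ≤ e g) (l : List G) : len e l.prod ≤ (l.map e).sum :=
  csInf_le ⟨0, by rintro r ⟨l, -, rfl⟩; exact sum_nonneg' he l⟩ ⟨l, rfl, rfl⟩

theorem len_le_self (he : ∀ g, 0 ≤ e g) (g : G) : len e g ≤ e g := by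
  have := len_le he [g]
  simpa using this

theorem le_len (g : G) (a : ℝ) (h : ∀ l : List G, l.prod = g → a ≤ (l.map e).sum) :
    a ≤ len e g := by
  apply le_csInf
  · exact ⟨_, [g], by simp, rfl⟩
  · rintro r ⟨l, hl, rfl⟩
    exact h l hl

theorem len_one (he : ∀ g, 0 ≤ e g) : len e 1 = 0 := by
  apply le_antisymm _ (len_nonneg he 1)
  have := len_le he []
  simpa using this

theorem len_mul (he : ∀ g, 0 ≤ e g) (g h : G) : len e (g * h) ≤ len e g + len e h := by
  have h1 : len e (g * h) - len e h ≤ len e g := by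
    apply le_len
    intro l hl
    have h2 : len e (g * h) - (l.map e).sum ≤ len e h := by
      apply le_len
      intro l' hl'
      have := len_le he (l ++ l')
      rw [List.prod_append, hl, hl', List.map_append, List.sum_append] at this
      linarith
    linarith
  linarith

theorem len_inv (he : ∀ g, 0 ≤ e g) (hi : ∀ g, e g⁻¹ = e g) (g : G) :
    len e g⁻¹ = len e g := by
  have key : ∀ g, len e g⁻¹ ≤ len e g := by
    intro g
    apply le_len
    intro l hl
    have h1 := len_le he (l.map fun x => x⁻¹).reverse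
    rw [← List.prod_inv_reverse, hl] at h1
    refine h1.trans (le_of_eq ?_)
    rw [List.map_reverse, List.sum_reverse, List.map_map]
    congr 1
    apply List.map_congr_left
    intro x _
    exact hi x
  apply le_antisymm (key g)
  have := key g⁻¹
  rwa [inv_inv] at this

end basic

section top

variable {G : Type u} [Group G] [TopologicalSpace G] [IsTopologicalGroup G]

omit [TopologicalSpace G] [IsTopologicalGroup G] in
theorem inv_mul_four {U : Set G} (hs : U⁻¹ = U) : (U * U * U * U)⁻¹ = U * U * U * U := by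
  simp only [mul_inv_rev, hs, mul_assoc]

theorem exists_conj_nhds (B : Set G) (hB : IsCompact B) (U : Set G) (hU : U ∈ 𝓝 (1 : G)) :
    ∃ V ∈ 𝓝 (1 : G), ∀ h ∈ B, ∀ v ∈ V, h * v * h⁻¹ ∈ U := by
  obtain ⟨u, v, hu, hv, hBu, h1v, huv⟩ :=
    generalized_tube_lemma hB (isCompact_singleton (x := (1 : G)))
      (n := {p : G × G | p.1 * p.2 * p.1⁻¹ ∈ interior U})
      (isOpen_interior.preimage (by fun_prop)) (by
        rintro ⟨a, b⟩ ⟨ha, hb⟩
        simp only [Set.mem_singleton_iff] at hb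
        subst hb
        simp [mem_interior_iff_mem_nhds, hU])
  refine ⟨v, hv.mem_nhds (h1v rfl), fun h hh x hx => ?_⟩
  have h3 : (h, x) ∈ {p : G × G | p.1 * p.2 * p.1⁻¹ ∈ interior U} :=
    huv (Set.mk_mem_prod (hBu hh) hx)
  exact interior_subset h3

variable [T2Space G] [LocallyCompactSpace G]

theorem exists_good_nhds (h : NSS G) : ∃ U : Set G, IsCompact U ∧ U ∈ 𝓝 (1 : G) ∧ U⁻¹ = U ∧
    ∀ S : Subgroup G, (S : Set G) ⊆ U * U * U * U → S = ⊥ := by
  obtain ⟨W, hW, hns⟩ := h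
  obtain ⟨V₁, hV₁, -, hV₁s, hV₁W⟩ := exists_closed_nhds_one_inv_eq_mul_subset hW
  obtain ⟨V₂, hV₂, hV₂c, hV₂s, hV₂W⟩ := exists_closed_nhds_one_inv_eq_mul_subset hV₁
  obtain ⟨K, hKc, hK⟩ := exists_compact_mem_nhds (1 : G)
  have hK' : K⁻¹ ∈ 𝓝 (1 : G) := by
    have := inv_mem_nhds_one G hK
    exact this
  refine ⟨V₂ ∩ (K ∩ K⁻¹), ?_, ?_, ?_, ?_⟩
  · exact (hKc.inter_right hKc.inv.isClosed).inter_left hV₂c
  · exact Filter.inter_mem hV₂ (Filter.inter_mem hK hK')
  · rw [Set.inter_inv, Set.inter_inv, inv_inv, hV₂s, Set.inter_comm K⁻¹ K]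
  · intro S hS
    apply hns
    refine hS.trans ?_
    rw [mul_assoc (_ * _)]
    refine (Set.mul_subset_mul ?_ ?_).trans hV₁W
    · exact (Set.mul_subset_mul Set.inter_subset_left Set.inter_subset_left).trans hV₂W
    · exact (Set.mul_subset_mul Set.inter_subset_left Set.inter_subset_left).trans hV₂W

theorem conj_bound (U : Set G) (hUc : IsCompact U) (hU1 : U ∈ 𝓝 (1 : G)) (hUs : U⁻¹ = U)
    (hns : ∀ S : Subgroup G, (S : Set G) ⊆ U → S = ⊥) (B : Set G) (hB : IsCompact B) :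
    ∃ n₀ : ℕ, 1 ≤ n₀ ∧ ∀ h ∈ B, ∀ g, esc U (h * g * h⁻¹) ≤ n₀ * esc U g := by
  obtain ⟨V, hV, hVU⟩ := exists_conj_nhds B hB U hU1
  obtain ⟨n₀, hn₀, hc⟩ := esc_compare V U hV hUc hns hUs
  refine ⟨n₀, hn₀, fun h hh g => esc_le_mul (mem_of_mem_nhds hU1) hn₀ ?_⟩
  intro n hn j hj
  rw [conj_pow]
  exact hVU h hh _ (hc g n hn j hj)

theorem comm_bound (U : Set G) (hUc : IsCompact U) (hU1 : U ∈ 𝓝 (1 : G)) (hUs : U⁻¹ = U)
    (hns : ∀ S : Subgroup G, (S : Set G) ⊆ U * U * U * U → S = ⊥) :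
    ∃ K : ℝ, 0 ≤ K ∧ ∀ g ∈ U, ∀ h ∈ U,
      esc U (g * h * g⁻¹ * h⁻¹) ≤ K * esc U g * esc U h := by
  have h1 : (1 : G) ∈ U := mem_of_mem_nhds hU1
  have hU4 : U ⊆ U * U * U * U := by
    intro x hx
    exact ⟨x * 1 * 1, ⟨x * 1, ⟨x, hx, 1, h1, rfl⟩, 1, h1, rfl⟩, 1, h1, by simp⟩
  obtain ⟨M, hM1, hM⟩ := esc_prod U hUc hU1 hUs hns
  obtain ⟨c, C, V, hc, hC, -, hw⟩ := gleason_weight G U hUc hU1 hUs
  obtain ⟨φ, hφ1, -, hφs, -, -, -, hφD⟩ := hw (fun g => M * esc U g)
    (fun g => mul_nonneg (by linarith) (esc_nonneg U g)) (fun g => by rw [esc_inv hUs])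
    (fun l hl => by
      rw [List.sum_map_mul_left] at hl
      exact mem_of_esc h1 (lt_of_le_of_lt (hM l) hl))
  obtain ⟨nB, hnB, hB⟩ := conj_bound U hUc hU1 hUs (fun S hS => hns S (hS.trans hU4))
    (U * U * U * U * U * U)⁻¹ (((((hUc.mul hUc).mul hUc).mul hUc).mul hUc).mul hUc).inv
  obtain ⟨n₁, hn₁, hc1⟩ := esc_compare U (U * U * U * U) hU1
    (((hUc.mul hUc).mul hUc).mul hUc) hns (inv_mul_four hUs)
  have hM0 : 0 ≤ M := by linarith
  refine ⟨n₁ * (2 * (C * M * (M * nB))) / c, by positivity, ?_⟩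
  intro g hg h hh
  have hD : ∀ g ∈ U, ∀ h ∈ U, ∀ x,
      |(φ (g * (h * x)) - φ (h * x)) - (φ (g * x) - φ x)| ≤
        C * M * (M * nB) * (esc U g * esc U h) := by
    intro g hg h hh x
    have := hφD g hg h hh (M * (nB * esc U h)) (by
      intro x hx
      have h2 := hB x⁻¹ (Set.inv_mem_inv.2 hx) h⁻¹
      rw [inv_inv, esc_inv hUs] at h2
      gcongr) x
    refine this.trans (le_of_eq ?_)
    ring
  set E := 2 * (C * M * (M * nB)) * (esc U g * esc U h) with hE
  have hE0 : 0 ≤ E := by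
    have := esc_nonneg U g
    have := esc_nonneg U h
    positivity
  set k := g * h * g⁻¹ * h⁻¹ with hk
  have hkx : ∀ x, |φ (k * x) - φ x| ≤ E := by
    intro x
    have e1 : k * x = g * (h * (g⁻¹ * h⁻¹ * x)) := by rw [hk]; group
    have e2 : x = h * (g * (g⁻¹ * h⁻¹ * x)) := by group
    have a1 := abs_le.1 (hD g hg h hh (g⁻¹ * h⁻¹ * x))
    have a2 := abs_le.1 (hD h hh g hg (g⁻¹ * h⁻¹ * x))
    have e3 : φ (k * x) - φ x =
        ((φ (g * (h * (g⁻¹ * h⁻¹ * x))) - φ (h * (g⁻¹ * h⁻¹ * x))) -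
          (φ (g * (g⁻¹ * h⁻¹ * x)) - φ (g⁻¹ * h⁻¹ * x))) -
        ((φ (h * (g * (g⁻¹ * h⁻¹ * x))) - φ (g * (g⁻¹ * h⁻¹ * x))) -
          (φ (h * (g⁻¹ * h⁻¹ * x)) - φ (g⁻¹ * h⁻¹ * x))) := by
      rw [e1, ← e2]
      ring
    have e4 : esc U h * esc U g = esc U g * esc U h := mul_comm _ _
    rw [e4] at a2
    rw [e3, abs_le, hE]
    constructor
    · linarith [a1.1, a2.2]
    · linarith [a1.2, a2.1]
  have hkj : ∀ j : ℕ, |φ (k ^ j) - φ 1| ≤ j * E := by
    intro j
    induction j with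
    | zero => simp
    | succ j ih =>
      have h3 := hkx (k ^ j)
      rw [← pow_succ'] at h3
      have h4 : φ (k ^ (j + 1)) - φ 1 = (φ (k ^ (j + 1)) - φ (k ^ j)) + (φ (k ^ j) - φ 1) := by
        ring
      rw [h4]
      refine (abs_add_le _ _).trans ?_
      push_cast
      linarith
  have key : esc U k ≤ n₁ * E / c := by
    apply le_of_forall_nat (by positivity)
    intro n hn
    apply esc_le
    apply hc1
    intro j hj
    apply hφs
    have h5 : (j : ℝ) * E < c := by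
      rw [← mul_div_assoc, div_lt_one hc] at hn
      have h6 : (j : ℝ) ≤ n₁ * n := by exact_mod_cast hj
      have h7 : (j : ℝ) * E ≤ n₁ * n * E := by gcongr
      have h8 : (n₁ : ℝ) * n * E = n * (n₁ * E) := by ring
      linarith
    have h6 := abs_le.1 (hkj j)
    have : 0 < φ (k ^ j) := by linarith [h6.1]
    exact this.ne'
  refine key.trans (le_of_eq ?_)
  rw [hE]
  ring

theorem escape_bound (U : Set G) (hUc : IsCompact U) (hU1 : U ∈ 𝓝 (1 : G)) (hUs : U⁻¹ = U)
    (hns : ∀ S : Subgroup G, (S : Set G) ⊆ U * U * U * U → S = ⊥) :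
    ∃ n₂ : ℕ, 1 ≤ n₂ ∧ ∀ (g : G) (n : ℕ), n * esc U g < 1 →
      n * esc U g ≤ n₂ * esc U (g ^ n) := by
  have h1 : (1 : G) ∈ U := mem_of_mem_nhds hU1
  have hU2 : U * U ⊆ U * U * U * U := by
    intro x hx
    exact ⟨x * 1, ⟨x, hx, 1, h1, rfl⟩, 1, h1, by simp⟩
  have h12 : (1 : G) ∈ U * U := ⟨1, h1, 1, h1, by simp⟩
  obtain ⟨n₂, hn₂, hc⟩ := esc_compare U (U * U) hU1 (hUc.mul hUc)
    (fun S hS => hns S (hS.trans hU2)) (by rw [mul_inv_rev, hUs])
  refine ⟨n₂, hn₂, ?_⟩
  intro g n hn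
  rcases Nat.eq_zero_or_pos n with rfl | hn0
  · have := esc_nonneg U (g ^ 0)
    simp only [Nat.cast_zero, zero_mul]
    positivity
  have hn0' : (0 : ℝ) < n := by exact_mod_cast hn0
  have a1 : esc U g ≤ n₂ * esc (U * U) g := esc_le_mul h12 hn₂ (fun m hm => hc g m hm)
  have hpow := pow_mem_of_esc h1 hn
  have a2 : n * esc (U * U) g ≤ esc U (g ^ n) := by
    apply le_esc h1
    intro m hm
    have a3 : esc (U * U) g ≤ 1 / (((n * (m + 1) - 1 : ℕ) : ℝ) + 1) := by
      apply esc_le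
      intro i hi
      have hpos : 0 < n * (m + 1) := by positivity
      have hi' : i < n * (m + 1) := by omega
      have hq : i / n ≤ m := by
        have := Nat.div_lt_of_lt_mul hi'
        omega
      have hr : i % n ≤ n := (Nat.mod_lt _ hn0).le
      refine ⟨(g ^ n) ^ (i / n), hm _ hq, g ^ (i % n), hpow _ hr, ?_⟩
      simp only
      rw [← pow_mul, ← pow_add, Nat.div_add_mod]
    have a4 : (((n * (m + 1) - 1 : ℕ) : ℝ) + 1) = n * ((m : ℝ) + 1) := by
      have hpos : 1 ≤ n * (m + 1) := Nat.succ_le_of_lt (by positivity)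
      rw [Nat.cast_sub hpos]
      push_cast
      ring
    rw [a4] at a3
    calc n * esc (U * U) g ≤ n * (1 / (n * ((m : ℝ) + 1))) := by gcongr
      _ = 1 / ((m : ℝ) + 1) := by field_simp
  calc n * esc U g ≤ n * (n₂ * esc (U * U) g) := by gcongr
    _ = n₂ * (n * esc (U * U) g) := by ring
    _ ≤ n₂ * esc U (g ^ n) := by gcongr

end top

end T4b

variable {G : Type u} [Group G] [TopologicalSpace G] [IsTopologicalGroup G] [T2Space G]
  [LocallyCompactSpace G]

open T4b in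
/-- T4b: a locally compact group without small subgroups has a Gleason norm. -/
theorem exists_gleasonNorm (h : NSS G) : Nonempty (GleasonNorm G) := by
  obtain ⟨U, hUc, hU1, hUs, hns⟩ := exists_good_nhds h
  have h1 : (1 : G) ∈ U := mem_of_mem_nhds hU1
  have hU4 : U ⊆ U * U * U * U := by
    intro x hx
    exact ⟨x * 1 * 1, ⟨x * 1, ⟨x, hx, 1, h1, rfl⟩, 1, h1, rfl⟩, 1, h1, by simp⟩
  have hnsU : ∀ S : Subgroup G, (S : Set G) ⊆ U → S = ⊥ := fun S hS => hns S (hS.trans hU4)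
  obtain ⟨M, hM1, hM⟩ := esc_prod U hUc hU1 hUs hns
  obtain ⟨K, hK0, hK⟩ := comm_bound U hUc hU1 hUs hns
  obtain ⟨n₂, hn₂, hesc⟩ := escape_bound U hUc hU1 hUs hns
  have hM0 : 0 < M := by linarith
  have he := esc_nonneg U
  have hup : ∀ g, len (esc U) g ≤ esc U g := len_le_self he
  have hlow : ∀ g, esc U g ≤ M * len (esc U) g := by
    intro g
    rw [← div_le_iff₀' hM0]
    apply le_len
    intro l hl
    rw [div_le_iff₀' hM0, ← hl]
    exact hM l
  have hNn : ∀ g, 0 ≤ len (esc U) g := len_nonneg he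
  set C := M + 1 + n₂ * M + K * M ^ 2 with hC
  have hn2' : (0 : ℝ) ≤ n₂ := Nat.cast_nonneg _
  have hC1 : M < C := by
    have : 0 ≤ n₂ * M := by positivity
    have : 0 ≤ K * M ^ 2 := by positivity
    linarith
  have hC0 : 0 < C := by linarith
  have hCn : n₂ * M ≤ C := by
    have : 0 ≤ K * M ^ 2 := by positivity
    linarith
  have hCK : K * M ^ 2 ≤ C := by
    have : 0 ≤ n₂ * M := by positivity
    linarith
  have hMC : M * (1 / C) < 1 := by
    rw [mul_one_div, div_lt_one hC0]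
    exact hC1
  refine ⟨{
    N := len (esc U)
    C := C
    one_le := by linarith
    nonneg := hNn
    eq_one := ?_
    map_one := len_one he
    map_inv := len_inv he (esc_inv hUs)
    map_mul := len_mul he
    small := ?_
    nhds := ?_
    escape := ?_
    comm := ?_ }⟩
  · intro g hg
    apply eq_one_of_esc h1 hUs hnsU
    apply le_antisymm _ (he g)
    have := hlow g
    rw [hg, mul_zero] at this
    exact this
  · intro U' hU'
    obtain ⟨n₀, hn₀, hc⟩ := esc_compare U' U hU' hUc hnsU hUs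
    have hn₀' : (0 : ℝ) < n₀ := by exact_mod_cast hn₀
    refine ⟨1 / (n₀ * M), by positivity, ?_⟩
    intro g hg
    have h2 : n₀ * esc U g < 1 := by
      have h3 := hlow g
      rw [lt_div_iff₀ (by positivity)] at hg
      calc (n₀ : ℝ) * esc U g ≤ n₀ * (M * len (esc U) g) := by gcongr
        _ = len (esc U) g * (n₀ * M) := by ring
        _ < 1 := hg
    have h4 := pow_mem_of_esc h1 h2
    have h5 := hc g 1 (by simpa using h4) 1 le_rfl
    simpa using h5
  · intro r hr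
    obtain ⟨n, hn⟩ := exists_nat_one_div_lt hr
    have h2 : ∀ᶠ g in 𝓝 (1 : G), ∀ j ∈ Set.Iic n, g ^ j ∈ U := by
      rw [Filter.eventually_all_finite (Set.finite_Iic n)]
      intro j _
      have : Tendsto (fun g : G => g ^ j) (𝓝 1) (𝓝 1) := by
        have := (continuous_pow (M := G) j).tendsto 1
        simpa using this
      exact this hU1
    filter_upwards [h2] with g hg
    have h3 := T4b.esc_le U g n (fun j hj => hg j hj)
    have h4 := hup g
    show len (esc U) g < r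
    linarith
  · intro g n hn
    have h2 : n * esc U g < 1 := by
      calc (n : ℝ) * esc U g ≤ n * (M * len (esc U) g) := by gcongr; exact hlow g
        _ = M * (n * len (esc U) g) := by ring
        _ ≤ M * (1 / C) := by gcongr
        _ < 1 := hMC
    calc (n : ℝ) * len (esc U) g ≤ n * esc U g := by gcongr; exact hup g
      _ ≤ n₂ * esc U (g ^ n) := hesc g n h2
      _ ≤ n₂ * (M * len (esc U) (g ^ n)) := by gcongr; exact hlow _
      _ = (n₂ * M) * len (esc U) (g ^ n) := by ring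
      _ ≤ C * len (esc U) (g ^ n) := by gcongr; exact hNn _
  · intro g h hg hh
    have hmem : ∀ g, len (esc U) g ≤ 1 / C → g ∈ U := by
      intro g hg
      apply mem_of_esc h1
      calc esc U g ≤ M * len (esc U) g := hlow g
        _ ≤ M * (1 / C) := by gcongr
        _ < 1 := hMC
    have h2 := hK g (hmem g hg) h (hmem h hh)
    have h3 := he g
    have h4 := he h
    have h5 := hNn g
    have h6 := hNn h
    calc len (esc U) (g * h * g⁻¹ * h⁻¹) ≤ esc U (g * h * g⁻¹ * h⁻¹) := hup _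
      _ ≤ K * esc U g * esc U h := h2
      _ ≤ K * (M * len (esc U) g) * (M * len (esc U) h) := by
        gcongr
        · exact hlow g
        · exact hlow h
      _ = (K * M ^ 2) * len (esc U) g * len (esc U) h := by ring
      _ ≤ C * len (esc U) g * len (esc U) h := by gcongr

end GY
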