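import Pool.Agent.MP6c9f91.GYDefs

/-!
# T5b: ultrafilter limits are one-parameter subgroups (MP_6c9f91_an, stage 2)
-/

open Topology Filter Pointwise

universe u

namespace GY

namespace T5b

variable {G : Type u} [Group G] [TopologicalSpace G]

theorem N_npow (ν : GleasonNorm G) (g : G) (n : ℕ) : ν.N (g ^ n) ≤ n * ν.N g := by
  induction n with
  | zero => simp [ν.map_one]
  | succ n ih =>
    rw [pow_succ]
    push_cast
    have := ν.map_mul (g ^ n) g
    linarith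

theorem N_zpow (ν : GleasonNorm G) (g : G) (n : ℤ) : ν.N (g ^ n) ≤ |(n : ℝ)| * ν.N g := by
  rcases Int.eq_nat_or_neg n with ⟨m, rfl | rfl⟩
  · simpa using N_npow ν g m
  · rw [zpow_neg, ν.map_inv]
    simpa using N_npow ν g m

/-- the norm of the floor power -/
theorem N_floor (ν : GleasonNorm G) (g : G) (t : ℝ) (k : ℕ) (M : ℝ) (h : k * ν.N g ≤ M) :
    ν.N (g ^ (⌊t * k⌋ : ℤ)) ≤ M * |t| + ν.N g := by
  have h0 := ν.nonneg g
  have hk : (0 : ℝ) ≤ k := Nat.cast_nonneg k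
  have h1 : |((⌊t * k⌋ : ℤ) : ℝ)| ≤ |t| * k + 1 := by
    have a1 := Int.floor_le (t * k)
    have a2 := Int.lt_floor_add_one (t * k)
    have a3 : |t * k| = |t| * k := by rw [abs_mul, abs_of_nonneg hk]
    have a4 := neg_abs_le (t * k)
    have a5 := le_abs_self (t * k)
    rw [abs_le]
    constructor <;> linarith
  refine (N_zpow ν g _).trans ((mul_le_mul_of_nonneg_right h1 h0).trans ?_)
  have h2 : |t| * (k * ν.N g) ≤ |t| * M := mul_le_mul_of_nonneg_left h (abs_nonneg t)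
  linarith

theorem N_continuous [IsTopologicalGroup G] (ν : GleasonNorm G) : Continuous ν.N := by
  rw [continuous_iff_continuousAt]
  intro g
  rw [ContinuousAt, Metric.tendsto_nhds]
  intro ε hε
  have h1 : Tendsto (fun h : G => g⁻¹ * h) (𝓝 g) (𝓝 1) := by
    have : Continuous fun h : G => g⁻¹ * h := by fun_prop
    have h2 := this.tendsto g
    simpa using h2
  filter_upwards [h1 (ν.nhds ε hε)] with h hh
  have hh : ν.N (g⁻¹ * h) < ε := hh
  have h3 := ν.map_mul g (g⁻¹ * h)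
  have h4 := ν.map_mul h (g⁻¹ * h)⁻¹
  rw [ν.map_inv] at h4
  have e3 : g * (g⁻¹ * h) = h := by group
  have e4 : h * (g⁻¹ * h)⁻¹ = g := by group
  rw [e3] at h3
  rw [e4] at h4
  rw [Real.dist_eq, abs_lt]
  constructor <;> linarith

/-- if the norms tend to zero then the points tend to one -/
theorem tendsto_one {ι : Type*} (ν : GleasonNorm G) {l : Filter ι} {f : ι → G}
    (h : Tendsto (fun i => ν.N (f i)) l (𝓝 0)) : Tendsto f l (𝓝 1) := by
  intro U hU
  obtain ⟨r, hr, hU'⟩ := ν.small U hU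
  have : ∀ᶠ i in l, ν.N (f i) < r := (tendsto_order.1 h).2 r hr
  rw [mem_map]
  filter_upwards [this] with i hi
  exact hU' _ hi

variable [IsTopologicalGroup G] [T2Space G] [LocallyCompactSpace G]

theorem N_tendsto_zero (ν : GleasonNorm G) (𝒰 : Ultrafilter ℕ) (g : ℕ → G) (k : ℕ → ℕ)
    (hk : Tendsto k 𝒰 atTop) (M : ℝ) (hM : ∀ᶠ n in (𝒰 : Filter ℕ), k n * ν.N (g n) ≤ M) :
    Tendsto (fun n => ν.N (g n)) 𝒰 (𝓝 0) := by
  have hk' : Tendsto (fun n => (k n : ℝ)) 𝒰 atTop := tendsto_natCast_atTop_atTop.comp hk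
  have h1 : Tendsto (fun n => M / (k n : ℝ)) 𝒰 (𝓝 0) := hk'.const_div_atTop M
  refine squeeze_zero' (Eventually.of_forall fun n => ν.nonneg _) ?_ h1
  filter_upwards [hM, hk'.eventually_gt_atTop 0] with n h2 h3
  rw [le_div_iff₀ h3]
  linarith

theorem exists_limit_small (ν : GleasonNorm G) : ∃ r > 0, ∀ (𝒰 : Ultrafilter ℕ) (f : ℕ → G),
    (∀ᶠ n in (𝒰 : Filter ℕ), ν.N (f n) < r) → ∃ x, Tendsto f 𝒰 (𝓝 x) := by
  obtain ⟨K, hK, hK1⟩ := exists_compact_mem_nhds (1 : G)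
  obtain ⟨r, hr, hrK⟩ := ν.small K hK1
  refine ⟨r, hr, fun 𝒰 f hf => ?_⟩
  have h1 : ((𝒰.map f : Ultrafilter G) : Filter G) ≤ 𝓟 K := by
    rw [le_principal_iff]
    change f ⁻¹' K ∈ (𝒰 : Filter ℕ)
    filter_upwards [hf] with n hn
    exact hrK _ hn
  obtain ⟨x, -, hx⟩ := isCompact_iff_ultrafilter_le_nhds.1 hK (𝒰.map f) h1
  exact ⟨x, hx⟩

theorem exists_limit (ν : GleasonNorm G) (𝒰 : Ultrafilter ℕ) (g : ℕ → G) (k : ℕ → ℕ)
    (hk : Tendsto k 𝒰 atTop) (M : ℝ) (hM : ∀ᶠ n in (𝒰 : Filter ℕ), k n * ν.N (g n) ≤ M)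
    (t : ℝ) : ∃ x, Tendsto (fun n => (g n) ^ (⌊t * k n⌋ : ℤ)) 𝒰 (𝓝 x) := by
  obtain ⟨r, hr, hlim⟩ := exists_limit_small ν
  have hN := N_tendsto_zero ν 𝒰 g k hk M hM
  have hM0 : 0 ≤ M := by
    obtain ⟨n, hn⟩ := hM.exists
    exact le_trans (mul_nonneg (Nat.cast_nonneg _) (ν.nonneg _)) hn
  -- choose m
  obtain ⟨m, hm⟩ := exists_nat_gt (2 * (M * |t|) / r)
  set m' : ℕ := m + 1 with hm'
  have hm'pos : (0 : ℝ) < m' := by positivity
  have hsmall : M * |t / m'| < r / 2 := by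
    have h1 : 2 * (M * |t|) / r < m' := by
      rw [hm']
      push_cast
      linarith
    rw [div_lt_iff₀ hr] at h1
    rw [abs_div, abs_of_pos hm'pos, ← mul_div_assoc, div_lt_iff₀ hm'pos]
    linarith
  obtain ⟨y, hy⟩ := hlim 𝒰 (fun n => (g n) ^ (⌊(t / m') * k n⌋ : ℤ)) (by
    have h2 : ∀ᶠ n in (𝒰 : Filter ℕ), ν.N (g n) < r / 2 :=
      (tendsto_order.1 hN).2 _ (by linarith)
    filter_upwards [hM, h2] with n h3 h4
    have := N_floor ν (g n) (t / m') (k n) M h3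
    linarith)
  -- the remainder
  have hrem : Tendsto (fun n => (g n) ^ (⌊t * k n⌋ - m' * ⌊(t / m') * k n⌋ : ℤ)) 𝒰 (𝓝 1) := by
    apply tendsto_one ν
    have h5 : Tendsto (fun n => (m' : ℝ) * ν.N (g n)) 𝒰 (𝓝 (m' * 0)) := hN.const_mul _
    rw [mul_zero] at h5
    refine squeeze_zero (fun n => ν.nonneg _) (fun n => ?_) h5
    refine (N_zpow ν (g n) _).trans (mul_le_mul_of_nonneg_right ?_ (ν.nonneg _))
    have a1 := Int.floor_le (t * k n)
    have a2 := Int.lt_floor_add_one (t * k n)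
    have a3 := Int.floor_le (t / m' * k n)
    have a4 := Int.lt_floor_add_one (t / m' * k n)
    have e : m' * (t / m' * k n) = t * k n := by field_simp
    have a5 := mul_le_mul_of_nonneg_left a3 hm'pos.le
    have a6 := mul_lt_mul_of_pos_left a4 hm'pos
    rw [e] at a5 a6
    push_cast
    have hm'1 : (1 : ℝ) ≤ m' := by
      rw [hm']
      push_cast
      linarith [(Nat.cast_nonneg m : (0 : ℝ) ≤ m)]
    rw [abs_le]
    constructor <;> linarith
  refine ⟨y ^ m' * 1, ?_⟩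
  have h6 := (hy.pow m').mul hrem
  refine h6.congr fun n => ?_
  rw [← zpow_natCast, ← zpow_mul, ← zpow_add]
  congr 1
  ring

end T5b

variable {G : Type u} [Group G] [TopologicalSpace G]
variable [IsTopologicalGroup G] [T2Space G] [LocallyCompactSpace G]

theorem exists_ops_limit (ν : GleasonNorm G) (𝒰 : Ultrafilter ℕ) (g : ℕ → G) (k : ℕ → ℕ)
    (hk : Tendsto k 𝒰 atTop) (M : ℝ) (hM : ∀ᶠ n in (𝒰 : Filter ℕ), k n * ν.N (g n) ≤ M) :
    ∃ X : OPS G, (∀ t : ℝ, Tendsto (fun n => (g n) ^ (⌊t * k n⌋ : ℤ)) 𝒰 (𝓝 (X.toFun t))) ∧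
      ∀ t, ν.N (X.toFun t) ≤ M * |t| := by
  choose X hX using T5b.exists_limit ν 𝒰 g k hk M hM
  have hN := T5b.N_tendsto_zero ν 𝒰 g k hk M hM
  have hbound : ∀ t, ν.N (X t) ≤ M * |t| := by
    intro t
    have h1 : Tendsto (fun n => ν.N ((g n) ^ (⌊t * k n⌋ : ℤ))) 𝒰 (𝓝 (ν.N (X t))) :=
      ((T5b.N_continuous ν).tendsto _).comp (hX t)
    have h2 : Tendsto (fun n => M * |t| + ν.N (g n)) 𝒰 (𝓝 (M * |t| + 0)) := hN.const_add _
    rw [add_zero] at h2
    refine le_of_tendsto_of_tendsto h1 h2 ?_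
    filter_upwards [hM] with n hn
    exact T5b.N_floor ν (g n) t (k n) M hn
  have hadd : ∀ s t, X (s + t) = X s * X t := by
    intro s t
    have hrem : Tendsto (fun n => (g n) ^ (⌊(s + t) * k n⌋ - (⌊s * k n⌋ + ⌊t * k n⌋) : ℤ)) 𝒰
        (𝓝 1) := by
      apply T5b.tendsto_one ν
      have h5 : Tendsto (fun n => (1 : ℝ) * ν.N (g n)) 𝒰 (𝓝 (1 * 0)) := hN.const_mul _
      rw [mul_zero] at h5
      refine squeeze_zero (fun n => ν.nonneg _) (fun n => ?_) h5
      refine (T5b.N_zpow ν (g n) _).trans (mul_le_mul_of_nonneg_right ?_ (ν.nonneg _))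
      have a1 := Int.le_floor_add (s * k n) (t * k n)
      have a2 := Int.floor_le (s * k n)
      have a3 := Int.lt_floor_add_one (s * k n)
      have a4 := Int.floor_le (t * k n)
      have a5 := Int.lt_floor_add_one (t * k n)
      have a6 := Int.floor_le ((s + t) * k n)
      have a7 := Int.lt_floor_add_one ((s + t) * k n)
      have a8 : ⌊(s + t) * k n⌋ - (⌊s * k n⌋ + ⌊t * k n⌋) < 2 := by
        have : ((⌊(s + t) * k n⌋ - (⌊s * k n⌋ + ⌊t * k n⌋) : ℤ) : ℝ) < (2 : ℤ) := by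
          push_cast
          linarith
        exact_mod_cast this
      have a9 : 0 ≤ ⌊(s + t) * k n⌋ - (⌊s * k n⌋ + ⌊t * k n⌋) := by
        rw [add_mul]
        linarith
      have a10 : |⌊(s + t) * k n⌋ - (⌊s * k n⌋ + ⌊t * k n⌋)| ≤ 1 := by
        rw [abs_le]
        constructor <;> omega
      exact_mod_cast a10
    have h6 := ((hX s).mul (hX t)).mul hrem
    rw [mul_one] at h6
    refine tendsto_nhds_unique (hX (s + t)) (h6.congr fun n => ?_)
    rw [← zpow_add, ← zpow_add]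
    congr 1
    ring
  have h0 : X 0 = 1 := by
    apply ν.eq_one
    have h1 := hbound 0
    rw [abs_zero, mul_zero] at h1
    exact le_antisymm h1 (ν.nonneg _)
  refine ⟨⟨X, ?_, hadd⟩, hX, hbound⟩
  rw [continuous_iff_continuousAt]
  intro s
  have h1 : Tendsto (fun t : ℝ => X (t - s)) (𝓝 s) (𝓝 1) := by
    apply T5b.tendsto_one ν
    have h2 : Tendsto (fun t : ℝ => M * |t - s|) (𝓝 s) (𝓝 0) := by
      have : Continuous fun t : ℝ => M * |t - s| := by fun_prop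
      have h3 := this.tendsto s
      simpa using h3
    exact squeeze_zero (fun t => ν.nonneg _) (fun t => hbound _) h2
  have h4 : Tendsto (fun t : ℝ => X s * X (t - s)) (𝓝 s) (𝓝 (X s * 1)) := h1.const_mul _
  rw [mul_one] at h4
  refine h4.congr fun t => ?_
  rw [← hadd]
  congr 1
  ring

end GY
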