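import Pool.Agent.MP6c9f91.Estimates
import Pool.Agent.MP6c9f91.OPSLimit

/-!
# T5c : the one-parameter subgroups of a group with a Gleason norm form a normed space
-/

open Topology Filter

universe u

namespace GY

variable {G : Type u} [Group G] [TopologicalSpace G]

namespace OPS

theorem ext_fun {X Y : OPS G} (h : ∀ t, X.toFun t = Y.toFun t) : X = Y := by
  cases X; cases Y
  have : (_ : ℝ → G) = _ := funext h
  simp only [mk.injEq]
  exact this

theorem map_zero (X : OPS G) : X.toFun 0 = 1 := by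
  have h := X.map_add 0 0
  rw [add_zero] at h
  exact (left_eq_mul.mp h)

theorem map_neg (X : OPS G) (t : ℝ) : X.toFun (-t) = (X.toFun t)⁻¹ := by
  have h := X.map_add (-t) t
  rw [neg_add_cancel, X.map_zero] at h
  exact eq_inv_of_mul_eq_one_left h.symm

theorem map_nsmul (X : OPS G) (n : ℕ) (t : ℝ) : X.toFun (n * t) = X.toFun t ^ n := by
  induction n with
  | zero => simp [X.map_zero]
  | succ n ih =>
    have : ((n + 1 : ℕ) : ℝ) * t = n * t + t := by push_cast; ring
    rw [this, X.map_add, ih, pow_succ]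

theorem map_zsmul (X : OPS G) (n : ℤ) (t : ℝ) : X.toFun (n * t) = X.toFun t ^ n := by
  obtain ⟨m, rfl | rfl⟩ := n.eq_nat_or_neg
  · have := X.map_nsmul m t
    simpa using this
  · have := X.map_nsmul m t
    have h2 : ((-(m : ℤ) : ℤ) : ℝ) * t = - (m * t) := by push_cast; ring
    rw [h2, X.map_neg, this]
    simp

theorem map_comm (X : OPS G) (s t : ℝ) : X.toFun s * X.toFun t = X.toFun t * X.toFun s := by
  rw [← X.map_add, ← X.map_add, add_comm]

/-- the trivial one-parameter subgroup -/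
def triv : OPS G := ⟨fun _ => 1, continuous_const, fun _ _ => by simp⟩

/-- the reparametrised one-parameter subgroup -/
def scal (s : ℝ) (X : OPS G) : OPS G :=
  ⟨fun t => X.toFun (s * t), X.cont.comp (continuous_const.mul continuous_id),
    fun a b => by rw [← X.map_add]; congr 1; ring⟩

@[simp] theorem scal_apply (s : ℝ) (X : OPS G) (t : ℝ) :
    (scal s X).toFun t = X.toFun (s * t) := rfl

@[simp] theorem triv_apply (t : ℝ) : (triv : OPS G).toFun t = 1 := rfl

theorem scal_one (X : OPS G) : scal 1 X = X := ext_fun fun t => by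
  rw [scal_apply, one_mul]

theorem scal_scal (a b : ℝ) (X : OPS G) : scal (a * b) X = scal a (scal b X) :=
  ext_fun fun t => by
    simp only [scal_apply]
    congr 1; ring

theorem scal_zero (X : OPS G) : scal 0 X = triv := ext_fun fun t => by
  rw [scal_apply, zero_mul, X.map_zero, triv_apply]

theorem scal_add_apply (a b : ℝ) (X : OPS G) (t : ℝ) :
    (scal (a + b) X).toFun t = (scal a X).toFun t * (scal b X).toFun t := by
  simp only [scal_apply]
  rw [← X.map_add]; congr 1; ring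

end OPS

namespace GleasonNorm

variable (ν : GleasonNorm G)

/-- the radius of validity of the estimates -/
noncomputable def rho : ℝ := ν.estimates.choose

/-- the constant of the estimates -/
noncomputable def kap : ℝ := ν.estimates.choose_spec.choose

theorem rho_pos : 0 < ν.rho := ν.estimates.choose_spec.choose_spec.1

theorem one_le_kap : 1 ≤ ν.kap := ν.estimates.choose_spec.choose_spec.2.1

theorem conj_le (g h : G) (hg : ν.N g ≤ ν.rho) (hh : ν.N h ≤ ν.rho) :
    ν.N (h * g * h⁻¹) ≤ 2 * ν.N g := ν.estimates.choose_spec.choose_spec.2.2.1 g h hg hh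

theorem powdiff_le (g h : G) (n : ℕ) (hg : n * ν.N g ≤ ν.rho) (hh : n * ν.N h ≤ ν.rho) :
    ν.N ((g ^ n)⁻¹ * h ^ n) ≤ 2 * n * ν.N (g⁻¹ * h) :=
  ν.estimates.choose_spec.choose_spec.2.2.2.1 g h n hg hh

theorem powmul_le (g h : G) (n : ℕ) (hg : n * ν.N g ≤ ν.rho) (hh : n * ν.N h ≤ ν.rho) :
    ν.N ((g ^ n * h ^ n)⁻¹ * (g * h) ^ n) ≤ ν.kap * n ^ 2 * ν.N g * ν.N h :=
  ν.estimates.choose_spec.choose_spec.2.2.2.2.1 g h n hg hh

theorem esc_le (g : G) (n : ℕ) (h : ∀ j ≤ n, ν.N (g ^ j) ≤ ν.rho) :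
    n * ν.N g ≤ ν.kap * ν.N (g ^ n) :=
  ν.estimates.choose_spec.choose_spec.2.2.2.2.2.2 g n h

theorem abs_sub_le (g h : G) : |ν.N g - ν.N h| ≤ ν.N (g⁻¹ * h) := by
  rw [_root_.abs_sub_le_iff]
  constructor
  · have h1 : ν.N g ≤ ν.N h + ν.N (h⁻¹ * g) := by
      have := ν.map_mul h (h⁻¹ * g)
      simpa using this
    have h2 : ν.N (h⁻¹ * g) = ν.N (g⁻¹ * h) := by
      rw [← ν.map_inv (h⁻¹ * g)]; simp
    linarith
  · have h1 : ν.N h ≤ ν.N g + ν.N (g⁻¹ * h) := by
      have := ν.map_mul g (g⁻¹ * h)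
      simpa using this
    linarith

theorem continuous_N [IsTopologicalGroup G] : Continuous ν.N := by
  rw [continuous_iff_continuousAt]
  intro g
  rw [ContinuousAt, Metric.tendsto_nhds]
  intro ε hε
  have h1 : Tendsto (fun h : G => g⁻¹ * h) (𝓝 g) (𝓝 1) := by
    have : Tendsto (fun h : G => g⁻¹ * h) (𝓝 g) (𝓝 (g⁻¹ * g)) :=
      (continuous_const.mul continuous_id).tendsto g
    simpa using this
  filter_upwards [h1 (ν.nhds ε hε)] with h hh
  have h2 := ν.abs_sub_le g h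
  rw [Real.dist_eq, abs_sub_comm]
  exact lt_of_le_of_lt h2 hh

/-- the speed of a one-parameter subgroup -/
noncomputable def speed (X : OPS G) : ℝ :=
  sInf {M : ℝ | 0 ≤ M ∧ ∀ t, ν.N (X.toFun t) ≤ M * |t|}

theorem speed_bdd (X : OPS G) : BddBelow {M : ℝ | 0 ≤ M ∧ ∀ t, ν.N (X.toFun t) ≤ M * |t|} :=
  ⟨0, fun _ h => h.1⟩

theorem N_pow_le (g : G) (n : ℕ) : ν.N (g ^ n) ≤ n * ν.N g := by
  induction n with
  | zero => simp [ν.map_one]
  | succ n ih =>
    rw [pow_succ]
    calc ν.N (g ^ n * g) ≤ ν.N (g ^ n) + ν.N g := ν.map_mul _ _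
      _ ≤ n * ν.N g + ν.N g := by linarith
      _ = ((n + 1 : ℕ) : ℝ) * ν.N g := by push_cast; ring

theorem N_abs (X : OPS G) (t : ℝ) : ν.N (X.toFun |t|) = ν.N (X.toFun t) := by
  rcases abs_choice t with h | h
  · rw [h]
  · rw [h, X.map_neg, ν.map_inv]

theorem exists_bound (X : OPS G) : ∃ M : ℝ, 0 ≤ M ∧ ∀ t, ν.N (X.toFun t) ≤ M * |t| := by
  have hρ := ν.rho_pos
  have hK := ν.one_le_kap
  -- small times
  have h0 : ∀ᶠ t in 𝓝 (0 : ℝ), ν.N (X.toFun t) < ν.rho := by
    have h1 : Tendsto X.toFun (𝓝 0) (𝓝 1) := by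
      have := X.cont.tendsto 0
      rwa [X.map_zero] at this
    exact h1 (ν.nhds _ hρ)
  obtain ⟨t₁, ht₁, h1⟩ := Metric.eventually_nhds_iff.mp h0
  obtain ⟨t₀, ht₀, ht₀₁⟩ := exists_between ht₁
  have h2 : ∀ t, |t| ≤ t₀ → ν.N (X.toFun t) ≤ ν.rho := fun t ht => by
    have := h1 (y := t) (by rw [Real.dist_eq, sub_zero]; linarith)
    exact this.le
  set M : ℝ := 2 * ν.kap * ν.rho / t₀ with hM
  have hM0 : 0 ≤ M := by positivity
  have h3 : ∀ t, 0 < t → t ≤ t₀ → ν.N (X.toFun t) ≤ M * t := by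
    intro t ht htt
    have hq : 1 ≤ t₀ / t := by rw [le_div_iff₀ ht]; linarith
    set n := ⌊t₀ / t⌋₊ with hn
    have hn1 : 1 ≤ n := by
      rw [hn]; exact Nat.one_le_floor_iff _ |>.mpr hq
    have hn2 : (n : ℝ) ≤ t₀ / t := Nat.floor_le (by positivity)
    have hn3 : t₀ / t < n + 1 := Nat.lt_floor_add_one _
    have hn4 : (n : ℝ) * t ≤ t₀ := by rwa [le_div_iff₀ ht] at hn2
    have hn5 : t₀ < (n + 1) * t := by rwa [div_lt_iff₀ ht] at hn3
    have hn1' : (1 : ℝ) ≤ n := by exact_mod_cast hn1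
    have h4 : (n : ℝ) * ν.N (X.toFun t) ≤ ν.kap * ν.N (X.toFun t ^ n) := by
      apply ν.esc_le
      intro j hj
      rw [← X.map_nsmul]
      apply h2
      have hj' : (j : ℝ) ≤ n := by exact_mod_cast hj
      rw [abs_of_nonneg (by positivity)]
      nlinarith
    have h5 : ν.N (X.toFun t ^ n) ≤ ν.rho := by
      rw [← X.map_nsmul]
      apply h2
      rw [abs_of_nonneg (by positivity)]
      exact hn4
    have h6 : (n : ℝ) * ν.N (X.toFun t) ≤ ν.kap * ν.rho := by nlinarith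
    have h7 : t₀ ≤ 2 * (n * t) := by nlinarith
    rw [hM, div_mul_eq_mul_div, le_div_iff₀ ht₀]
    have h8 := ν.nonneg (X.toFun t)
    nlinarith
  refine ⟨M, hM0, fun t => ?_⟩
  rcases eq_or_ne t 0 with rfl | htne
  · simp [X.map_zero, ν.map_one]
  have habs : 0 < |t| := abs_pos.mpr htne
  obtain ⟨m, hm⟩ := exists_nat_gt (|t| / t₀)
  have hm0 : (0 : ℝ) < m := lt_of_le_of_lt (by positivity) hm
  have h9 : |t| / m ≤ t₀ := by
    rw [div_le_iff₀ hm0]
    rw [div_lt_iff₀ ht₀] at hm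
    linarith
  have h10 := h3 (|t| / m) (by positivity) h9
  rw [← ν.N_abs]
  have h11 : X.toFun |t| = X.toFun (|t| / m) ^ m := by
    rw [← X.map_nsmul]; congr 1; field_simp
  rw [h11]
  calc ν.N (X.toFun (|t| / m) ^ m) ≤ m * ν.N (X.toFun (|t| / m)) := ν.N_pow_le _ _
    _ ≤ m * (M * (|t| / m)) := by gcongr
    _ = M * |t| := by field_simp

theorem speed_nonneg (X : OPS G) : 0 ≤ ν.speed X :=
  le_csInf (ν.exists_bound X) fun _ h => h.1

theorem speed_le (X : OPS G) (M : ℝ) (h0 : 0 ≤ M) (h : ∀ t, ν.N (X.toFun t) ≤ M * |t|) :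
    ν.speed X ≤ M := csInf_le (ν.speed_bdd X) ⟨h0, h⟩

theorem N_le_speed (X : OPS G) (t : ℝ) : ν.N (X.toFun t) ≤ ν.speed X * |t| := by
  rcases eq_or_ne t 0 with rfl | htne
  · simp [X.map_zero, ν.map_one]
  have habs : 0 < |t| := abs_pos.mpr htne
  rw [← div_le_iff₀ habs]
  apply le_csInf (ν.exists_bound X)
  rintro M ⟨_, hM⟩
  rw [div_le_iff₀ habs]
  exact hM t

theorem speed_mul_le (X : OPS G) (t : ℝ) (ht : ν.speed X * |t| ≤ ν.rho) :
    ν.speed X * |t| ≤ ν.kap * ν.N (X.toFun t) := by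
  have hρ := ν.rho_pos
  have hK := ν.one_le_kap
  rcases eq_or_ne t 0 with rfl | htne
  · simp [X.map_zero, ν.map_one]
  have habs : 0 < |t| := abs_pos.mpr htne
  rw [← ν.N_abs]
  set T := |t| with hT
  -- escape at times T / n
  have h1 : ∀ n : ℕ, 1 ≤ n → (n : ℝ) * ν.N (X.toFun (T / n)) ≤ ν.kap * ν.N (X.toFun T) := by
    intro n hn
    have hn0 : (0 : ℝ) < n := by exact_mod_cast hn
    have h2 := ν.esc_le (X.toFun (T / n)) n (by
      intro j hj
      have hj' : (j : ℝ) ≤ n := by exact_mod_cast hj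
      rw [← X.map_nsmul]
      refine (ν.N_le_speed X _).trans (le_trans ?_ ht)
      apply mul_le_mul_of_nonneg_left _ (ν.speed_nonneg X)
      rw [abs_of_nonneg (by positivity)]
      calc (j : ℝ) * (T / n) ≤ n * (T / n) := by gcongr
        _ = T := by field_simp)
    rw [← X.map_nsmul] at h2
    have h3 : (n : ℝ) * (T / n) = T := by field_simp
    rwa [h3] at h2
  set A := ν.kap * ν.N (X.toFun T) with hA
  have hA0 : 0 ≤ A := mul_nonneg (by linarith) (ν.nonneg _)
  -- arbitrary times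
  have h4 : ∀ s, 0 < s → ν.N (X.toFun s) ≤ A / T * s := by
    intro s hs
    apply le_of_forall_pos_le_add
    intro ε hε
    obtain ⟨n, hn⟩ := exists_nat_gt (ν.speed X * T / ε)
    have hn0 : (0 : ℝ) < n := lt_of_le_of_lt
      (div_nonneg (mul_nonneg (ν.speed_nonneg X) habs.le) hε.le) hn
    have hn1 : 1 ≤ n := by exact_mod_cast hn0
    have hu : 0 < T / n := by positivity
    set j := ⌊s / (T / n)⌋₊ with hj
    have hj1 : (j : ℝ) ≤ s / (T / n) := Nat.floor_le (by positivity)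
    have hj2 : s / (T / n) < j + 1 := Nat.lt_floor_add_one _
    have hj3 : (j : ℝ) * (T / n) ≤ s := by rwa [le_div_iff₀ hu] at hj1
    have hj4 : s < (j + 1) * (T / n) := by rwa [div_lt_iff₀ hu] at hj2
    have h5 : X.toFun s = X.toFun (T / n) ^ j * X.toFun (s - j * (T / n)) := by
      rw [← X.map_nsmul, ← X.map_add]; congr 1; ring
    have h6 : ν.N (X.toFun (s - j * (T / n))) ≤ ν.speed X * (T / n) := by
      refine (ν.N_le_speed X _).trans ?_
      apply mul_le_mul_of_nonneg_left _ (ν.speed_nonneg X)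
      rw [abs_of_nonneg (by linarith)]
      linarith
    have h7 : ν.speed X * (T / n) ≤ ε := by
      rw [div_lt_iff₀ hε] at hn
      rw [← mul_div_assoc, div_le_iff₀ hn0]
      linarith
    have h8 : (j : ℝ) * ν.N (X.toFun (T / n)) ≤ A / T * s := by
      have h9 := h1 n hn1
      have h10 : ν.N (X.toFun (T / n)) ≤ A / n := by
        rw [le_div_iff₀ hn0]; linarith
      calc (j : ℝ) * ν.N (X.toFun (T / n)) ≤ j * (A / n) := by gcongr
        _ = (A / T) * (j * (T / n)) := by field_simp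
        _ ≤ (A / T) * s := by gcongr
    rw [h5]
    calc ν.N (X.toFun (T / n) ^ j * X.toFun (s - j * (T / n)))
        ≤ ν.N (X.toFun (T / n) ^ j) + ν.N (X.toFun (s - j * (T / n))) := ν.map_mul _ _
      _ ≤ j * ν.N (X.toFun (T / n)) + ν.speed X * (T / n) := add_le_add (ν.N_pow_le _ _) h6
      _ ≤ A / T * s + ε := add_le_add h8 h7
  have h11 : ν.speed X ≤ A / T := by
    apply ν.speed_le X _ (by positivity)
    intro s
    rcases eq_or_ne s 0 with rfl | hs
    · simp [X.map_zero, ν.map_one]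
    rw [← ν.N_abs]
    exact h4 _ (abs_pos.mpr hs)
  rwa [le_div_iff₀ habs] at h11

/-! ### germs of curves modulo tangency -/

/-- curves with linear growth at `0+` -/
def bigSub : Subgroup (ℝ → G) where
  carrier := {c | ∃ C : ℝ, 0 ≤ C ∧ ∀ᶠ t in 𝓝[>] (0 : ℝ), ν.N (c t) ≤ C * t}
  one_mem' := ⟨0, le_rfl, Eventually.of_forall fun t => by simp [ν.map_one]⟩
  mul_mem' := by
    rintro c d ⟨C, hC, hc⟩ ⟨D, hD, hd⟩
    refine ⟨C + D, by positivity, ?_⟩
    filter_upwards [hc, hd] with t h1 h2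
    calc ν.N (c t * d t) ≤ ν.N (c t) + ν.N (d t) := ν.map_mul _ _
      _ ≤ C * t + D * t := add_le_add h1 h2
      _ = (C + D) * t := by ring
  inv_mem' := by
    rintro c ⟨C, hC, hc⟩
    refine ⟨C, hC, ?_⟩
    filter_upwards [hc] with t h1
    rw [Pi.inv_apply, ν.map_inv]
    exact h1

/-- curves tangent to the constant curve -/
def smallSub : Subgroup ν.bigSub where
  carrier := {c | ∀ ε > (0 : ℝ), ∀ᶠ t in 𝓝[>] (0 : ℝ), ν.N ((c : ℝ → G) t) ≤ ε * t}
  one_mem' := by
    intro ε hε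
    filter_upwards [self_mem_nhdsWithin] with t ht
    have ht' : (0 : ℝ) < t := ht
    simp only [OneMemClass.coe_one, Pi.one_apply, ν.map_one]
    positivity
  mul_mem' := by
    intro c d hc hd ε hε
    filter_upwards [hc (ε / 2) (by positivity), hd (ε / 2) (by positivity)] with t h1 h2
    calc ν.N ((c : ℝ → G) t * (d : ℝ → G) t)
        ≤ ν.N ((c : ℝ → G) t) + ν.N ((d : ℝ → G) t) := ν.map_mul _ _
      _ ≤ ε / 2 * t + ε / 2 * t := add_le_add h1 h2
      _ = ε * t := by ring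
  inv_mem' := by
    intro c hc ε hε
    filter_upwards [hc ε hε] with t h1
    rw [InvMemClass.coe_inv, Pi.inv_apply, ν.map_inv]
    exact h1

theorem big_small {c : ℝ → G} (hc : c ∈ ν.bigSub) {r : ℝ} (hr : 0 < r) :
    ∀ᶠ t in 𝓝[>] (0 : ℝ), ν.N (c t) ≤ r := by
  obtain ⟨C, hC, h⟩ := hc
  have h1 : ∀ᶠ t in 𝓝[>] (0 : ℝ), t < r / (C + 1) :=
    (eventually_lt_nhds (by positivity)).filter_mono nhdsWithin_le_nhds
  filter_upwards [h, h1, self_mem_nhdsWithin] with t h2 h3 ht
  have ht' : (0 : ℝ) < t := ht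
  rw [lt_div_iff₀ (by positivity)] at h3
  nlinarith

instance smallSub_normal : ν.smallSub.Normal where
  conj_mem := by
    intro n hn g ε hε
    filter_upwards [hn (ε / 2) (by positivity), ν.big_small n.2 ν.rho_pos,
      ν.big_small g.2 ν.rho_pos] with t h1 h2 h3
    have h4 := ν.conj_le ((n : ℝ → G) t) ((g : ℝ → G) t) h2 h3
    calc ν.N (((g * n * g⁻¹ : ν.bigSub) : ℝ → G) t)
        = ν.N ((g : ℝ → G) t * (n : ℝ → G) t * ((g : ℝ → G) t)⁻¹) := rfl
      _ ≤ 2 * ν.N ((n : ℝ → G) t) := h4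
      _ ≤ 2 * (ε / 2 * t) := by linarith
      _ = ε * t := by ring

theorem comm_mem_smallSub (c d : ν.bigSub) : c * d * c⁻¹ * d⁻¹ ∈ ν.smallSub := by
  intro ε hε
  have hC : 0 < ν.C := by have := ν.one_le; linarith
  obtain ⟨A, hA, h1⟩ := c.2
  obtain ⟨B, hB, h2⟩ := d.2
  have h5 : ∀ᶠ t in 𝓝[>] (0 : ℝ), t < ε / (ν.C * A * B + 1) :=
    (eventually_lt_nhds (by positivity)).filter_mono nhdsWithin_le_nhds
  filter_upwards [h1, h2, ν.big_small c.2 (r := 1 / ν.C) (by positivity),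
    ν.big_small d.2 (r := 1 / ν.C) (by positivity), h5, self_mem_nhdsWithin] with t a1 a2 a3 a4 a5 ht
  have ht' : (0 : ℝ) < t := ht
  have h6 := ν.comm ((c : ℝ → G) t) ((d : ℝ → G) t) a3 a4
  rw [lt_div_iff₀ (by positivity)] at a5
  calc ν.N (((c * d * c⁻¹ * d⁻¹ : ν.bigSub) : ℝ → G) t)
      = ν.N ((c : ℝ → G) t * (d : ℝ → G) t * ((c : ℝ → G) t)⁻¹ * ((d : ℝ → G) t)⁻¹) := rfl
    _ ≤ ν.C * ν.N ((c : ℝ → G) t) * ν.N ((d : ℝ → G) t) := h6
    _ ≤ ν.C * (A * t) * (B * t) := by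
        have := ν.nonneg ((c : ℝ → G) t)
        have := ν.nonneg ((d : ℝ → G) t)
        gcongr
    _ = (t * (ν.C * A * B)) * t := by ring
    _ ≤ ε * t := by
        apply mul_le_mul_of_nonneg_right _ ht'.le
        nlinarith

instance quotComm : CommGroup (ν.bigSub ⧸ ν.smallSub) :=
  { (inferInstance : Group (ν.bigSub ⧸ ν.smallSub)) with
    mul_comm := by
      intro a b
      induction a using QuotientGroup.induction_on with
      | H a =>
      induction b using QuotientGroup.induction_on with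
      | H b =>
      rw [← QuotientGroup.mk_mul, ← QuotientGroup.mk_mul, QuotientGroup.eq]
      have := ν.comm_mem_smallSub b⁻¹ a⁻¹
      have h2 : (a * b)⁻¹ * (b * a) = b⁻¹ * a⁻¹ * b⁻¹⁻¹ * a⁻¹⁻¹ := by group
      rw [h2]
      exact this }

/-- one-parameter subgroups have linear growth -/
theorem mem_bigSub (X : OPS G) : X.toFun ∈ ν.bigSub := by
  refine ⟨ν.speed X, ν.speed_nonneg X, ?_⟩
  filter_upwards [self_mem_nhdsWithin] with t ht
  have ht' : (0 : ℝ) < t := ht
  have := ν.N_le_speed X t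
  rwa [abs_of_pos ht'] at this

/-- the class of a one-parameter subgroup modulo tangency -/
def cls (X : OPS G) : Additive (ν.bigSub ⧸ ν.smallSub) :=
  Additive.ofMul (QuotientGroup.mk (⟨X.toFun, ν.mem_bigSub X⟩ : ν.bigSub))

theorem cls_injective : Function.Injective ν.cls := by
  intro X Y h
  have h1 : (QuotientGroup.mk (⟨X.toFun, ν.mem_bigSub X⟩ : ν.bigSub) : ν.bigSub ⧸ ν.smallSub)
      = QuotientGroup.mk (⟨Y.toFun, ν.mem_bigSub Y⟩ : ν.bigSub) := h
  rw [QuotientGroup.eq] at h1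
  have h2 : ∀ ε > (0 : ℝ), ∀ᶠ t in 𝓝[>] (0 : ℝ), ν.N ((X.toFun t)⁻¹ * Y.toFun t) ≤ ε * t := h1
  set M := ν.speed X + ν.speed Y + 1 with hM
  have hX := ν.speed_nonneg X
  have hY := ν.speed_nonneg Y
  have hM0 : 0 < M := by linarith
  set t₀ := ν.rho / M with ht₀
  have ht₀0 : 0 < t₀ := div_pos ν.rho_pos hM0
  -- equality for small positive times
  have h3 : ∀ t, 0 < t → t ≤ t₀ → X.toFun t = Y.toFun t := by
    intro t ht htt
    have h4 : ν.N ((X.toFun t)⁻¹ * Y.toFun t) ≤ 0 := by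
      apply le_of_forall_pos_le_add
      intro ε hε
      have h5 := h2 (ε / (2 * t)) (by positivity)
      have h6 : Tendsto (fun n : ℕ => t / (n : ℝ)) atTop (𝓝[>] 0) := by
        rw [tendsto_nhdsWithin_iff]
        refine ⟨tendsto_const_div_atTop_nhds_zero_nat t, ?_⟩
        filter_upwards [eventually_gt_atTop 0] with n hn
        have : (0 : ℝ) < n := by exact_mod_cast hn
        exact div_pos ht this
      obtain ⟨n, h7, hn⟩ := ((h6.eventually h5).and (eventually_gt_atTop 0)).exists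
      have hn0 : (0 : ℝ) < n := by exact_mod_cast hn
      have h8 : (n : ℝ) * (t / n) = t := by field_simp
      have hMt : M * t ≤ ν.rho := by
        rw [ht₀, le_div_iff₀ hM0] at htt; linarith
      have h9 := ν.powdiff_le (X.toFun (t / n)) (Y.toFun (t / n)) n (by
        have := ν.N_le_speed X (t / n)
        rw [abs_of_nonneg (by positivity)] at this
        calc (n : ℝ) * ν.N (X.toFun (t / n)) ≤ n * (ν.speed X * (t / n)) := by gcongr
          _ = ν.speed X * t := by field_simp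
          _ ≤ ν.rho := by nlinarith) (by
        have := ν.N_le_speed Y (t / n)
        rw [abs_of_nonneg (by positivity)] at this
        calc (n : ℝ) * ν.N (Y.toFun (t / n)) ≤ n * (ν.speed Y * (t / n)) := by gcongr
          _ = ν.speed Y * t := by field_simp
          _ ≤ ν.rho := by nlinarith)
      rw [← X.map_nsmul, ← Y.map_nsmul, h8] at h9
      calc ν.N ((X.toFun t)⁻¹ * Y.toFun t)
          ≤ 2 * n * ν.N ((X.toFun (t / n))⁻¹ * Y.toFun (t / n)) := h9
        _ ≤ 2 * n * (ε / (2 * t) * (t / n)) := by gcongr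
        _ = 0 + ε := by field_simp; ring
    have h10 := ν.eq_one _ (le_antisymm h4 (ν.nonneg _))
    exact (inv_mul_eq_one.mp h10)
  apply OPS.ext_fun
  have h11 : ∀ t, 0 < t → X.toFun t = Y.toFun t := by
    intro t ht
    obtain ⟨m, hm⟩ := exists_nat_gt (t / t₀)
    have hm0 : (0 : ℝ) < m := lt_of_le_of_lt (by positivity) hm
    have h12 : t / m ≤ t₀ := by
      rw [div_le_iff₀ hm0]
      rw [div_lt_iff₀ ht₀0] at hm
      linarith
    have h13 : t = m * (t / m) := by field_simp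
    rw [h13, X.map_nsmul, Y.map_nsmul, h3 _ (by positivity) h12]
  intro t
  rcases lt_trichotomy t 0 with h | h | h
  · have h14 := h11 (-t) (by linarith)
    rw [X.map_neg, Y.map_neg] at h14
    exact inv_injective h14
  · rw [h, X.map_zero, Y.map_zero]
  · exact h11 t h

/-! ### the sum of two one-parameter subgroups -/

/-- the radius for tangency estimates -/
noncomputable def rad : ℝ := min (min (ν.rho / 2) (1 / ν.C)) (min 1 (ν.rho / ν.kap))

theorem C_pos : 0 < ν.C := by have := ν.one_le; linarith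

theorem kap_pos : 0 < ν.kap := by have := ν.one_le_kap; linarith

theorem rad_pos : 0 < ν.rad := by
  have h1 := ν.rho_pos
  have h2 := ν.C_pos
  have h3 := ν.kap_pos
  unfold rad
  simp only [lt_min_iff]
  exact ⟨⟨by positivity, by positivity⟩, by positivity, by positivity⟩

theorem rad_le_half : ν.rad ≤ ν.rho / 2 := (min_le_left _ _).trans (min_le_left _ _)

theorem rad_le_C : ν.rad ≤ 1 / ν.C := (min_le_left _ _).trans (min_le_right _ _)

theorem rad_le_one : ν.rad ≤ 1 := (min_le_right _ _).trans (min_le_left _ _)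

theorem rad_le_rk : ν.rad ≤ ν.rho / ν.kap := (min_le_right _ _).trans (min_le_right _ _)

/-- `Z` is the sum of `X` and `Y` in the sense of a quantitative tangency. -/
def IsSum (X Y Z : OPS G) : Prop :=
  ν.speed Z ≤ ν.speed X + ν.speed Y ∧
    ∀ t : ℝ, ν.speed X * |t| ≤ ν.rad → ν.speed Y * |t| ≤ ν.rad →
      ν.N ((Z.toFun t)⁻¹ * (X.toFun t * Y.toFun t)) ≤
        (2 * ν.kap + ν.C) * ν.speed X * ν.speed Y * t ^ 2

variable [IsTopologicalGroup G] [T2Space G] [LocallyCompactSpace G]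

theorem exists_isSum (X Y : OPS G) : ∃ Z : OPS G, ν.IsSum X Y Z := by
  have hX := ν.speed_nonneg X
  have hY := ν.speed_nonneg Y
  have hU : ((hyperfilter ℕ : Ultrafilter ℕ) : Filter ℕ) ≤ atTop := Nat.hyperfilter_le_atTop
  obtain ⟨Z, hZ1, hZ2⟩ := exists_ops_limit ν (hyperfilter ℕ)
    (fun n => X.toFun (1 / n) * Y.toFun (1 / n)) (fun n => n) hU (ν.speed X + ν.speed Y)
    (Eventually.of_forall fun n => by
      rcases Nat.eq_zero_or_pos n with rfl | hn
      · simp only [Nat.cast_zero, zero_mul]; linarith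
      have hn0 : (0 : ℝ) < n := by exact_mod_cast hn
      have h1 := ν.N_le_speed X (1 / n)
      have h2 := ν.N_le_speed Y (1 / n)
      rw [abs_of_pos (by positivity)] at h1 h2
      calc (n : ℝ) * ν.N (X.toFun (1 / n) * Y.toFun (1 / n))
          ≤ n * (ν.N (X.toFun (1 / n)) + ν.N (Y.toFun (1 / n))) := by
            gcongr; exact ν.map_mul _ _
        _ ≤ n * (ν.speed X * (1 / n) + ν.speed Y * (1 / n)) := by gcongr
        _ = ν.speed X + ν.speed Y := by field_simp)
  refine ⟨Z, ν.speed_le Z _ (by linarith) hZ2, ?_⟩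
  have hρ := ν.rho_pos
  have hC := ν.C_pos
  have hK := ν.kap_pos
  have hr := ν.rad_pos
  have hr1 := ν.rad_le_half
  have hr2 := ν.rad_le_C
  have hr3 := ν.rad_le_one
  have hr4 := ν.rad_le_rk
  -- positive times
  have key : ∀ t : ℝ, 0 < t → ν.speed X * t ≤ ν.rad → ν.speed Y * t ≤ ν.rad →
      ν.N ((X.toFun t * Y.toFun t)⁻¹ * Z.toFun t) ≤ ν.kap * ν.speed X * ν.speed Y * t ^ 2 := by
    intro t ht hXt hYt
    have hfl : ∀ n : ℕ, (⌊t * (n : ℝ)⌋ : ℤ) = ((⌊t * n⌋₊ : ℕ) : ℤ) := fun n =>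
      (Int.natCast_floor_eq_floor (by positivity)).symm
    have hlim : Tendsto (fun n : ℕ => (⌊t * n⌋₊ : ℝ) * (1 / n))
        (hyperfilter ℕ : Filter ℕ) (𝓝 t) := by
      apply Tendsto.mono_left _ hU
      have := (tendsto_nat_floor_mul_div_atTop (R := ℝ) ht.le).comp
        (tendsto_natCast_atTop_atTop (R := ℝ))
      refine this.congr fun n => ?_
      simp [Function.comp, div_eq_mul_inv]
    have h1 : Tendsto (fun n : ℕ => X.toFun ((⌊t * n⌋₊ : ℝ) * (1 / n)))
        (hyperfilter ℕ : Filter ℕ) (𝓝 (X.toFun t)) := (X.cont.tendsto t).comp hlim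
    have h2 : Tendsto (fun n : ℕ => Y.toFun ((⌊t * n⌋₊ : ℝ) * (1 / n)))
        (hyperfilter ℕ : Filter ℕ) (𝓝 (Y.toFun t)) := (Y.cont.tendsto t).comp hlim
    have h3 : Tendsto (fun n : ℕ => (X.toFun (1 / n) * Y.toFun (1 / n)) ^ ⌊t * n⌋₊)
        (hyperfilter ℕ : Filter ℕ) (𝓝 (Z.toFun t)) := by
      refine (hZ1 t).congr fun n => ?_
      rw [hfl, zpow_natCast]
    have h4 : Tendsto (fun n : ℕ => ν.N ((X.toFun ((⌊t * n⌋₊ : ℝ) * (1 / n)) *
        Y.toFun ((⌊t * n⌋₊ : ℝ) * (1 / n)))⁻¹ *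
          (X.toFun (1 / n) * Y.toFun (1 / n)) ^ ⌊t * n⌋₊))
        (hyperfilter ℕ : Filter ℕ) (𝓝 (ν.N ((X.toFun t * Y.toFun t)⁻¹ * Z.toFun t))) :=
      (ν.continuous_N.tendsto _).comp (((h1.mul h2).inv).mul h3)
    apply le_of_tendsto h4
    filter_upwards [hU (eventually_gt_atTop 0)] with n hn
    have hn0 : (0 : ℝ) < n := by exact_mod_cast hn
    have hj : (⌊t * n⌋₊ : ℝ) ≤ t * n := Nat.floor_le (by positivity)
    have h5 := ν.N_le_speed X (1 / n)
    have h6 := ν.N_le_speed Y (1 / n)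
    rw [abs_of_pos (by positivity)] at h5 h6
    have h7 : (⌊t * n⌋₊ : ℝ) * ν.N (X.toFun (1 / n)) ≤ ν.speed X * t := by
      calc (⌊t * n⌋₊ : ℝ) * ν.N (X.toFun (1 / n)) ≤ (t * n) * (ν.speed X * (1 / n)) := by
            have := ν.nonneg (X.toFun (1 / n))
            gcongr
        _ = ν.speed X * t := by field_simp
    have h8 : (⌊t * n⌋₊ : ℝ) * ν.N (Y.toFun (1 / n)) ≤ ν.speed Y * t := by
      calc (⌊t * n⌋₊ : ℝ) * ν.N (Y.toFun (1 / n)) ≤ (t * n) * (ν.speed Y * (1 / n)) := by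
            have := ν.nonneg (Y.toFun (1 / n))
            gcongr
        _ = ν.speed Y * t := by field_simp
    have h9 := ν.powmul_le (X.toFun (1 / n)) (Y.toFun (1 / n)) ⌊t * n⌋₊ (by linarith)
      (by linarith)
    rw [X.map_nsmul, Y.map_nsmul]
    refine h9.trans ?_
    have h10 := ν.nonneg (X.toFun (1 / n))
    have h11 := ν.nonneg (Y.toFun (1 / n))
    calc ν.kap * (⌊t * n⌋₊ : ℝ) ^ 2 * ν.N (X.toFun (1 / n)) * ν.N (Y.toFun (1 / n))
        = ν.kap * (((⌊t * n⌋₊ : ℝ) * ν.N (X.toFun (1 / n))) *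
            ((⌊t * n⌋₊ : ℝ) * ν.N (Y.toFun (1 / n)))) := by ring
      _ ≤ ν.kap * ((ν.speed X * t) * (ν.speed Y * t)) := by
          gcongr
      _ = ν.kap * ν.speed X * ν.speed Y * t ^ 2 := by ring
  intro t hXt hYt
  have hsq : 0 ≤ ν.speed X * ν.speed Y * t ^ 2 := by positivity
  rcases lt_trichotomy t 0 with h | h | h
  · -- negative times
    have hs : 0 < -t := by linarith
    rw [abs_of_neg h] at hXt hYt
    set s := -t with hsdef
    have hts : t = -s := by rw [hsdef]; ring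
    have h1 := key s hs hXt hYt
    set k := (X.toFun s * Y.toFun s)⁻¹ * Z.toFun s with hk
    have hZ : Z.toFun s = X.toFun s * Y.toFun s * k := by rw [hk]; group
    rw [hts, Z.map_neg, X.map_neg, Y.map_neg, inv_inv, hZ]
    have h2 : X.toFun s * Y.toFun s * k * ((X.toFun s)⁻¹ * (Y.toFun s)⁻¹) =
        (X.toFun s * Y.toFun s * (X.toFun s)⁻¹ * (Y.toFun s)⁻¹) *
          ((Y.toFun s * X.toFun s) * k * (Y.toFun s * X.toFun s)⁻¹) := by group
    rw [h2]
    have h3 := ν.N_le_speed X s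
    have h4 := ν.N_le_speed Y s
    rw [abs_of_pos hs] at h3 h4
    have h5 := ν.comm (X.toFun s) (Y.toFun s) (by linarith) (by linarith)
    have h6 : ν.N (Y.toFun s * X.toFun s) ≤ ν.rho := by
      have := ν.map_mul (Y.toFun s) (X.toFun s)
      linarith
    have h7 : ν.N k ≤ ν.rho := by
      refine h1.trans ?_
      calc ν.kap * ν.speed X * ν.speed Y * s ^ 2
          = ν.kap * ((ν.speed X * s) * (ν.speed Y * s)) := by ring
        _ ≤ ν.kap * (1 * (ν.rho / ν.kap)) := by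
            gcongr
            · linarith
            · linarith
        _ = ν.rho := by field_simp
    have h8 := ν.conj_le k (Y.toFun s * X.toFun s) h7 h6
    have h9 : (-s) ^ 2 = s ^ 2 := by ring
    rw [h9]
    have h10 := ν.nonneg (X.toFun s)
    have h11 := ν.nonneg (Y.toFun s)
    calc ν.N (X.toFun s * Y.toFun s * (X.toFun s)⁻¹ * (Y.toFun s)⁻¹ *
          (Y.toFun s * X.toFun s * k * (Y.toFun s * X.toFun s)⁻¹))
        ≤ ν.N (X.toFun s * Y.toFun s * (X.toFun s)⁻¹ * (Y.toFun s)⁻¹) +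
          ν.N (Y.toFun s * X.toFun s * k * (Y.toFun s * X.toFun s)⁻¹) := ν.map_mul _ _
      _ ≤ ν.C * ν.N (X.toFun s) * ν.N (Y.toFun s) + 2 * ν.N k := add_le_add h5 h8
      _ ≤ ν.C * (ν.speed X * s) * (ν.speed Y * s) +
          2 * (ν.kap * ν.speed X * ν.speed Y * s ^ 2) := by gcongr
      _ = (2 * ν.kap + ν.C) * ν.speed X * ν.speed Y * s ^ 2 := by ring
  · subst h
    simp [Z.map_zero, X.map_zero, Y.map_zero, ν.map_one]
  · rw [abs_of_pos h] at hXt hYt
    have h1 := key t h hXt hYt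
    rw [← ν.map_inv]
    have h2 : ((Z.toFun t)⁻¹ * (X.toFun t * Y.toFun t))⁻¹ =
        (X.toFun t * Y.toFun t)⁻¹ * Z.toFun t := by group
    rw [h2]
    refine h1.trans ?_
    calc ν.kap * ν.speed X * ν.speed Y * t ^ 2
        = ν.kap * (ν.speed X * ν.speed Y * t ^ 2) := by ring
      _ ≤ (2 * ν.kap + ν.C) * (ν.speed X * ν.speed Y * t ^ 2) := by
          apply mul_le_mul_of_nonneg_right _ hsq
          linarith
      _ = (2 * ν.kap + ν.C) * ν.speed X * ν.speed Y * t ^ 2 := by ring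

omit [IsTopologicalGroup G] [T2Space G] [LocallyCompactSpace G] in
theorem cls_eq_add (X Y Z : OPS G) (A : ℝ)
    (h : ∀ᶠ t in 𝓝[>] (0 : ℝ), ν.N ((Z.toFun t)⁻¹ * (X.toFun t * Y.toFun t)) ≤ A * t ^ 2) :
    ν.cls Z = ν.cls X + ν.cls Y := by
  have h1 : (QuotientGroup.mk (⟨Z.toFun, ν.mem_bigSub Z⟩ : ν.bigSub) : ν.bigSub ⧸ ν.smallSub)
      = QuotientGroup.mk ((⟨X.toFun, ν.mem_bigSub X⟩ : ν.bigSub) * ⟨Y.toFun, ν.mem_bigSub Y⟩) := by
    rw [QuotientGroup.eq]
    intro ε hε
    have h5 : ∀ᶠ t in 𝓝[>] (0 : ℝ), t < ε / (|A| + 1) :=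
      (eventually_lt_nhds (by positivity)).filter_mono nhdsWithin_le_nhds
    filter_upwards [h, h5, self_mem_nhdsWithin] with t h2 h3 ht
    have ht' : (0 : ℝ) < t := ht
    refine (show ν.N ((Z.toFun t)⁻¹ * (X.toFun t * Y.toFun t)) ≤ ε * t from ?_)
    refine h2.trans ?_
    rw [lt_div_iff₀ (by positivity)] at h3
    have h6 := le_abs_self A
    nlinarith
  exact h1

end GleasonNorm

/-- the space of one-parameter subgroups, to be endowed with a normed space structure -/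
def LA (_ν : GleasonNorm G) : Type u := OPS G

namespace LA

set_option linter.unusedSectionVars false

variable {ν : GleasonNorm G} [IsTopologicalGroup G] [T2Space G] [LocallyCompactSpace G]

instance instZero : Zero (LA ν) := ⟨OPS.triv⟩
noncomputable instance instAdd : Add (LA ν) := ⟨fun X Y => (ν.exists_isSum X Y).choose⟩
instance instNeg : Neg (LA ν) := ⟨fun X => OPS.scal (-1) X⟩
noncomputable instance instSub : Sub (LA ν) := ⟨fun X Y => X + -Y⟩
instance instSMulNat : SMul ℕ (LA ν) := ⟨fun n X => OPS.scal (n : ℝ) X⟩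
instance instSMulInt : SMul ℤ (LA ν) := ⟨fun n X => OPS.scal (n : ℝ) X⟩
instance instSMulReal : SMul ℝ (LA ν) := ⟨fun s X => OPS.scal s X⟩

theorem add_spec (X Y : LA ν) : ν.IsSum X Y (X + Y : LA ν) := (ν.exists_isSum X Y).choose_spec

theorem cls_zero : ν.cls (0 : LA ν) = 0 := by
  show Additive.ofMul _ = _
  rw [← ofMul_one]
  congr 1

theorem cls_smul_nat (n : ℕ) (X : LA ν) : ν.cls (n • X : LA ν) = n • ν.cls X := by
  have h1 : (QuotientGroup.mk (⟨(OPS.scal (n : ℝ) X).toFun, ν.mem_bigSub _⟩ : ν.bigSub) :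
      ν.bigSub ⧸ ν.smallSub) = (QuotientGroup.mk (⟨X.toFun, ν.mem_bigSub X⟩ : ν.bigSub)) ^ n := by
    rw [← QuotientGroup.mk_pow]
    congr 1
    apply Subtype.ext
    funext t
    simp only [SubgroupClass.coe_pow, Pi.pow_apply]
    exact OPS.map_nsmul X n t
  exact h1

theorem cls_smul_int (n : ℤ) (X : LA ν) : ν.cls (n • X : LA ν) = n • ν.cls X := by
  have h1 : (QuotientGroup.mk (⟨(OPS.scal (n : ℝ) X).toFun, ν.mem_bigSub _⟩ : ν.bigSub) :
      ν.bigSub ⧸ ν.smallSub) = (QuotientGroup.mk (⟨X.toFun, ν.mem_bigSub X⟩ : ν.bigSub)) ^ n := by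
    rw [← QuotientGroup.mk_zpow]
    congr 1
    apply Subtype.ext
    funext t
    simp only [SubgroupClass.coe_zpow, Pi.pow_apply]
    exact OPS.map_zsmul X n t
  exact h1

theorem cls_neg (X : LA ν) : ν.cls (-X : LA ν) = - ν.cls X := by
  have h1 := cls_smul_int (-1) X
  rw [neg_one_zsmul] at h1
  rw [← h1]
  show ν.cls (OPS.scal (-1) X) = ν.cls (OPS.scal (((-1 : ℤ)) : ℝ) X)
  congr 2
  norm_num

theorem eventually_small (A : ℝ) (s : ℝ) :
    ∀ᶠ t in 𝓝[>] (0 : ℝ), A * |s * t| ≤ ν.rad := by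
  have h0 : Tendsto (fun t : ℝ => A * |s * t|) (𝓝 0) (𝓝 0) := by
    have : Continuous (fun t : ℝ => A * |s * t|) := by fun_prop
    have h := this.tendsto 0
    simpa using h
  exact ((h0.eventually (eventually_le_nhds ν.rad_pos))).filter_mono nhdsWithin_le_nhds

theorem cls_smul_add (s : ℝ) (X Y : LA ν) :
    ν.cls (s • (X + Y) : LA ν) = ν.cls (s • X : LA ν) + ν.cls (s • Y : LA ν) := by
  apply ν.cls_eq_add _ _ _ ((2 * ν.kap + ν.C) * ν.speed X * ν.speed Y * s ^ 2)
  filter_upwards [eventually_small (ν := ν) (ν.speed X) s,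
    eventually_small (ν := ν) (ν.speed Y) s] with t h1 h2
  have h3 := (add_spec X Y).2 (s * t) h1 h2
  refine (le_of_eq ?_).trans (h3.trans (le_of_eq ?_))
  · rfl
  · ring

theorem cls_add (X Y : LA ν) : ν.cls (X + Y : LA ν) = ν.cls X + ν.cls Y := by
  have h1 := cls_smul_add 1 X Y
  have h2 : ∀ Z : LA ν, ((1 : ℝ) • Z : LA ν) = Z := fun Z => OPS.scal_one Z
  rwa [h2, h2, h2] at h1

theorem cls_sub (X Y : LA ν) : ν.cls (X - Y : LA ν) = ν.cls X - ν.cls Y := by
  show ν.cls (X + -Y : LA ν) = _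
  rw [cls_add, cls_neg, sub_eq_add_neg]

noncomputable instance instAddCommGroup : AddCommGroup (LA ν) :=
  Function.Injective.addCommGroup (fun X : LA ν => ν.cls X) ν.cls_injective cls_zero cls_add
    cls_neg cls_sub (fun X n => cls_smul_nat n X) (fun X n => cls_smul_int n X)

noncomputable instance instModule : Module ℝ (LA ν) where
  one_smul X := OPS.scal_one X
  mul_smul a b X := OPS.scal_scal a b X
  smul_zero a := by
    apply OPS.ext_fun
    intro t
    rfl
  smul_add a X Y := by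
    apply ν.cls_injective
    rw [cls_smul_add, cls_add]
  add_smul a b X := by
    apply ν.cls_injective
    rw [cls_add]
    apply ν.cls_eq_add _ _ _ 0
    refine Eventually.of_forall fun t => ?_
    have h1 : OPS.toFun ((a + b) • X : LA ν) t =
        OPS.toFun (a • X : LA ν) t * OPS.toFun (b • X : LA ν) t := OPS.scal_add_apply a b X t
    rw [h1, inv_mul_cancel, ν.map_one]
    simp
  zero_smul X := OPS.scal_zero X

noncomputable instance instNorm : Norm (LA ν) := ⟨fun X => ν.speed X⟩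

theorem norm_def (X : LA ν) : ‖X‖ = ν.speed X := rfl

theorem speed_scal_le (s : ℝ) (X : OPS G) : ν.speed (OPS.scal s X) ≤ |s| * ν.speed X := by
  apply ν.speed_le _ _ (mul_nonneg (abs_nonneg _) (ν.speed_nonneg _))
  intro t
  have := ν.N_le_speed X (s * t)
  rw [abs_mul] at this
  rw [OPS.scal_apply]
  linarith

theorem core : NormedSpace.Core ℝ (LA ν) where
  norm_nonneg X := ν.speed_nonneg X
  norm_smul c X := by
    rw [norm_def, norm_def, Real.norm_eq_abs]
    apply le_antisymm (speed_scal_le c X)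
    rcases eq_or_ne c 0 with rfl | hc
    · rw [abs_zero, zero_mul]; exact ν.speed_nonneg _
    have h2 : ∀ Y : OPS G, ν.speed Y ≤ |c|⁻¹ * ν.speed (OPS.scal c Y) := fun Y => by
      have h1 := speed_scal_le (ν := ν) c⁻¹ (OPS.scal c Y)
      rwa [← OPS.scal_scal, inv_mul_cancel₀ hc, OPS.scal_one, abs_inv] at h1
    have h1 := h2 X
    have h3 : 0 < |c| := abs_pos.mpr hc
    rw [inv_mul_eq_div, le_div_iff₀ h3] at h1
    calc |c| * ν.speed X = ν.speed X * |c| := mul_comm _ _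
      _ ≤ _ := h1
  norm_triangle X Y := (add_spec X Y).1
  norm_eq_zero_iff X := by
    constructor
    · intro h
      apply OPS.ext_fun
      intro t
      have h1 := ν.N_le_speed X t
      rw [norm_def] at h
      rw [h, zero_mul] at h1
      exact ν.eq_one _ (le_antisymm h1 (ν.nonneg _))
    · intro h
      rw [h, norm_def]
      apply le_antisymm _ (ν.speed_nonneg _)
      apply ν.speed_le _ _ le_rfl
      intro t
      show ν.N 1 ≤ _
      rw [ν.map_one, zero_mul]

noncomputable instance instNormedAddCommGroup : NormedAddCommGroup (LA ν) :=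
  NormedAddCommGroup.ofCore core

noncomputable instance instNormedSpace : NormedSpace ℝ (LA ν) :=
  NormedSpace.ofCore core

end LA

theorem exists_lie_normed [IsTopologicalGroup G] [T2Space G] [LocallyCompactSpace G]
    (ν : GleasonNorm G) :
    ∃ (E : Type u) (_ : NormedAddCommGroup E) (_ : NormedSpace ℝ E) (Φ : E ≃ OPS G) (r K : ℝ),
      0 < r ∧ 0 < K ∧
      (∀ (X : E) (s t : ℝ), (Φ (s • X)).toFun t = (Φ X).toFun (s * t)) ∧
      (∀ (X : E) (t : ℝ), ν.N ((Φ X).toFun t) ≤ ‖X‖ * |t|) ∧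
      (∀ (X : E) (t : ℝ), ‖X‖ * |t| ≤ r → ‖X‖ * |t| ≤ K * ν.N ((Φ X).toFun t)) ∧
      (∀ (X Y : E) (t : ℝ), ‖X‖ * |t| ≤ r → ‖Y‖ * |t| ≤ r →
        ν.N (((Φ (X + Y)).toFun t)⁻¹ * ((Φ X).toFun t * (Φ Y).toFun t)) ≤
          K * ‖X‖ * ‖Y‖ * t ^ 2) := by
  have hK := ν.kap_pos
  have hC := ν.C_pos
  have hr := ν.rad_pos
  have hρ := ν.rho_pos
  refine ⟨LA ν, inferInstance, inferInstance, Equiv.refl _, ν.rad, 2 * ν.kap + ν.C, hr,
    by positivity, fun X s t => rfl, fun X t => ν.N_le_speed X t, ?_, ?_⟩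
  · intro X t h
    have h1 : ν.speed X * |t| ≤ ν.rho := by
      have := ν.rad_le_half
      exact le_trans h (by linarith)
    have h2 := ν.speed_mul_le X t h1
    refine le_trans h2 ?_
    apply mul_le_mul_of_nonneg_right _ (ν.nonneg _)
    linarith
  · intro X Y t h1 h2
    exact (LA.add_spec X Y).2 t h1 h2

end GY
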