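import Pool.Agent.MP6c9f91.Estimates
import Pool.Agent.MP6c9f91.OPSLimit
import Pool.Agent.MP6c9f91.LieAlg
import Pool.Agent.MP6c9f91.GleasonNormExists

/-!
# T5d : from the normed space of one-parameter subgroups to Lie data
-/

open Topology Filter

universe u v w

namespace GY

section

variable {G : Type u} [Group G] [TopologicalSpace G]

theorem T5d.N_le_add (ν : GleasonNorm G) (a b : G) :
    ν.N a ≤ ν.N b + ν.N (a⁻¹ * b) := by
  have h1 : a = b * (a⁻¹ * b)⁻¹ := by group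
  calc ν.N a = ν.N (b * (a⁻¹ * b)⁻¹) := by rw [← h1]
    _ ≤ ν.N b + ν.N (a⁻¹ * b)⁻¹ := ν.map_mul _ _
    _ = ν.N b + ν.N (a⁻¹ * b) := by rw [ν.map_inv]

theorem T5d.N_inv_mul_comm (ν : GleasonNorm G) (a b : G) :
    ν.N (a⁻¹ * b) = ν.N (b⁻¹ * a) := by
  rw [← ν.map_inv]; congr 1; group

theorem T5d.N_triangle (ν : GleasonNorm G) (a b c : G) :
    ν.N (a⁻¹ * c) ≤ ν.N (a⁻¹ * b) + ν.N (b⁻¹ * c) := by
  have h1 : a⁻¹ * c = (a⁻¹ * b) * (b⁻¹ * c) := by group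
  rw [h1]; exact ν.map_mul _ _

theorem T5d.N_mul_inv_le (ν : GleasonNorm G) (a b : G) :
    ν.N b ≤ ν.N a + ν.N (a⁻¹ * b) := by
  have h1 : b = a * (a⁻¹ * b) := by group
  calc ν.N b = ν.N (a * (a⁻¹ * b)) := by rw [← h1]
    _ ≤ _ := ν.map_mul _ _

variable [IsTopologicalGroup G]

theorem T5d.tendsto_iff {ι : Type v} (ν : GleasonNorm G) {l : Filter ι} {f : ι → G}
    {a : G} : Tendsto f l (𝓝 a) ↔ Tendsto (fun i => ν.N (a⁻¹ * f i)) l (𝓝 0) := by
  constructor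
  · intro h
    rw [Metric.tendsto_nhds]
    intro ε hε
    have h1 : Tendsto (fun i => a⁻¹ * f i) l (𝓝 1) := by
      have := h.const_mul a⁻¹
      rwa [inv_mul_cancel] at this
    have := h1.eventually (ν.nhds ε hε)
    filter_upwards [this] with i hi
    rw [Real.dist_eq, sub_zero, abs_of_nonneg (ν.nonneg _)]
    exact hi
  · intro h
    have h1 : Tendsto (fun i => a⁻¹ * f i) l (𝓝 1) := by
      intro U hU
      obtain ⟨r, hr, hrU⟩ := ν.small U hU
      have := (Metric.tendsto_nhds.1 h) r hr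
      show ∀ᶠ i in l, a⁻¹ * f i ∈ U
      filter_upwards [this] with i hi
      rw [Real.dist_eq, sub_zero, abs_of_nonneg (ν.nonneg _)] at hi
      exact hrU _ hi
    have := h1.const_mul a
    simpa using this

theorem T5d.continuous_N (ν : GleasonNorm G) : Continuous ν.N := by
  rw [continuous_iff_continuousAt]
  intro g
  unfold ContinuousAt
  have h1 : Tendsto (fun h => ν.N (g⁻¹ * h)) (𝓝 g) (𝓝 0) := (T5d.tendsto_iff ν).1 tendsto_id
  rw [tendsto_iff_dist_tendsto_zero]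
  refine squeeze_zero (fun _ => dist_nonneg) (fun h => ?_) h1
  rw [Real.dist_eq, abs_le]
  constructor
  · have := T5d.N_le_add ν g h
    linarith
  · have := T5d.N_mul_inv_le ν g h
    linarith

theorem T5d.exists_compact_ball [LocallyCompactSpace G] [T2Space G] (ν : GleasonNorm G) :
    ∃ r > 0, IsCompact {g | ν.N g ≤ r} := by
  obtain ⟨K, hK, hK1⟩ := exists_compact_mem_nhds (1 : G)
  obtain ⟨r, hr, hrK⟩ := ν.small K hK1
  refine ⟨r / 2, by positivity, hK.of_isClosed_subset ?_ ?_⟩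
  · exact isClosed_le (T5d.continuous_N ν) continuous_const
  · intro g hg
    apply hrK
    have : ν.N g ≤ r / 2 := hg
    linarith

/-- a homomorphism `ℝ → G` which tends to `1` at `0` is continuous -/
theorem T5d.continuous_of_hom (f : ℝ → G) (hadd : ∀ s t, f (s + t) = f s * f t)
    (h0 : Tendsto f (𝓝 0) (𝓝 1)) : Continuous f := by
  rw [continuous_iff_continuousAt]
  intro t
  have h1 : Tendsto (fun s => f t * f (s - t)) (𝓝 t) (𝓝 (f t * 1)) := by
    apply Tendsto.const_mul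
    apply h0.comp
    have : Tendsto (fun s : ℝ => s - t) (𝓝 t) (𝓝 (t - t)) := by
      exact (continuous_id.sub continuous_const).tendsto t
    rwa [sub_self] at this
  have h2 : (fun s => f t * f (s - t)) = f := by
    funext s
    rw [← hadd]; congr 1; ring
  rw [h2, mul_one] at h1
  exact h1

end

section Main

variable {G : Type u} [Group G] [TopologicalSpace G] [IsTopologicalGroup G] [T2Space G]
  [LocallyCompactSpace G]

omit [IsTopologicalGroup G] [T2Space G] [LocallyCompactSpace G] in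
theorem T5d.ops_map_zero (X : OPS G) : X.toFun 0 = 1 := by
  have := X.map_add 0 0
  rw [add_zero] at this
  exact left_eq_mul.1 this

omit [IsTopologicalGroup G] [T2Space G] [LocallyCompactSpace G] in
theorem T5d.ops_map_nsmul (X : OPS G) (n : ℕ) (t : ℝ) : X.toFun (n * t) = X.toFun t ^ n := by
  induction n with
  | zero => simp [T5d.ops_map_zero X]
  | succ n ih =>
    rw [pow_succ, ← ih, ← X.map_add]
    congr 1; push_cast; ring

omit [IsTopologicalGroup G] [T2Space G] [LocallyCompactSpace G] in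
theorem T5d.ops_map_neg (X : OPS G) (t : ℝ) : X.toFun (-t) = (X.toFun t)⁻¹ := by
  rw [eq_inv_iff_mul_eq_one, ← X.map_add, neg_add_cancel, T5d.ops_map_zero X]

omit [IsTopologicalGroup G] [T2Space G] [LocallyCompactSpace G] in
theorem T5d.ops_ext' {X Y : OPS G} (h : ∀ t, X.toFun t = Y.toFun t) : X = Y := by
  cases X; cases Y; congr; funext t; exact h t

variable (ν : GleasonNorm G) {E : Type u} [NormedAddCommGroup E] [NormedSpace ℝ E]
  (Φ : E ≃ OPS G) {r K : ℝ}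

/-- the closed unit ball is compact -/
theorem compact_ball_of_lie (hr : 0 < r) (hK : 0 < K)
    (hs : ∀ (X : E) (s t : ℝ), (Φ (s • X)).toFun t = (Φ X).toFun (s * t))
    (hle : ∀ (X : E) (t : ℝ), ν.N ((Φ X).toFun t) ≤ ‖X‖ * |t|)
    (hge : ∀ (X : E) (t : ℝ), ‖X‖ * |t| ≤ r → ‖X‖ * |t| ≤ K * ν.N ((Φ X).toFun t))
    (htan : ∀ (X Y : E) (t : ℝ), ‖X‖ * |t| ≤ r → ‖Y‖ * |t| ≤ r →
        ν.N (((Φ (X + Y)).toFun t)⁻¹ * ((Φ X).toFun t * (Φ Y).toFun t)) ≤
          K * ‖X‖ * ‖Y‖ * t ^ 2) :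
    IsCompact (Metric.closedBall (0 : E) 1) := by
  obtain ⟨ρ, hρ, hρc⟩ := T5d.exists_compact_ball ν
  rw [isCompact_iff_ultrafilter_le_nhds]
  intro 𝒱 h𝒱
  have hball : ∀ᶠ X in (𝒱 : Filter E), ‖X‖ ≤ 1 := by
    have : Metric.closedBall (0 : E) 1 ∈ (𝒱 : Filter E) := by
      exact h𝒱 (mem_principal_self _)
    filter_upwards [this] with X hX
    simpa using hX
  -- pointwise limits
  have hlim : ∀ t : ℝ, ∃ y, Tendsto (fun X : E => (Φ X).toFun t) 𝒱 (𝓝 y) := by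
    have hsmall : ∀ t : ℝ, |t| ≤ ρ → ∃ y, Tendsto (fun X : E => (Φ X).toFun t) 𝒱 (𝓝 y) := by
      intro t ht
      have h1 : (𝒱.map (fun X : E => (Φ X).toFun t) : Filter G) ≤ 𝓟 {g | ν.N g ≤ ρ} := by
        rw [le_principal_iff]
        show ∀ᶠ X in (𝒱 : Filter E), ν.N ((Φ X).toFun t) ≤ ρ
        filter_upwards [hball] with X hX
        calc ν.N ((Φ X).toFun t) ≤ ‖X‖ * |t| := hle X t
          _ ≤ 1 * ρ := by gcongr
          _ = ρ := one_mul _
      obtain ⟨y, -, hy⟩ := hρc.ultrafilter_le_nhds _ h1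
      exact ⟨y, hy⟩
    intro t
    obtain ⟨m, hm⟩ := exists_nat_gt (|t| / ρ)
    have hm0 : (0 : ℝ) < m := lt_of_le_of_lt (by positivity) hm
    obtain ⟨y, hy⟩ := hsmall (t / m) (by
      rw [abs_div, Nat.abs_cast, div_le_iff₀ hm0]
      rw [div_lt_iff₀ hρ] at hm
      linarith)
    refine ⟨y ^ m, ?_⟩
    have h2 : (fun X : E => (Φ X).toFun t) = fun X => ((Φ X).toFun (t / m)) ^ m := by
      funext X
      rw [← T5d.ops_map_nsmul]
      congr 1
      field_simp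
    rw [h2]
    exact hy.pow m
  choose Y hY using hlim
  have hYadd : ∀ s t, Y (s + t) = Y s * Y t := by
    intro s t
    refine tendsto_nhds_unique (hY (s + t)) ?_
    have := (hY s).mul (hY t)
    refine this.congr fun X => ?_
    rw [(Φ X).map_add]
  have hYN : ∀ t, ν.N (Y t) ≤ |t| := by
    intro t
    refine le_of_tendsto (((T5d.continuous_N ν).tendsto _).comp (hY t)) ?_
    filter_upwards [hball] with X hX
    calc ν.N ((Φ X).toFun t) ≤ ‖X‖ * |t| := hle X t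
      _ ≤ 1 * |t| := by gcongr
      _ = |t| := one_mul _
  have hYcont : Continuous Y := by
    refine T5d.continuous_of_hom Y hYadd ?_
    rw [T5d.tendsto_iff ν]
    refine squeeze_zero (fun _ => ν.nonneg _) (fun t => ?_) (show Tendsto (fun t : ℝ => |t|) (𝓝 0) (𝓝 0) by
      simpa using (continuous_abs (G := ℝ)).tendsto 0)
    rw [inv_one, one_mul]; exact hYN t
  let Yo : OPS G := ⟨Y, hYcont, hYadd⟩
  set X₀ : E := Φ.symm Yo with hX₀
  have hΦX : ∀ t, (Φ X₀).toFun t = Y t := by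
    intro t; rw [hX₀, Equiv.apply_symm_apply]
  -- norm convergence
  have hconv : Tendsto (fun X : E => X) 𝒱 (𝓝 X₀) := by
    rw [tendsto_iff_norm_sub_tendsto_zero, Metric.tendsto_nhds]
    intro ε hε
    set B := 1 + ‖X₀‖ with hB
    have hBpos : 0 < B := by positivity
    -- choice of t
    obtain ⟨t, ht0, ht1, ht2⟩ : ∃ t : ℝ, 0 < t ∧ B * t ≤ r ∧ K * (K * ‖X₀‖ * t) ≤ ε / 2 := by
      refine ⟨min (r / B) (ε / 2 / (K * (K * ‖X₀‖) + 1)), ?_, ?_, ?_⟩
      · have : 0 < K * (K * ‖X₀‖) + 1 := by positivity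
        positivity
      · calc B * min (r / B) (ε / 2 / (K * (K * ‖X₀‖) + 1)) ≤ B * (r / B) := by
              gcongr; exact min_le_left _ _
          _ = r := by field_simp
      · have h0 : 0 < K * (K * ‖X₀‖) + 1 := by positivity
        calc K * (K * ‖X₀‖ * min (r / B) (ε / 2 / (K * (K * ‖X₀‖) + 1)))
            ≤ K * (K * ‖X₀‖ * (ε / 2 / (K * (K * ‖X₀‖) + 1))) := by
              gcongr; exact min_le_right _ _
          _ = (K * (K * ‖X₀‖)) / (K * (K * ‖X₀‖) + 1) * (ε / 2) := by ring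
          _ ≤ 1 * (ε / 2) := by
              gcongr
              rw [div_le_one h0]; linarith
          _ = ε / 2 := one_mul _
    have h1 : Tendsto (fun X : E => ν.N ((Φ X).toFun t * ((Φ X₀).toFun t)⁻¹)) 𝒱 (𝓝 0) := by
      have h2 : Tendsto (fun X : E => (Φ X).toFun t * ((Φ X₀).toFun t)⁻¹) 𝒱 (𝓝 1) := by
        have := (hY t).mul_const (Y t)⁻¹
        rw [mul_inv_cancel] at this
        rw [hΦX]
        exact this
      have := ((T5d.continuous_N ν).tendsto 1).comp h2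
      rwa [ν.map_one] at this
    have h3 : ∀ᶠ X in (𝒱 : Filter E), K / t * ν.N ((Φ X).toFun t * ((Φ X₀).toFun t)⁻¹) < ε / 2 := by
      have h4 := h1.const_mul (K / t)
      rw [mul_zero] at h4
      exact h4.eventually (gt_mem_nhds (by positivity))
    filter_upwards [hball, h3] with X hX h5
    rw [Real.dist_eq, sub_zero, abs_of_nonneg (norm_nonneg _)]
    have hnorm : ‖X - X₀‖ ≤ B := by
      calc ‖X - X₀‖ ≤ ‖X‖ + ‖X₀‖ := norm_sub_le _ _
        _ ≤ 1 + ‖X₀‖ := by gcongr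
    have habs : |t| = t := abs_of_pos ht0
    have h6 : ‖X - X₀‖ * |t| ≤ r := by
      rw [habs]
      exact (mul_le_mul_of_nonneg_right hnorm ht0.le).trans ht1
    have h7 := hge (X - X₀) t h6
    have h8 := htan X (-X₀) t (by
      rw [habs]
      calc ‖X‖ * t ≤ B * t := by gcongr; rw [hB]; linarith [norm_nonneg X₀]
        _ ≤ r := ht1) (by
      rw [habs, norm_neg]
      calc ‖X₀‖ * t ≤ B * t := by gcongr; rw [hB]; linarith
        _ ≤ r := ht1)
    rw [← sub_eq_add_neg] at h8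
    have h9 : (Φ (-X₀)).toFun t = ((Φ X₀).toFun t)⁻¹ := by
      rw [← T5d.ops_map_neg]
      have := hs X₀ (-1) t
      rw [neg_one_smul] at this
      rw [this]; congr 1; ring
    rw [h9] at h8
    have h10 := T5d.N_le_add ν ((Φ (X - X₀)).toFun t) ((Φ X).toFun t * ((Φ X₀).toFun t)⁻¹)
    rw [norm_neg] at h8
    have h11 : ‖X - X₀‖ * t ≤ K * ν.N ((Φ X).toFun t * ((Φ X₀).toFun t)⁻¹) +
        K * (K * ‖X₀‖ * t ^ 2) := by
      rw [habs] at h7
      have h12 : K * ‖X‖ * ‖X₀‖ * t ^ 2 ≤ K * ‖X₀‖ * t ^ 2 := by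
        have : K * ‖X‖ * ‖X₀‖ * t ^ 2 ≤ K * 1 * ‖X₀‖ * t ^ 2 := by gcongr
        simpa using this
      calc ‖X - X₀‖ * t ≤ K * ν.N ((Φ (X - X₀)).toFun t) := h7
        _ ≤ K * (ν.N ((Φ X).toFun t * ((Φ X₀).toFun t)⁻¹) + K * ‖X₀‖ * t ^ 2) := by
            gcongr
            linarith
        _ = _ := by ring
    have h13 : ‖X - X₀‖ ≤ K / t * ν.N ((Φ X).toFun t * ((Φ X₀).toFun t)⁻¹) +
        K * (K * ‖X₀‖ * t) := by
      rw [← mul_le_mul_iff_left₀ ht0]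
      calc ‖X - X₀‖ * t ≤ _ := h11
        _ = (K / t * ν.N ((Φ X).toFun t * ((Φ X₀).toFun t)⁻¹) + K * (K * ‖X₀‖ * t)) * t := by
            field_simp
    linarith
  refine ⟨X₀, ?_, hconv⟩
  exact Metric.isClosed_closedBall.mem_of_tendsto hconv (h𝒱 (mem_principal_self _))

/-- upper bi-Lipschitz estimate -/
theorem lie_upper (hr : 0 < r) (hK : 0 < K)
    (hs : ∀ (X : E) (s t : ℝ), (Φ (s • X)).toFun t = (Φ X).toFun (s * t))
    (hle : ∀ (X : E) (t : ℝ), ν.N ((Φ X).toFun t) ≤ ‖X‖ * |t|)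
    (htan : ∀ (X Y : E) (t : ℝ), ‖X‖ * |t| ≤ r → ‖Y‖ * |t| ≤ r →
        ν.N (((Φ (X + Y)).toFun t)⁻¹ * ((Φ X).toFun t * (Φ Y).toFun t)) ≤
          K * ‖X‖ * ‖Y‖ * t ^ 2)
    {ρ : ℝ} (hA : ∀ (g h : G) (n : ℕ), n * ν.N g ≤ ρ → n * ν.N h ≤ ρ →
      ν.N ((g ^ n)⁻¹ * h ^ n) ≤ 2 * n * ν.N (g⁻¹ * h))
    (X Y : E) (hX : ‖X‖ ≤ r) (hX' : ‖X‖ ≤ ρ) (hY : ‖Y‖ ≤ r) (hY' : ‖Y‖ ≤ ρ) :
    ν.N (((Φ X).toFun 1)⁻¹ * (Φ Y).toFun 1) ≤ 2 * ‖X - Y‖ := by
  have hneg : ∀ (X : E) (t : ℝ), (Φ (-X)).toFun t = ((Φ X).toFun t)⁻¹ := by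
    intro X t
    rw [← T5d.ops_map_neg]
    have := hs X (-1) t
    rw [neg_one_smul] at this
    rw [this]; congr 1; ring
  have key : ∀ n : ℕ, 0 < n → ν.N (((Φ X).toFun 1)⁻¹ * (Φ Y).toFun 1) ≤
      2 * ‖X - Y‖ + 2 * (K * ‖X‖ * ‖Y‖) / n := by
    intro n hn
    have hn' : (0 : ℝ) < n := by exact_mod_cast hn
    have habs : |(1 / n : ℝ)| = 1 / n := abs_of_pos (by positivity)
    have e1 : ∀ Z : E, (Φ Z).toFun 1 = ((Φ Z).toFun (1 / n)) ^ n := by
      intro Z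
      rw [← T5d.ops_map_nsmul]; congr 1; field_simp
    have e2 : ∀ Z : E, n * ν.N ((Φ Z).toFun (1 / n)) ≤ ‖Z‖ := by
      intro Z
      calc n * ν.N ((Φ Z).toFun (1 / n)) ≤ n * (‖Z‖ * |(1 / n : ℝ)|) := by
            gcongr; exact hle Z _
        _ = ‖Z‖ := by rw [habs]; field_simp
    have e3 : ∀ Z : E, ‖Z‖ ≤ r → ‖Z‖ * |(1 / n : ℝ)| ≤ r := by
      intro Z hZ
      rw [habs]
      have : (1 / n : ℝ) ≤ 1 := by
        rw [div_le_one hn']; exact_mod_cast hn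
      calc ‖Z‖ * (1 / n) ≤ ‖Z‖ * 1 := by gcongr
        _ ≤ r := by rw [mul_one]; exact hZ
    rw [e1 X, e1 Y]
    refine (hA _ _ n ((e2 X).trans hX') ((e2 Y).trans hY')).trans ?_
    have h8 := htan (-X) Y (1 / n) (e3 (-X) (by rw [norm_neg]; exact hX)) (e3 Y hY)
    rw [hneg, norm_neg] at h8
    have h9 := T5d.N_mul_inv_le ν ((Φ (-X + Y)).toFun (1 / n))
      (((Φ X).toFun (1 / n))⁻¹ * (Φ Y).toFun (1 / n))
    have h10 : n * ν.N ((Φ (-X + Y)).toFun (1 / n)) ≤ ‖X - Y‖ := by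
      refine (e2 _).trans (le_of_eq ?_)
      rw [← norm_neg]; congr 1; abel
    calc 2 * n * ν.N (((Φ X).toFun (1 / n))⁻¹ * (Φ Y).toFun (1 / n))
        ≤ 2 * n * (ν.N ((Φ (-X + Y)).toFun (1 / n)) + K * ‖X‖ * ‖Y‖ * (1 / n) ^ 2) := by
          gcongr
          linarith
      _ = 2 * (n * ν.N ((Φ (-X + Y)).toFun (1 / n))) + 2 * (K * ‖X‖ * ‖Y‖) / n := by
          field_simp
      _ ≤ 2 * ‖X - Y‖ + 2 * (K * ‖X‖ * ‖Y‖) / n := by gcongr
  have hlim : Tendsto (fun n : ℕ => 2 * ‖X - Y‖ + 2 * (K * ‖X‖ * ‖Y‖) / n) atTop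
      (𝓝 (2 * ‖X - Y‖ + 0)) := by
    exact tendsto_const_nhds.add (tendsto_const_div_atTop_nhds_zero_nat _)
  rw [add_zero] at hlim
  refine ge_of_tendsto hlim ?_
  filter_upwards [eventually_gt_atTop 0] with n hn
  exact key n hn

/-- lower bi-Lipschitz estimate -/
theorem lie_lower (hr : 0 < r) (hK : 0 < K)
    (hs : ∀ (X : E) (s t : ℝ), (Φ (s • X)).toFun t = (Φ X).toFun (s * t))
    (hle : ∀ (X : E) (t : ℝ), ν.N ((Φ X).toFun t) ≤ ‖X‖ * |t|)
    (hge : ∀ (X : E) (t : ℝ), ‖X‖ * |t| ≤ r → ‖X‖ * |t| ≤ K * ν.N ((Φ X).toFun t))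
    (htan : ∀ (X Y : E) (t : ℝ), ‖X‖ * |t| ≤ r → ‖Y‖ * |t| ≤ r →
        ν.N (((Φ (X + Y)).toFun t)⁻¹ * ((Φ X).toFun t * (Φ Y).toFun t)) ≤
          K * ‖X‖ * ‖Y‖ * t ^ 2)
    {ρ K' : ℝ} (hD : ∀ (g h : G) (n : ℕ), n * ν.N g ≤ ρ → n * ν.N h ≤ ρ →
      n * ν.N (g⁻¹ * h) ≤ K' * ν.N ((g ^ n)⁻¹ * h ^ n))
    (X Y : E) (hX : ‖X‖ ≤ r) (hX' : ‖X‖ ≤ ρ) (hY : ‖Y‖ ≤ r) (hY' : ‖Y‖ ≤ ρ) :
    ‖X - Y‖ ≤ K * K' * ν.N (((Φ X).toFun 1)⁻¹ * (Φ Y).toFun 1) := by
  have hneg : ∀ (X : E) (t : ℝ), (Φ (-X)).toFun t = ((Φ X).toFun t)⁻¹ := by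
    intro X t
    rw [← T5d.ops_map_neg]
    have := hs X (-1) t
    rw [neg_one_smul] at this
    rw [this]; congr 1; ring
  obtain ⟨n₀, hn₀⟩ := exists_nat_gt (‖-X + Y‖ / r)
  have key : ∀ n : ℕ, n₀ < n → ‖X - Y‖ ≤
      K * K' * ν.N (((Φ X).toFun 1)⁻¹ * (Φ Y).toFun 1) + K * (K * ‖X‖ * ‖Y‖) / n := by
    intro n hn
    have hn' : (0 : ℝ) < n := by exact_mod_cast (Nat.zero_le _).trans_lt hn
    have hn1 : (1 : ℝ) ≤ n := by exact_mod_cast (Nat.zero_le _).trans_lt hn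
    have habs : |(1 / n : ℝ)| = 1 / n := abs_of_pos (by positivity)
    have e1 : ∀ Z : E, (Φ Z).toFun 1 = ((Φ Z).toFun (1 / n)) ^ n := by
      intro Z
      rw [← T5d.ops_map_nsmul]; congr 1; field_simp
    have e2 : ∀ Z : E, n * ν.N ((Φ Z).toFun (1 / n)) ≤ ‖Z‖ := by
      intro Z
      calc n * ν.N ((Φ Z).toFun (1 / n)) ≤ n * (‖Z‖ * |(1 / n : ℝ)|) := by
            gcongr; exact hle Z _
        _ = ‖Z‖ := by rw [habs]; field_simp
    have e3 : ∀ Z : E, ‖Z‖ ≤ r → ‖Z‖ * |(1 / n : ℝ)| ≤ r := by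
      intro Z hZ
      rw [habs]
      have : (1 / n : ℝ) ≤ 1 := by
        rw [div_le_one hn']; exact hn1
      calc ‖Z‖ * (1 / n) ≤ ‖Z‖ * 1 := by gcongr
        _ ≤ r := by rw [mul_one]; exact hZ
    have h8 := htan (-X) Y (1 / n) (e3 (-X) (by rw [norm_neg]; exact hX)) (e3 Y hY)
    rw [hneg, norm_neg] at h8
    have h9 := T5d.N_le_add ν ((Φ (-X + Y)).toFun (1 / n))
      (((Φ X).toFun (1 / n))⁻¹ * (Φ Y).toFun (1 / n))
    have h10 : ‖-X + Y‖ * |(1 / n : ℝ)| ≤ r := by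
      rw [habs, mul_one_div, div_le_iff₀ hn']
      rw [div_lt_iff₀ hr] at hn₀
      have : (n₀ : ℝ) * r ≤ n * r := by
        gcongr
      linarith
    have h11 := hge _ _ h10
    rw [habs] at h11
    have h12 := hD _ _ n ((e2 X).trans hX') ((e2 Y).trans hY')
    rw [← e1, ← e1] at h12
    have hXY : ‖X - Y‖ = ‖-X + Y‖ := by
      rw [← norm_neg]; congr 1; abel
    rw [hXY]
    calc ‖-X + Y‖ = n * (‖-X + Y‖ * (1 / n)) := by field_simp
      _ ≤ n * (K * ν.N ((Φ (-X + Y)).toFun (1 / n))) := by gcongr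
      _ ≤ n * (K * (ν.N (((Φ X).toFun (1 / n))⁻¹ * (Φ Y).toFun (1 / n)) +
            K * ‖X‖ * ‖Y‖ * (1 / n) ^ 2)) := by
          gcongr
          linarith
      _ = K * (n * ν.N (((Φ X).toFun (1 / n))⁻¹ * (Φ Y).toFun (1 / n))) +
            K * (K * ‖X‖ * ‖Y‖) / n := by field_simp
      _ ≤ K * (K' * ν.N (((Φ X).toFun 1)⁻¹ * (Φ Y).toFun 1)) + K * (K * ‖X‖ * ‖Y‖) / n := by
          gcongr
      _ = _ := by ring
  have hlim : Tendsto (fun n : ℕ => K * K' * ν.N (((Φ X).toFun 1)⁻¹ * (Φ Y).toFun 1) +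
      K * (K * ‖X‖ * ‖Y‖) / n) atTop
      (𝓝 (K * K' * ν.N (((Φ X).toFun 1)⁻¹ * (Φ Y).toFun 1) + 0)) := by
    exact tendsto_const_nhds.add (tendsto_const_div_atTop_nhds_zero_nat _)
  rw [add_zero] at hlim
  refine ge_of_tendsto hlim ?_
  filter_upwards [eventually_gt_atTop n₀] with n hn
  exact key n hn

/-- continuity of the exponential map -/
theorem lie_cont (hr : 0 < r) (hK : 0 < K)
    (hs : ∀ (X : E) (s t : ℝ), (Φ (s • X)).toFun t = (Φ X).toFun (s * t))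
    (hle : ∀ (X : E) (t : ℝ), ν.N ((Φ X).toFun t) ≤ ‖X‖ * |t|)
    (htan : ∀ (X Y : E) (t : ℝ), ‖X‖ * |t| ≤ r → ‖Y‖ * |t| ≤ r →
        ν.N (((Φ (X + Y)).toFun t)⁻¹ * ((Φ X).toFun t * (Φ Y).toFun t)) ≤
          K * ‖X‖ * ‖Y‖ * t ^ 2)
    {ρ : ℝ} (hρ : 0 < ρ) (hA : ∀ (g h : G) (n : ℕ), n * ν.N g ≤ ρ → n * ν.N h ≤ ρ →
      ν.N ((g ^ n)⁻¹ * h ^ n) ≤ 2 * n * ν.N (g⁻¹ * h)) :
    Continuous (fun X : E => (Φ X).toFun 1) := by
  have hsmall : ∀ X : E, ‖X‖ < min r ρ → ContinuousAt (fun X : E => (Φ X).toFun 1) X := by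
    intro X hX
    unfold ContinuousAt
    rw [T5d.tendsto_iff ν]
    have h1 : ∀ᶠ Y in 𝓝 X, ‖Y‖ < min r ρ := by
      exact (continuous_norm.tendsto X).eventually (gt_mem_nhds hX)
    have h2 : Tendsto (fun Y : E => 2 * ‖X - Y‖) (𝓝 X) (𝓝 0) := by
      have : Continuous (fun Y : E => 2 * ‖X - Y‖) := by fun_prop
      have := this.tendsto X
      simpa using this
    refine squeeze_zero' (Eventually.of_forall fun _ => ν.nonneg _) ?_ h2
    filter_upwards [h1] with Y hY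
    exact lie_upper ν Φ hr hK hs hle htan hA X Y (hX.le.trans (min_le_left _ _))
      (hX.le.trans (min_le_right _ _)) (hY.le.trans (min_le_left _ _))
      (hY.le.trans (min_le_right _ _))
  rw [continuous_iff_continuousAt]
  intro X
  have hmin : 0 < min r ρ := lt_min hr hρ
  obtain ⟨m, hm⟩ := exists_nat_gt (‖X‖ / min r ρ)
  have hm0 : (0 : ℝ) < m := lt_of_le_of_lt (by positivity) hm
  have h1 : (fun X : E => (Φ X).toFun 1) = fun X : E => ((Φ ((1 / m : ℝ) • X)).toFun 1) ^ m := by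
    funext Z
    rw [hs, ← T5d.ops_map_nsmul]
    congr 1; field_simp
  rw [h1]
  have h2 : ContinuousAt (fun X : E => (Φ X).toFun 1) ((1 / m : ℝ) • X) := by
    apply hsmall
    rw [norm_smul, Real.norm_of_nonneg (by positivity), one_div_mul_eq_div, div_lt_iff₀ hm0]
    rw [div_lt_iff₀ hmin] at hm
    linarith
  have h3 : ContinuousAt (fun X : E => (1 / m : ℝ) • X) X := by fun_prop
  have h4 : ContinuousAt (fun X : E => (Φ ((1 / m : ℝ) • X)).toFun 1) X :=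
    ContinuousAt.comp (f := fun X : E => (1 / m : ℝ) • X) (g := fun X : E => (Φ X).toFun 1) h2 h3
  exact h4.pow m



/-- the Trotter formula -/
theorem lie_trotter (hr : 0 < r) (hK : 0 < K)
    (hs : ∀ (X : E) (s t : ℝ), (Φ (s • X)).toFun t = (Φ X).toFun (s * t))
    (hle : ∀ (X : E) (t : ℝ), ν.N ((Φ X).toFun t) ≤ ‖X‖ * |t|)
    (htan : ∀ (X Y : E) (t : ℝ), ‖X‖ * |t| ≤ r → ‖Y‖ * |t| ≤ r →
        ν.N (((Φ (X + Y)).toFun t)⁻¹ * ((Φ X).toFun t * (Φ Y).toFun t)) ≤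
          K * ‖X‖ * ‖Y‖ * t ^ 2)
    {ρ : ℝ} (hρ : 0 < ρ) (hA : ∀ (g h : G) (n : ℕ), n * ν.N g ≤ ρ → n * ν.N h ≤ ρ →
      ν.N ((g ^ n)⁻¹ * h ^ n) ≤ 2 * n * ν.N (g⁻¹ * h)) (X Y : E) :
    ∃ t₀ > 0, ∀ t : ℝ, |t| ≤ t₀ →
      Tendsto (fun n : ℕ => ((Φ ((t / n) • X)).toFun 1 * (Φ ((t / n) • Y)).toFun 1) ^ n) atTop
        (𝓝 ((Φ (t • (X + Y))).toFun 1)) := by
  set B := ‖X‖ + ‖Y‖ + 1 with hB
  have hBpos : 0 < B := by positivity
  have hmin : 0 < min r ρ := lt_min hr hρ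
  refine ⟨min r ρ / B, by positivity, fun t ht => ?_⟩
  have ht1 : B * |t| ≤ min r ρ := by
    rw [le_div_iff₀ hBpos] at ht
    linarith
  have hXB : ‖X‖ ≤ B := by rw [hB]; linarith [norm_nonneg Y]
  have hYB : ‖Y‖ ≤ B := by rw [hB]; linarith [norm_nonneg X]
  rw [T5d.tendsto_iff ν]
  have key : ∀ n : ℕ, 0 < n → ν.N (((Φ (t • (X + Y))).toFun 1)⁻¹ *
      ((Φ ((t / n) • X)).toFun 1 * (Φ ((t / n) • Y)).toFun 1) ^ n) ≤
        2 * (K * ‖X‖ * ‖Y‖ * t ^ 2) / n := by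
    intro n hn
    have hn' : (0 : ℝ) < n := by exact_mod_cast hn
    have hn1 : (1 : ℝ) ≤ n := by exact_mod_cast hn
    have habs : |t / n| = |t| / n := by rw [abs_div, Nat.abs_cast]
    rw [hs, hs, hs, mul_one, mul_one]
    have e1 : (Φ (X + Y)).toFun t = ((Φ (X + Y)).toFun (t / n)) ^ n := by
      rw [← T5d.ops_map_nsmul]; congr 1; field_simp
    rw [e1]
    have e2 : ∀ Z : E, n * ν.N ((Φ Z).toFun (t / n)) ≤ ‖Z‖ * |t| := by
      intro Z
      calc n * ν.N ((Φ Z).toFun (t / n)) ≤ n * (‖Z‖ * |t / n|) := by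
            gcongr; exact hle Z _
        _ = ‖Z‖ * |t| := by rw [habs]; field_simp
    have e3 : ∀ Z : E, ‖Z‖ ≤ B → ‖Z‖ * |t / n| ≤ r := by
      intro Z hZ
      rw [habs]
      calc ‖Z‖ * (|t| / n) ≤ B * (|t| / 1) := by gcongr
        _ ≤ r := by rw [div_one]; exact ht1.trans (min_le_left _ _)
    have h1 : n * ν.N ((Φ (X + Y)).toFun (t / n)) ≤ ρ := by
      refine (e2 _).trans ?_
      calc ‖X + Y‖ * |t| ≤ B * |t| := by
            gcongr
            rw [hB]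
            linarith [norm_add_le X Y]
        _ ≤ ρ := ht1.trans (min_le_right _ _)
    have h2 : n * ν.N ((Φ X).toFun (t / n) * (Φ Y).toFun (t / n)) ≤ ρ := by
      calc n * ν.N ((Φ X).toFun (t / n) * (Φ Y).toFun (t / n))
          ≤ n * (ν.N ((Φ X).toFun (t / n)) + ν.N ((Φ Y).toFun (t / n))) := by
            gcongr; exact ν.map_mul _ _
        _ = n * ν.N ((Φ X).toFun (t / n)) + n * ν.N ((Φ Y).toFun (t / n)) := by ring
        _ ≤ ‖X‖ * |t| + ‖Y‖ * |t| := add_le_add (e2 X) (e2 Y)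
        _ = (‖X‖ + ‖Y‖) * |t| := by ring
        _ ≤ B * |t| := by gcongr; rw [hB]; linarith
        _ ≤ ρ := ht1.trans (min_le_right _ _)
    refine (hA _ _ n h1 h2).trans ?_
    have h3 := htan X Y (t / n) (e3 X hXB) (e3 Y hYB)
    calc 2 * n * ν.N (((Φ (X + Y)).toFun (t / n))⁻¹ *
          ((Φ X).toFun (t / n) * (Φ Y).toFun (t / n)))
        ≤ 2 * n * (K * ‖X‖ * ‖Y‖ * (t / n) ^ 2) := by gcongr
      _ = 2 * (K * ‖X‖ * ‖Y‖ * t ^ 2) / n := by field_simp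
  refine squeeze_zero' (Eventually.of_forall fun _ => ν.nonneg _) ?_
    (tendsto_const_div_atTop_nhds_zero_nat (2 * (K * ‖X‖ * ‖Y‖ * t ^ 2)))
  filter_upwards [eventually_gt_atTop 0] with n hn
  exact key n hn

/-- the image of a ball is a neighbourhood of the identity -/
theorem lie_nhds (hr : 0 < r) (hK : 0 < K)
    (hs : ∀ (X : E) (s t : ℝ), (Φ (s • X)).toFun t = (Φ X).toFun (s * t))
    (hle : ∀ (X : E) (t : ℝ), ν.N ((Φ X).toFun t) ≤ ‖X‖ * |t|)
    (hge : ∀ (X : E) (t : ℝ), ‖X‖ * |t| ≤ r → ‖X‖ * |t| ≤ K * ν.N ((Φ X).toFun t))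
    (htan : ∀ (X Y : E) (t : ℝ), ‖X‖ * |t| ≤ r → ‖Y‖ * |t| ≤ r →
        ν.N (((Φ (X + Y)).toFun t)⁻¹ * ((Φ X).toFun t * (Φ Y).toFun t)) ≤
          K * ‖X‖ * ‖Y‖ * t ^ 2)
    {ρ K' : ℝ} (hρ : 0 < ρ) (hK' : 0 < K')
    (hD : ∀ (g h : G) (n : ℕ), n * ν.N g ≤ ρ → n * ν.N h ≤ ρ →
      n * ν.N (g⁻¹ * h) ≤ K' * ν.N ((g ^ n)⁻¹ * h ^ n))
    (hcont : Continuous (fun X : E => (Φ X).toFun 1)) [ProperSpace E]
    (r' : ℝ) (hr' : 0 < r') :
    (fun X : E => (Φ X).toFun 1) '' Metric.ball 0 r' ∈ 𝓝 (1 : G) := by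
  set R := min r r' / 2 with hR
  have hRpos : 0 < R := by have := lt_min hr hr'; positivity
  have hRr : R ≤ r := by
    rw [hR]; have := min_le_left r r'; linarith
  have hRr' : R < r' := by
    rw [hR]; have := min_le_right r r'; linarith
  suffices hmain : (fun X : E => (Φ X).toFun 1) '' Metric.closedBall 0 R ∈ 𝓝 (1 : G) by
    refine mem_of_superset hmain (Set.image_mono ?_)
    intro X hX
    rw [Metric.mem_closedBall, dist_zero_right] at hX
    rw [Metric.mem_ball, dist_zero_right]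
    linarith
  by_contra hnot
  -- bad sequence
  have hg : ∀ n : ℕ, ∃ g : G, ν.N g < 1 / (n + 1) ∧
      g ∉ (fun X : E => (Φ X).toFun 1) '' Metric.closedBall 0 R := by
    intro n
    by_contra hcon
    push Not at hcon
    exact hnot (mem_of_superset (ν.nhds (1 / (n + 1)) (by positivity)) fun g hg => hcon g hg)
  choose g hgN hgK using hg
  have hcomp : IsCompact (Metric.closedBall (0 : E) R) := isCompact_closedBall _ _
  have hmin : ∀ n : ℕ, ∃ X ∈ Metric.closedBall (0 : E) R,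
      ∀ Z ∈ Metric.closedBall (0 : E) R, ν.N (((Φ X).toFun 1)⁻¹ * g n) ≤
        ν.N (((Φ Z).toFun 1)⁻¹ * g n) := by
    intro n
    obtain ⟨X, hX, hXm⟩ := hcomp.exists_isMinOn (f := fun X : E => ν.N (((Φ X).toFun 1)⁻¹ * g n))
      ⟨0, by simp [hRpos.le]⟩
      (((T5d.continuous_N ν).comp ((hcont.inv).mul continuous_const)).continuousOn)
    exact ⟨X, hX, fun Z hZ => hXm hZ⟩
  choose X hXK hXmin using hmin
  set δ : ℕ → ℝ := fun n => ν.N (((Φ (X n)).toFun 1)⁻¹ * g n) with hδ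
  have hΦ0 : (Φ (0 : E)).toFun 1 = 1 := by
    have := hs 0 0 1
    rw [zero_smul, zero_mul, T5d.ops_map_zero] at this
    exact this
  have hδle : ∀ n, δ n < 1 / (n + 1) := by
    intro n
    have h1 := hXmin n 0 (by simp [hRpos.le])
    rw [hΦ0, inv_one, one_mul] at h1
    exact h1.trans_lt (hgN n)
  have hδpos : ∀ n, 0 < δ n := by
    intro n
    refine lt_of_le_of_ne (ν.nonneg _) fun h => ?_
    have h1 := ν.eq_one _ h.symm
    apply hgK n
    refine ⟨X n, hXK n, ?_⟩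
    show (Φ (X n)).toFun 1 = g n
    rw [inv_mul_eq_one] at h1
    exact h1
  have hδ0 : Tendsto δ atTop (𝓝 0) := by
    refine squeeze_zero (fun n => (hδpos n).le) (fun n => (hδle n).le)
      tendsto_one_div_add_atTop_nhds_zero_nat
  -- the norms of the `X n`
  have hXn : ∀ n, ‖X n‖ ≤ K * (2 * (1 / (n + 1))) := by
    intro n
    have hXR : ‖X n‖ ≤ R := by simpa using hXK n
    have h1 := hge (X n) 1 (by rw [abs_one, mul_one]; exact hXR.trans hRr)
    rw [abs_one, mul_one] at h1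
    have h2 := T5d.N_le_add ν ((Φ (X n)).toFun 1) (g n)
    have h3 := hδle n
    have h4 := hgN n
    calc ‖X n‖ ≤ K * ν.N ((Φ (X n)).toFun 1) := h1
      _ ≤ K * (2 * (1 / (n + 1))) := by
          gcongr
          have : ν.N (((Φ (X n)).toFun 1)⁻¹ * g n) = δ n := rfl
          linarith
  have hX0 : Tendsto (fun n => ‖X n‖) atTop (𝓝 0) := by
    refine squeeze_zero (fun n => norm_nonneg _) hXn ?_
    have := (tendsto_one_div_add_atTop_nhds_zero_nat (𝕜 := ℝ)).const_mul 2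
    have := this.const_mul K
    simpa using this
  -- the escape times
  set k : ℕ → G := fun n => ((Φ (X n)).toFun 1)⁻¹ * g n with hk
  set m : ℕ → ℕ := fun n => ⌊1 / δ n⌋₊ with hm
  have hδinv : Tendsto (fun n => 1 / δ n) atTop atTop := by
    have : Tendsto (fun n => (δ n)⁻¹) atTop atTop := by
      apply Tendsto.inv_tendsto_nhdsGT_zero
      rw [tendsto_nhdsWithin_iff]
      exact ⟨hδ0, Eventually.of_forall hδpos⟩
    simpa [one_div] using this
  have hmtop : Tendsto m atTop atTop := tendsto_nat_floor_atTop.comp hδinv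
  have hmδ1 : ∀ n, m n * δ n ≤ 1 := by
    intro n
    have h1 : (m n : ℝ) ≤ 1 / δ n := Nat.floor_le (by have := hδpos n; positivity)
    have := hδpos n
    rwa [le_div_iff₀ this] at h1
  have hmδ2 : ∀ n, 1 - δ n ≤ m n * δ n := by
    intro n
    have h1 : 1 / δ n < m n + 1 := Nat.lt_floor_add_one _
    have := hδpos n
    rw [div_lt_iff₀ this] at h1
    linarith
  -- ultrafilter limit
  set 𝒰 : Ultrafilter ℕ := hyperfilter ℕ with h𝒰
  have h𝒰top : (𝒰 : Filter ℕ) ≤ atTop := Nat.hyperfilter_le_atTop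
  obtain ⟨Y, hYlim, hYN⟩ := exists_ops_limit ν 𝒰 k m (hmtop.mono_left h𝒰top) 1
    (Eventually.of_forall hmδ1)
  set y : E := Φ.symm Y with hy
  have hΦy : Φ y = Y := Equiv.apply_symm_apply _ _
  have hYN' : ∀ t, ν.N (Y.toFun t) ≤ |t| := by
    intro t; have := hYN t; rwa [one_mul] at this
  -- a fixed small time
  set t₁ : ℝ := min ρ 1 with ht₁
  have ht₁pos : 0 < t₁ := lt_min hρ one_pos
  have ht₁ρ : t₁ ≤ ρ := min_le_left _ _
  set j : ℕ → ℕ := fun n => ⌊t₁ * m n⌋₊ with hj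
  have hmtopR : Tendsto (fun n => (m n : ℝ)) atTop atTop := tendsto_natCast_atTop_atTop.comp hmtop
  have hjm : Tendsto (fun n => (j n : ℝ) / m n) atTop (𝓝 t₁) :=
    (tendsto_nat_floor_mul_div_atTop ht₁pos.le).comp hmtopR
  have hjle : ∀ n, (j n : ℝ) ≤ t₁ * m n := fun n => Nat.floor_le (by positivity)
  -- main limit
  have hlim1 : Tendsto (fun n => ν.N ((k n ^ j n)⁻¹ * (Y.toFun (1 / m n)) ^ j n)) 𝒰 (𝓝 0) := by
    have h1 : Tendsto (fun n => k n ^ j n) 𝒰 (𝓝 (Y.toFun t₁)) := by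
      refine (hYlim t₁).congr fun n => ?_
      have : (⌊t₁ * (m n : ℝ)⌋ : ℤ) = (j n : ℤ) := by
        rw [hj]
        exact (Int.natCast_floor_eq_floor (by positivity)).symm
      rw [this, zpow_natCast]
    have h2 : Tendsto (fun n => (Y.toFun (1 / m n)) ^ j n) 𝒰 (𝓝 (Y.toFun t₁)) := by
      have h3 : Tendsto (fun n => Y.toFun ((j n : ℝ) / m n)) 𝒰 (𝓝 (Y.toFun t₁)) :=
        (Y.cont.tendsto t₁).comp (hjm.mono_left h𝒰top)
      refine h3.congr fun n => ?_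
      rw [← T5d.ops_map_nsmul]; congr 1; ring
    have h4 : Tendsto (fun n => (k n ^ j n)⁻¹ * (Y.toFun (1 / m n)) ^ j n) 𝒰 (𝓝 1) := by
      have := h1.inv.mul h2
      rwa [inv_mul_cancel] at this
    have := ((T5d.continuous_N ν).tendsto 1).comp h4
    rwa [ν.map_one] at this
  have hlim2 : Tendsto (fun n => (m n : ℝ) * ν.N ((k n)⁻¹ * Y.toFun (1 / m n))) 𝒰 (𝓝 0) := by
    have h1 : ∀ᶠ n in (𝒰 : Filter ℕ), t₁ / 2 < (j n : ℝ) / m n :=
      (hjm.mono_left h𝒰top).eventually (lt_mem_nhds (by linarith))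
    have h0 : ∀ᶠ n in (𝒰 : Filter ℕ), (0 : ℝ) < m n :=
      (hmtopR.mono_left h𝒰top).eventually (eventually_gt_atTop 0)
    have h2 : Tendsto (fun n => 2 / t₁ * (K' * ν.N ((k n ^ j n)⁻¹ * (Y.toFun (1 / m n)) ^ j n)))
        𝒰 (𝓝 0) := by
      have := (hlim1.const_mul K').const_mul (2 / t₁)
      simpa using this
    refine squeeze_zero' (Eventually.of_forall fun n => mul_nonneg (Nat.cast_nonneg _)
      (ν.nonneg _)) ?_ h2
    filter_upwards [h1, h0] with n hn hn0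
    have h3 : j n * ν.N (k n) ≤ ρ := by
      calc j n * ν.N (k n) ≤ (t₁ * m n) * δ n := by
            have : ν.N (k n) = δ n := rfl
            rw [this]
            exact mul_le_mul_of_nonneg_right (hjle n) (hδpos n).le
        _ = t₁ * (m n * δ n) := by ring
        _ ≤ t₁ * 1 := by gcongr; exact hmδ1 n
        _ ≤ ρ := by rw [mul_one]; exact ht₁ρ
    have h4 : j n * ν.N (Y.toFun (1 / m n)) ≤ ρ := by
      calc j n * ν.N (Y.toFun (1 / m n)) ≤ (t₁ * m n) * (1 / m n) := by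
            have h5 := hYN' (1 / m n)
            rw [abs_of_pos (by positivity)] at h5
            exact mul_le_mul (hjle n) h5 (ν.nonneg _) (by positivity)
        _ = t₁ := by field_simp
        _ ≤ ρ := ht₁ρ
    have h5 := hD (k n) (Y.toFun (1 / m n)) (j n) h3 h4
    have h6 : (m n : ℝ) ≤ 2 / t₁ * j n := by
      rw [lt_div_iff₀ hn0] at hn
      rw [div_mul_eq_mul_div, le_div_iff₀ ht₁pos]
      linarith
    calc (m n : ℝ) * ν.N ((k n)⁻¹ * Y.toFun (1 / m n))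
        ≤ (2 / t₁ * j n) * ν.N ((k n)⁻¹ * Y.toFun (1 / m n)) := by
          gcongr
          exact ν.nonneg _
      _ = 2 / t₁ * (j n * ν.N ((k n)⁻¹ * Y.toFun (1 / m n))) := by ring
      _ ≤ _ := by gcongr
  -- the improved approximation
  have hinv : Tendsto (fun n => (1 : ℝ) / m n) atTop (𝓝 0) := by
    refine hmtopR.inv_tendsto_atTop.congr fun n => ?_
    simp [one_div]
  have hylim : Tendsto (fun n => (1 : ℝ) / m n * ‖y‖) atTop (𝓝 0) := by
    simpa using hinv.mul_const ‖y‖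
  have hfinal : ∀ᶠ n in (𝒰 : Filter ℕ), (m n : ℝ) * δ n ≤
      K * ‖X n‖ * ‖y‖ + (m n : ℝ) * ν.N ((k n)⁻¹ * Y.toFun (1 / m n)) := by
    have h0 : ∀ᶠ n in (𝒰 : Filter ℕ), (0 : ℝ) < m n :=
      (hmtopR.mono_left h𝒰top).eventually (eventually_gt_atTop 0)
    have h1 : ∀ᶠ n in (𝒰 : Filter ℕ), ‖X n‖ + (1 : ℝ) / m n * ‖y‖ < R := by
      have : Tendsto (fun n => ‖X n‖ + (1 : ℝ) / m n * ‖y‖) atTop (𝓝 (0 + 0)) := hX0.add hylim
      rw [add_zero] at this
      exact (this.mono_left h𝒰top).eventually (gt_mem_nhds hRpos)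
    filter_upwards [h0, h1] with n hn0 hn1
    have hz : ‖(1 / (m n : ℝ)) • y‖ = 1 / m n * ‖y‖ := by
      rw [norm_smul, Real.norm_of_nonneg (by positivity)]
    have hz0 : 0 ≤ ‖(1 / (m n : ℝ)) • y‖ := norm_nonneg _
    have hx0 : 0 ≤ ‖X n‖ := norm_nonneg _
    have hmem : X n + (1 / (m n : ℝ)) • y ∈ Metric.closedBall (0 : E) R := by
      rw [Metric.mem_closedBall, dist_zero_right]
      refine (norm_add_le _ _).trans ?_
      rw [hz]; exact hn1.le
    have h2 := hXmin n _ hmem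
    have h3 := htan (X n) ((1 / (m n : ℝ)) • y) 1
      (by rw [abs_one, mul_one]; rw [hz] at hz0; linarith)
      (by rw [abs_one, mul_one, hz]; linarith)
    have h4 := T5d.N_triangle ν ((Φ (X n + (1 / (m n : ℝ)) • y)).toFun 1)
      ((Φ (X n)).toFun 1 * (Φ ((1 / (m n : ℝ)) • y)).toFun 1) (g n)
    have h5 : ν.N (((Φ (X n)).toFun 1 * (Φ ((1 / (m n : ℝ)) • y)).toFun 1)⁻¹ * g n) =
        ν.N ((k n)⁻¹ * Y.toFun (1 / m n)) := by
      rw [hs, mul_one, hΦy, T5d.N_inv_mul_comm ν (k n)]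
      congr 1
      rw [hk]
      group
    rw [h5] at h4
    have h6 : δ n ≤ K * ‖X n‖ * (1 / m n * ‖y‖) + ν.N ((k n)⁻¹ * Y.toFun (1 / m n)) := by
      rw [hz, one_pow, mul_one] at h3
      calc δ n ≤ _ := h2
        _ ≤ _ := h4
        _ ≤ _ := by gcongr
    calc (m n : ℝ) * δ n ≤ m n * (K * ‖X n‖ * (1 / m n * ‖y‖) +
          ν.N ((k n)⁻¹ * Y.toFun (1 / m n))) := by gcongr
      _ = _ := by field_simp
  have hlimA : Tendsto (fun n => K * ‖X n‖ * ‖y‖ +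
      (m n : ℝ) * ν.N ((k n)⁻¹ * Y.toFun (1 / m n))) 𝒰 (𝓝 0) := by
    have h1 : Tendsto (fun n => K * ‖X n‖ * ‖y‖) 𝒰 (𝓝 0) := by
      have := ((hX0.mono_left h𝒰top).const_mul K).mul_const ‖y‖
      simpa using this
    have := h1.add hlim2
    simpa using this
  have hlimB : Tendsto (fun n => 1 - δ n) 𝒰 (𝓝 1) := by
    have := (tendsto_const_nhds (x := (1 : ℝ)) (f := atTop)).sub hδ0
    rw [sub_zero] at this
    exact this.mono_left h𝒰top
  have hle1 : (1 : ℝ) ≤ 0 := by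
    refine le_of_tendsto_of_tendsto hlimB hlimA ?_
    filter_upwards [hfinal] with n hn
    exact (hmδ2 n).trans hn
  linarith


theorem exists_lieData_of_norm (ν : GleasonNorm G) : Nonempty (LieData G) := by
  obtain ⟨E, i1, i2, Φ, r, K, hr, hK, hs, hle, hge, htan⟩ := exists_lie_normed ν
  obtain ⟨ρ, K', hρ, hK', -, hA, -, hD, -⟩ := ν.estimates
  have hK'0 : 0 < K' := lt_of_lt_of_le one_pos hK'
  have hcpt := compact_ball_of_lie ν Φ hr hK hs hle hge htan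
  haveI hfin : FiniteDimensional ℝ E := FiniteDimensional.of_isCompact_closedBall₀ ℝ one_pos hcpt
  haveI : ProperSpace E := FiniteDimensional.proper_real E
  have hcont := lie_cont ν Φ hr hK hs hle htan hρ hA
  refine ⟨{ E := E
            e := fun X => (Φ X).toFun 1
            cont := hcont
            add_smul := ?_
            exists_unique := ?_
            inj := ?_
            nhds := ?_
            trotter := ?_ }⟩
  · intro X s t
    show (Φ ((s + t) • X)).toFun 1 = (Φ (s • X)).toFun 1 * (Φ (t • X)).toFun 1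
    rw [hs, hs, hs, mul_one, mul_one, mul_one, (Φ X).map_add]
  · intro f
    refine ⟨Φ.symm f, fun t => ?_, fun X hX => ?_⟩
    · show f.toFun t = (Φ (t • Φ.symm f)).toFun 1
      rw [hs, mul_one, Equiv.apply_symm_apply]
    · rw [Equiv.eq_symm_apply]
      apply T5d.ops_ext'
      intro t
      have h1 : f.toFun t = (Φ (t • X)).toFun 1 := hX t
      rw [h1, hs, mul_one]
  · refine ⟨min r ρ, lt_min hr hρ, ?_⟩
    intro X hX Y hY hXY
    rw [Metric.mem_ball, dist_zero_right] at hX hY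
    have h1 := lie_lower ν Φ hr hK hs hle hge htan hD X Y (hX.le.trans (min_le_left _ _))
      (hX.le.trans (min_le_right _ _)) (hY.le.trans (min_le_left _ _))
      (hY.le.trans (min_le_right _ _))
    have h2 : (Φ X).toFun 1 = (Φ Y).toFun 1 := hXY
    rw [h2, inv_mul_cancel, ν.map_one, mul_zero] at h1
    exact sub_eq_zero.1 (norm_eq_zero.1 (le_antisymm h1 (norm_nonneg _)))
  · intro r' hr'
    exact lie_nhds ν Φ hr hK hs hle hge htan hρ hK'0 hD hcont r' hr'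
  · intro X Y
    exact lie_trotter ν Φ hr hK hs hle htan hρ hA X Y

theorem exists_lieData (h : NSS G) : Nonempty (LieData G) :=
  let ⟨ν⟩ := exists_gleasonNorm h
  exists_lieData_of_norm ν

end Main

end GY
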