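import Pool.Agent.MP6c9f91.Odometer

/-!
# P10: the Bernoulli action of `F₂`, free products of orbit-equal actions, the action of `NN`
-/

open MeasureTheory Monoid

namespace MP6c9f91

universe u v w

/-! ### A free pmp action of `F₂` -/

/-- the space of injective functions `F₂ → ℝ` -/
abbrev Bern : Type := {x : FreeGroup (Fin 2) → ℝ // Function.Injective x}

instance : Countable (FreeGroup (Fin 2)) := by
  infer_instance

noncomputable instance : MulAction (FreeGroup (Fin 2)) Bern where
  smul g x := ⟨fun h => x.1 (g⁻¹ * h), x.2.comp (mul_right_injective g⁻¹)⟩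
  one_smul x := Subtype.ext (funext fun h => by
    change x.1 (1⁻¹ * h) = x.1 h
    rw [inv_one, one_mul])
  mul_smul g g' x := Subtype.ext (funext fun h => by
    change x.1 ((g * g')⁻¹ * h) = x.1 (g'⁻¹ * (g⁻¹ * h))
    rw [mul_inv_rev, mul_assoc])

theorem bern_smul_apply (g : FreeGroup (Fin 2)) (x : Bern) (h : FreeGroup (Fin 2)) :
    (g • x).1 h = x.1 (g⁻¹ * h) := rfl

/-- the Gaussian measure on all functions -/
noncomputable def bernMeas : Measure (FreeGroup (Fin 2) → ℝ) :=
  Measure.infinitePi fun _ => ProbabilityTheory.gaussianReal 0 1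

instance : IsProbabilityMeasure bernMeas := by
  unfold bernMeas
  infer_instance

theorem measurableSet_injective :
    MeasurableSet {x : FreeGroup (Fin 2) → ℝ | Function.Injective x} := by
  have : {x : FreeGroup (Fin 2) → ℝ | Function.Injective x} =
      ⋂ g : FreeGroup (Fin 2), ⋂ h : FreeGroup (Fin 2), {x | x g = x h → g = h} := by
    ext x
    simp only [Set.mem_iInter, Set.mem_ofPred_eq]
    exact ⟨fun hx g h => fun e => hx e, fun hx g h e => hx g h e⟩
  rw [this]
  refine MeasurableSet.iInter fun g => MeasurableSet.iInter fun h => ?_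
  by_cases hgh : g = h
  · have : {x : FreeGroup (Fin 2) → ℝ | x g = x h → g = h} = Set.univ := by
      ext x
      simp [hgh]
    rw [this]
    exact MeasurableSet.univ
  · have : {x : FreeGroup (Fin 2) → ℝ | x g = x h → g = h} = {x | x g = x h}ᶜ := by
      ext x
      simp [hgh]
    rw [this]
    exact (measurableSet_eq_fun (measurable_pi_apply g) (measurable_pi_apply h)).compl

theorem bernMeas_injective : bernMeas {x | Function.Injective x}ᶜ = 0 := by
  have hsub : {x : FreeGroup (Fin 2) → ℝ | Function.Injective x}ᶜ ⊆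
      ⋃ g : FreeGroup (Fin 2), ⋃ h : FreeGroup (Fin 2), ⋃ (_ : g ≠ h), {x | x g = x h} := by
    intro x hx
    simp only [Set.mem_compl_iff, Set.mem_ofPred_eq, Function.Injective] at hx
    push Not at hx
    obtain ⟨g, h, e, hne⟩ := hx
    simp only [Set.mem_iUnion]
    exact ⟨g, h, hne, e⟩
  refine measure_mono_null hsub ?_
  rw [measure_iUnion_null_iff]
  intro g
  rw [measure_iUnion_null_iff]
  intro h
  rw [measure_iUnion_null_iff]
  intro hne
  have h1 := Measure.infinitePi_map_eval_prod
    (P := fun _ : FreeGroup (Fin 2) => ProbabilityTheory.gaussianReal 0 1) hne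
  have hd : MeasurableSet {p : ℝ × ℝ | p.1 = p.2} :=
    measurableSet_eq_fun measurable_fst measurable_snd
  have h2 : bernMeas {x | x g = x h} =
      ((ProbabilityTheory.gaussianReal 0 1).prod (ProbabilityTheory.gaussianReal 0 1))
        {p : ℝ × ℝ | p.1 = p.2} := by
    rw [← h1, Measure.map_apply (by fun_prop) hd]
    rfl
  rw [h2, Measure.prod_apply hd]
  have : ∀ a : ℝ, Prod.mk a ⁻¹' {p : ℝ × ℝ | p.1 = p.2} = {a} := by
    intro a
    ext b
    simp [eq_comm]
  simp only [this]
  have := ProbabilityTheory.nullSingletonClass_gaussianReal (μ := 0) (v := 1) one_ne_zero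
  simp

theorem exists_bernoulli : ∃ (E : Type) (_ : MeasurableSpace E) (_ : StandardBorelSpace E)
    (μ : Measure E) (_ : IsProbabilityMeasure μ) (_ : MulAction (FreeGroup (Fin 2)) E),
    IsFreePmp (FreeGroup (Fin 2)) E μ := by
  have hm := measurableSet_injective
  have hemb : MeasurableEmbedding (Subtype.val : Bern → (FreeGroup (Fin 2) → ℝ)) :=
    MeasurableEmbedding.subtype_coe hm
  refine ⟨Bern, inferInstance, hm.standardBorel, bernMeas.comap Subtype.val, ⟨?_⟩, inferInstance,
    ⟨fun g => ?_, fun g x h => ?_⟩⟩
  · rw [hemb.comap_apply, Set.image_univ]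
    have h0 : Set.range (Subtype.val : Bern → (FreeGroup (Fin 2) → ℝ)) =
        {x | Function.Injective x} := Subtype.range_coe
    rw [h0]
    have := prob_compl_eq_zero_iff hm (μ := bernMeas)
    exact this.1 bernMeas_injective
  · have hsm : Measurable (fun x : Bern => g • x) := by
      refine Measurable.subtype_mk ?_
      exact measurable_pi_lambda _ fun h => (measurable_pi_apply _).comp measurable_subtype_coe
    refine ⟨hsm, ?_⟩
    ext A hA
    rw [Measure.map_apply hsm hA, hemb.comap_apply, hemb.comap_apply]
    have h1 := Measure.map_infinitePi_infinitePi_of_inj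
      (P := fun _ : FreeGroup (Fin 2) => ProbabilityTheory.gaussianReal 0 1)
      (f := fun h => g⁻¹ * h) (mul_right_injective g⁻¹)
    have h2 : bernMeas (Subtype.val '' A) =
        bernMeas ((fun x h => x (g⁻¹ * h)) ⁻¹' (Subtype.val '' A)) := by
      conv_lhs => rw [bernMeas, ← h1]
      rw [Measure.map_apply (by fun_prop) (hemb.measurableSet_image.2 hA)]
      rfl
    rw [h2]
    congr 1
    ext x
    simp only [Set.mem_image, Set.mem_preimage, Subtype.exists, exists_and_right, exists_eq_right]
    constructor
    · rintro ⟨hx, hA'⟩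
      exact ⟨hx.comp (mul_right_injective g⁻¹), hA'⟩
    · rintro ⟨hx, hA'⟩
      have hx' : Function.Injective x := by
        intro a b hab
        have := @hx (g * a) (g * b) (by simpa using hab)
        exact mul_left_cancel this
      exact ⟨hx', hA'⟩
  · have h1 := congrFun (congrArg Subtype.val h) 1
    rw [bern_smul_apply] at h1
    have h2 := x.2 h1
    simpa using h2

/-! ### Free products of actions with the same orbits -/

section orbits

variable {ι : Type u} {A B : ι → Type v} [∀ i, Group (A i)] [∀ i, Group (B i)]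
  {X : Type w} [MulAction (CoprodI A) X] [MulAction (CoprodI B) X]

theorem coprodI_orbits_aux
    (horb : ∀ (i : ι) (a : A i) (x : X), ∃ b : B i,
      (CoprodI.of b : CoprodI B) • x = (CoprodI.of a : CoprodI A) • x) (a : CoprodI A) :
    ∀ x : X, ∃ b : CoprodI B, b • x = a • x := by
  induction a using CoprodI.induction_on with
  | one => exact fun x => ⟨1, by rw [one_smul, one_smul]⟩
  | of i m =>
    intro x
    obtain ⟨b, hb⟩ := horb i m x
    exact ⟨CoprodI.of b, hb⟩
  | mul a a' ha ha' =>
    intro x
    obtain ⟨b', hb'⟩ := ha' x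
    obtain ⟨b, hb⟩ := ha (a' • x)
    exact ⟨b * b', by rw [mul_smul, hb', hb, mul_smul]⟩

theorem word_lift
    (hA : ∀ (i : ι) (a : A i) (x : X), (CoprodI.of a : CoprodI A) • x = x → a = 1)
    (horb : ∀ (i : ι) (a : A i) (x : X), ∃ b : B i,
      (CoprodI.of b : CoprodI B) • x = (CoprodI.of a : CoprodI A) • x)
    (x : X) (w : CoprodI.Word A) :
    ∃ w' : CoprodI.Word B, w'.fstIdx = w.fstIdx ∧ w'.prod • x = w.prod • x := by
  classical
  induction w using CoprodI.Word.consRecOn with
  | empty => exact ⟨CoprodI.Word.empty, rfl, by rw [CoprodI.Word.prod_empty,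
      CoprodI.Word.prod_empty, one_smul, one_smul]⟩
  | cons i m w h1 h2 ih =>
    obtain ⟨w', hw', hx⟩ := ih
    obtain ⟨b, hb⟩ := horb i m (w.prod • x)
    have hb1 : b ≠ 1 := by
      rintro rfl
      rw [map_one, one_smul] at hb
      exact h2 (hA i m _ hb.symm)
    refine ⟨CoprodI.Word.cons b w' (by rw [hw']; exact h1) hb1, ?_, ?_⟩
    · rw [CoprodI.Word.fstIdx_cons, CoprodI.Word.fstIdx_cons]
    · rw [CoprodI.Word.prod_cons, CoprodI.Word.prod_cons, mul_smul, mul_smul, hx, hb]

/-- Free products of actions with the same orbits. -/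
theorem coprodI_orbits
    (hB : ∀ (b : CoprodI B) (x : X), b • x = x → b = 1)
    (hA : ∀ (i : ι) (a : A i) (x : X), (CoprodI.of a : CoprodI A) • x = x → a = 1)
    (horb : ∀ (i : ι) (x y : X), (∃ a : A i, (CoprodI.of a : CoprodI A) • x = y) ↔
      ∃ b : B i, (CoprodI.of b : CoprodI B) • x = y) :
    (∀ (a : CoprodI A) (x : X), a • x = x → a = 1) ∧
    (∀ x y : X, (∃ a : CoprodI A, a • x = y) ↔ ∃ b : CoprodI B, b • x = y) := by
  classical
  have h1 : ∀ (i : ι) (a : A i) (x : X), ∃ b : B i,
      (CoprodI.of b : CoprodI B) • x = (CoprodI.of a : CoprodI A) • x :=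
    fun i a x => (horb i x _).1 ⟨a, rfl⟩
  have h2 : ∀ (i : ι) (b : B i) (x : X), ∃ a : A i,
      (CoprodI.of a : CoprodI A) • x = (CoprodI.of b : CoprodI B) • x :=
    fun i b x => (horb i x _).2 ⟨b, rfl⟩
  refine ⟨fun a x hax => ?_, fun x y => ⟨?_, ?_⟩⟩
  · obtain ⟨w, rfl⟩ : ∃ w : CoprodI.Word A, w.prod = a :=
      ⟨CoprodI.Word.equiv a, CoprodI.Word.equiv.symm_apply_apply a⟩
    obtain ⟨w', hw', hx⟩ := word_lift (B := B) hA h1 x w
    have h3 : w'.prod = 1 := hB _ x (by rw [hx, hax])
    have h4 : w' = CoprodI.Word.empty := by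
      apply CoprodI.Word.equiv.symm.injective
      change w'.prod = CoprodI.Word.empty.prod
      rw [h3, CoprodI.Word.prod_empty]
    have h5 : w.fstIdx = none := by rw [← hw', h4]; rfl
    have h6 : w = CoprodI.Word.empty := by
      have : w.toList = [] := by
        unfold CoprodI.Word.fstIdx at h5
        simpa using h5
      exact CoprodI.Word.ext this
    rw [h6, CoprodI.Word.prod_empty]
  · rintro ⟨a, rfl⟩
    exact coprodI_orbits_aux h1 a x
  · rintro ⟨b, rfl⟩
    exact coprodI_orbits_aux h2 b x

end orbits

/-! ### Actions defined by cocycles -/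

section cocycle

variable {D : Type*} {Z : Type*} {H : Type*} {O : Type*} {X : Type*} [Group D] [Group Z] [Group H]
  [MulAction D O] [MulAction Z O] [MulAction H X]

theorem exists_cocycle_hom (hZ : ∀ (k : Z) (o : O), k • o = o → k = 1) (p : X → O)
    (j : Z →* H) (hp : ∀ k x, p (j k • x) = k • p x)
    (n : D → O → Z) (hn : ∀ d o, n d o • o = d • o) :
    ∃ f : D →* Equiv.Perm X, ∀ d x, f d x = j (n d (p x)) • x := by
  have uniq : ∀ (k k' : Z) (o : O), k • o = k' • o → k = k' := by
    intro k k' o h
    have h1 : (k'⁻¹ * k) • o = o := by rw [mul_smul, h, inv_smul_smul]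
    have h2 := hZ _ _ h1
    rw [inv_mul_eq_one] at h2
    exact h2.symm
  let act : MulAction D X :=
    { smul := fun d x => j (n d (p x)) • x
      one_smul := fun x => by
        change j (n 1 (p x)) • x = x
        have : n 1 (p x) = 1 := hZ _ _ ((hn 1 (p x)).trans (one_smul _ _))
        rw [this, map_one, one_smul]
      mul_smul := fun d d' x => by
        change j (n (d * d') (p x)) • x =
          j (n d (p (j (n d' (p x)) • x))) • (j (n d' (p x)) • x)
        rw [hp, hn, smul_smul, ← map_mul]
        congr 2
        apply uniq _ _ (p x)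
        rw [hn, mul_smul, mul_smul, hn, hn] }
  exact ⟨MulAction.toPermHom D X, fun d x => rfl⟩

end cocycle

/-- `s^k` and `t^k` in `F₂` -/
noncomputable def jj (b : Bool) : Multiplicative ℤ →* FreeGroup (Fin 2) :=
  zpowersHom _ (FreeGroup.of (bif b then 1 else 0))

/-- exponent sums -/
noncomputable def eeN (i : Fin 2) : FreeGroup (Fin 2) →* Multiplicative ℤ :=
  FreeGroup.lift fun j => if j = i then Multiplicative.ofAdd 1 else 1

theorem ee_jj_same (b : Bool) (k : Multiplicative ℤ) : eeN (bif b then 1 else 0) (jj b k) = k := by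
  have : (eeN (bif b then 1 else 0)).comp (jj b) = MonoidHom.id _ := by
    apply MonoidHom.ext_mint
    simp [eeN, jj, zpowersHom_apply]
  exact DFunLike.congr_fun this k

theorem ee_jj_other (b : Bool) (k : Multiplicative ℤ) : eeN (bif b then 0 else 1) (jj b k) = 1 := by
  have : (eeN (bif b then 0 else 1)).comp (jj b) = 1 := by
    apply MonoidHom.ext_mint
    cases b <;> simp [eeN, jj, zpowersHom_apply]
  exact DFunLike.congr_fun this k

/-- `ℤ * ℤ → F₂` -/
noncomputable def freeHom : CoprodI (fun _ : Bool => Multiplicative ℤ) →* FreeGroup (Fin 2) :=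
  CoprodI.lift jj

/-- `F₂ → ℤ * ℤ` -/
noncomputable def freeHomInv : FreeGroup (Fin 2) →* CoprodI (fun _ : Bool => Multiplicative ℤ) :=
  FreeGroup.lift fun i => if i = 0 then CoprodI.of (i := false) (Multiplicative.ofAdd (1 : ℤ))
    else CoprodI.of (i := true) (Multiplicative.ofAdd (1 : ℤ))

theorem freeHomInv_freeHom : freeHomInv.comp freeHom = MonoidHom.id _ := by
  apply CoprodI.ext_hom
  intro b
  apply MonoidHom.ext_mint
  cases b <;> simp [freeHom, freeHomInv, jj, zpowersHom_apply]

theorem freeHom_freeHomInv : freeHom.comp freeHomInv = MonoidHom.id _ := by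
  apply FreeGroup.ext_hom
  intro i
  fin_cases i <;> simp [freeHom, freeHomInv, jj, zpowersHom_apply]

/-- X = O × O × E, s = (T, id, shift), t = (id, T, shift); first factor of NN acts by
x ↦ s^{n(d,o₁)} x, second by t^{n(d,o₂)} x, where T^{n(d,o)} o = d • o; κ(x) = κ(o₂). -/
theorem exists_NN_action : ∃ (X : Type) (_ : MeasurableSpace X) (_ : StandardBorelSpace X)
    (μ : Measure X) (_ : IsProbabilityMeasure μ) (_ : MulAction NN X)
    (_ : MulAction (FreeGroup (Fin 2)) X) (κ : X → Sgn),
    IsFreePmp (FreeGroup (Fin 2)) X μ ∧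
    (∀ n : NN, Measurable (fun x : X => n • x)) ∧ (∀ (n : NN) (x : X), n • x = x → n = 1) ∧
    (∀ x y : X, (∃ n : NN, n • x = y) ↔ ∃ k : FreeGroup (Fin 2), k • x = y) ∧
    Measurable κ ∧ (∀ (n : NN) (x : X), κ (n • x) = piN n * κ x) := by
  obtain ⟨O, mO, sO, μO, pO, actD, actZ, κ, hD, hZ, horb, hκm, hκ⟩ := exists_odometer
  obtain ⟨E, mE, sE, μE, pE, actE, hE⟩ := exists_bernoulli
  -- the action of `F₂`
  let actF : MulAction (FreeGroup (Fin 2)) (O × O × E) :=
    { smul := fun w x => (eeN 0 w • x.1, eeN 1 w • x.2.1, w • x.2.2)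
      one_smul := fun x => by
        change (eeN 0 1 • x.1, eeN 1 1 • x.2.1, (1 : FreeGroup (Fin 2)) • x.2.2) = x
        rw [map_one, map_one, one_smul, one_smul, one_smul]
      mul_smul := fun w w' x => by
        change (eeN 0 (w * w') • x.1, eeN 1 (w * w') • x.2.1, (w * w') • x.2.2) =
          (eeN 0 w • eeN 0 w' • x.1, eeN 1 w • eeN 1 w' • x.2.1, w • w' • x.2.2)
        rw [map_mul, map_mul, mul_smul, mul_smul, mul_smul] }
  have actF_def : ∀ (w : FreeGroup (Fin 2)) (x : O × O × E),
      w • x = (eeN 0 w • x.1, eeN 1 w • x.2.1, w • x.2.2) := fun w x => rfl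
  have hFmp : IsFreePmp (FreeGroup (Fin 2)) (O × O × E) (μO.prod (μO.prod μE)) := by
    refine ⟨fun w => ?_, fun w x h => ?_⟩
    · exact (hZ.mp (eeN 0 w)).prod ((hZ.mp (eeN 1 w)).prod (hE.mp w))
    · rw [actF_def] at h
      exact hE.free w x.2.2 (congrArg (fun y => y.2.2) h)
  -- the cocycle
  have hex : ∀ (d : DD) (o : O), ∃ k : Multiplicative ℤ, k • o = d • o := fun d o =>
    (horb o (d • o)).1 ⟨d, rfl⟩
  choose n hn using hex
  let p : Bool → O × O × E → O := fun b x => bif b then x.2.1 else x.1
  have hpm : ∀ b, Measurable (p b) := by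
    intro b
    cases b
    · exact measurable_fst
    · exact measurable_fst.comp measurable_snd
  have hp : ∀ b k x, p b (jj b k • x) = k • p b x := by
    intro b k x
    have := ee_jj_same b k
    cases b
    · change eeN 0 (jj false k) • x.1 = k • x.1
      rw [cond_false] at this
      rw [this]
    · change eeN 1 (jj true k) • x.2.1 = k • x.2.1
      rw [cond_true] at this
      rw [this]
  have hexf : ∀ b, ∃ f : DD →* Equiv.Perm (O × O × E), ∀ d x, f d x = jj b (n d (p b x)) • x :=
    fun b => exists_cocycle_hom hZ.free (p b) (jj b) (hp b) n hn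
  choose f hf using hexf
  let FF : NN →* Equiv.Perm (O × O × E) := CoprodI.lift f
  let actN : MulAction NN (O × O × E) := MulAction.compHom _ FF
  have actN_def : ∀ (m : NN) (x : O × O × E), m • x = FF m x := fun m x => rfl
  have actN_of : ∀ (b : Bool) (d : DD) (x : O × O × E),
      (CoprodI.of (M := fun _ : Bool => DD) (i := b) d) • x = jj b (n d (p b x)) • x := by
    intro b d x
    rw [actN_def]
    change CoprodI.lift f (CoprodI.of d) x = _
    rw [CoprodI.lift_of]
    exact hf b d x
  have hpN : ∀ (b : Bool) (d : DD) (x : O × O × E),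
      p b ((CoprodI.of (M := fun _ : Bool => DD) (i := b) d) • x) = d • p b x := by
    intro b d x
    rw [actN_of, hp, hn]
  -- the action of `ℤ * ℤ`
  let actB : MulAction (CoprodI (fun _ : Bool => Multiplicative ℤ)) (O × O × E) :=
    MulAction.compHom _ freeHom
  have actB_def : ∀ (m : CoprodI (fun _ : Bool => Multiplicative ℤ)) (x : O × O × E),
      m • x = freeHom m • x := fun m x => rfl
  have actB_of : ∀ (b : Bool) (k : Multiplicative ℤ) (x : O × O × E),
      (CoprodI.of (M := fun _ : Bool => Multiplicative ℤ) (i := b) k) • x = jj b k • x := by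
    intro b k x
    rw [actB_def]
    simp [freeHom]
  obtain ⟨hfree, horb'⟩ := coprodI_orbits (ι := Bool) (A := fun _ => DD)
    (B := fun _ => Multiplicative ℤ) (X := O × O × E)
    (by
      intro b x h
      rw [actB_def] at h
      have h1 := hFmp.free _ _ h
      have h2 := DFunLike.congr_fun freeHomInv_freeHom b
      rw [MonoidHom.comp_apply, h1, map_one] at h2
      exact h2.symm)
    (by
      intro b d x h
      have h1 := hpN b d x
      rw [h] at h1
      exact hD.free d _ h1.symm)
    (by
      intro b x y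
      constructor
      · rintro ⟨d, rfl⟩
        exact ⟨n d (p b x), by rw [actB_of, actN_of]⟩
      · rintro ⟨k, rfl⟩
        obtain ⟨d, hd⟩ := (horb (p b x) (k • p b x)).2 ⟨k, rfl⟩
        refine ⟨d, ?_⟩
        rw [actB_of, actN_of]
        congr 2
        have h1 : n d (p b x) • p b x = k • p b x := by rw [hn, hd]
        have h2 : (k⁻¹ * n d (p b x)) • p b x = p b x := by rw [mul_smul, h1, inv_smul_smul]
        have h3 := hZ.free _ _ h2
        rw [inv_mul_eq_one] at h3
        exact h3.symm)
  have hmF : ∀ w : FreeGroup (Fin 2), Measurable (fun x : O × O × E => w • x) := fun w =>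
    (hFmp.mp w).measurable
  have hmN : ∀ m : NN, Measurable (fun x : O × O × E => m • x) := by
    intro m
    induction m using CoprodI.induction_on with
    | one =>
      simp only [one_smul]
      exact measurable_id
    | of b d =>
      have hset : ∀ k : Multiplicative ℤ, MeasurableSet {x : O × O × E | n d (p b x) = k} := by
        intro k
        have e : {x : O × O × E | n d (p b x) = k} = p b ⁻¹' {o : O | k • o = d • o} := by
          ext x
          simp only [Set.mem_ofPred_eq, Set.mem_preimage]
          constructor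
          · rintro rfl
            exact hn _ _
          · intro h
            have h2 : (k⁻¹ * n d (p b x)) • p b x = p b x := by
              rw [mul_smul, hn, ← h, inv_smul_smul]
            have h3 := hZ.free _ _ h2
            rw [inv_mul_eq_one] at h3
            exact h3.symm
        rw [e]
        exact hpm b (measurableSet_eq_fun (hZ.mp k).measurable (hD.mp d).measurable)
      intro S hS
      have e : (fun x : O × O × E => (CoprodI.of (M := fun _ : Bool => DD) (i := b) d) • x) ⁻¹' S =
          ⋃ k : Multiplicative ℤ, {x | n d (p b x) = k} ∩ (fun x => jj b k • x) ⁻¹' S := by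
        ext x
        simp only [Set.mem_preimage, Set.mem_iUnion, Set.mem_inter_iff, Set.mem_ofPred_eq]
        rw [actN_of]
        constructor
        · intro h
          exact ⟨_, rfl, h⟩
        · rintro ⟨k, rfl, h⟩
          exact h
      rw [e]
      exact MeasurableSet.iUnion fun k => (hset k).inter (hmF _ hS)
    | mul a a' ha ha' =>
      simp only [mul_smul]
      exact ha.comp ha'
  refine ⟨O × O × E, inferInstance, inferInstance, μO.prod (μO.prod μE), inferInstance, actN, actF,
    fun x => κ x.2.1, hFmp, hmN, hfree, ?_, hκm.comp (measurable_fst.comp measurable_snd), ?_⟩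
  · intro x y
    refine (horb' x y).trans ⟨?_, ?_⟩
    · rintro ⟨b, rfl⟩
      exact ⟨freeHom b, rfl⟩
    · rintro ⟨k, rfl⟩
      refine ⟨freeHomInv k, ?_⟩
      rw [actB_def]
      have := DFunLike.congr_fun freeHom_freeHomInv k
      rw [MonoidHom.comp_apply, MonoidHom.id_apply] at this
      rw [this]
  · intro m
    induction m using CoprodI.induction_on with
    | one => intro x; rw [one_smul, map_one, one_mul]
    | of b d =>
      intro x
      cases b
      · have h1 : ((CoprodI.of (M := fun _ : Bool => DD) (i := false) d) • x).2.1 = x.2.1 := by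
          rw [actN_of, actF_def]
          change eeN 1 (jj false (n d (p false x))) • x.2.1 = x.2.1
          have := ee_jj_other false (n d (p false x))
          rw [cond_false] at this
          rw [this, one_smul]
        change κ ((CoprodI.of (M := fun _ : Bool => DD) (i := false) d) • x).2.1 =
          piN (inc false d) * κ x.2.1
        rw [h1, piN_inc_false, one_mul]
      · have h1 : ((CoprodI.of (M := fun _ : Bool => DD) (i := true) d) • x).2.1 = d • x.2.1 :=
          hpN true d x
        change κ ((CoprodI.of (M := fun _ : Bool => DD) (i := true) d) • x).2.1 =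
          piN (inc true d) * κ x.2.1
        rw [h1, hκ, piN_inc_true]
    | mul a a' ha ha' =>
      intro x
      rw [mul_smul, ha, ha', map_mul, mul_assoc]

end MP6c9f91
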