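import Pool.Agent.MP6c9f91.GamAlg

/-!
# MP_6c9f91_an, package T8a: no infinite commensurated subgroup with finitely many commutators
-/

set_option autoImplicit false
set_option linter.style.haveILetI false

open MeasureTheory Monoid

namespace MP6c9f91

universe u v

section NoComm

section General

variable {G : Type*} [Group G]

/-- a finite index subgroup of an infinite group is infinite -/
theorem infinite_of_relIndex {H K : Subgroup G} (h : H.relIndex K ≠ 0) (hHK : H ≤ K)
    (hK : Infinite K) : Infinite H := by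
  by_contra hcon
  rw [not_infinite_iff_finite] at hcon
  have h1 := Subgroup.relIndex_mul_relIndex (⊥ : Subgroup G) H K bot_le hHK
  rw [Subgroup.relIndex_bot_left, Subgroup.relIndex_bot_left] at h1
  have h2 : Nat.card K ≠ 0 := by
    rw [← h1]
    exact mul_ne_zero Nat.card_pos.ne' h
  have h3 : Finite K := Nat.finite_of_card_ne_zero h2
  exact not_finite K

theorem exists_mem_ne_one {H : Subgroup G} (hH : Infinite H) : ∃ x ∈ H, x ≠ 1 := by
  obtain ⟨⟨x, hx⟩, hx1⟩ := exists_ne (1 : H)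
  exact ⟨x, hx, fun h => hx1 (Subtype.ext h)⟩

theorem centralizer_relIndex (T : Subgroup G) (x : G) (F : Set G) (hF : F.Finite)
    (h : ∀ t ∈ T, t * x * t⁻¹ * x⁻¹ ∈ F) : (Subgroup.centralizer {x}).relIndex T ≠ 0 := by
  haveI : Finite F := hF
  obtain ⟨S, hS⟩ : ∃ S : Subgroup T, S = (Subgroup.centralizer {x}).subgroupOf T := ⟨_, rfl⟩
  unfold Subgroup.relIndex
  have hS' : ∀ t : T, x * (t : G) = (t : G) * x → t ∈ S := by
    intro t ht
    rw [hS, Subgroup.mem_subgroupOf, Subgroup.mem_centralizer_iff]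
    intro y hy
    rw [Set.mem_singleton_iff.1 hy]
    exact ht
  rw [← hS]
  have hinj : Function.Injective
      (fun q : T ⧸ S => (⟨(q.out : G) * x * (q.out : G)⁻¹ * x⁻¹, h _ q.out.2⟩ : F)) := by
    intro q r hqr
    have h1 : (q.out : G) * x * (q.out : G)⁻¹ * x⁻¹ = (r.out : G) * x * (r.out : G)⁻¹ * x⁻¹ :=
      congrArg Subtype.val hqr
    have h2 : (q.out : G) * x * (q.out : G)⁻¹ = (r.out : G) * x * (r.out : G)⁻¹ :=
      mul_right_cancel h1
    have h3 : (q.out)⁻¹ * r.out ∈ S := by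
      apply hS'
      push_cast
      calc x * ((q.out : G)⁻¹ * (r.out : G))
          = (q.out : G)⁻¹ * ((q.out : G) * x * (q.out : G)⁻¹) * (r.out : G) := by group
        _ = (q.out : G)⁻¹ * ((r.out : G) * x * (r.out : G)⁻¹) * (r.out : G) := by rw [h2]
        _ = (q.out : G)⁻¹ * (r.out : G) * x := by group
    have h4 : (QuotientGroup.mk q.out : T ⧸ S) = QuotientGroup.mk r.out := QuotientGroup.eq.2 h3
    rw [QuotientGroup.out_eq', QuotientGroup.out_eq'] at h4
    exact h4
  haveI : Finite (T ⧸ S) := Finite.of_injective _ hinj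
  exact Subgroup.index_ne_zero_of_finite

theorem mem_map_conj {T : Subgroup G} {e x : G} :
    x ∈ T.map (MulAut.conj e).toMonoidHom ↔ e⁻¹ * x * e ∈ T := by
  rw [Subgroup.mem_map]
  constructor
  · rintro ⟨y, hy, rfl⟩
    have : e⁻¹ * (e * y * e⁻¹) * e = y := by group
    change e⁻¹ * (e * y * e⁻¹) * e ∈ T
    rw [this]; exact hy
  · intro h
    refine ⟨_, h, ?_⟩
    change e * (e⁻¹ * x * e) * e⁻¹ = x
    group

theorem relIndex_map_conj {T₁ T : Subgroup G} {e : G} (h1 : T₁.relIndex T ≠ 0)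
    (h2 : (T.map (MulAut.conj e).toMonoidHom).relIndex T ≠ 0) :
    (T₁.map (MulAut.conj e).toMonoidHom).relIndex T ≠ 0 := by
  refine Subgroup.relIndex_ne_zero_trans ?_ h2
  rw [Subgroup.relIndex_map_map_of_injective]
  · exact h1
  · exact (MulAut.conj e).injective

theorem no_comm_aux (T R : Subgroup G) (hinf : Infinite T) (F : Set G) (hF : F.Finite)
    (hc : ∀ a ∈ T, ∀ b ∈ T, a * b * a⁻¹ * b⁻¹ ∈ F) (hTR : ∀ z ∈ T, z ∈ R → z = 1)
    (a b : G) (ha : a * a = 1) (hb : b * b = 1) (hab : a * b = b * a)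
    (hca : ∀ z, Commute z a → z ∈ R) (hcb : ∀ z, Commute z b → z ∈ R)
    (hcab : ∀ z, Commute z (a * b) → z ∈ R)
    (ta : (T.map (MulAut.conj a).toMonoidHom).relIndex T ≠ 0)
    (tb : (T.map (MulAut.conj b).toMonoidHom).relIndex T ≠ 0)
    (tab : (T.map (MulAut.conj (a * b)).toMonoidHom).relIndex T ≠ 0) : False := by
  have hai : a⁻¹ = a := inv_eq_of_mul_eq_one_left ha
  have hbi : b⁻¹ = b := inv_eq_of_mul_eq_one_left hb
  have habi : (a * b)⁻¹ = a * b := by rw [mul_inv_rev, hai, hbi, hab]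
  -- the subgroup `T₅`
  obtain ⟨T₅, hT₅⟩ : ∃ T₅ : Subgroup G, T₅ = T ⊓ ⨅ f : (F ∩ (T : Set G) : Set G),
    Subgroup.centralizer {(f : G)} := ⟨_, rfl⟩
  have h5T : T₅ ≤ T := by rw [hT₅]; exact inf_le_left
  have h5c : ∀ f ∈ F, f ∈ T → ∀ t ∈ T₅, f * t = t * f := by
    intro f hf hfT t ht
    rw [hT₅] at ht
    have h1 := (Subgroup.mem_iInf.1 ht.2) ⟨f, hf, hfT⟩
    rw [Subgroup.mem_centralizer_iff] at h1
    exact h1 f rfl
  have h5 : T₅.relIndex T ≠ 0 := by
    rw [hT₅]
    refine Subgroup.relIndex_inf_ne_zero (by rw [Subgroup.relIndex_self]; exact one_ne_zero) ?_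
    haveI : Finite (F ∩ (T : Set G) : Set G) := hF.inter_of_left _
    refine Subgroup.relIndex_iInf_ne_zero fun f => ?_
    exact centralizer_relIndex T f F hF (fun t ht => hc t ht f f.2.2)
  -- the subgroup `T₄`
  obtain ⟨T₄, hT₄⟩ : ∃ T₄ : Subgroup G, T₄ = T₅ ⊓ (T₅.map (MulAut.conj a).toMonoidHom ⊓
    (T₅.map (MulAut.conj b).toMonoidHom ⊓ T₅.map (MulAut.conj (a * b)).toMonoidHom)) := ⟨_, rfl⟩
  have h4 : T₄.relIndex T ≠ 0 := by
    rw [hT₄]
    exact Subgroup.relIndex_inf_ne_zero h5 (Subgroup.relIndex_inf_ne_zero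
      (relIndex_map_conj h5 ta) (Subgroup.relIndex_inf_ne_zero
      (relIndex_map_conj h5 tb) (relIndex_map_conj h5 tab)))
  have h45 : T₄ ≤ T₅ := by rw [hT₄]; exact inf_le_left
  have hmem : ∀ x, x ∈ T₄ ↔ x ∈ T₅ ∧ a * x * a ∈ T₅ ∧ b * x * b ∈ T₅ ∧
      a * b * x * (a * b) ∈ T₅ := by
    intro x
    rw [hT₄, Subgroup.mem_inf, Subgroup.mem_inf, Subgroup.mem_inf, mem_map_conj, mem_map_conj,
      mem_map_conj, hai, hbi, habi]
  have haba : a * b * a = b := by rw [hab, mul_assoc, ha, mul_one]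
  have hbab : b * a * b = a := by rw [← hab, mul_assoc, hb, mul_one]
  have hna : ∀ x ∈ T₄, a * x * a ∈ T₄ := by
    intro x hx
    obtain ⟨h1, h2, h3, h4⟩ := (hmem x).1 hx
    rw [hmem]
    refine ⟨h2, ?_, ?_, ?_⟩
    · have : a * (a * x * a) * a = (a * a) * x * (a * a) := by group
      rw [this, ha, one_mul, mul_one]; exact h1
    · have : b * (a * x * a) * b = (b * a) * x * (a * b) := by group
      rw [this, ← hab]; exact h4
    · have : a * b * (a * x * a) * (a * b) = (a * b * a) * x * ((a * a) * b) := by group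
      rw [this, haba, ha, one_mul]; exact h3
  have hnb : ∀ x ∈ T₄, b * x * b ∈ T₄ := by
    intro x hx
    obtain ⟨h1, h2, h3, h4⟩ := (hmem x).1 hx
    rw [hmem]
    refine ⟨h3, ?_, ?_, ?_⟩
    · have : a * (b * x * b) * a = (a * b) * x * (b * a) := by group
      rw [this, ← hab]; exact h4
    · have : b * (b * x * b) * b = (b * b) * x * (b * b) := by group
      rw [this, hb, one_mul, mul_one]; exact h1
    · have : a * b * (b * x * b) * (a * b) = (a * (b * b)) * x * (b * a * b) := by group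
      rw [this, hbab, hb, mul_one]; exact h2
  -- central elements of `T₄` are inverted
  have hinv : ∀ e : G, e * e = 1 → (∀ x ∈ T₄, e * x * e ∈ T₄) → (∀ z, Commute z e → z ∈ R) →
      ∀ c ∈ T₄, (∀ t ∈ T₄, t * c = c * t) → e * c * e = c⁻¹ := by
    intro e he hne hce c hcT hcc
    have h1 : (e * c * e) * c = c * (e * c * e) := hcc _ (hne c hcT)
    have h2 : Commute (c * (e * c * e)) e := by
      change c * (e * c * e) * e = e * (c * (e * c * e))
      have e1 : c * (e * c * e) * e = c * (e * c) * (e * e) := by group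
      have e2 : e * (c * (e * c * e)) = (e * c * e) * c * e := by group
      rw [e1, he, mul_one, e2, h1]
      have e3 : c * (e * c * e) * e = c * (e * c) * (e * e) := by group
      rw [e3, he, mul_one]
    have h3 : c * (e * c * e) = 1 :=
      hTR _ (h5T (h45 (T₄.mul_mem hcT (hne c hcT)))) (hce _ h2)
    exact (inv_eq_of_mul_eq_one_right h3).symm
  have hcen : ∀ c ∈ T₄, (∀ t ∈ T₄, t * c = c * t) → c = 1 := by
    intro c hcT hcc
    have i1 := hinv a ha hna hca c hcT hcc
    have i2 := hinv b hb hnb hcb c hcT hcc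
    have i3 : Commute c (a * b) := by
      change c * (a * b) = a * b * c
      have e1 : a * b * c * (a * b) = c := by
        have e2 : a * b * c * (a * b) = a * (b * c * b) * a := by
          have : a * (b * c * b) * a = a * b * c * (b * a) := by group
          rw [this, hab]
        have e3 : a * c⁻¹ * a = (a⁻¹ * c * a⁻¹)⁻¹ := by group
        rw [e2, i2, e3, hai, i1, inv_inv]
      have e4 : (a * b) * (a * b) = 1 := by
        have : (a * b) * (a * b) = (a * b * a) * b := by group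
        rw [this, haba, hb]
      calc c * (a * b) = (a * b * c * (a * b)) * (a * b) := by rw [e1]
        _ = a * b * c * ((a * b) * (a * b)) := by group
        _ = a * b * c := by rw [e4, mul_one]
    exact hTR c (h5T (h45 hcT)) (hcab c i3)
  have habel : ∀ s ∈ T₄, ∀ t ∈ T₄, t * s = s * t := by
    intro s hs t ht
    have h1 : t * s * t⁻¹ * s⁻¹ = 1 := by
      have hm : t * s * t⁻¹ * s⁻¹ ∈ T₄ :=
        T₄.mul_mem (T₄.mul_mem (T₄.mul_mem ht hs) (T₄.inv_mem ht)) (T₄.inv_mem hs)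
      refine hcen _ hm fun r hr => ?_
      exact (h5c _ (hc t (h5T (h45 ht)) s (h5T (h45 hs))) (h5T (h45 hm)) r (h45 hr)).symm
    have h2 := mul_inv_eq_one.1 h1
    exact mul_inv_eq_iff_eq_mul.1 h2
  obtain ⟨t, ht, ht1⟩ := exists_mem_ne_one (infinite_of_relIndex h4 (h45.trans h5T) hinf)
  exact ht1 (hcen t ht fun s hs => (habel s hs t ht).symm)

end General

/-! ### involutions of `DD` -/

/-- The involution of the coordinate `i`. -/
def uu (i : ℕ) : DD :=
  Multiplicative.ofAdd (DFinsupp.single i ((2 * i + 3 : ℕ) : ZMod (kk i)))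

theorem uu_same (i : ℕ) : (Multiplicative.toAdd (uu i)) i = ((2 * i + 3 : ℕ) : ZMod (kk i)) := by
  unfold uu
  rw [toAdd_ofAdd, DFinsupp.single_eq_same]

theorem uu_ne {i j : ℕ} (h : i ≠ j) : (Multiplicative.toAdd (uu j)) i = 0 := by
  unfold uu
  rw [toAdd_ofAdd, DFinsupp.single_eq_of_ne h]

theorem half_ne_zero (i : ℕ) : ((2 * i + 3 : ℕ) : ZMod (kk i)) ≠ 0 := by
  intro h
  rw [ZMod.natCast_eq_zero_iff] at h
  have := Nat.le_of_dvd (by omega) h
  unfold kk at this
  omega

theorem half_add (i : ℕ) : ((2 * i + 3 : ℕ) : ZMod (kk i)) + ((2 * i + 3 : ℕ) : ZMod (kk i)) = 0 := by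
  rw [← Nat.cast_add, ZMod.natCast_eq_zero_iff]
  unfold kk
  exact ⟨1, by ring⟩

theorem uu_sq (i : ℕ) : uu i * uu i = 1 := by
  apply DD.ext
  intro n
  rw [toAdd_mul, DFinsupp.add_apply]
  by_cases h : n = i
  · subst h
    rw [uu_same, half_add]; rfl
  · rw [uu_ne h, add_zero]; rfl

theorem exists_uu (K : Subgroup DD) [K.FiniteIndex] (f : ℕ → ℕ) :
    ∃ i j, i ≠ j ∧ uu (f i) * uu (f j) ∈ K := by
  obtain ⟨i, j, hij, h⟩ := Finite.exists_ne_map_eq_of_infinite
    (fun n : ℕ => (QuotientGroup.mk (uu (f n)) : DD ⧸ K))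
  refine ⟨i, j, hij, ?_⟩
  have h1 := QuotientGroup.eq.1 h
  rwa [inv_eq_of_mul_eq_one_left (uu_sq (f i))] at h1

theorem DD_sq (x y : DD) (hx : x * x = 1) (hy : y * y = 1) : (x * y) * (x * y) = 1 := by
  rw [mul_mul_mul_comm, hx, hy, one_mul]

/-- The intersection with the first factor is trivial. -/
theorem NN_inter_trivial (N₀ : Subgroup NN) [N₀.FiniteIndex] (T : Subgroup NN)
    (hinf : Infinite T)
    (hT : ∀ n ∈ N₀, (T.map (MulAut.conj n).toMonoidHom).relIndex T ≠ 0) (F : Set NN)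
    (hF : F.Finite) (hc : ∀ a ∈ T, ∀ b ∈ T, a * b * a⁻¹ * b⁻¹ ∈ F) (z : NN) (hz : z ∈ T)
    (hz' : z ∈ (inc false).range) : z = 1 := by
  by_contra hz1
  obtain ⟨d, rfl⟩ := hz'
  have hd : d ≠ 1 := by
    rintro rfl
    exact hz1 (map_one _)
  have h1 := centralizer_relIndex T (inc false d) F hF (fun t ht => hc t ht _ hz)
  have h2 : Subgroup.centralizer {inc false d} ≤ (inc false).range := by
    intro n hn
    refine mem_range_of_commute false d hd n ?_
    rw [Subgroup.mem_centralizer_iff] at hn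
    exact (hn _ rfl).symm
  have h3 : (inc false).range.relIndex T ≠ 0 := mt (Subgroup.relIndex_eq_zero_of_le_left h2) h1
  obtain ⟨T₆, hT₆⟩ : ∃ T₆ : Subgroup NN, T₆ = (inc false).range ⊓ T := ⟨_, rfl⟩
  have h6 : T₆.relIndex T ≠ 0 := by
    rw [hT₆]
    exact Subgroup.relIndex_inf_ne_zero h3 (by rw [Subgroup.relIndex_self]; exact one_ne_zero)
  obtain ⟨y, hy, hyN⟩ := exists_mem_inter N₀ true
  have h7 := relIndex_map_conj h6 (hT _ hyN)
  have h8 := Subgroup.relIndex_inf_ne_zero h6 h7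
  have h9 : T₆ ⊓ T₆.map (MulAut.conj (inc true y)).toMonoidHom ≤ T := by
    rw [hT₆]; exact inf_le_left.trans inf_le_right
  obtain ⟨w, hw, hw1⟩ := exists_mem_ne_one (infinite_of_relIndex h8 h9 hinf)
  obtain ⟨hw6, w', hw', hww⟩ := hw
  have hw'1 : w' ∈ (inc false).range := by
    have : w' ∈ (inc false).range ⊓ T := by rw [← hT₆]; exact hw'
    exact this.1
  have hw1' : w ∈ (inc false).range := by
    have : w ∈ (inc false).range ⊓ T := by rw [← hT₆]; exact hw6
    exact this.1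
  obtain ⟨u, rfl⟩ := hw'1
  have hu : u ≠ 1 := by
    rintro rfl
    rw [map_one, map_one] at hww
    exact hw1 hww.symm
  have hconj : inc true y * inc false u * (inc true y)⁻¹ = w := hww
  obtain ⟨x, hx⟩ := malnormal false u hu (inc true y) (by rw [hconj]; exact hw1')
  exact hy (inc_inter hx).2

/-- T8a. -/
theorem NN_no_commensurated (N₀ : Subgroup NN) [N₀.FiniteIndex] (T : Subgroup NN)
    (hinf : Infinite T)
    (hT : ∀ n ∈ N₀, (T.map (MulAut.conj n).toMonoidHom).relIndex T ≠ 0) (F : Set NN)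
    (hF : F.Finite) (hc : ∀ a ∈ T, ∀ b ∈ T, a * b * a⁻¹ * b⁻¹ ∈ F) : False := by
  haveI : (N₀.comap (inc false)).FiniteIndex := finiteIndex_comap (inc false) N₀
  obtain ⟨i, j, hij, hK1⟩ := exists_uu (N₀.comap (inc false)) (fun n => 2 * n)
  obtain ⟨k, l, hkl, hK2⟩ := exists_uu (N₀.comap (inc false)) (fun n => 2 * n + 1)
  obtain ⟨x, hx⟩ : ∃ x, x = uu (2 * i) * uu (2 * j) := ⟨_, rfl⟩
  obtain ⟨y, hy⟩ : ∃ y, y = uu (2 * k + 1) * uu (2 * l + 1) := ⟨_, rfl⟩
  have hx2 : x * x = 1 := by rw [hx]; exact DD_sq _ _ (uu_sq _) (uu_sq _)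
  have hy2 : y * y = 1 := by rw [hy]; exact DD_sq _ _ (uu_sq _) (uu_sq _)
  have hxi : (Multiplicative.toAdd x) (2 * i) = ((2 * (2 * i) + 3 : ℕ) : ZMod (kk (2 * i))) := by
    rw [hx, toAdd_mul, DFinsupp.add_apply, uu_same, uu_ne (by omega), add_zero]
  have hyi : (Multiplicative.toAdd y) (2 * i) = 0 := by
    rw [hy, toAdd_mul, DFinsupp.add_apply, uu_ne (by omega), uu_ne (by omega), add_zero]
  have hyk : (Multiplicative.toAdd y) (2 * k + 1) =
      ((2 * (2 * k + 1) + 3 : ℕ) : ZMod (kk (2 * k + 1))) := by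
    rw [hy, toAdd_mul, DFinsupp.add_apply, uu_same, uu_ne (by omega), add_zero]
  have hx1 : x ≠ 1 := by
    rintro h
    rw [h] at hxi
    exact half_ne_zero _ hxi.symm
  have hy1 : y ≠ 1 := by
    rintro h
    rw [h] at hyk
    exact half_ne_zero _ hyk.symm
  have hxy1 : x * y ≠ 1 := by
    intro h
    have h1 : (Multiplicative.toAdd (x * y)) (2 * i) =
        ((2 * (2 * i) + 3 : ℕ) : ZMod (kk (2 * i))) := by
      rw [toAdd_mul, DFinsupp.add_apply, hxi, hyi, add_zero]
    rw [h] at h1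
    exact half_ne_zero _ h1.symm
  have hxN : inc false x ∈ N₀ := by rw [hx]; exact hK1
  have hyN : inc false y ∈ N₀ := by rw [hy]; exact hK2
  refine no_comm_aux T (inc false).range hinf F hF hc
    (NN_inter_trivial N₀ T hinf hT F hF hc) (inc false x) (inc false y) ?_ ?_ ?_ ?_ ?_ ?_
    (hT _ hxN) (hT _ hyN) (hT _ (N₀.mul_mem hxN hyN))
  · rw [← map_mul, hx2, map_one]
  · rw [← map_mul, hy2, map_one]
  · rw [← map_mul, ← map_mul, mul_comm]
  · exact fun z hz => mem_range_of_commute false x hx1 z hz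
  · exact fun z hz => mem_range_of_commute false y hy1 z hz
  · intro z hz
    rw [← map_mul] at hz
    exact mem_range_of_commute false (x * y) hxy1 z hz

/-! ### The group `Gam` -/

theorem relIndex_map_hom {G G' : Type*} [Group G] [Group G'] (f : G →* G') {H K : Subgroup G}
    (h : H.relIndex K ≠ 0) : (H.map f).relIndex (K.map f) ≠ 0 := by
  rw [← Subgroup.relIndex_comap]
  exact mt (Subgroup.relIndex_eq_zero_of_le_left (Subgroup.le_comap_map f H)) h

/-- The property of `NN_no_commensurated` for a general group. -/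
def NoComm (G : Type u) [Group G] : Prop :=
  ∀ N₀ : Subgroup G, N₀.FiniteIndex → ∀ T : Subgroup G, Infinite T →
    (∀ n ∈ N₀, (T.map (MulAut.conj n).toMonoidHom).relIndex T ≠ 0) → ∀ F : Set G,
    F.Finite → (∀ a ∈ T, ∀ b ∈ T, a * b * a⁻¹ * b⁻¹ ∈ F) → False

theorem noComm_semidirect {N : Type u} {H : Type v} [Group N] [Group H] {φ : H →* MulAut N}
    (hN : NoComm N) (hH : NoComm H) : NoComm (N ⋊[φ] H) := by
  intro Γ₀ hΓ₀ T hinf hT F hF hc
  obtain ⟨r, hr⟩ : ∃ r : N ⋊[φ] H →* H, r = SemidirectProduct.rightHom := ⟨_, rfl⟩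
  obtain ⟨l, hl⟩ : ∃ l : N →* N ⋊[φ] H, l = SemidirectProduct.inl := ⟨_, rfl⟩
  have hrs : Function.Surjective r := by rw [hr]; exact SemidirectProduct.rightHom_surjective
  have hli : Function.Injective l := by rw [hl]; exact SemidirectProduct.inl_injective
  have hrl : r.ker = l.range := by rw [hr, hl]; exact SemidirectProduct.range_inl_eq_ker_rightHom.symm
  by_cases hfin : Infinite (T.map r)
  · have hfi : (Γ₀.map r).FiniteIndex := by
      refine finiteIndex_map r Γ₀ inferInstance ?_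
      rw [MonoidHom.range_eq_top.2 hrs]; infer_instance
    refine hH (Γ₀.map r) hfi (T.map r) hfin ?_ (r '' F) (hF.image _) ?_
    · rintro _ ⟨g, hg, rfl⟩
      have h1 : (T.map r).map (MulAut.conj (r g)).toMonoidHom =
          (T.map (MulAut.conj g).toMonoidHom).map r := by
        rw [Subgroup.map_map, Subgroup.map_map]
        congr 1
        apply MonoidHom.ext
        intro x
        simp
      rw [h1]
      exact relIndex_map_hom r (hT g hg)
    · rintro _ ⟨a, ha, rfl⟩ _ ⟨b, hb, rfl⟩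
      exact ⟨_, hc a ha b hb, by simp⟩
  · rw [not_infinite_iff_finite] at hfin
    have h1 : r.ker.relIndex T ≠ 0 := by
      rw [Subgroup.relIndex_ker]
      exact Nat.card_pos.ne'
    have h2 : Infinite (r.ker ⊓ T : Subgroup (N ⋊[φ] H)) :=
      infinite_of_relIndex (by rw [Subgroup.inf_relIndex_right]; exact h1) inf_le_right hinf
    have hfi : (Γ₀.comap l).FiniteIndex := finiteIndex_comap l Γ₀
    have h3 : Infinite (T.comap l) := by
      have h4 : (T.comap l).map l = r.ker ⊓ T := by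
        rw [Subgroup.map_comap_eq, hrl]
      have e := (T.comap l).equivMapOfInjective l hli
      rw [h4] at e
      exact Infinite.of_injective _ e.symm.injective
    refine hN (Γ₀.comap l) hfi (T.comap l) h3 ?_ (l ⁻¹' F) (hF.preimage hli.injOn) ?_
    · intro n hn
      have h1 : (T.comap l).map (MulAut.conj n).toMonoidHom =
          (T.map (MulAut.conj (l n)).toMonoidHom).comap l := by
        ext x
        rw [mem_map_conj, Subgroup.mem_comap, Subgroup.mem_comap, mem_map_conj]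
        simp
      rw [h1]
      exact Subgroup.relIndex_comap_ne_zero l (hT _ hn)
    · intro a ha b hb
      have := hc _ ha _ hb
      change l (a * b * a⁻¹ * b⁻¹) ∈ F
      simpa using this

theorem NN_noComm : NoComm NN := by
  intro N₀ hN₀ T hinf hT F hF hc
  exact NN_no_commensurated N₀ T hinf hT F hF hc

/-- T8a. Consequence for Γ = NN ⋊ NN. -/
theorem Gam_no_commensurated (Γ₀ : Subgroup Gam) [Γ₀.FiniteIndex] (T : Subgroup Gam)
    (hinf : Infinite T)
    (hT : ∀ g ∈ Γ₀, (T.map (MulAut.conj g).toMonoidHom).relIndex T ≠ 0) (F : Set Gam)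
    (hF : F.Finite) (hc : ∀ a ∈ T, ∀ b ∈ T, a * b * a⁻¹ * b⁻¹ ∈ F) : False :=
  noComm_semidirect NN_noComm NN_noComm Γ₀ inferInstance T hinf hT F hF hc

end NoComm

end MP6c9f91
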