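import Pool.Agent.MP6c9f91.MEBasic

/-!
# P9: the odometer

`DD` acts by translation on the product `∏ₙ ℤ/(4n+6)`, and outside a countable set its orbits are
the orbits of the odometer transformation.
-/

open MeasureTheory Monoid

namespace MP6c9f91

universe u v w

/-- The full product. -/
abbrev XX : Type := ∀ n : ℕ, ZMod (kk n)

theorem countable_DD : Countable DD := by
  classical
  have hfin : ∀ d : DD, (Function.support (fun n => ((Multiplicative.toAdd d) n).val)).Finite := by
    intro d
    refine (DFinsupp.finite_support (Multiplicative.toAdd d)).subset ?_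
    intro n hn h0
    apply hn
    show ((Multiplicative.toAdd d) n).val = 0
    rw [h0, ZMod.val_zero]
  have hinj : Function.Injective (fun d : DD =>
      Finsupp.ofSupportFinite (fun n => ((Multiplicative.toAdd d) n).val) (hfin d)) := by
    intro d e h
    apply DD.ext
    intro n
    have h1 := DFunLike.congr_fun h n
    exact ZMod.val_injective _ h1
  exact hinj.countable

instance : Countable DD := countable_DD

/-- Equality of the tails. -/
def TailEq (x y : XX) : Prop := ∃ N, ∀ n, N ≤ n → x n = y n

theorem TailEq.refl (x : XX) : TailEq x x := ⟨0, fun _ _ => rfl⟩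

theorem TailEq.symm {x y : XX} (h : TailEq x y) : TailEq y x := by
  obtain ⟨N, hN⟩ := h
  exact ⟨N, fun n hn => (hN n hn).symm⟩

theorem TailEq.trans {x y z : XX} (h : TailEq x y) (h' : TailEq y z) : TailEq x z := by
  obtain ⟨N, hN⟩ := h
  obtain ⟨N', hN'⟩ := h'
  exact ⟨max N N', fun n hn => (hN n (le_of_max_le_left hn)).trans
    (hN' n (le_of_max_le_right hn))⟩

theorem tailEq_iff (x y : XX) :
    TailEq x y ↔ ∃ d : DD, ∀ n, (Multiplicative.toAdd d) n + x n = y n := by
  classical
  constructor
  · rintro ⟨N, hN⟩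
    refine ⟨Multiplicative.ofAdd (DFinsupp.mk (Finset.range N) (fun i => y i - x i)), fun n => ?_⟩
    rw [toAdd_ofAdd, DFinsupp.mk_apply]
    split_ifs with h
    · simp
    · rw [zero_add]
      exact hN n (by simpa using h)
  · rintro ⟨d, hd⟩
    have hfin := DFinsupp.finite_support (Multiplicative.toAdd d)
    obtain ⟨N, hN⟩ := hfin.bddAbove
    refine ⟨N + 1, fun n hn => ?_⟩
    have h0 : (Multiplicative.toAdd d) n = 0 := by
      by_contra h
      have := hN h
      omega
    rw [← hd n, h0, zero_add]

/-- The good points: neither eventually `0` nor eventually `-1`. -/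
def goodSet : Set XX := {x | (∀ N, ∃ n, N ≤ n ∧ x n ≠ 0) ∧ (∀ N, ∃ n, N ≤ n ∧ x n ≠ -1)}

theorem goodSet_of_tailEq {x y : XX} (h : TailEq x y) (hx : x ∈ goodSet) : y ∈ goodSet := by
  obtain ⟨N₀, h⟩ := h
  constructor
  · intro N
    obtain ⟨n, hn, hn2⟩ := hx.1 (max N N₀)
    exact ⟨n, le_of_max_le_left hn, by rw [← h n (le_of_max_le_right hn)]; exact hn2⟩
  · intro N
    obtain ⟨n, hn, hn2⟩ := hx.2 (max N N₀)
    exact ⟨n, le_of_max_le_left hn, by rw [← h n (le_of_max_le_right hn)]; exact hn2⟩

theorem countable_compl_goodSet : (goodSetᶜ : Set XX).Countable := by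
  have h1 : (goodSetᶜ : Set XX) ⊆
      Set.range (fun (d : DD) (n : ℕ) => (Multiplicative.toAdd d) n + (0 : XX) n) ∪
      Set.range (fun (d : DD) (n : ℕ) => (Multiplicative.toAdd d) n + (-1 : XX) n) := by
    intro x hx
    have hx' : ¬ ((∀ N, ∃ n, N ≤ n ∧ x n ≠ 0) ∧ (∀ N, ∃ n, N ≤ n ∧ x n ≠ -1)) := hx
    rw [not_and_or] at hx'
    rcases hx' with h | h
    · left
      push Not at h
      obtain ⟨N, hN⟩ := h
      obtain ⟨d, hd⟩ := (tailEq_iff 0 x).1 ⟨N, fun n hn => (hN n hn).symm⟩
      exact ⟨d, funext hd⟩
    · right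
      push Not at h
      obtain ⟨N, hN⟩ := h
      obtain ⟨d, hd⟩ := (tailEq_iff (-1) x).1 ⟨N, fun n hn => (hN n hn).symm⟩
      exact ⟨d, funext hd⟩
  exact ((Set.countable_range _).union (Set.countable_range _)).mono h1

theorem measurableSet_goodSet : MeasurableSet goodSet := by
  rw [← MeasurableSet.compl_iff]
  exact countable_compl_goodSet.measurableSet

/-- The Haar probability measure on the product. -/
noncomputable def haarXX : Measure XX := Measure.addHaarMeasure ⊤

theorem haarXX_univ : haarXX Set.univ = 1 := by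
  have := Measure.addHaarMeasure_self (G := XX) (K₀ := ⊤)
  exact this

theorem neBot_XX : (nhdsWithin (0 : XX) {0}ᶜ).NeBot := by
  rw [← mem_closure_iff_nhdsWithin_neBot]
  refine mem_closure_of_tendsto (f := fun m : ℕ => (Pi.single m 1 : XX)) (b := Filter.atTop) ?_ ?_
  · rw [tendsto_pi_nhds]
    intro n
    apply tendsto_const_nhds.congr'
    filter_upwards [Filter.eventually_gt_atTop n] with m hm
    rw [Pi.single_eq_of_ne (by omega : n ≠ m)]
    rfl
  · refine Filter.Eventually.of_forall fun m => ?_
    intro h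
    have h1 := congrFun (h : (Pi.single m 1 : XX) = 0) m
    rw [Pi.single_eq_same] at h1
    have h2 : (1 : ZMod (kk m)) ≠ 0 := by
      have : Fact (1 < kk m) := ⟨by unfold kk; omega⟩
      exact one_ne_zero
    exact h2 h1

instance : haarXX.IsAddHaarMeasure := by
  unfold haarXX; infer_instance

theorem haarXX_compl_goodSet : haarXX goodSetᶜ = 0 := by
  have := neBot_XX
  exact countable_compl_goodSet.measure_zero haarXX

/-! ### The odometer map -/

/-- The odometer map (addition of one with carry). -/
def odoFun (x : XX) : XX := fun n => if ∀ j, j < n → x j = -1 then x n + 1 else x n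

/-- The inverse of the odometer map. -/
def odoInv (x : XX) : XX := fun n => if ∀ j, j < n → x j = 0 then x n - 1 else x n

theorem odoFun_iff (x : XX) (n : ℕ) : (∀ j, j < n → odoFun x j = 0) ↔ ∀ j, j < n → x j = -1 := by
  constructor
  · intro h j
    induction j using Nat.strong_induction_on with
    | _ j ih =>
      intro hj
      have h1 := h j hj
      have h2 : ∀ i, i < j → x i = -1 := fun i hi => ih i hi (hi.trans hj)
      rw [odoFun, if_pos h2] at h1
      exact eq_neg_of_add_eq_zero_left h1
  · intro h j hj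
    rw [odoFun, if_pos (fun i hi => h i (hi.trans hj)), h j hj, neg_add_cancel]

theorem odoInv_iff (x : XX) (n : ℕ) : (∀ j, j < n → odoInv x j = -1) ↔ ∀ j, j < n → x j = 0 := by
  constructor
  · intro h j
    induction j using Nat.strong_induction_on with
    | _ j ih =>
      intro hj
      have h1 := h j hj
      have h2 : ∀ i, i < j → x i = 0 := fun i hi => ih i hi (hi.trans hj)
      rw [odoInv, if_pos h2] at h1
      have h3 : x j = -1 + 1 := by rw [← h1]; ring
      rw [h3, neg_add_cancel]
  · intro h j hj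
    rw [odoInv, if_pos (fun i hi => h i (hi.trans hj)), h j hj, zero_sub]

theorem odoInv_odoFun (x : XX) : odoInv (odoFun x) = x := by
  funext n
  by_cases h : ∀ j, j < n → x j = -1
  · rw [odoInv, if_pos ((odoFun_iff x n).2 h), odoFun, if_pos h, add_sub_cancel_right]
  · rw [odoInv, if_neg (fun h' => h ((odoFun_iff x n).1 h')), odoFun, if_neg h]

theorem odoFun_odoInv (x : XX) : odoFun (odoInv x) = x := by
  funext n
  by_cases h : ∀ j, j < n → x j = 0
  · rw [odoFun, if_pos ((odoInv_iff x n).2 h), odoInv, if_pos h, sub_add_cancel]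
  · rw [odoFun, if_neg (fun h' => h ((odoInv_iff x n).1 h')), odoInv, if_neg h]

theorem tailEq_odoFun (x : XX) (hx : x ∈ goodSet) : TailEq x (odoFun x) := by
  obtain ⟨m, -, hm⟩ := hx.2 0
  refine ⟨m + 1, fun n hn => ?_⟩
  rw [odoFun, if_neg]
  intro h
  exact hm (h m (by omega))

theorem tailEq_odoInv (x : XX) (hx : x ∈ goodSet) : TailEq x (odoInv x) := by
  obtain ⟨m, -, hm⟩ := hx.1 0
  refine ⟨m + 1, fun n hn => ?_⟩
  rw [odoInv, if_neg]
  intro h
  exact hm (h m (by omega))

theorem measurable_odoFun : Measurable odoFun := by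
  rw [measurable_pi_iff]
  intro n
  refine Measurable.ite ?_ ?_ ?_
  · have : {x : XX | ∀ j, j < n → x j = -1} = ⋂ (j : ℕ) (_ : j < n), (fun x : XX => x j) ⁻¹' {-1} := by
      ext x; simp
    rw [this]
    exact MeasurableSet.iInter fun j => MeasurableSet.iInter fun _ =>
      measurable_pi_apply j (MeasurableSet.of_discrete)
  · exact (Measurable.of_discrete (f := fun a : ZMod (kk n) => a + 1)).comp (measurable_pi_apply n)
  · exact measurable_pi_apply n

theorem measurable_odoInv : Measurable odoInv := by
  rw [measurable_pi_iff]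
  intro n
  refine Measurable.ite ?_ ?_ ?_
  · have : {x : XX | ∀ j, j < n → x j = 0} = ⋂ (j : ℕ) (_ : j < n), (fun x : XX => x j) ⁻¹' {0} := by
      ext x; simp
    rw [this]
    exact MeasurableSet.iInter fun j => MeasurableSet.iInter fun _ =>
      measurable_pi_apply j (MeasurableSet.of_discrete)
  · exact (Measurable.of_discrete (f := fun a : ZMod (kk n) => a - 1)).comp (measurable_pi_apply n)
  · exact measurable_pi_apply n

/-! ### The space `O` -/

/-- The space of good points. -/
abbrev OO : Type := goodSet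

/-- The odometer as a measurable equivalence of the space of good points. -/
def odoEquiv : OO ≃ᵐ OO where
  toFun x := ⟨odoFun x.1, goodSet_of_tailEq (tailEq_odoFun x.1 x.2) x.2⟩
  invFun x := ⟨odoInv x.1, goodSet_of_tailEq (tailEq_odoInv x.1 x.2) x.2⟩
  left_inv x := Subtype.ext (odoInv_odoFun x.1)
  right_inv x := Subtype.ext (odoFun_odoInv x.1)
  measurable_toFun := (measurable_odoFun.comp measurable_subtype_coe).subtype_mk
  measurable_invFun := (measurable_odoInv.comp measurable_subtype_coe).subtype_mk

/-- The odometer as a permutation. -/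
def odoPerm : Equiv.Perm OO := odoEquiv.toEquiv

theorem odoPerm_apply (x : OO) : (odoPerm x).1 = odoFun x.1 := rfl

theorem odoPerm_inv_apply (x : OO) : (odoPerm⁻¹ x).1 = odoInv x.1 := rfl

theorem tailEq_odoPerm_zpow (k : ℤ) (x : OO) : TailEq x.1 ((odoPerm ^ k) x).1 := by
  induction k using Int.induction_on with
  | zero => exact TailEq.refl _
  | succ k ih =>
    rw [add_comm, zpow_add, zpow_one, Equiv.Perm.mul_apply]
    exact ih.trans (tailEq_odoFun _ (Subtype.prop _))
  | pred k ih =>
    rw [sub_eq_add_neg, add_comm, zpow_add, zpow_neg_one, Equiv.Perm.mul_apply]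
    exact ih.trans (tailEq_odoInv _ (Subtype.prop _))

/-- Replace the first `m` coordinates by `0`. -/
def zer (m : ℕ) (x : OO) : OO :=
  ⟨fun n => if n < m then 0 else x.1 n, goodSet_of_tailEq
    ⟨m, fun n hn => by
      show x.1 n = if n < m then 0 else x.1 n
      rw [if_neg (by omega)]⟩ x.2⟩

/-- Replace the first `m` coordinates by `a` and the next one by `i`. -/
def wpt (a : XX) (m i : ℕ) (x : OO) : OO :=
  ⟨fun n => if n < m then a n else if n = m then ((i : ℕ) : ZMod (kk n)) else x.1 n,
    goodSet_of_tailEq ⟨m + 1, fun n hn => by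
      show x.1 n = if n < m then a n else if n = m then ((i : ℕ) : ZMod (kk n)) else x.1 n
      rw [if_neg (by omega), if_neg (by omega)]⟩ x.2⟩

theorem zer_wpt (a : XX) (m i : ℕ) (x : OO) : zer m (wpt a m i x) = wpt 0 m i x := by
  apply Subtype.ext
  funext n
  show (if n < m then 0 else if n < m then a n else if n = m then ((i : ℕ) : ZMod (kk n)) else x.1 n)
    = if n < m then (0 : XX) n else if n = m then ((i : ℕ) : ZMod (kk n)) else x.1 n
  split_ifs <;> rfl

theorem natCast_ne_neg_one (m i : ℕ) (hi : i + 1 < kk m) : ((i : ℕ) : ZMod (kk m)) ≠ -1 := by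
  intro h
  have h1 : ((i + 1 : ℕ) : ZMod (kk m)) = 0 := by
    rw [Nat.cast_add, h, Nat.cast_one, neg_add_cancel]
  rw [ZMod.natCast_eq_zero_iff] at h1
  exact absurd (Nat.le_of_dvd (by omega) h1) (by omega)

theorem odo_wpt (m i : ℕ) (hi : i + 1 < kk m) (x : OO) :
    odoPerm (wpt (-1) m i x) = wpt 0 m (i + 1) x := by
  apply Subtype.ext
  funext n
  rw [odoPerm_apply]
  have hu : ∀ j, j < m → (wpt (-1) m i x).1 j = -1 := by
    intro j hj
    show (if j < m then (-1 : XX) j else _) = -1
    rw [if_pos hj]; rfl
  have hm : (wpt (-1) m i x).1 m = ((i : ℕ) : ZMod (kk m)) := by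
    show (if m < m then (-1 : XX) m else if m = m then ((i : ℕ) : ZMod (kk m)) else x.1 m) = _
    rw [if_neg (lt_irrefl m), if_pos rfl]
  show odoFun (wpt (-1) m i x).1 n
    = if n < m then (0 : XX) n else if n = m then ((i + 1 : ℕ) : ZMod (kk n)) else x.1 n
  rcases lt_trichotomy n m with h | h | h
  · rw [if_pos h, odoFun, if_pos (fun j hj => hu j (hj.trans h)), hu n h]
    simp
  · subst h
    rw [if_neg (lt_irrefl n), if_pos rfl, odoFun, if_pos hu, hm]
    simp
  · rw [if_neg (by omega), if_neg (by omega), odoFun, if_neg]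
    · show (if n < m then (-1 : XX) n else if n = m then ((i : ℕ) : ZMod (kk n)) else x.1 n) = x.1 n
      rw [if_neg (by omega), if_neg (by omega)]
    · intro hall
      have := hall m h
      rw [hm] at this
      exact natCast_ne_neg_one m i hi this

theorem exists_pow_zer (m : ℕ) : ∀ x : OO, ∃ k : ℕ, (odoPerm ^ k) (zer m x) = x := by
  induction m with
  | zero =>
    intro x
    refine ⟨0, Subtype.ext ?_⟩
    funext n
    show (if n < 0 then 0 else x.1 n) = x.1 n
    rw [if_neg (by omega)]
  | succ m ih =>
    intro x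
    have hz : zer (m + 1) x = wpt 0 m 0 x := by
      apply Subtype.ext
      funext n
      show (if n < m + 1 then 0 else x.1 n)
        = if n < m then (0 : XX) n else if n = m then ((0 : ℕ) : ZMod (kk n)) else x.1 n
      rcases lt_trichotomy n m with h | h | h
      · rw [if_pos (by omega), if_pos h]; rfl
      · rw [if_pos (by omega), if_neg (by omega), if_pos h]; simp
      · rw [if_neg (by omega), if_neg (by omega), if_neg (by omega)]
    have hstep : ∀ i : ℕ, i < kk m → ∃ k : ℕ, (odoPerm ^ k) (zer (m + 1) x) = wpt 0 m i x := by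
      intro i
      induction i with
      | zero => intro _; exact ⟨0, by rw [hz]; rfl⟩
      | succ i ihi =>
        intro hi
        obtain ⟨k, hk⟩ := ihi (by omega)
        obtain ⟨k', hk'⟩ := ih (wpt (-1) m i x)
        rw [zer_wpt] at hk'
        refine ⟨1 + (k' + k), ?_⟩
        rw [pow_add, pow_add, Equiv.Perm.mul_apply, Equiv.Perm.mul_apply, hk, hk', pow_one,
          odo_wpt m i hi]
    obtain ⟨k, hk⟩ := hstep (x.1 m).val (ZMod.val_lt _)
    obtain ⟨k', hk'⟩ := ih x
    have hw : wpt 0 m (x.1 m).val x = zer m x := by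
      apply Subtype.ext
      funext n
      show (if n < m then (0 : XX) n else if n = m then (((x.1 m).val : ℕ) : ZMod (kk n))
        else x.1 n) = if n < m then 0 else x.1 n
      rcases lt_trichotomy n m with h | h | h
      · rw [if_pos h, if_pos h]; rfl
      · subst h
        rw [if_neg (by omega), if_pos rfl, if_neg (by omega)]
        exact ZMod.natCast_zmod_val _
      · rw [if_neg (by omega), if_neg (by omega), if_neg (by omega)]
    refine ⟨k' + k, ?_⟩
    rw [pow_add, Equiv.Perm.mul_apply, hk, hw, hk']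

theorem exists_zpow_iff (x y : OO) : (∃ k : ℤ, (odoPerm ^ k) x = y) ↔ TailEq x.1 y.1 := by
  constructor
  · rintro ⟨k, rfl⟩
    exact tailEq_odoPerm_zpow k x
  · rintro ⟨m, hm⟩
    have hz : zer m x = zer m y := by
      apply Subtype.ext
      funext n
      show (if n < m then 0 else x.1 n) = if n < m then 0 else y.1 n
      split_ifs with h
      · rfl
      · exact hm n (by omega)
    obtain ⟨k, hk⟩ := exists_pow_zer m x
    obtain ⟨k', hk'⟩ := exists_pow_zer m y
    refine ⟨(k' : ℤ) - k, ?_⟩
    rw [sub_eq_add_neg, zpow_add, Equiv.Perm.mul_apply, zpow_neg, zpow_natCast, zpow_natCast]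
    have h1 : (odoPerm ^ k)⁻¹ x = zer m x := by
      rw [Equiv.Perm.inv_eq_iff_eq, hk]
    rw [h1, hz, hk']

/-- The action of `DD` by translations. -/
@[reducible] def actDD : MulAction DD OO where
  smul d x := ⟨fun n => (Multiplicative.toAdd d) n + x.1 n,
    goodSet_of_tailEq ((tailEq_iff _ _).2 ⟨d, fun _ => rfl⟩) x.2⟩
  one_smul x := Subtype.ext (funext fun n => by
    show (Multiplicative.toAdd (1 : DD)) n + x.1 n = x.1 n
    simp)
  mul_smul d e x := Subtype.ext (funext fun n => by
    show (Multiplicative.toAdd (d * e)) n + x.1 n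
      = (Multiplicative.toAdd d) n + ((Multiplicative.toAdd e) n + x.1 n)
    simp [add_assoc])

/-- The action of `ℤ` by powers of the odometer. -/
@[reducible] def actZZ : MulAction (Multiplicative ℤ) OO :=
  MulAction.compHom OO (zpowersHom (Equiv.Perm OO) odoPerm)

theorem infinite_DD : Infinite DD := by
  classical
  refine Infinite.of_injective
    (fun n : ℕ => (Multiplicative.ofAdd (DFinsupp.single n (1 : ZMod (kk n))) : DD)) ?_
  intro n m h
  by_contra hne
  have h1 := congrArg (fun d : DD => (Multiplicative.toAdd d) n) h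
  simp only [toAdd_ofAdd] at h1
  rw [DFinsupp.single_eq_same, DFinsupp.single_eq_of_ne (by exact hne)] at h1
  have : Fact (1 < kk n) := ⟨by unfold kk; omega⟩
  exact one_ne_zero h1

theorem exists_odometer : ∃ (O : Type) (_ : MeasurableSpace O) (_ : StandardBorelSpace O)
    (μ : Measure O) (_ : IsProbabilityMeasure μ) (_ : MulAction DD O)
    (_ : MulAction (Multiplicative ℤ) O) (κ : O → Sgn),
    IsFreePmp DD O μ ∧ IsFreePmp (Multiplicative ℤ) O μ ∧
    (∀ x y : O, (∃ d : DD, d • x = y) ↔ ∃ k : Multiplicative ℤ, k • x = y) ∧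
    Measurable κ ∧ (∀ (d : DD) (x : O), κ (d • x) = parityD d * κ x) := by
  classical
  have hme : MeasurableEmbedding (Subtype.val : OO → XX) :=
    MeasurableEmbedding.subtype_coe measurableSet_goodSet
  have hprob : IsProbabilityMeasure (haarXX.comap (Subtype.val : OO → XX)) := by
    refine ⟨?_⟩
    rw [hme.comap_apply, Set.image_univ, Subtype.range_coe]
    have h1 : haarXX goodSet + haarXX goodSetᶜ = 1 := by
      rw [measure_add_measure_compl measurableSet_goodSet, haarXX_univ]
    rwa [haarXX_compl_goodSet, add_zero] at h1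
  let iD := actDD
  let iZ := actZZ
  have hsD : ∀ (d : DD) (x : OO) (n : ℕ), (d • x).1 n = (Multiplicative.toAdd d) n + x.1 n :=
    fun _ _ _ => rfl
  have hsZ : ∀ (k : Multiplicative ℤ) (x : OO), k • x = (odoPerm ^ (Multiplicative.toAdd k)) x :=
    fun _ _ => rfl
  have hDtail : ∀ x y : OO, (∃ d : DD, d • x = y) ↔ TailEq x.1 y.1 := by
    intro x y
    rw [tailEq_iff]
    constructor
    · rintro ⟨d, rfl⟩
      exact ⟨d, fun _ => rfl⟩
    · rintro ⟨d, hd⟩
      exact ⟨d, Subtype.ext (funext hd)⟩
  have hDZ : ∀ x y : OO, (∃ d : DD, d • x = y) ↔ ∃ k : Multiplicative ℤ, k • x = y := by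
    intro x y
    rw [hDtail, ← exists_zpow_iff]
    constructor
    · rintro ⟨k, hk⟩
      exact ⟨Multiplicative.ofAdd k, hk⟩
    · rintro ⟨k, hk⟩
      exact ⟨Multiplicative.toAdd k, hk⟩
  have hDfree : ∀ (d : DD) (x : OO), d • x = x → d = 1 := by
    intro d x h
    apply DD.ext
    intro n
    have h1 : (d • x).1 n = x.1 n := congrArg (fun y : OO => y.1 n) h
    rw [hsD] at h1
    have h2 : (Multiplicative.toAdd d) n = 0 := by simpa using h1
    rw [h2]
    simp
  have hDmp : ∀ d : DD, MeasurePreserving (fun x : OO => d • x)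
      (haarXX.comap (Subtype.val : OO → XX)) (haarXX.comap (Subtype.val : OO → XX)) := by
    intro d
    let c : XX := fun n => (Multiplicative.toAdd d) n
    have hT : MeasurePreserving (fun x : XX => c + x) haarXX haarXX :=
      measurePreserving_add_left haarXX c
    have hTS : ∀ x, x ∈ goodSet ↔ c + x ∈ goodSet := by
      intro x
      have ht : TailEq x (c + x) := (tailEq_iff _ _).2 ⟨d, fun _ => rfl⟩
      exact ⟨goodSet_of_tailEq ht, goodSet_of_tailEq ht.symm⟩
    exact measurePreserving_sub measurableSet_goodSet hT hTS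
  have hTmp : MeasurePreserving odoEquiv
      (haarXX.comap (Subtype.val : OO → XX)) (haarXX.comap (Subtype.val : OO → XX)) := by
    have : StandardBorelSpace OO := measurableSet_goodSet.standardBorel
    refine measurePreserving_of_orbit (G := DD) _ hDmp odoEquiv fun x => ?_
    obtain ⟨d, hd⟩ := (hDtail x (odoEquiv x)).2 (tailEq_odoFun x.1 x.2)
    exact ⟨d, hd.symm⟩
  have hTimp : MeasurePreserving odoEquiv.symm
      (haarXX.comap (Subtype.val : OO → XX)) (haarXX.comap (Subtype.val : OO → XX)) :=
    hTmp.symm odoEquiv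
  have hZmp : ∀ k : ℤ, MeasurePreserving (fun x : OO => (odoPerm ^ k) x)
      (haarXX.comap (Subtype.val : OO → XX)) (haarXX.comap (Subtype.val : OO → XX)) := by
    intro k
    induction k using Int.induction_on with
    | zero => exact MeasurePreserving.id _
    | succ k ih =>
      have : (fun x : OO => (odoPerm ^ ((k : ℤ) + 1)) x)
          = (odoEquiv : OO → OO) ∘ (fun x : OO => (odoPerm ^ (k : ℤ)) x) := by
        funext x
        rw [add_comm, zpow_add, zpow_one, Equiv.Perm.mul_apply]
        rfl
      rw [this]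
      exact hTmp.comp ih
    | pred k ih =>
      have : (fun x : OO => (odoPerm ^ (-(k : ℤ) - 1)) x)
          = (odoEquiv.symm : OO → OO) ∘ (fun x : OO => (odoPerm ^ (-(k : ℤ))) x) := by
        funext x
        rw [sub_eq_add_neg, add_comm, zpow_add, zpow_neg_one, Equiv.Perm.mul_apply]
        rfl
      rw [this]
      exact hTimp.comp ih
  have hZfree : ∀ (k : Multiplicative ℤ) (x : OO), k • x = x → k = 1 := by
    intro k x h
    by_contra hk
    have hk0 : Multiplicative.toAdd k ≠ 0 := fun h0 => hk (Multiplicative.toAdd.injective h0)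
    rw [hsZ] at h
    set j : ℤ := Multiplicative.toAdd k with hj
    -- the orbit is finite
    have hmod : ∀ l : ℤ, (odoPerm ^ l) x = (odoPerm ^ (l % j)) x := by
      intro l
      have h1 : ∀ q : ℤ, ((odoPerm ^ j) ^ q) x = x := by
        intro q
        exact Equiv.Perm.zpow_apply_eq_self_of_apply_eq_self h q
      conv_lhs => rw [← Int.emod_add_mul_ediv l j, zpow_add, zpow_mul, Equiv.Perm.mul_apply, h1]
    have hfin : (Set.range (fun l : ℤ => (odoPerm ^ l) x)).Finite := by
      have : Set.range (fun l : ℤ => (odoPerm ^ l) x) ⊆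
          (fun l : ℤ => (odoPerm ^ l) x) '' (Set.Icc 0 |j|) := by
        rintro y ⟨l, rfl⟩
        refine ⟨l % j, ⟨Int.emod_nonneg _ hk0, (Int.emod_lt_abs l hk0).le⟩, ?_⟩
        exact (hmod l).symm
      exact ((Set.finite_Icc 0 |j|).image _).subset this
    have hinj : Function.Injective (fun d : DD => d • x) := by
      intro d e hde
      have h1 : (e⁻¹ * d) • x = x := by
        rw [mul_smul]
        have : d • x = e • x := hde
        rw [this, inv_smul_smul]
      have h2 := hDfree _ _ h1
      calc d = e * (e⁻¹ * d) := by group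
        _ = e := by rw [h2, mul_one]
    have hinf : (Set.range (fun d : DD => d • x)).Infinite := by
      have := infinite_DD
      exact Set.infinite_range_of_injective hinj
    apply hinf
    refine hfin.subset ?_
    rintro y ⟨d, rfl⟩
    obtain ⟨l, hl⟩ := (hDZ x (d • x)).1 ⟨d, rfl⟩
    exact ⟨Multiplicative.toAdd l, hl⟩
  refine ⟨OO, inferInstance, measurableSet_goodSet.standardBorel,
    haarXX.comap (Subtype.val : OO → XX), hprob, iD, iZ, fun x => paritySeq x.1, ⟨hDmp, hDfree⟩,
    ⟨fun k => ?_, hZfree⟩, hDZ, ?_, ?_⟩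
  · exact hZmp (Multiplicative.toAdd k)
  · rw [measurable_pi_iff]
    intro n
    exact (Measurable.of_discrete (f := fun a : ZMod (kk n) => (parity n a).toMul)).comp
      ((measurable_pi_apply n).comp measurable_subtype_coe)
  · intro d x
    funext n
    show (parity n ((Multiplicative.toAdd d) n + x.1 n)).toMul = _
    rw [map_add]
    rfl

end MP6c9f91
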