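import Pool.Agent.MP6c9f91.GYDefs

/-!
# T1: the Peter-Weyl lemma
-/

open Topology Filter Pointwise MeasureTheory
open scoped RealInnerProductSpace ENNReal BoundedContinuousFunction

universe u

namespace GY

namespace PW

section cpt

variable {X : Type*} [TopologicalSpace X] [CompactSpace X] {E : Type*} [NormedAddCommGroup E]
  [InnerProductSpace ℝ E]

/-- The operator with kernel `k`. -/
noncomputable def opC (k : C(X, E)) : E →L[ℝ] (X →ᵇ ℝ) :=
  LinearMap.mkContinuous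
    { toFun := fun ψ => BoundedContinuousFunction.mkOfCompact ⟨fun x => ⟪k x, ψ⟫, by fun_prop⟩
      map_add' := by
        intro a b
        ext x
        simp [inner_add_right]
      map_smul' := by
        intro c a
        ext x
        simp [inner_smul_right] } ‖k‖ (by
      intro ψ
      rw [BoundedContinuousFunction.norm_le (by positivity)]
      intro x
      calc ‖(⟪k x, ψ⟫ : ℝ)‖ ≤ ‖k x‖ * ‖ψ‖ := norm_inner_le_norm _ _
        _ ≤ ‖k‖ * ‖ψ‖ := by gcongr; exact k.norm_coe_le_norm x)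

theorem opC_apply (k : C(X, E)) (ψ : E) (x : X) : opC k ψ x = ⟪k x, ψ⟫ := rfl

theorem isCompactOperator_opC (k : C(X, E)) : IsCompactOperator (opC k) := by
  refine (isCompactOperator_iff_isCompact_closure_image_closedBall (𝕜₁ := ℝ) (𝕜₂ := ℝ)
    ((opC k : E →L[ℝ] (X →ᵇ ℝ)) : E →ₗ[ℝ] (X →ᵇ ℝ)) one_pos).mpr ?_
  apply BoundedContinuousFunction.arzela_ascoli (Metric.closedBall (0 : ℝ) ‖k‖)
    (isCompact_closedBall _ _)
  · rintro _ x ⟨ψ, hψ, rfl⟩
    rw [mem_closedBall_zero_iff] at hψ ⊢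
    calc ‖(⟪k x, ψ⟫ : ℝ)‖ ≤ ‖k x‖ * ‖ψ‖ := norm_inner_le_norm _ _
        _ ≤ ‖k‖ * 1 := by gcongr; exact k.norm_coe_le_norm x
        _ = ‖k‖ := mul_one _
  · intro x₀
    rw [Metric.equicontinuousAt_iff_right]
    intro ε hε
    have h1 : Tendsto (fun x => ‖k x₀ - k x‖) (𝓝 x₀) (𝓝 0) := by
      have : Continuous fun x => ‖k x₀ - k x‖ := by fun_prop
      simpa using this.tendsto x₀
    filter_upwards [h1.eventually (gt_mem_nhds hε)] with x hx
    rintro ⟨_, ψ, hψ, rfl⟩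
    rw [mem_closedBall_zero_iff] at hψ
    change dist (⟪k x₀, ψ⟫ : ℝ) ⟪k x, ψ⟫ < ε
    rw [dist_eq_norm, ← inner_sub_left]
    calc ‖(⟪k x₀ - k x, ψ⟫ : ℝ)‖ ≤ ‖k x₀ - k x‖ * ‖ψ‖ := norm_inner_le_norm _ _
        _ ≤ ‖k x₀ - k x‖ * 1 := by gcongr
        _ < ε := by rwa [mul_one]

end cpt

section kernel

variable {H : Type u} [Group H] [TopologicalSpace H] [IsTopologicalGroup H] [T2Space H]
  [CompactSpace H] [MeasurableSpace H] [BorelSpace H] (μ : Measure H) [μ.IsHaarMeasure]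
  [μ.Regular]

/-- kernel vectors -/
noncomputable def kv (f : C(H, ℝ)) : C(H, Lp ℝ 2 μ) :=
  (⟨fun a => ContinuousMap.toLp 2 μ ℝ a, (ContinuousMap.toLp 2 μ ℝ).continuous⟩ :
      C(C(H, ℝ), Lp ℝ 2 μ)).comp
    (ContinuousMap.curry ⟨fun p : H × H => f (p.1⁻¹ * p.2), by fun_prop⟩)

theorem kv_apply (f : C(H, ℝ)) (x : H) : kv μ f x = ContinuousMap.toLp 2 μ ℝ
    ⟨fun y => f (x⁻¹ * y), by fun_prop⟩ := rfl

/-- The convolution operator. -/
noncomputable def T (f : C(H, ℝ)) : Lp ℝ 2 μ →L[ℝ] Lp ℝ 2 μ :=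
  (BoundedContinuousFunction.toLp 2 μ ℝ).comp (opC (kv μ f))

theorem isCompactOperator_T (f : C(H, ℝ)) : IsCompactOperator (T μ f) :=
  (isCompactOperator_opC (kv μ f)).clm_comp (BoundedContinuousFunction.toLp 2 μ ℝ)

theorem T_symm_aux (f : C(H, ℝ)) (a b : C(H, ℝ)) :
    ⟪T μ f (ContinuousMap.toLp 2 μ ℝ a), ContinuousMap.toLp 2 μ ℝ b⟫ =
      ∫ x, ∫ y, b x * (a y * f (x⁻¹ * y)) ∂μ ∂μ := by
  have h1 : T μ f (ContinuousMap.toLp 2 μ ℝ a) = ContinuousMap.toLp 2 μ ℝ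
      (opC (kv μ f) (ContinuousMap.toLp 2 μ ℝ a)).toContinuousMap := rfl
  rw [h1, ContinuousMap.inner_toLp]
  congr 1
  ext x
  rw [integral_const_mul]
  congr 1
  simp only [conj_trivial]
  change ⟪kv μ f x, _⟫ = _
  rw [kv_apply, ContinuousMap.inner_toLp]
  simp

theorem T_symm (f : C(H, ℝ)) (hf : ∀ x, f x⁻¹ = f x) : (T μ f : Lp ℝ 2 μ →ₗ[ℝ] Lp ℝ 2 μ).IsSymmetric := by
  intro ψ χ
  have hd : DenseRange (ContinuousMap.toLp 2 μ ℝ : C(H, ℝ) →L[ℝ] Lp ℝ 2 μ) :=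
    ContinuousMap.toLp_denseRange ℝ μ ℝ (by norm_num)
  refine hd.induction_on₂ (p := fun ψ χ => ⟪T μ f ψ, χ⟫ = ⟪ψ, T μ f χ⟫) ?_ ?_ ψ χ
  · apply isClosed_eq <;> fun_prop
  · intro a b
    rw [T_symm_aux μ f, real_inner_comm, T_symm_aux μ f,
      integral_integral_swap_of_hasCompactSupport]
    · congr 1
      ext x
      congr 1
      ext y
      have : f (y⁻¹ * x) = f (x⁻¹ * y) := by
        rw [← hf]; congr 1; group
      rw [this]; ring
    · fun_prop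
    · exact HasCompactSupport.of_compactSpace _

/-- The left regular representation. -/
noncomputable def rho (g : H) : Lp ℝ 2 μ →L[ℝ] Lp ℝ 2 μ :=
  LinearMap.mkContinuous
    { toFun := fun ψ => DomMulAct.mk g⁻¹ • ψ
      map_add' := fun a b => smul_add _ a b
      map_smul' := fun c a => smul_comm _ _ _ } 1 (by
      intro ψ
      rw [one_mul]
      exact (DomMulAct.norm_smul_Lp (DomMulAct.mk g⁻¹) ψ).le)

theorem rho_apply (g : H) (ψ : Lp ℝ 2 μ) : rho μ g ψ = DomMulAct.mk g⁻¹ • ψ := rfl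

theorem rho_one : rho μ (1 : H) = 1 := by
  ext1 ψ
  rw [rho_apply, inv_one, DomMulAct.mk_one, one_smul]
  rfl

theorem rho_mul (g h : H) : rho μ (g * h) = rho μ g * rho μ h := by
  ext1 ψ
  change _ = rho μ g (rho μ h ψ)
  rw [rho_apply, rho_apply, rho_apply, ← mul_smul, mul_inv_rev, DomMulAct.mk_mul]

theorem continuous_rho (ψ : Lp ℝ 2 μ) : Continuous fun g : H => rho μ g ψ := by
  simp only [rho_apply]
  have h1 : Continuous fun g : H => DomMulAct.mk g⁻¹ :=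
    DomMulAct.continuous_mk.comp continuous_inv
  haveI : Fact ((2 : ℝ≥0∞) ≠ ∞) := ⟨by norm_num⟩
  exact h1.smul continuous_const

theorem rho_toLp (g : H) (a : C(H, ℝ)) : rho μ g (ContinuousMap.toLp 2 μ ℝ a) =
    ContinuousMap.toLp 2 μ ℝ ⟨fun y => a (g⁻¹ * y), by fun_prop⟩ := rfl

theorem inner_rho (g : H) (ψ χ : Lp ℝ 2 μ) : ⟪rho μ g ψ, rho μ g χ⟫ = (⟪ψ, χ⟫ : ℝ) := by
  have h1 : ∀ ψ, ‖rho μ g ψ‖ = ‖ψ‖ := fun ψ => DomMulAct.norm_smul_Lp (DomMulAct.mk g⁻¹) ψ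
  rw [real_inner_eq_norm_add_mul_self_sub_norm_mul_self_sub_norm_mul_self_div_two,
    real_inner_eq_norm_add_mul_self_sub_norm_mul_self_sub_norm_mul_self_div_two, ← map_add, h1, h1,
    h1]

theorem kv_inner_rho (f : C(H, ℝ)) (g x : H) (ψ : Lp ℝ 2 μ) :
    ⟪kv μ f x, rho μ g ψ⟫ = (⟪kv μ f (g⁻¹ * x), ψ⟫ : ℝ) := by
  rw [← inner_rho μ g⁻¹]
  have h1 : rho μ g⁻¹ (rho μ g ψ) = ψ := by
    change (rho μ g⁻¹ * rho μ g) ψ = ψ
    rw [← rho_mul, inv_mul_cancel, rho_one]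
    rfl
  have h2 : rho μ g⁻¹ (kv μ f x) = kv μ f (g⁻¹ * x) := by
    rw [kv_apply, kv_apply, rho_toLp]
    congr 1
    ext y
    simp [mul_assoc]
  rw [h1, h2]

theorem T_rho (f : C(H, ℝ)) (g : H) (ψ : Lp ℝ 2 μ) : T μ f (rho μ g ψ) = rho μ g (T μ f ψ) := by
  have h1 : T μ f ψ = ContinuousMap.toLp 2 μ ℝ (opC (kv μ f) ψ).toContinuousMap := rfl
  have h2 : T μ f (rho μ g ψ) =
    ContinuousMap.toLp 2 μ ℝ (opC (kv μ f) (rho μ g ψ)).toContinuousMap := rfl
  rw [h1, h2, rho_toLp]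
  congr 1
  ext x
  exact kv_inner_rho μ f g x ψ

/-- The key fact: some eigenspace of a nonzero eigenvalue is not fixed by `g`. -/
theorem exists_eigen (f : C(H, ℝ)) (hf : ∀ x, f x⁻¹ = f x) (g : H) (hg : f g ≠ f 1) :
    ∃ lam : ℝ, lam ≠ 0 ∧ ∃ v ∈ Module.End.eigenspace (T μ f : Module.End ℝ (Lp ℝ 2 μ)) lam,
      rho μ g v ≠ v := by
  by_contra hcon
  push Not at hcon
  apply hg
  -- rho g T = T
  have h1 : ∀ ψ, rho μ g (T μ f ψ) = T μ f ψ := by
    have hort := ContinuousLinearMap.orthogonalComplement_iSup_eigenspaces_eq_bot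
      (isCompactOperator_T μ f) (T_symm μ f hf)
    rw [← Submodule.topologicalClosure_eq_top_iff] at hort
    intro ψ
    have h2 : ψ ∈ (⨆ lam, Module.End.eigenspace (T μ f : Module.End ℝ (Lp ℝ 2 μ)) lam :
        Submodule ℝ (Lp ℝ 2 μ)).topologicalClosure := by
      rw [hort]; trivial
    let Z : Submodule ℝ (Lp ℝ 2 μ) :=
      LinearMap.ker (((rho μ g).comp (T μ f) - T μ f : Lp ℝ 2 μ →L[ℝ] Lp ℝ 2 μ) :
        Lp ℝ 2 μ →ₗ[ℝ] Lp ℝ 2 μ)
    have hZ : IsClosed (Z : Set (Lp ℝ 2 μ)) :=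
      ContinuousLinearMap.isClosed_ker ((rho μ g).comp (T μ f) - T μ f)
    have h3 : (⨆ lam, Module.End.eigenspace (T μ f : Module.End ℝ (Lp ℝ 2 μ)) lam :
        Submodule ℝ (Lp ℝ 2 μ)) ≤ Z := by
      apply iSup_le
      intro lam v hv
      rw [LinearMap.mem_ker]
      have hTv : T μ f v = lam • v := Module.End.mem_eigenspace_iff.1 hv
      change rho μ g (T μ f v) - T μ f v = 0
      rw [hTv, map_smul]
      by_cases hl : lam = 0
      · simp [hl]
      · rw [hcon lam hl v hv, sub_self]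
    have h4 : ψ ∈ Z := (Submodule.topologicalClosure_minimal _ h3 hZ) h2
    have h5 : rho μ g (T μ f ψ) - T μ f ψ = 0 := h4
    exact sub_eq_zero.1 h5
  have h2 : ∀ x, kv μ f (g⁻¹ * x) = kv μ f x := by
    intro x
    apply ext_inner_right ℝ
    intro ψ
    have h3 := h1 ψ
    have h4 : T μ f ψ = ContinuousMap.toLp 2 μ ℝ (opC (kv μ f) ψ).toContinuousMap := rfl
    rw [h4, rho_toLp] at h3
    have h5 := ContinuousMap.toLp_injective μ h3
    exact DFunLike.congr_fun h5 x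
  have h3 := ContinuousMap.toLp_injective μ (h2 1)
  have h4 := DFunLike.congr_fun h3 1
  simpa using h4

end kernel

end PW

section T1

variable (H : Type u) [Group H] [TopologicalSpace H] [IsTopologicalGroup H] [T2Space H]
  [CompactSpace H]

open PW in
theorem exists_rep_ne_one' (g : H) (hg : g ≠ 1) :
    ∃ (A : Type u) (_ : NormedRing A) (_ : NormedAlgebra ℝ A) (π : H →* Aˣ),
      Continuous (fun h => (π h : A)) ∧ π g ≠ 1 := by
  borelize H
  let μ : Measure H := Measure.haar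
  obtain ⟨F, hF0, hF1, -⟩ := exists_continuous_zero_one_of_isClosed (isClosed_singleton (x := g))
    (isClosed_singleton (x := (1 : H))) (Set.disjoint_singleton.2 hg)
  let f : C(H, ℝ) := ⟨fun x => F x * F x⁻¹, by fun_prop⟩
  have hf : ∀ x, f x⁻¹ = f x := by
    intro x
    simp [f, mul_comm]
  have hfg : f g ≠ f 1 := by
    have h1 : F g = 0 := hF0 rfl
    have h2 : F 1 = 1 := hF1 rfl
    simp [f, h1, h2]
  obtain ⟨lam, hlam, v, hv, hne⟩ := exists_eigen μ f hf g hfg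
  let E := Module.End.eigenspace (T μ f : Module.End ℝ (Lp ℝ 2 μ)) lam
  haveI : FiniteDimensional ℝ E :=
    ContinuousLinearMap.finite_dimensional_eigenspace (isCompactOperator_T μ f) lam hlam
  have hinv : ∀ (h : H) (x : Lp ℝ 2 μ), x ∈ E → rho μ h x ∈ E := by
    intro h x hx
    have h1 : T μ f x = lam • x := Module.End.mem_eigenspace_iff.1 hx
    apply Module.End.mem_eigenspace_iff.2
    change T μ f (rho μ h x) = lam • rho μ h x
    rw [T_rho, h1, map_smul]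
  let r : H →* (E →L[ℝ] E) :=
    { toFun := fun h => (rho μ h).restrict (fun x hx => hinv h x hx)
      map_one' := by
        ext x
        simp [rho_one]
      map_mul' := by
        intro a b
        ext x
        simp [rho_mul] }
  refine ⟨E →L[ℝ] E, inferInstance, inferInstance, r.toHomUnits, ?_, ?_⟩
  · simp only [MonoidHom.coe_toHomUnits]
    rw [continuous_clm_apply]
    intro y
    apply Continuous.subtype_mk (continuous_rho μ (y : Lp ℝ 2 μ))
  · intro hcon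
    apply hne
    have h1 : r g = 1 := by
      rw [← MonoidHom.coe_toHomUnits, hcon]
      rfl
    have h2 := DFunLike.congr_fun h1 ⟨v, hv⟩
    exact congrArg Subtype.val h2

theorem exists_rep_ne_one (O : Set H) (hO : O ∈ 𝓝 (1 : H)) (g : H) (hg : g ∉ O) :
    ∃ (A : Type u) (_ : NormedRing A) (π : H →* Aˣ),
      Continuous (fun h => (π h : A)) ∧ π g ≠ 1 := by
  have h1 : g ≠ 1 := by
    rintro rfl
    exact hg (mem_of_mem_nhds hO)
  obtain ⟨A, i1, _, π, h2, h3⟩ := exists_rep_ne_one' H g h1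
  exact ⟨A, i1, π, h2, h3⟩

theorem PW.eq_one_of_small {A : Type*} [NormedRing A] [NormedAlgebra ℝ A] (S : Subgroup Aˣ)
    (hS : ∀ a ∈ S, ‖(a : A) - 1‖ ≤ 1 / 3) (a : Aˣ) (ha : a ∈ S) : a = 1 := by
  by_contra hne
  have hx : 0 < ‖(a : A) - 1‖ := by
    rw [norm_pos_iff, sub_ne_zero]
    intro h
    exact hne (Units.ext h)
  have key : ∀ b ∈ S, (5 / 3 : ℝ) * ‖(b : A) - 1‖ ≤ ‖((b ^ 2 : Aˣ) : A) - 1‖ := by
    intro b hb
    have h1 : ((b ^ 2 : Aˣ) : A) - 1 = (2 : ℝ) • ((b : A) - 1) + ((b : A) - 1) * ((b : A) - 1) := by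
      rw [two_smul, Units.val_pow_eq_pow_val]
      noncomm_ring
    have h2 : ‖(2 : ℝ) • ((b : A) - 1)‖ = 2 * ‖(b : A) - 1‖ := by
      rw [norm_smul]; norm_num
    have h3 : ‖((b : A) - 1) * ((b : A) - 1)‖ ≤ ‖(b : A) - 1‖ * ‖(b : A) - 1‖ := norm_mul_le _ _
    have h4 : ‖(2 : ℝ) • ((b : A) - 1)‖ ≤ ‖((b ^ 2 : Aˣ) : A) - 1‖ +
        ‖((b : A) - 1) * ((b : A) - 1)‖ := by
      have : (2 : ℝ) • ((b : A) - 1) = (((b ^ 2 : Aˣ) : A) - 1) - ((b : A) - 1) * ((b : A) - 1) := by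
        rw [h1]; abel
      rw [this]
      exact norm_sub_le _ _
    have h5 := hS b hb
    have h6 := norm_nonneg ((b : A) - 1)
    nlinarith
  have h1 : ∀ n : ℕ, (5 / 3 : ℝ) ^ n * ‖(a : A) - 1‖ ≤ ‖((a ^ (2 ^ n) : Aˣ) : A) - 1‖ := by
    intro n
    induction n with
    | zero => simp
    | succ n ih =>
      have h2 := key (a ^ (2 ^ n)) (S.pow_mem ha _)
      rw [← pow_mul, ← pow_succ] at h2
      calc (5 / 3 : ℝ) ^ (n + 1) * ‖(a : A) - 1‖ = 5 / 3 * ((5 / 3 : ℝ) ^ n * ‖(a : A) - 1‖) := by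
            ring
        _ ≤ 5 / 3 * ‖((a ^ (2 ^ n) : Aˣ) : A) - 1‖ := by gcongr
        _ ≤ _ := h2
  obtain ⟨n, hn⟩ := pow_unbounded_of_one_lt (1 / 3 / ‖(a : A) - 1‖) (by norm_num : (1 : ℝ) < 5 / 3)
  have h2 := h1 n
  have h3 := hS _ (S.pow_mem ha (2 ^ n))
  rw [div_lt_iff₀ hx] at hn
  linarith

theorem exists_normal_small (O : Set H) (hO : O ∈ 𝓝 (1 : H)) :
    ∃ N : Subgroup H, N.Normal ∧ IsClosed (N : Set H) ∧ (N : Set H) ⊆ O ∧
      ∃ W : Set H, IsOpen W ∧ (N : Set H) ⊆ W ∧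
        ∀ S : Subgroup H, (S : Set H) ⊆ W → S ≤ N := by
  classical
  have hne : ∀ g : ((interior O)ᶜ : Set H), (g : H) ≠ 1 := by
    rintro ⟨g, hg⟩ rfl
    exact hg (mem_interior_iff_mem_nhds.2 hO)
  choose A i1 i2 π hc hπ using fun g : ((interior O)ᶜ : Set H) => exists_rep_ne_one' H g (hne g)
  have hcomp : IsCompact ((interior O)ᶜ : Set H) := isOpen_interior.isClosed_compl.isCompact
  have hopen : ∀ g, IsOpen {h : H | π g h ≠ 1} := by
    intro g
    have : {h : H | π g h ≠ 1} = {h : H | (π g h : A g) ≠ 1} := by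
      ext h
      exact not_congr (Units.ext_iff)
    rw [this]
    exact isOpen_ne_fun (hc g) continuous_const
  obtain ⟨t, ht⟩ := hcomp.elim_finite_subcover (fun g => {h : H | π g h ≠ 1}) hopen (by
    intro g hg
    exact Set.mem_iUnion.2 ⟨⟨g, hg⟩, hπ ⟨g, hg⟩⟩)
  refine ⟨⨅ g ∈ t, (π g).ker, ?_, ?_, ?_, ⋂ g ∈ t, {h : H | ‖(π g h : A g) - 1‖ < 1 / 3}, ?_, ?_, ?_⟩
  · exact Subgroup.normal_iInf_normal fun g => Subgroup.normal_iInf_normal fun _ => inferInstance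
  · simp only [Subgroup.coe_iInf]
    refine isClosed_iInter fun g => isClosed_iInter fun _ => ?_
    have : ((π g).ker : Set H) = {h : H | π g h ≠ 1}ᶜ := by
      ext h
      simp [MonoidHom.mem_ker]
    rw [this]
    exact (hopen g).isClosed_compl
  · intro h hh
    simp only [Subgroup.coe_iInf, Set.mem_iInter] at hh
    by_contra hcon
    have h1 : h ∈ (interior O)ᶜ := fun h2 => hcon (interior_subset h2)
    obtain ⟨g, hg⟩ := Set.mem_iUnion.1 (ht h1)
    obtain ⟨hgt, hg2⟩ := Set.mem_iUnion.1 hg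
    exact hg2 (MonoidHom.mem_ker.1 (hh g hgt))
  · refine isOpen_biInter_finset fun g _ => ?_
    exact isOpen_lt ((hc g).sub continuous_const).norm continuous_const
  · intro h hh
    simp only [Subgroup.coe_iInf, Set.mem_iInter] at hh
    refine Set.mem_iInter₂.2 fun g hg => ?_
    have h1 : π g h = 1 := MonoidHom.mem_ker.1 (hh g hg)
    simp [h1]
  · intro S hS
    refine le_iInf fun g => le_iInf fun hg => ?_
    intro s hs
    rw [MonoidHom.mem_ker]
    apply PW.eq_one_of_small (S.map (π g)) _ _ (Subgroup.mem_map_of_mem _ hs)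
    rintro _ ⟨x, hx, rfl⟩
    exact (Set.mem_iInter₂.1 (hS hx) g hg).le

end T1

end GY
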